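import Pool.Agent.V8H90.HY.Cov

/-!
The number of hypersurfaces: what is needed for the final statements.
-/

set_option autoImplicit false

namespace Pool.Agent.V8H90.HY

open MvPolynomial

theorem num_b {D M L q0 : ℕ} (h : D * (M + 1) + L * q0 < (M + 1) * (L * q0)) :
    ∃ b0, 1 ≤ b0 ∧ b0 + D * (M + 1) = M * (L * q0) ∧ D < L * q0 := by
  have e : (M + 1) * (L * q0) = M * (L * q0) + L * q0 := by ring
  refine ⟨M * (L * q0) - D * (M + 1), by omega, by omega, ?_⟩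
  by_contra hcon
  push Not at hcon
  have h1 : (M + 1) * (L * q0) ≤ (M + 1) * D := Nat.mul_le_mul_left _ hcon
  rw [mul_comm (M + 1) D] at h1
  omega

/-- **General forms are good.** -/
theorem good_forms' {v q M : ℕ} {δ : Fin q → ℕ} (hv : 1 ≤ v) (hm : 1 ≤ M) (hδ : ∀ i, 1 ≤ δ i)
    (h : 2 * v * (2 * v + 1) * (M + 1) ^ 2 ≤ (M + 1 - 1) ^ 2 * (q - (2 * v + 3))) :
    ForGeneral (v := v) δ fun F => ConstF (M + 1) F ∧ ∃ (e : Fin q → ℕ) (L D q0 b0 : ℕ), 1 ≤ L ∧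
      D < L * q0 ∧ 1 ≤ b0 ∧ b0 + D * (M + 1) = M * (L * q0) ∧ GoodF F δ e L D q0 := by
  refine (good_forms hv (by omega) hδ h).mono fun F hF ⟨e, L, D, q0, h1, h2, h3⟩ => ?_
  obtain ⟨b0, h4, h5, h6⟩ := num_b h2
  exact ⟨fun f hf hnz hmul => cur_const h3 hv h1 (by omega) h2 hf hnz hmul,
    e, L, D, q0, b0, h1, h6, h4, h5, h3⟩

end Pool.Agent.V8H90.HY
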