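import Pool.Agent.V8H90.HY.Main
import Pool.Agent.V8H90.LG.Gt

/-!
Subvarieties of quasi-projective varieties over projective space, ramified over general
hypersurfaces, are of log general type.
-/

set_option autoImplicit false

namespace Pool.Agent.V8H90.HY

open FF MvPolynomial Pool.Agent.W602.GT Pool.Agent.V8H90.JT Pool.Agent.V8H90.AJ
  Pool.Agent.W601.SM Pool.Agent.W601.PH Pool.Agent.V8H90.LG
open Pool.Agent.Y191 (RF exists_base)

variable {N n : ℕ} {K : Type} [Field K] [Algebra ℂ K]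

theorem evK_inrF (z : Fin (N + 1) → K) (b : Fin (n + 1) → K) (G : MvPolynomial (Fin (n + 1)) ℂ) :
    evK z b (rename Sum.inr G) = aeval b G := by
  unfold evK
  rw [aeval_rename]
  congr 1

/-- Near the points of `X - Y` the form `G` is in the `m`-th power of an ideal of functions
which vanish at its zeros. -/
def RamAtF (m : ℕ) (G : MvPolynomial (Fin (n + 1)) ℂ) (X Y : BiSet N n) : Prop :=
  ∀ u v, QMem X Y u v → ∃ (A B : BiPoly N n) (I : Ideal (BiPoly N n)), ev2 u v A ≠ 0 ∧
    B ∈ I ^ m ∧ (∀ u' v', X.Mem u' v' → ev2 u' v' A * eval v' G = ev2 u' v' B) ∧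
    ∀ H ∈ I, ∀ u' v', X.Mem u' v' → eval v' G = 0 → ev2 u' v' H = 0

/-- The multiplicity of the form `G` of degree `δ` at the place is zero, infinite, or at least
`m`. -/
def MuF (P : Place ℂ K) (m δ : ℕ) (G : MvPolynomial (Fin (n + 1)) ℂ) (b : Fin (n + 1) → K) : Prop :=
  ∀ j0, b j0 ≠ 0 → (∀ j, b j = 0 ∨ P.ord (b j0) ≤ P.ord (b j)) →
    aeval b G = 0 ∨ P.ord (aeval b G) = δ * P.ord (b j0) ∨
      δ * P.ord (b j0) + m ≤ P.ord (aeval b G)

/-- **Multiplicities at the places with centre in `X - Y`.** -/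
theorem multF {X Y : BiSet N n} {z : Fin (N + 1) → K} {b : Fin (n + 1) → K}
    (h : ∀ P ∈ X.I, evK z b P = 0) {m δ : ℕ} {G : MvPolynomial (Fin (n + 1)) ℂ}
    (hG : G.IsHomogeneous δ) (hR : RamAtF m G X Y)
    {P : Place ℂ K} (hP : Centred Y P z b) : MuF P m δ G b := by
  obtain ⟨i0, j0, hi0, hj0, hz, hb, Q, hQD, hQ0, hQord⟩ := hP
  have hXI : ∀ A ∈ X.I, A ∈ ordIdeal P hz hb 1 := fun A hA => by
    rw [mem_ordIdeal, mem_norm h A hA]
    exact GO.zero _
  have hi : MvPolynomial.X (Sum.inl i0) - 1 ∈ ordIdeal P hz hb 1 := by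
    rw [mem_ordIdeal]
    have : evK (fun i => z i / z i0) (fun j => b j / b j0)
        (MvPolynomial.X (Sum.inl i0) - 1 : BiPoly N n) = 0 := by
      unfold evK
      rw [map_sub, aeval_X, map_one, Sum.elim_inl, div_self hi0, sub_self]
    rw [this]
    exact GO.zero _
  have hj : MvPolynomial.X (Sum.inr j0) - 1 ∈ ordIdeal P hz hb 1 := by
    rw [mem_ordIdeal]
    have : evK (fun i => z i / z i0) (fun j => b j / b j0)
        (MvPolynomial.X (Sum.inr j0) - 1 : BiPoly N n) = 0 := by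
      unfold evK
      rw [map_sub, aeval_X, map_one, Sum.elim_inr, div_self hj0, sub_self]
    rw [this]
    exact GO.zero _
  obtain ⟨u, v, h1, h2, h3⟩ := exists_pt ordIdeal_prime hXI hi hj
    (not_mem_ordIdeal.mpr ⟨hQ0, hQord⟩)
  obtain ⟨A, B, I, hA, hF, hAF, hI⟩ := hR u v ⟨h1, fun hd => h2 (hd.2.2 Q hQD)⟩
  have hA1 : A ∉ ordIdeal P hz hb 1 := fun hA1 => hA (h3 A hA1)
  rw [not_mem_ordIdeal] at hA1
  have hAF' : evK (fun i => z i / z i0) (fun j => b j / b j0) A *
      aeval (fun j => b j / b j0) G = evK (fun i => z i / z i0) (fun j => b j / b j0) B := by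
    have h4 := vanish h hi0 hj0 (p := A * rename Sum.inr G - B) (fun u' v' h' => by
      have h5 := hAF u' v' h'
      have h6 : ev2 u' v' (A * rename Sum.inr G - B) =
          ev2 u' v' A * ev2 u' v' (rename Sum.inr G) - ev2 u' v' B := by
        unfold ev2
        rw [map_sub, map_mul]
      rw [h6, ev2_inr, h5, sub_self])
    rw [evK_sub, evK_mul, evK_inrF] at h4
    exact sub_eq_zero.mp h4
  have hby : b = fun j => b j0 * (b j / b j0) := by
    funext j
    field_simp
  have hlf : aeval b G = b j0 ^ δ * aeval (fun j => b j / b j0) G := by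
    conv_lhs => rw [hby]
    exact aeval_hom hG _ _
  intro j1 hj1 hmin
  have hord : P.ord (b j1) = P.ord (b j0) := by
    apply le_antisymm
    · exact (hmin j0).resolve_left hj0
    · have h4 := (hb j1).resolve_left (div_ne_zero hj1 hj0)
      rw [P.ord_div hj1 hj0] at h4
      omega
  by_cases hl : aeval b G = 0
  · exact Or.inl hl
  right
  have hl' : aeval (fun j => b j / b j0) G ≠ 0 := by
    intro h0
    rw [hlf, h0, mul_zero] at hl
    exact hl rfl
  have hlo : P.ord (aeval b G) = δ * P.ord (b j0) + P.ord (aeval (fun j => b j / b j0) G) := by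
    rw [hlf, P.ord_mul (pow_ne_zero _ hj0) hl', P.ord_pow]
  have hreg := evK_reg (N := N) (z := fun i => z i / z i0) hz hb (rename Sum.inr G)
  rw [evK_inrF] at hreg
  have h0 : (0 : ℤ) ≤ P.ord (aeval (fun j => b j / b j0) G) := by
    have := hreg.resolve_left hl'
    exact_mod_cast this
  by_cases hpos : P.ord (aeval (fun j => b j / b j0) G) = 0
  · left
    rw [hord]
    omega
  right
  have hlinJ : rename Sum.inr G ∈ ordIdeal (N := N) P hz hb 1 := by
    rw [mem_ordIdeal, evK_inrF]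
    right
    have : (1 : ℤ) ≤ P.ord (aeval (fun j => b j / b j0) G) := by omega
    exact_mod_cast this
  have hIJ : I ≤ ordIdeal P hz hb 1 := by
    intro H hH
    by_contra hcon
    obtain ⟨u', v', g1, g2, g3⟩ := exists_pt ordIdeal_prime hXI hi hj hcon
    have g4 := g3 _ hlinJ
    rw [ev2_inr] at g4
    exact g2 (hI H hH u' v' g1 g4)
  have hFm : GO P m (evK (fun i => z i / z i0) (fun j => b j / b j0) B) :=
    mem_ordIdeal.mp (ordIdeal_pow m (Ideal.pow_right_mono hIJ m hF))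
  rw [← hAF'] at hFm
  have h5 := hFm.resolve_left (mul_ne_zero hA1.1 hl')
  rw [P.ord_mul hA1.1 hl', hA1.2, zero_add] at h5
  have h6 : (m : ℤ) ≤ P.ord (aeval (fun j => b j / b j0) G) := by exact_mod_cast h5
  rw [hord]
  omega

/-- **Logarithmic general type.** -/
theorem log_gtF {q q0 L D M b0 w : ℕ} {δ e : Fin q → ℕ} {F : Fin q → MvPolynomial (Fin (n + 1)) ℂ}
    (hG : GoodF F δ e L D q0) (hn : 1 ≤ n) (hL : 1 ≤ L) (hDL : D < L * q0) (hb1 : 1 ≤ b0)
    (hb0 : b0 + D * (M + 1) = M * (L * q0)) {X Y : BiSet N n}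
    (hR : ∀ i, RamAtF (M + 1) (F i) X Y)
    {z : Fin (N + 1) → K} {b : Fin (n + 1) → K} (h : ∀ P ∈ X.I, evK z b P = 0) (hb : b ≠ 0)
    (hw : 1 ≤ w) (hK : Algebra.trdeg ℂ K = w) (halg : Algebra.IsAlgebraic (RF ℂ b) K) :
    LogGeneralType ℂ K w fun P => ¬ Centred Y P z b := by
  have htr : Algebra.trdeg ℂ (RF ℂ b) = w := by
    have h1 := trdeg_add_eq ℂ (RF ℂ b) (A := K)
    rw [trdeg_eq_zero_iff.mpr halg, add_zero] at h1
    rw [h1, hK]
  have hb' : ∃ j, b j ≠ 0 := by
    by_contra hcon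
    push Not at hcon
    exact hb (funext hcon)
  obtain ⟨σ, hσ0, hind, -⟩ := exists_base hb' htr
  obtain ⟨T, hT, ω, g1, g2, g3, E, g4, g5⟩ := mainF hG hn hL hDL hb1 hb0 hw
    (K := K) (u := b) (j1 := σ 0) hσ0 (J := fun j => σ j.succ) hind
  refine ⟨hK, T, hT, ω, g1, fun P _ j Δ hF => ?_, fun P _ hP j Δ hF => ?_, E, g4, g5⟩
  · exact (g3 P j Δ fun i => tan_of_log (hF i)).toReg
  · rw [not_not] at hP
    have hmu : ∀ i, MuF P (M + 1) (δ i) (F i) b := fun i => multF h (hG.hom i) (hR i) hP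
    classical
    obtain ⟨j0, hj0, hmin⟩ := Finset.exists_min_image (Finset.univ.filter fun j => b j ≠ 0)
      (fun j => P.ord (b j)) ⟨σ 0, by simpa using hσ0⟩
    have hj0' : b j0 ≠ 0 := by simpa using hj0
    have hmin' : ∀ j, b j = 0 ∨ P.ord (b j0) ≤ P.ord (b j) := by
      intro j
      by_cases hj : b j = 0
      · exact Or.inl hj
      · exact Or.inr (hmin j (by simpa using hj))
    have h8 := g2 P j0 hj0' hmin' 0 le_rfl (fun i hi => by
      rcases hmu i j0 hj0' hmin' with h9 | h9 | h9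
      · exact absurd h9 hi
      · exact Or.inl h9
      · right
        have h10 : ((M : ℝ) + 1) ≤ (P.ord (aeval b (F i)) : ℝ) - δ i * P.ord (b j0) := by
          have h11 : ((δ i : ℝ) * P.ord (b j0) + ((M : ℝ) + 1)) ≤ (P.ord (aeval b (F i)) : ℝ) := by
            exact_mod_cast h9
          linarith
        linarith) j Δ hF
    rw [mul_zero, neg_zero] at h8
    exact h8.toReg

end Pool.Agent.V8H90.HY
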