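import Pool.Agent.V8H90.HY.Main
import Pool.Agent.V8H90.HY.Gt
import Pool.Agent.V8H90.AJ.WeakMain
import Pool.Agent.V8H90.AJ.Fib

/-!
Sections of `N (K_X + Δ)` for pairs with a map to projective space and many general hypersurfaces of
small multiplicity, and pluricanonical forms along the fibres.
-/

set_option autoImplicit false

open FF MvPolynomial Pool.Agent.W602.GT Pool.Agent.TH585.SV Pool.Agent.V8H90.AJ Pool.Agent.V8H90.LG

namespace Pool.Agent.V8H90.HY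

section

variable {K : Type} [Field K] [Algebra ℂ K] {v q : ℕ}

/-- the orders of the forms `F i` at the place `P`: zero, or at least `m (1 - η)` -/
def MulAt (m : ℝ) (F : Fin q → MvPolynomial (Fin (v + 1)) ℂ) (δ : Fin q → ℕ)
    (b : Fin (v + 1) → K) (η : ℝ) (P : Place ℂ K) : Prop :=
  ∀ j0, b j0 ≠ 0 → (∀ j, b j = 0 ∨ P.ord (b j0) ≤ P.ord (b j)) → ∀ i, aeval b (F i) ≠ 0 →
    P.ord (aeval b (F i)) = δ i * P.ord (b j0) ∨
      m * (1 - η) ≤ P.ord (aeval b (F i)) - δ i * P.ord (b j0)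

theorem exists_min (P : Place ℂ K) {b : Fin (v + 1) → K} (hb : ∃ j, b j ≠ 0) :
    ∃ j0, b j0 ≠ 0 ∧ ∀ j, b j = 0 ∨ P.ord (b j0) ≤ P.ord (b j) := by
  classical
  obtain ⟨j1, hj1⟩ := hb
  obtain ⟨j0, h0, h1⟩ := Finset.exists_min_image (Finset.univ.filter fun j => b j ≠ 0)
    (fun j => P.ord (b j)) ⟨j1, Finset.mem_filter.mpr ⟨Finset.mem_univ _, hj1⟩⟩
  refine ⟨j0, (Finset.mem_filter.mp h0).2, fun j => ?_⟩
  by_cases hj : b j = 0
  · exact Or.inl hj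
  · exact Or.inr (h1 j (Finset.mem_filter.mpr ⟨Finset.mem_univ _, hj⟩))

/-- the places which are trivial on the field of the image -/
theorem triv_mul {F : Fin q → MvPolynomial (Fin (v + 1)) ℂ} {δ : Fin q → ℕ}
    (hF : ∀ i, (F i).IsHomogeneous (δ i)) {b : Fin (v + 1) → K} {P : Place ℂ K}
    (h : ∀ f ∈ Pool.Agent.Y191.RF ℂ b, f ≠ 0 → P.ord f = 0) {j0 : Fin (v + 1)} (hj0 : b j0 ≠ 0)
    {i : Fin q} (hi : aeval b (F i) ≠ 0) : P.ord (aeval b (F i)) = δ i * P.ord (b j0) := by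
  have h1 : aeval b (F i) = b j0 ^ δ i * aeval (fun j => b j / b j0) (F i) := by
    have h5 := Pool.Agent.W602.GT.val_smul (hF i) (b j0) fun j => b j / b j0
    unfold Pool.Agent.W602.GT.val at h5
    rw [← h5]
    congr 2
    funext j
    field_simp
  have h2 : aeval (fun j => b j / b j0) (F i) ∈ Pool.Agent.Y191.RF ℂ b := by
    have h3 : aeval (fun j => b j / b j0) (F i) =
        ((aeval (fun j => (⟨b j / b j0, IntermediateField.subset_adjoin ℂ _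
          ⟨j, j0, hj0, rfl⟩⟩ : Pool.Agent.Y191.RF ℂ b)) (F i) : Pool.Agent.Y191.RF ℂ b) : K) := by
      have h4 := comp_aeval_apply (R := ℂ) (f := fun j => (⟨b j / b j0,
        IntermediateField.subset_adjoin ℂ _ ⟨j, j0, hj0, rfl⟩⟩ : Pool.Agent.Y191.RF ℂ b))
        (Pool.Agent.Y191.RF ℂ b).val (F i)
      exact h4.symm
    rw [h3]
    exact SetLike.coe_mem _
  have h3 : aeval (fun j => b j / b j0) (F i) ≠ 0 := by
    intro h0
    apply hi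
    rw [h1, h0, mul_zero]
  rw [h1, P.ord_mul (pow_ne_zero _ hj0) h3, P.ord_pow, h _ h2 h3, add_zero]

variable {q0 L D M b0 : ℕ} {δ e : Fin q → ℕ} {F : Fin q → MvPolynomial (Fin (v + 1)) ℂ}

/-- **Small multiplicities and forms along the fibres.** -/
theorem fibF {p s lam : ℕ} (hG : GoodF F δ e L D q0) (hv : 1 ≤ v) (hL : 1 ≤ L)
    (hDL : D < L * q0) (hb1 : 1 ≤ b0) (hb0 : b0 + D * (M + 1) = M * (L * q0))
    {b : Fin (v + 1) → K} (hb : ∃ j, b j ≠ 0)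
    (htr : Algebra.trdeg ℂ (Pool.Agent.Y191.RF ℂ b) = p) (hp : 1 ≤ p)
    (hK : Algebra.trdeg ℂ K = (p + s : ℕ)) {X : Set (Place ℂ K)} {δ₁ δ₂ δ' : Place ℂ K → ℝ}
    (hδ1 : ∀ P ∈ X, 0 ≤ δ₁ P) (hδ : ∀ P ∈ X, δ₁ P + δ₂ P ≤ δ' P)
    (hmult : ∀ P ∈ X, Divisorial (p + s) P → MulAt ((M : ℝ) + 1) F δ b (δ₁ P) P)
    {m : ℕ} (hm : 0 < m)
    {θ : Fin (lam + 1) → (Fin s → Derivation (Pool.Agent.Y191.RF ℂ b) K K) → K}
    (hθ : ∀ j, FibSec (p + s) m X δ₂ (Pool.Agent.Y191.RF ℂ b) (θ j))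
    (hne : ∃ G, θ 0 G ≠ 0 ∧
      AlgebraicIndependent (Pool.Agent.Y191.RF ℂ b) (fun i : Fin lam => θ i.succ G / θ 0 G)) :
    Pool.Agent.Y191.KodairaGe (p + s) X δ' (p + lam) := by
  classical
  obtain ⟨σ, hσ0, hind, halg⟩ := Pool.Agent.Y191.exists_base hb htr
  obtain ⟨N, e0, hN, he0, ω, h1, h2, h3, -, E, hE, hE0⟩ := baseF hG hv hL hDL hb1 hb0 hp
    (K := K) (u := b) (j1 := σ 0) hσ0 (J := fun j => σ j.succ) hind
  set x : Fin p → K := fun j => b (σ j.succ) / b (σ 0) with hx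
  have hxL : ∀ j, x j ∈ Pool.Agent.Y191.RF ℂ b := fun j =>
    IntermediateField.subset_adjoin ℂ _ ⟨_, _, hσ0, rfl⟩
  obtain ⟨u, Dt, Du, Fr, hHz⟩ := Pool.Agent.Y191.exists_frame_RF hK htr hind hxL halg
  have hyL : ∀ j, b j / b (σ 0) ∈ Pool.Agent.Y191.RF ℂ b := fun j =>
    IntermediateField.subset_adjoin ℂ _ ⟨_, _, hσ0, rfl⟩
  -- the values of the form
  have hω : ∀ E : Fin p → Derivation ℂ K K, ω E = (mtx x E).det ^ N * ω Dt := by
    intro E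
    rw [← h1 (mtx x E) Dt]
    apply h2
    intro i j
    exact Fr.hz_eq E (hHz _ (hyL j)) i
  have hDt : ω Dt ≠ 0 := by
    intro h0
    apply hE0
    rw [hω, h0, mul_zero]
  have hest : ∀ P ∈ X, Divisorial (p + s) P → ∀ E : Fin p → Derivation ℂ K K,
      (∀ i, DerReg P (E i)) → ∀ j, GO P (-(N * δ₁ P)) (b j ^ e0 * ω E) := by
    intro P hPX hPd E hE j
    obtain ⟨j0, hj0, hmin⟩ := exists_min P hb
    exact h3 P j0 hj0 hmin (δ₁ P) (hδ1 P hPX) (fun i hi => hmult P hPX hPd j0 hj0 hmin i hi) j E hE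
  obtain ⟨w, hw⟩ : ∃ w : Fin (p + 1) → K, ∀ j, w j = (b (σ j) / b (σ 0)) ^ e0 :=
    ⟨_, fun _ => rfl⟩
  obtain ⟨ω', h4, D, h5, h6⟩ := Fr.pairs (κ := p) (w := w) hHz hxL hδ hm
    (fun b => (hθ b).1) (fun P hPX hPd G hG b => (hθ b).2 P hPX hPd G hG) hne
    (M := N) hN (f := b (σ 0) ^ e0 * ω Dt) (mul_ne_zero (pow_ne_zero _ hσ0) hDt)
    (by rw [hw, div_self hσ0, one_pow])
    (by
      have h7 := ai_pow hind (N := e0) he0
      have h8 : (fun i : Fin p => w i.succ) = fun i => x i ^ e0 := funext fun i => hw _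
      rw [h8]
      exact h7)
    (fun j => by
      rw [hw]
      exact pow_mem (hyL _) _)
    (fun P hPX hPd E hE j => by
      have h7 := hest P hPX hPd E hE (σ j)
      refine ⟨_, ?_, Int.le_ceil _⟩
      have h8 : (mtx x E).det ^ N * (b (σ 0) ^ e0 * ω Dt * w j) = b (σ j) ^ e0 * ω E := by
        rw [hω E, hw, div_pow]
        have h9 : b (σ 0) ^ e0 ≠ 0 := pow_ne_zero _ hσ0
        field_simp
      rw [h8]
      exact h7.ceil)
  exact ⟨N * m, Nat.mul_pos hN hm, ω', h4, D, h5, h6⟩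

open Pool.Agent.Y172 in
/-- **Weak abundance** -/
theorem weak_caseF (hG : GoodF F δ e L D q0) (hv : 1 ≤ v) (hL : 1 ≤ L)
    (hDL : D < L * q0) (hb1 : 1 ≤ b0) (hb0 : b0 + D * (M + 1) = M * (L * q0))
    {N n p r : ℕ} {y : Fin (N + 1) → K}
    {Δ : Place ℂ K → ℚ} (hp : 1 ≤ p)
    (hy : NormalModel y) (hn : Algebra.trdeg ℂ K = n) (hΔ : Effective y Δ)
    (hLC : LogCanonical y n Δ) {b : Fin (v + 1) → K} (hb : ∃ j, b j ≠ 0)
    (htr : Algebra.trdeg ℂ (Pool.Agent.Y191.RF ℂ b) = p)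
    (hmult : ∀ P, IsPrimeDivisor y P → MulAt ((M : ℝ) + 1) F δ b (Δ P : ℝ) P)
    {t : Fin r → K} (ht : ∀ j, t j ≠ 0)
    (hgen : IntermediateField.adjoin ℂ
      ({x : K | IsAlgebraic (Pool.Agent.Y191.RF ℂ b) x} ∪ Set.range t) = ⊤)
    (h2 : ∀ P, IsPrimeDivisor y P → (∀ f ∈ Pool.Agent.Y191.RF ℂ b, f ≠ 0 → P.ord f = 0) →
      (∃ j, P.ord (t j) ≠ 0) → 1 ≤ Δ P) :
    ∃ κ : ℕ, p ≤ κ ∧ kodairaDim y n Δ = (κ : WithBot ℕ) ∧
      ∀ A, Effective y A → Integral y A → numericalDim y n Δ A = (κ : EReal) := by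
  classical
  refine weak_main' hy hn hΔ hLC htr ?_ ht hgen h2
  rintro s rfl δ₁ δ₂ lam hδ hδ1 hδ0 m hm θ hθ hne
  refine fibF hG hv hL hDL hb1 hb0 hb htr hp hn hδ0 hδ (fun P hP _ => ?_) hm hθ hne
  by_cases htriv : ∀ f ∈ Pool.Agent.Y191.RF ℂ b, f ≠ 0 → P.ord f = 0
  · exact fun j0 hj0 _ i hi => Or.inl (triv_mul hG.hom htriv hj0 hi)
  · rw [hδ1 P hP htriv]
    exact hmult P hP

end

end Pool.Agent.V8H90.HY
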