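import Pool.Agent.V8H90.AJ.Desc

/-!
Forms, their derivatives along a vector, and the ideals which they generate.
-/

set_option autoImplicit false

namespace Pool.Agent.V8H90.HY

open MvPolynomial Pool.Agent.V8H90.JT Pool.Agent.V8H90.AJ

section dv

variable {σ : Type} [Fintype σ] {A T T' : Type*} [CommRing A] [CommRing T] [Algebra A T]
  [CommRing T'] [Algebra A T']

/-- the derivative of a polynomial at `a` along `b` -/
noncomputable def dv (a b : σ → T) (F : MvPolynomial σ A) : T :=
  ∑ j, b j * aeval a (pderiv j F)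

theorem dv_C (a b : σ → T) (c : A) : dv a b (C c) = 0 := by
  unfold dv
  simp

theorem dv_add (a b : σ → T) (F G : MvPolynomial σ A) : dv a b (F + G) = dv a b F + dv a b G := by
  unfold dv
  rw [← Finset.sum_add_distrib]
  exact Finset.sum_congr rfl fun j _ => by rw [map_add, map_add, mul_add]

theorem dv_mul (a b : σ → T) (F G : MvPolynomial σ A) :
    dv a b (F * G) = dv a b F * aeval a G + aeval a F * dv a b G := by
  unfold dv
  rw [Finset.sum_mul, Finset.mul_sum, ← Finset.sum_add_distrib]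
  refine Finset.sum_congr rfl fun j _ => ?_
  rw [pderiv_mul, map_add, map_mul, map_mul]
  ring

theorem dv_X (a b : σ → T) (i : σ) : dv (A := A) a b (X i) = b i := by
  classical
  unfold dv
  rw [Finset.sum_eq_single i]
  · rw [pderiv_X_self, map_one, mul_one]
  · intro j _ hj
    rw [pderiv_X_of_ne (Ne.symm hj), map_zero, mul_zero]
  · intro h
    exact absurd (Finset.mem_univ i) h

/-- the chain rule -/
theorem dv_unique (a b : σ → T) (Q : MvPolynomial σ A → T) (h1 : ∀ c, Q (C c) = 0)
    (h2 : ∀ F G, Q (F + G) = Q F + Q G) (h3 : ∀ F i, Q (F * X i) = Q F * a i + aeval a F * b i)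
    (F : MvPolynomial σ A) : Q F = dv a b F := by
  induction F using MvPolynomial.induction_on with
  | C c => rw [h1, dv_C]
  | add p q hp hq => rw [h2, dv_add, hp, hq]
  | mul_X p i hp => rw [h3, dv_mul, dv_X, aeval_X, hp]

theorem dv_map (a b : σ → T) (Θ : T →ₐ[A] T') (F : MvPolynomial σ A) :
    Θ (dv a b F) = dv (fun j => Θ (a j)) (fun j => Θ (b j)) F := by
  unfold dv
  rw [map_sum]
  refine Finset.sum_congr rfl fun j _ => ?_
  rw [map_mul]
  congr 1
  exact comp_aeval_apply (f := a) Θ (pderiv j F)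

theorem dv_add_right (a b b' : σ → T) (F : MvPolynomial σ A) :
    dv a (fun j => b j + b' j) F = dv a b F + dv a b' F := by
  unfold dv
  rw [← Finset.sum_add_distrib]
  exact Finset.sum_congr rfl fun j _ => by ring

theorem dv_smul_right (a b : σ → T) (c : T) (F : MvPolynomial σ A) :
    dv a (fun j => c * b j) F = c * dv a b F := by
  unfold dv
  rw [Finset.mul_sum]
  exact Finset.sum_congr rfl fun j _ => by ring

theorem dv_euler (a : σ → T) {F : MvPolynomial σ A} {δ : ℕ} (hF : F.IsHomogeneous δ) :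
    dv a a F = δ * aeval a F := by
  have h1 := congrArg (aeval a) hF.sum_X_mul_pderiv
  rw [map_sum, map_nsmul, nsmul_eq_mul] at h1
  rw [← h1]
  unfold dv
  exact Finset.sum_congr rfl fun j _ => by rw [map_mul, aeval_X]

/-- composition with a polynomial map -/
theorem dv_comp {τ : Type} [Fintype τ] (a b : τ → T) (g : σ → MvPolynomial τ A)
    (F : MvPolynomial σ A) :
    dv a b (bind₁ g F) = dv (fun j => aeval a (g j)) (fun j => dv a b (g j)) F := by
  refine dv_unique _ _ (fun F => dv a b (bind₁ g F)) (fun c => ?_) (fun F G => ?_)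
    (fun F i => ?_) F
  · simp only [bind₁_C_right, dv_C]
  · simp only [map_add, dv_add]
  · simp only [map_mul, dv_mul, bind₁_X_right]
    rw [aeval_bind₁]

end dv

section forms

variable {v : ℕ} {A B : Type*} [CommRing A] [CommRing B]

/-- the form in the first variables -/
noncomputable def i0 (F : MvPolynomial (Fin (v + 1)) A) : MvPolynomial (Fin 2 × Fin (v + 1)) A :=
  aeval (fun j => X (0, j)) F

/-- the derivative of the form along the vector of the second variables -/
noncomputable def i1 (F : MvPolynomial (Fin (v + 1)) A) : MvPolynomial (Fin 2 × Fin (v + 1)) A :=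
  dv (fun j => X (0, j)) (fun j => X (1, j)) F

/-- the ideal of the tangent vectors of the hypersurface -/
noncomputable def II (F : MvPolynomial (Fin (v + 1)) A) :
    Ideal (MvPolynomial (Fin 2 × Fin (v + 1)) A) := Ideal.span {i0 F, i1 F}

theorem i0_mem (F : MvPolynomial (Fin (v + 1)) A) : i0 F ∈ II F :=
  Ideal.subset_span (Set.mem_insert _ _)

theorem i1_mem (F : MvPolynomial (Fin (v + 1)) A) : i1 F ∈ II F :=
  Ideal.subset_span (Set.mem_insert_of_mem _ (Set.mem_singleton _))

theorem II_le {F : MvPolynomial (Fin (v + 1)) A} {J : Ideal (MvPolynomial (Fin 2 × Fin (v + 1)) A)}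
    (h0 : i0 F ∈ J) (h1 : i1 F ∈ J) : II F ≤ J := by
  unfold II
  rw [Ideal.span_le]
  rintro x (rfl | hx)
  · exact h0
  · rw [Set.mem_singleton_iff] at hx
    rw [hx]
    exact h1

/-- ring homomorphisms -/
theorem pow_map {S T : Type*} [CommRing S] [CommRing T] (Θ : S →+* T) {I : Ideal S} {J : Ideal T}
    (h : ∀ x ∈ I, Θ x ∈ J) (e : ℕ) {x : S} (hx : x ∈ I ^ e) : Θ x ∈ J ^ e := by
  have h1 : I.map Θ ≤ J := Ideal.map_le_iff_le_comap.mpr h
  have h2 : Θ x ∈ (I ^ e).map Θ := Ideal.mem_map_of_mem Θ hx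
  rw [Ideal.map_pow] at h2
  exact Ideal.pow_right_mono h1 e h2

theorem II_hom {T : Type*} [CommRing T] (Θ : MvPolynomial (Fin 2 × Fin (v + 1)) A →+* T)
    {F : MvPolynomial (Fin (v + 1)) A} {J : Ideal T} (h0 : Θ (i0 F) ∈ J) (h1 : Θ (i1 F) ∈ J) :
    ∀ x ∈ II F, Θ x ∈ J := by
  intro x hx
  have h2 : II F ≤ J.comap Θ := II_le h0 h1
  exact h2 hx

theorem map_i0 (φ : A →+* B) (F : MvPolynomial (Fin (v + 1)) A) :
    map φ (i0 F) = i0 (map φ F) := by
  unfold i0
  induction F using MvPolynomial.induction_on with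
  | C c => rw [aeval_C, map_C, aeval_C, algebraMap_eq, algebraMap_eq, map_C]
  | add p q hp hq => rw [map_add, map_add, map_add, map_add, hp, hq]
  | mul_X p i hp => rw [map_mul, map_mul, map_mul, map_mul, aeval_X, map_X, map_X, aeval_X, hp]

theorem map_i1 (φ : A →+* B) (F : MvPolynomial (Fin (v + 1)) A) :
    map φ (i1 F) = i1 (map φ F) := by
  unfold i1 dv
  rw [map_sum]
  refine Finset.sum_congr rfl fun j _ => ?_
  rw [map_mul, map_X, pderiv_map]
  congr 1
  exact map_i0 φ _

theorem II_map (φ : A →+* B) {F : MvPolynomial (Fin (v + 1)) A} {e : ℕ}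
    {R : MvPolynomial (Fin 2 × Fin (v + 1)) A} (h : R ∈ II F ^ e) :
    map φ R ∈ II (map φ F) ^ e := by
  refine pow_map (map φ) (II_hom _ ?_ ?_) e h
  · rw [map_i0]; exact i0_mem _
  · rw [map_i1]; exact i1_mem _

theorem i0_hom {F : MvPolynomial (Fin (v + 1)) A} {δ : ℕ} (hF : F.IsHomogeneous δ) :
    (i0 F).IsHomogeneous δ := by
  have := hF.aeval (fun j => (X (0, j) : MvPolynomial (Fin 2 × Fin (v + 1)) A)) (n := 1)
    fun j => isHomogeneous_X _ _
  rwa [one_mul] at this

theorem i1_hom {F : MvPolynomial (Fin (v + 1)) A} {δ : ℕ} (hδ : 1 ≤ δ) (hF : F.IsHomogeneous δ) :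
    (i1 F).IsHomogeneous δ := by
  unfold i1 dv
  refine IsHomogeneous.sum _ _ _ fun j _ => ?_
  have h1 : (pderiv j F).IsHomogeneous (δ - 1) := hF.pderiv
  have h2 := i0_hom h1
  have h3 := (isHomogeneous_X A ((1 : Fin 2), j)).mul h2
  rw [show 1 + (δ - 1) = δ by omega] at h3
  exact h3

/-- the value of the derivative -/
theorem aeval_i0 {T : Type*} [CommRing T] [Algebra A T] (w : Fin 2 × Fin (v + 1) → T)
    (F : MvPolynomial (Fin (v + 1)) A) : aeval w (i0 F) = aeval (fun j => w (0, j)) F := by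
  unfold i0
  rw [comp_aeval_apply]
  simp

theorem aeval_i1 {T : Type*} [CommRing T] [Algebra A T] (w : Fin 2 × Fin (v + 1) → T)
    (F : MvPolynomial (Fin (v + 1)) A) :
    aeval w (i1 F) = dv (fun j => w (0, j)) (fun j => w (1, j)) F := by
  unfold i1
  rw [dv_map]
  simp

/-- linear changes of the coordinates -/
theorem chg_i0 (G : Fin (v + 1) → Fin (v + 1) → A) (F : MvPolynomial (Fin (v + 1)) A) :
    bind₁ (chg (k := 1) G) (i0 F) = i0 (bind₁ (fun j => ∑ l, C (G j l) * X l) F) := by
  unfold i0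
  have h1 : (bind₁ (chg (k := 1) G)) (aeval (fun j => X ((0 : Fin 2), j)) F) =
      aeval (fun j => chg (k := 1) G ((0 : Fin 2), j)) F := by
    rw [comp_aeval_apply]
    simp
  refine h1.trans ?_
  rw [aeval_bind₁]
  congr 2
  funext j
  simp [chg]

theorem chg_i1 (G : Fin (v + 1) → Fin (v + 1) → A) (F : MvPolynomial (Fin (v + 1)) A) :
    bind₁ (chg (k := 1) G) (i1 F) = i1 (bind₁ (fun j => ∑ l, C (G j l) * X l) F) := by
  unfold i1
  have h1 := dv_map (A := A) (fun j => X ((0 : Fin 2), j)) (fun j => X ((1 : Fin 2), j))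
    (bind₁ (chg (k := 1) G)) F
  refine h1.trans ?_
  rw [dv_comp]
  have h2 : ∀ j, dv (fun j => (X ((0 : Fin 2), j) : MvPolynomial (Fin 2 × Fin (v + 1)) A))
      (fun j => X ((1 : Fin 2), j)) (∑ l, C (G j l) * X l : MvPolynomial (Fin (v + 1)) A) =
      chg (k := 1) G ((1 : Fin 2), j) := by
    intro j
    have h3 : ∀ s : Finset (Fin (v + 1)),
        dv (fun j => (X ((0 : Fin 2), j) : MvPolynomial (Fin 2 × Fin (v + 1)) A))
        (fun j => X ((1 : Fin 2), j)) (∑ l ∈ s, C (G j l) * X l : MvPolynomial (Fin (v + 1)) A) =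
        ∑ l ∈ s, C (G j l) * X ((1 : Fin 2), l) := by
      intro s
      induction s using Finset.induction_on with
      | empty =>
        rw [Finset.sum_empty, Finset.sum_empty, ← C_0, dv_C]
      | insert a s ha ih =>
        rw [Finset.sum_insert ha, Finset.sum_insert ha, dv_add, ih, dv_mul, dv_C, dv_X, zero_mul,
          zero_add, aeval_C]
        rfl
    rw [h3]
    rfl
  have h4 : ∀ j, (aeval (fun j => (X ((0 : Fin 2), j) : MvPolynomial (Fin 2 × Fin (v + 1)) A)))
      (∑ l, C (G j l) * X l : MvPolynomial (Fin (v + 1)) A) = chg (k := 1) G ((0 : Fin 2), j) := by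
    intro j
    simp [chg]
  simp only [h2, h4, bind₁_X_right]

theorem chg_II (G : Fin (v + 1) → Fin (v + 1) → A) {F : MvPolynomial (Fin (v + 1)) A} {e : ℕ}
    {R : MvPolynomial (Fin 2 × Fin (v + 1)) A} (h : R ∈ II F ^ e) :
    bind₁ (chg (k := 1) G) R ∈ II (bind₁ (fun j => ∑ l, C (G j l) * X l) F) ^ e := by
  refine pow_map (bind₁ (chg (k := 1) G)).toRingHom (II_hom _ ?_ ?_) e h
  · change bind₁ (chg (k := 1) G) (i0 F) ∈ _
    rw [chg_i0]
    exact i0_mem _
  · change bind₁ (chg (k := 1) G) (i1 F) ∈ _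
    rw [chg_i1]
    exact i1_mem _

end forms

end Pool.Agent.V8H90.HY
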