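import Pool.Agent.V8H90.HY.Comp
import Pool.Agent.V8H90.JT.Point2

/-!
Bounds for the values of the polynomials.
-/

set_option autoImplicit false

namespace Pool.Agent.V8H90.HY

open MvPolynomial Pool.Agent.V8H90.JT Pool.Agent.V8H90.AJ

variable {v r : ℕ}

theorem bnd_poly {σ : Type} [Fintype σ] (P : MvPolynomial σ ℂ) :
    ∃ (C : ℝ) (N : ℕ), 0 ≤ C ∧ ∀ (w : σ → ℂ) (E : ℝ), 1 ≤ E → (∀ y, ‖w y‖ ≤ E) →
      ‖eval w P‖ ≤ C * E ^ N := by
  induction P using MvPolynomial.induction_on with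
  | C c =>
    refine ⟨‖c‖, 0, norm_nonneg _, fun w E _ _ => ?_⟩
    rw [eval_C, pow_zero, mul_one]
  | add p q hp hq =>
    obtain ⟨C1, N1, h1, h2⟩ := hp
    obtain ⟨C2, N2, h3, h4⟩ := hq
    refine ⟨C1 + C2, N1 + N2, add_nonneg h1 h3, fun w E hE hw => ?_⟩
    rw [map_add]
    refine (norm_add_le _ _).trans ?_
    have e1 : E ^ N1 ≤ E ^ (N1 + N2) := pow_le_pow_right₀ hE (by omega)
    have e2 : E ^ N2 ≤ E ^ (N1 + N2) := pow_le_pow_right₀ hE (by omega)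
    calc ‖eval w p‖ + ‖eval w q‖ ≤ C1 * E ^ N1 + C2 * E ^ N2 := add_le_add (h2 w E hE hw) (h4 w E hE hw)
      _ ≤ C1 * E ^ (N1 + N2) + C2 * E ^ (N1 + N2) :=
        add_le_add (mul_le_mul_of_nonneg_left e1 h1) (mul_le_mul_of_nonneg_left e2 h3)
      _ = _ := by ring
  | mul_X p i hp =>
    obtain ⟨C1, N1, h1, h2⟩ := hp
    refine ⟨C1, N1 + 1, h1, fun w E hE hw => ?_⟩
    rw [map_mul, eval_X, norm_mul, pow_succ, ← mul_assoc]
    exact mul_le_mul (h2 w E hE hw) (hw i) (norm_nonneg _) (mul_nonneg h1 (by positivity))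

/-- the bounds for the equations and their derivatives -/
def Ok (F : Fin r → MvPolynomial (Fin (v + 1)) ℂ) (w : Fin 2 × Fin (v + 1) → ℂ) (E : ℝ)
    (b : Fin r → ℝ) : Prop :=
  1 ≤ E ∧ (∀ y, ‖w y‖ ≤ E) ∧ (∀ i, 0 ≤ b i) ∧
    ∀ i, ‖eval w (i0 (F i))‖ ≤ E * b i ∧ ‖eval w (i1 (F i))‖ ≤ E * b i

/-- the bounds for the elements of an ideal -/
def Bd (F : Fin r → MvPolynomial (Fin (v + 1)) ℂ) (J : Ideal (SR ℂ v))
    (β : (Fin r → ℝ) → ℝ) : Prop :=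
  (∀ b : Fin r → ℝ, (∀ i, 0 ≤ b i) → 0 ≤ β b) ∧ ∀ R ∈ J, ∃ (C : ℝ) (N : ℕ), 0 ≤ C ∧
    ∀ w E b, Ok F w E b → ‖eval w R‖ ≤ C * E ^ N * β b

variable {F : Fin r → MvPolynomial (Fin (v + 1)) ℂ}

theorem bd_top : Bd F ⊤ fun _ => 1 := by
  refine ⟨fun _ _ => zero_le_one, fun R _ => ?_⟩
  obtain ⟨C, N, h1, h2⟩ := bnd_poly R
  refine ⟨C, N, h1, fun w E b h => ?_⟩
  rw [mul_one]
  exact h2 w E h.1 h.2.1

theorem bd_add {β : (Fin r → ℝ) → ℝ} (hβ : ∀ b : Fin r → ℝ, (∀ i, 0 ≤ b i) → 0 ≤ β b)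
    {R S : SR ℂ v}
    (hR : ∃ (C : ℝ) (N : ℕ), 0 ≤ C ∧ ∀ w E b, Ok F w E b → ‖eval w R‖ ≤ C * E ^ N * β b)
    (hS : ∃ (C : ℝ) (N : ℕ), 0 ≤ C ∧ ∀ w E b, Ok F w E b → ‖eval w S‖ ≤ C * E ^ N * β b) :
    ∃ (C : ℝ) (N : ℕ), 0 ≤ C ∧ ∀ w E b, Ok F w E b → ‖eval w (R + S)‖ ≤ C * E ^ N * β b := by
  obtain ⟨C1, N1, h1, h2⟩ := hR
  obtain ⟨C2, N2, h3, h4⟩ := hS
  refine ⟨C1 + C2, N1 + N2, add_nonneg h1 h3, fun w E b h => ?_⟩
  rw [map_add]
  have hb := hβ b h.2.2.1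
  have e1 : E ^ N1 ≤ E ^ (N1 + N2) := pow_le_pow_right₀ h.1 (by omega)
  have e2 : E ^ N2 ≤ E ^ (N1 + N2) := pow_le_pow_right₀ h.1 (by omega)
  calc ‖eval w R + eval w S‖ ≤ ‖eval w R‖ + ‖eval w S‖ := norm_add_le _ _
    _ ≤ C1 * E ^ N1 * β b + C2 * E ^ N2 * β b := add_le_add (h2 w E b h) (h4 w E b h)
    _ ≤ C1 * E ^ (N1 + N2) * β b + C2 * E ^ (N1 + N2) * β b :=
      add_le_add (mul_le_mul_of_nonneg_right (mul_le_mul_of_nonneg_left e1 h1) hb)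
        (mul_le_mul_of_nonneg_right (mul_le_mul_of_nonneg_left e2 h3) hb)
    _ = _ := by ring

theorem bd_mul {J J' : Ideal (SR ℂ v)} {β β' : (Fin r → ℝ) → ℝ} (h : Bd F J β) (h' : Bd F J' β') :
    Bd F (J * J') fun b => β b * β' b := by
  refine ⟨fun b hb => mul_nonneg (h.1 b hb) (h'.1 b hb), fun R hR => ?_⟩
  refine Submodule.mul_induction_on hR (fun x hx y hy => ?_) fun x y hx hy =>
    bd_add (fun b hb => mul_nonneg (h.1 b hb) (h'.1 b hb)) hx hy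
  obtain ⟨C1, N1, h1, h2⟩ := h.2 x hx
  obtain ⟨C2, N2, h3, h4⟩ := h'.2 y hy
  refine ⟨C1 * C2, N1 + N2, mul_nonneg h1 h3, fun w E b hw => ?_⟩
  rw [map_mul, norm_mul]
  have hE : 0 ≤ E := zero_le_one.trans hw.1
  calc ‖eval w x‖ * ‖eval w y‖ ≤ (C1 * E ^ N1 * β b) * (C2 * E ^ N2 * β' b) :=
        mul_le_mul (h2 w E b hw) (h4 w E b hw) (norm_nonneg _)
          (mul_nonneg (mul_nonneg h1 (pow_nonneg hE _)) (h.1 b hw.2.2.1))
    _ = _ := by rw [pow_add]; ring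

theorem bd_II (i : Fin r) : Bd F (II (F i)) fun b => b i := by
  refine ⟨fun b hb => hb i, fun R hR => ?_⟩
  unfold II at hR
  obtain ⟨a, c, hac⟩ := Ideal.mem_span_pair.mp hR
  obtain ⟨C1, N1, h1, h2⟩ := bnd_poly a
  obtain ⟨C2, N2, h3, h4⟩ := bnd_poly c
  rw [← hac]
  refine bd_add (fun b hb => hb i) ⟨C1, N1 + 1, h1, fun w E b hw => ?_⟩
    ⟨C2, N2 + 1, h3, fun w E b hw => ?_⟩
  · rw [map_mul, norm_mul, pow_succ]
    have hE : 0 ≤ E := zero_le_one.trans hw.1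
    calc ‖eval w a‖ * ‖eval w (i0 (F i))‖ ≤ (C1 * E ^ N1) * (E * b i) :=
          mul_le_mul (h2 w E hw.1 hw.2.1) (hw.2.2.2 i).1 (norm_nonneg _)
            (mul_nonneg h1 (pow_nonneg hE _))
      _ = _ := by ring
  · rw [map_mul, norm_mul, pow_succ]
    have hE : 0 ≤ E := zero_le_one.trans hw.1
    calc ‖eval w c‖ * ‖eval w (i1 (F i))‖ ≤ (C2 * E ^ N2) * (E * b i) :=
          mul_le_mul (h4 w E hw.1 hw.2.1) (hw.2.2.2 i).2 (norm_nonneg _)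
            (mul_nonneg h3 (pow_nonneg hE _))
      _ = _ := by ring

theorem bd_pow {J : Ideal (SR ℂ v)} {β : (Fin r → ℝ) → ℝ} (h : Bd F J β) (e : ℕ) :
    Bd F (J ^ e) fun b => β b ^ e := by
  induction e with
  | zero =>
    simp only [pow_zero, Ideal.one_eq_top]
    exact bd_top
  | succ e ih =>
    simp only [pow_succ]
    exact bd_mul ih h

theorem bd_prod (e : Fin r → ℕ) : Bd F (∏ i, II (F i) ^ e i) fun b => ∏ i, b i ^ e i := by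
  classical
  have h : ∀ s : Finset (Fin r), Bd F (∏ i ∈ s, II (F i) ^ e i) fun b => ∏ i ∈ s, b i ^ e i := by
    intro s
    induction s using Finset.induction_on with
    | empty =>
      simp only [Finset.prod_empty, Ideal.one_eq_top]
      exact bd_top
    | insert a s ha ih =>
      simp only [Finset.prod_insert ha]
      exact bd_mul (bd_pow (bd_II a) _) ih
  exact h Finset.univ

/-- a lower bound for one of the generators of an ideal -/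
theorem low {ι : Type} [Fintype ι] (G : ι → MvPolynomial (Fin (v + 1)) ℂ) {j : Fin (v + 1)} {N : ℕ}
    (h : (X j : MvPolynomial (Fin (v + 1)) ℂ) ^ N ∈ Ideal.span (Set.range G)) :
    ∃ c : ℝ, 0 < c ∧ ∀ x : Fin (v + 1) → ℂ, (∀ j, ‖x j‖ ≤ 1) → x j = 1 →
      ∃ i, c ≤ ‖eval x (G i)‖ := by
  obtain ⟨a, ha⟩ := Ideal.mem_span_range_iff_exists_fun.mp h
  choose K N' hK hN' using fun i => bnd_poly (a i)
  have hS : 0 ≤ ∑ i, K i := Finset.sum_nonneg fun i _ => hK i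
  refine ⟨1 / (1 + ∑ i, K i), by positivity, fun x hx hxj => ?_⟩
  by_contra hcon
  push Not at hcon
  have h1 : (1 : ℂ) = ∑ i, eval x (a i) * eval x (G i) := by
    have h2 := congrArg (eval x) ha
    rw [map_sum, map_pow, eval_X, hxj, one_pow] at h2
    rw [← h2]
    exact Finset.sum_congr rfl fun i _ => map_mul _ _ _
  have h2 : ‖(1 : ℂ)‖ ≤ ∑ i, K i * (1 / (1 + ∑ i, K i)) := by
    rw [h1]
    refine (norm_sum_le _ _).trans (Finset.sum_le_sum fun i _ => ?_)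
    rw [norm_mul]
    have h3 := hN' i x 1 le_rfl hx
    rw [one_pow, mul_one] at h3
    exact mul_le_mul h3 (hcon i).le (norm_nonneg _) (hK i)
  rw [← Finset.sum_mul, norm_one, mul_one_div, le_div_iff₀ (by positivity)] at h2
  linarith

end Pool.Agent.V8H90.HY
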