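import Pool.Agent.V8H90.HY.General
import Pool.Agent.V8H90.AJ.Comp

/-!
Isobaric components, and points over larger fields.
-/

set_option autoImplicit false

namespace Pool.Agent.V8H90.HY

open MvPolynomial Pool.Agent.V8H90.JT Pool.Agent.V8H90.AJ

variable {v q q0 L D : ℕ} {δ e : Fin q → ℕ}

/-- a polynomial in a vector and its derivative, homogeneous of degree `D`, isobaric of weight `w`,
invariant under the multiplication of the vector by functions with constant term one, which is in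
the powers of the ideals of the tangent vectors of some hypersurfaces -/
structure AdmF (F : Fin q → MvPolynomial (Fin (v + 1)) ℂ) (e : Fin q → ℕ) (s : Fin q0 → Fin q)
    (D w : ℕ) (R : MvPolynomial (Fin 2 × Fin (v + 1)) ℂ) : Prop where
  hom : R.IsHomogeneous D
  inv : Inv (k := 1) 1 R
  mem : ∀ i, R ∈ II (F (s i)) ^ e (s i)
  wt : ∀ t, coeff t R ≠ 0 → wt t = w

/-- The component of weight zero: a form which is divisible by many relatively prime forms -/
theorem wt_zero {F : Fin q → MvPolynomial (Fin (v + 1)) ℂ} (hG : GoodF F δ e L D q0) (hv : 1 ≤ v)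
    (hL : D < L * q0) {s : Fin q0 → Fin q} (hs : Function.Injective s)
    {R : MvPolynomial (Fin 2 × Fin (v + 1)) ℂ} (h1 : R.IsHomogeneous D)
    (h3 : ∀ i, R ∈ II (F (s i)) ^ e (s i)) : cp 0 R = 0 := by
  classical
  -- the weight zero component depends only on the first variables
  set Θ : MvPolynomial (Fin 2 × Fin (v + 1)) ℂ →ₐ[ℂ] MvPolynomial (Fin 2 × Fin (v + 1)) ℂ :=
    aeval fun x : Fin 2 × Fin (v + 1) => if x.1 = 0 then X x else 0 with hΘ
  have h0 : cp 0 R = Θ R := by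
    have h4 := sc_eq_sum (0 : ℂ) h1
    rw [Finset.sum_eq_single 0] at h4
    · rw [pow_zero, one_smul] at h4
      rw [← h4]
      rw [show bind₁ (sc (0 : ℂ)) R = aeval (sc (0 : ℂ)) R from rfl]
      congr 2
      funext x
      obtain ⟨m, j⟩ := x
      fin_cases m
      · simp [sc]
      · simp [sc]
    · intro w _ hw
      rw [zero_pow hw, zero_smul]
    · intro h
      exact absurd (Finset.mem_range.mpr (Nat.succ_pos D)) h
  have hdvd : ∀ i, i0 (F (s i)) ^ e (s i) ∣ Θ R := by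
    intro i
    rw [← Ideal.mem_span_singleton, ← Ideal.span_singleton_pow]
    refine pow_map Θ.toRingHom (II_hom _ ?_ ?_) (e (s i)) (h3 i)
    · change Θ (i0 (F (s i))) ∈ _
      have h4 : Θ (i0 (F (s i))) = i0 (F (s i)) := by
        rw [hΘ, aeval_i0]
        simp only [if_true]
        rfl
      rw [h4]
      exact Ideal.mem_span_singleton_self _
    · change Θ (i1 (F (s i))) ∈ _
      have h4 : Θ (i1 (F (s i))) = 0 := by
        rw [hΘ, aeval_i1]
        simp only [one_ne_zero, if_false]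
        unfold dv
        simp
      rw [h4]
      exact Ideal.zero_mem _
  have hprod : ∏ i, i0 (F (s i)) ^ e (s i) ∣ Θ R :=
    Finset.prod_dvd_of_isRelPrime (fun i _ j _ hij => (hG.cop hv fun h => hij (hs h)).pow)
      fun i _ => hdvd i
  rw [h0]
  by_contra hne
  have hPh : (∏ i, i0 (F (s i)) ^ e (s i)).IsHomogeneous (L * q0) := by
    have h4 := IsHomogeneous.prod Finset.univ (fun i => i0 (F (s i)) ^ e (s i))
      (fun _ : Fin q0 => L) fun i _ => by
        have h5 := (i0_hom (hG.hom (s i))).pow (e (s i))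
        rwa [mul_comm, hG.mul] at h5
    simpa [mul_comm] using h4
  have hRh : (Θ R).IsHomogeneous D := by
    rw [← h0]
    exact cp_hom h1 0
  obtain ⟨Q, hQ⟩ := hprod
  have hP0 : (∏ i, i0 (F (s i)) ^ e (s i)) ≠ 0 := by
    intro h
    rw [h, zero_mul] at hQ
    exact hne hQ
  have hQ0 : Q ≠ 0 := by
    rintro rfl
    rw [mul_zero] at hQ
    exact hne hQ
  have h4 := totalDegree_mul_of_isDomain hP0 hQ0
  rw [← hQ, hRh.totalDegree hne, hPh.totalDegree hP0] at h4
  omega

/-- an isobaric invariant polynomial for a pair of vectors -/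
theorem exists_cpF {F : Fin q → MvPolynomial (Fin (v + 1)) ℂ} (hG : GoodF F δ e L D q0)
    (hv : 1 ≤ v) (hL : D < L * q0) {p : Fin 2 → Fin (v + 1) → ℂ} (hp : Mi p) :
    ∃ (s : Fin q0 → Fin q) (w : ℕ) (R : MvPolynomial (Fin 2 × Fin (v + 1)) ℂ),
      Function.Injective s ∧ 1 ≤ w ∧ w ≤ D ∧ AdmF F e s D w R ∧ eval (fun y => p y.1 y.2) R ≠ 0 := by
  classical
  obtain ⟨s, R, hs, h1, h2, h3, h4⟩ := hG.jet p hp
  have h5 : ∃ w ∈ Finset.range (D + 1), eval (fun y => p y.1 y.2) (cp w R) ≠ 0 := by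
    by_contra hcon
    push Not at hcon
    apply h4
    rw [← sum_cp h1, map_sum]
    exact Finset.sum_eq_zero hcon
  obtain ⟨w, hw, hw2⟩ := h5
  refine ⟨s, w, cp w R, hs, ?_, by have := Finset.mem_range.mp hw; omega,
    ⟨cp_hom h1 w, cp_inv h1 h2 w, fun i => cp_II h1 (h3 i) w, fun t ht => cp_wt ht⟩, hw2⟩
  rcases Nat.eq_zero_or_pos w with hw0 | hw0
  · exfalso
    rw [hw0, wt_zero hG hv hL hs h1 h3, map_zero] at hw2
    exact hw2 rfl
  · exact hw0

/-- an isobaric invariant polynomial for a pair of vectors over a larger field -/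
theorem exists_admF {F : Fin q → MvPolynomial (Fin (v + 1)) ℂ} (hG : GoodF F δ e L D q0)
    (hv : 1 ≤ v) (hL : D < L * q0)
    {Λ : Type} [Field Λ] [Algebra ℂ Λ] {p : Fin 2 → Fin (v + 1) → Λ} (hp : Mi p) :
    ∃ (s : Fin q0 → Fin q) (w : ℕ) (R : MvPolynomial (Fin 2 × Fin (v + 1)) ℂ),
      Function.Injective s ∧ 1 ≤ w ∧ w ≤ D ∧ AdmF F e s D w R ∧
        aeval (fun y : Fin 2 × Fin (v + 1) => p y.1 y.2) R ≠ 0 := by
  classical
  by_contra hcon
  push Not at hcon
  obtain ⟨i, j, hij⟩ := hp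
  set I : Ideal (MvPolynomial (Fin 2 × Fin (v + 1)) ℂ) :=
    RingHom.ker (aeval (fun y : Fin 2 × Fin (v + 1) => p y.1 y.2) :
      MvPolynomial (Fin 2 × Fin (v + 1)) ℂ →ₐ[ℂ] Λ) with hI
  set μ : MvPolynomial (Fin 2 × Fin (v + 1)) ℂ := X (0, i) * X (1, j) - X (0, j) * X (1, i) with hμ
  have hprime : I.IsPrime := RingHom.ker_isPrime _
  have hμI : μ ∉ I := by
    rw [hI, RingHom.mem_ker, hμ]
    simpa using hij
  have h1 : μ ∉ vanishingIdeal ℂ (zeroLocus ℂ I) := by
    rw [vanishingIdeal_zeroLocus_eq_radical, hprime.radical]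
    exact hμI
  rw [mem_vanishingIdeal_iff] at h1
  push Not at h1
  obtain ⟨x, hx, hxμ⟩ := h1
  rw [mem_zeroLocus_iff] at hx
  obtain ⟨s, w, R, h2, h3, h4, h5, h6⟩ := exists_cpF hG hv hL (p := fun a b => x (a, b)) ⟨i, j, by
    simpa [hμ] using hxμ⟩
  apply h6
  have h7 := hx R (by
    rw [hI, RingHom.mem_ker]
    exact hcon s w R h2 h3 h4 h5)
  exact h7

end Pool.Agent.V8H90.HY
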