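import Pool.Agent.V8H90.HY.Ord

/-!
Entire curves which are ramified over general hypersurfaces are constant.
-/

set_option autoImplicit false

namespace Pool.Agent.V8H90.HY

open MvPolynomial Filter Metric Real Set Topology Pool.Agent.H159R3.NV Pool.Agent.W602.NC
  Pool.Agent.W602.TL Pool.Agent.W601.SM Pool.Agent.V8H90.JT Pool.Agent.V8H90.AJ

variable {v q q0 L D : ℕ} {δ e : Fin q → ℕ} {F : Fin q → MvPolynomial (Fin (v + 1)) ℂ}

/-- curves whose derivatives are proportional to them are constant -/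
theorem wr_const {f : ℂ → Fin (v + 1) → ℂ} (hf : Ent f) (hnz : ∀ z, f z ≠ 0)
    (h : ∀ i j z, f z i * deriv (fun t => f t j) z - f z j * deriv (fun t => f t i) z = 0)
    (z z' : ℂ) : ∃ t : ℂ, f z' = t • f z := by
  obtain ⟨j0, hj0⟩ := Function.ne_iff.mp (hnz 0)
  rw [Pi.zero_apply] at hj0
  have h1 : ∀ i, ∃ c : ℂ, ∀ z, f z i = c * f z j0 := by
    intro i
    by_contra hcon
    push Not at hcon
    obtain ⟨z, hz⟩ := wron_ne (fun (b : Fin 2) z => f z (if b = 0 then i else j0))
      (fun b => hf _) (by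
        intro c hc
        have hc' : ∀ z, c 0 * f z i + c 1 * f z j0 = 0 := by
          intro z
          have := hc z
          rw [Fin.sum_univ_two] at this
          simpa using this
        by_cases hc0 : c 0 = 0
        · have h2 := hc' 0
          rw [hc0, zero_mul, zero_add] at h2
          have h3 : c 1 = 0 := (mul_eq_zero.mp h2).resolve_right hj0
          funext b
          fin_cases b
          · exact hc0
          · exact h3
        · exfalso
          obtain ⟨z, hz⟩ := hcon (-(c 1) / c 0)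
          apply hz
          have h2 := hc' z
          field_simp
          linear_combination h2)
    apply hz
    rw [Matrix.det_fin_two]
    simp only [Matrix.of_apply, Fin.val_zero, Fin.val_one, iteratedDeriv_zero, iteratedDeriv_one,
      if_true, one_ne_zero, if_false]
    have h2 := h i j0 z
    linear_combination h2
  choose c hc using h1
  have h2 : ∀ z, f z j0 ≠ 0 := by
    intro z h0
    apply hnz z
    funext i
    rw [hc i z, h0, mul_zero]
    rfl
  refine ⟨f z' j0 / f z j0, ?_⟩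
  funext i
  rw [Pi.smul_apply, smul_eq_mul, hc i z', hc i z]
  have := h2 z
  field_simp

/-- a bound for forms -/
theorem form_bound (hhom : ∀ i, (F i).IsHomogeneous (δ i)) (hmul : ∀ i, e i * δ i = L) :
    ∃ K : ℝ, 1 ≤ K ∧ ∀ (i : Fin q) (x : Fin (v + 1) → ℂ) (M : ℝ), 0 < M → (∀ j, ‖x j‖ ≤ M) →
      ‖eval x (F i) ^ e i‖ ≤ K * M ^ L := by
  choose C N hC hCN using fun i => bnd_poly (F i)
  obtain ⟨K, hK, hK'⟩ := Pool.Agent.W601.SM.Frame.exists_max fun i => C i ^ e i
  refine ⟨K, hK, fun i x M hM hx => ?_⟩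
  have h1 : x = fun j => (M : ℂ) * (x j / M) := by
    funext j
    rw [mul_div_cancel₀ _ (by exact_mod_cast hM.ne')]
  have h2 : eval x (F i) = (M : ℂ) ^ δ i * eval (fun j => x j / (M : ℂ)) (F i) := by
    conv_lhs => rw [h1]
    exact eval_of_hom (hhom i) _ _
  have h3 : ‖eval (fun j => x j / (M : ℂ)) (F i)‖ ≤ C i := by
    have h4 := hCN i (fun j => x j / (M : ℂ)) 1 le_rfl (fun j => by
      rw [norm_div, Complex.norm_real, Real.norm_of_nonneg hM.le, div_le_one hM]
      exact hx j)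
    rwa [one_pow, mul_one] at h4
  rw [h2, mul_pow, ← pow_mul, mul_comm (δ i), hmul, norm_mul, norm_pow, norm_pow,
    Complex.norm_real, Real.norm_of_nonneg hM.le, mul_comm]
  refine mul_le_mul_of_nonneg_right ?_ (pow_nonneg hM.le _)
  exact (pow_le_pow_left₀ (norm_nonneg _) h3 _).trans (hK' i)

theorem order_prod {ι : Type} (s : Finset ι) (g : ι → ℂ → ℂ)
    (hg : ∀ i, Differentiable ℂ (g i)) (z : ℂ) :
    analyticOrderAt (fun w => ∏ i ∈ s, g i w) z = ∑ i ∈ s, analyticOrderAt (g i) z := by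
  classical
  induction s using Finset.induction_on with
  | empty =>
    simp only [Finset.prod_empty, Finset.sum_empty]
    exact (analyticAt_const).analyticOrderAt_eq_zero.mpr one_ne_zero
  | insert a s ha ih =>
    simp only [Finset.prod_insert ha, Finset.sum_insert ha]
    rw [← ih]
    have hd : Differentiable ℂ fun w => ∏ i ∈ s, g i w :=
      Differentiable.fun_finsetProd fun i _ => hg i
    exact analyticOrderAt_mul ((hg a).analyticAt z) (hd.analyticAt z)

/-- the inequality between real numbers -/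
theorem real_step {X M Pd S C C' E : ℝ} {L q0 D m N : ℕ} (hX : 0 ≤ X) (hM : 0 < M) (hPd : 0 ≤ Pd)
    (hS : 0 ≤ S) (hC : 1 ≤ C) (hC' : 1 ≤ C') (hE : 1 ≤ E) (hm : 1 ≤ m)
    (hnum : D * m + L * q0 < m * (L * q0))
    (h1 : X * M ^ (L * q0) ≤ C * E ^ N * M ^ D * Pd) (h2 : Pd ≤ C' * M ^ (L * q0))
    (h3 : S ≤ C' * M ^ L) :
    X ^ (m * L) * S ^ (m * (L * q0) - (D * m + L * q0)) ≤
      (C ^ m * C') ^ L * C' ^ (m * (L * q0) - (D * m + L * q0)) * E ^ (N * m * L) *
        Pd ^ ((m - 1) * L) := by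
  obtain ⟨κ, hκ⟩ : ∃ κ, m * (L * q0) = (D * m + L * q0) + κ := ⟨_, (Nat.add_sub_of_le hnum.le).symm⟩
  have hκ' : m * (L * q0) - (D * m + L * q0) = κ := by omega
  rw [hκ']
  obtain ⟨m, rfl⟩ : ∃ n, m = n + 1 := ⟨m - 1, by omega⟩
  rw [Nat.add_sub_cancel]
  have h4 : X ^ (m + 1) * M ^ κ ≤ C ^ (m + 1) * C' * E ^ (N * (m + 1)) * Pd ^ m := by
    have h5 : (X * M ^ (L * q0)) ^ (m + 1) ≤ (C * E ^ N * M ^ D * Pd) ^ (m + 1) :=
      pow_le_pow_left₀ (by positivity) h1 _
    have h6 : X ^ (m + 1) * M ^ κ * M ^ (D * (m + 1) + L * q0) ≤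
        C ^ (m + 1) * C' * E ^ (N * (m + 1)) * Pd ^ m * M ^ (D * (m + 1) + L * q0) := by
      calc X ^ (m + 1) * M ^ κ * M ^ (D * (m + 1) + L * q0) = X ^ (m + 1) * M ^ ((m + 1) * (L * q0)) := by
            rw [mul_assoc, ← pow_add, hκ, add_comm κ]
        _ = (X * M ^ (L * q0)) ^ (m + 1) := by rw [mul_pow, ← pow_mul, mul_comm (L * q0)]
        _ ≤ (C * E ^ N * M ^ D * Pd) ^ (m + 1) := h5
        _ = C ^ (m + 1) * E ^ (N * (m + 1)) * M ^ (D * (m + 1)) * (Pd ^ m * Pd) := by
            rw [mul_pow, mul_pow, mul_pow, ← pow_mul, ← pow_mul, pow_succ Pd]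
        _ ≤ C ^ (m + 1) * E ^ (N * (m + 1)) * M ^ (D * (m + 1)) * (Pd ^ m * (C' * M ^ (L * q0))) := by
            refine mul_le_mul_of_nonneg_left (mul_le_mul_of_nonneg_left h2 (by positivity)) ?_
            positivity
        _ = _ := by rw [pow_add]; ring
    exact le_of_mul_le_mul_right h6 (by positivity)
  have h5 : X ^ ((m + 1) * L) * M ^ (κ * L) ≤
      (C ^ (m + 1) * C') ^ L * E ^ (N * (m + 1) * L) * Pd ^ (m * L) := by
    have h6 := pow_le_pow_left₀ (by positivity) h4 L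
    rw [mul_pow, ← pow_mul, ← pow_mul] at h6
    refine h6.trans (le_of_eq ?_)
    rw [mul_pow, mul_pow, ← pow_mul, ← pow_mul]
  calc X ^ ((m + 1) * L) * S ^ κ ≤ X ^ ((m + 1) * L) * (C' * M ^ L) ^ κ :=
        mul_le_mul_of_nonneg_left (pow_le_pow_left₀ hS h3 _) (by positivity)
    _ = C' ^ κ * (X ^ ((m + 1) * L) * M ^ (κ * L)) := by
        rw [mul_pow, ← pow_mul, mul_comm L κ]
        ring
    _ ≤ C' ^ κ * ((C ^ (m + 1) * C') ^ L * E ^ (N * (m + 1) * L) * Pd ^ (m * L)) :=
        mul_le_mul_of_nonneg_left h5 (by positivity)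
    _ = _ := by ring

end Pool.Agent.V8H90.HY
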