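import Pool.Agent.V8H90.HY.Snc

/-!
Smooth hypersurfaces and transversal hypersurfaces: their equations are relatively prime.
-/

set_option autoImplicit false

namespace Pool.Agent.V8H90.HY

open MvPolynomial Pool.Agent.V8H90.JT Pool.Agent.V8H90.AJ

variable {v : ℕ}

section

variable {k K : Type} [Field k] [Field K] [Algebra k K]

/-- the derivative of a composition -/
theorem der_aeval {σ : Type} [Fintype σ] {T : Type*} [CommRing T] [Algebra k T]
    (D : Derivation k T T) (a : σ → T) (F : MvPolynomial σ k) :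
    D (aeval a F) = dv a (fun j => D (a j)) F := by
  refine dv_unique _ _ (fun F => D (aeval a F)) (fun c => ?_) (fun F G => ?_) (fun F i => ?_) F
  · simp only [aeval_C]
    exact D.map_algebraMap c
  · simp only [map_add]
  · simp only [map_mul, aeval_X]
    rw [Derivation.leibniz]
    simp only [smul_eq_mul]
    ring

theorem dv_single {σ : Type} [Fintype σ] [DecidableEq σ] {T : Type*} [CommRing T] [Algebra k T]
    (a : σ → T) (l : σ) (F : MvPolynomial σ k) :
    dv a (fun j => if l = j then 1 else 0) F = aeval a (pderiv l F) := by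
  unfold dv
  rw [Finset.sum_eq_single l]
  · simp only [if_true, one_mul]
  · intro j _ hj
    simp only [if_neg (Ne.symm hj), zero_mul]
  · intro h
    exact absurd (Finset.mem_univ l) h

theorem pd0_i0 (l : Fin (v + 1)) (F : MvPolynomial (Fin (v + 1)) k) :
    pderiv ((0 : Fin 2), l) (i0 F) = i0 (pderiv l F) := by
  classical
  unfold i0
  rw [der_aeval, ← dv_single]
  congr 1
  funext j
  rw [pderiv_X, Pi.single_apply]
  simp [eq_comm]

theorem pd1_i0 (l : Fin (v + 1)) (F : MvPolynomial (Fin (v + 1)) k) :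
    pderiv ((1 : Fin 2), l) (i0 F) = 0 := by
  classical
  unfold i0
  rw [der_aeval]
  unfold dv
  refine Finset.sum_eq_zero fun j _ => ?_
  have h : pderiv ((1 : Fin 2), l) (X ((0 : Fin 2), j) : SR k v) = 0 :=
    pderiv_X_of_ne (by simp)
  simp only [h, zero_mul]

theorem pd1_i1 (l : Fin (v + 1)) (F : MvPolynomial (Fin (v + 1)) k) :
    pderiv ((1 : Fin 2), l) (i1 F) = i0 (pderiv l F) := by
  classical
  unfold i1 dv
  rw [map_sum, Finset.sum_eq_single l]
  · rw [pderiv_mul, pderiv_X_self, one_mul]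
    have := pd1_i0 l (pderiv l F)
    unfold i0 at this
    rw [this, mul_zero, add_zero]
    rfl
  · intro j _ hj
    rw [pderiv_mul, pderiv_X_of_ne (by simpa using hj), zero_mul, zero_add]
    have := pd1_i0 l (pderiv j F)
    unfold i0 at this
    rw [this, mul_zero]
  · intro h
    exact absurd (Finset.mem_univ l) h

variable [IsAlgClosed K]

/-- zeros of polynomials which are not units -/
theorem exists_zero (hv : 1 ≤ v) {P : SR k v} (hP : ¬ IsUnit P) :
    ∃ x : Fin 2 × Fin (v + 1) → K, (fun j => x (0, j)) ≠ 0 ∧ aeval x P = 0 := by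
  by_contra hcon
  push Not at hcon
  have h1 : ∀ j, ∃ N : ℕ, P ∣ (X ((0 : Fin 2), j) : SR k v) ^ N := by
    intro j
    have h2 : (X ((0 : Fin 2), j) : SR k v) ∈ (Ideal.span {P}).radical := by
      rw [← vanishingIdeal_zeroLocus_eq_radical (K := K), mem_vanishingIdeal_iff]
      intro x hx
      rw [mem_zeroLocus_iff] at hx
      rw [aeval_X]
      by_contra h0
      exact hcon x (fun h => h0 (congrFun h j)) (hx P (Ideal.subset_span rfl))
    obtain ⟨N, hN⟩ := h2
    exact ⟨N, Ideal.mem_span_singleton.mp hN⟩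
  obtain ⟨N, hN⟩ := h1 0
  obtain ⟨N', hN'⟩ := h1 (Fin.last v)
  have h3 : IsRelPrime (X ((0 : Fin 2), (0 : Fin (v + 1))) : SR k v)
      (X ((0 : Fin 2), Fin.last v)) := by
    rw [(X_prime).irreducible.isRelPrime_iff_not_dvd, X_dvd_X, Prod.mk.injEq]
    rintro ⟨-, h⟩
    have := congrArg Fin.val h
    simp at this
    omega
  exact hP ((h3.pow (m := N) (n := N')) hN hN')

omit [IsAlgClosed K] in
theorem crit_one {F : MvPolynomial (Fin (v + 1)) k}
    (h : ¬ Crit (fun _ : Fin 1 => map (algebraMap k K) F)) {x : Fin (v + 1) → K} (hx : x ≠ 0)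
    (h0 : aeval x F = 0) : ∃ l, aeval x (pderiv l F) ≠ 0 := by
  by_contra hcon
  push Not at hcon
  refine h ⟨x, hx, fun _ => 1, fun h1 => one_ne_zero (congrFun h1 0), fun _ => ?_, fun l => ?_⟩
  · rw [eval_map]
    exact h0
  · rw [Fin.sum_univ_one, pderiv_map, eval_map, one_mul]
    exact hcon l

/-- smooth hypersurfaces -/
theorem relprime_smooth (hv : 1 ≤ v) {F : MvPolynomial (Fin (v + 1)) k}
    (h : ¬ Crit (fun _ : Fin 1 => map (algebraMap k K) F)) : IsRelPrime (i0 F) (i1 F) := by
  intro P h1 h2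
  by_contra hP
  obtain ⟨x, hx0, hxP⟩ := exists_zero (K := K) hv hP
  obtain ⟨Q, hQ⟩ := h1
  obtain ⟨Q', hQ'⟩ := h2
  have e0 : aeval (fun j => x (0, j)) F = 0 := by
    rw [← aeval_i0, hQ, map_mul, hxP, zero_mul]
  obtain ⟨l, hl⟩ := crit_one h hx0 e0
  have e1 : ∀ l, aeval (fun j => x (0, j)) (pderiv l F) =
      aeval x Q * aeval x (pderiv ((0 : Fin 2), l) P) := by
    intro l
    rw [← aeval_i0, ← pd0_i0, hQ, pderiv_mul, map_add, map_mul, map_mul, hxP]
    ring
  have e2 : ∀ l, 0 = aeval x Q * aeval x (pderiv ((1 : Fin 2), l) P) := by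
    intro l
    have h3 := congrArg (aeval x) (pd1_i0 l F)
    rw [hQ, pderiv_mul, map_add, map_mul, map_mul, hxP, map_zero] at h3
    rw [← h3]
    ring
  have e3 : ∀ l, aeval (fun j => x (0, j)) (pderiv l F) =
      aeval x Q' * aeval x (pderiv ((1 : Fin 2), l) P) := by
    intro l
    rw [← aeval_i0, ← pd1_i1, hQ', pderiv_mul, map_add, map_mul, map_mul, hxP]
    ring
  have hQ0 : aeval x Q ≠ 0 := by
    intro h0
    apply hl
    rw [e1, h0, zero_mul]
  apply hl
  rw [e3, (mul_eq_zero.mp (e2 l).symm).resolve_left hQ0, mul_zero]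

/-- transversal hypersurfaces -/
theorem relprime_pair (hv : 1 ≤ v) {F G : MvPolynomial (Fin (v + 1)) k}
    (h : ¬ Crit (fun i : Fin 2 => map (algebraMap k K) (if i = 0 then F else G))) :
    IsRelPrime (i0 F) (i0 G) := by
  intro P h1 h2
  by_contra hP
  obtain ⟨x, hx0, hxP⟩ := exists_zero (K := K) hv hP
  obtain ⟨Q, hQ⟩ := h1
  obtain ⟨Q', hQ'⟩ := h2
  have e0 : aeval (fun j => x (0, j)) F = 0 := by
    rw [← aeval_i0, hQ, map_mul, hxP, zero_mul]
  have e0' : aeval (fun j => x (0, j)) G = 0 := by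
    rw [← aeval_i0, hQ', map_mul, hxP, zero_mul]
  have e1 : ∀ l, aeval (fun j => x (0, j)) (pderiv l F) =
      aeval x Q * aeval x (pderiv ((0 : Fin 2), l) P) := by
    intro l
    rw [← aeval_i0, ← pd0_i0, hQ, pderiv_mul, map_add, map_mul, map_mul, hxP]
    ring
  have e2 : ∀ l, aeval (fun j => x (0, j)) (pderiv l G) =
      aeval x Q' * aeval x (pderiv ((0 : Fin 2), l) P) := by
    intro l
    rw [← aeval_i0, ← pd0_i0, hQ', pderiv_mul, map_add, map_mul, map_mul, hxP]
    ring
  have key : ∀ c c' : K, (c ≠ 0 ∨ c' ≠ 0) → (∀ l, c * aeval (fun j => x (0, j)) (pderiv l F) +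
      c' * aeval (fun j => x (0, j)) (pderiv l G) = 0) → False := by
    intro c c' hc hl
    refine h ⟨fun j => x (0, j), hx0, fun i => if i = 0 then c else c', ?_, fun i => ?_,
      fun l => ?_⟩
    · intro h0
      rcases hc with hc | hc
      · exact hc (by simpa using congrFun h0 0)
      · exact hc (by simpa using congrFun h0 1)
    · rw [eval_map]
      fin_cases i
      · exact e0
      · exact e0'
    · rw [Fin.sum_univ_two]
      simp only [pderiv_map, eval_map, if_true, one_ne_zero, if_false]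
      exact hl l
  by_cases hQ0 : aeval x Q = 0
  · refine key 1 0 (Or.inl one_ne_zero) fun l => ?_
    rw [e1, hQ0]
    ring
  · refine key (aeval x Q') (-aeval x Q) (Or.inr (neg_ne_zero.mpr hQ0)) fun l => ?_
    rw [e1, e2]
    ring

end

end Pool.Agent.V8H90.HY
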