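import Pool.Agent.V8H90.HY.LemA
import Pool.Agent.V8H90.JT.Num

/-!
Counting the conditions.
-/

set_option autoImplicit false

namespace Pool.Agent.V8H90.HY

open MvPolynomial Pool.Agent.V8H90.JT Pool.Agent.V8H90.AJ

section num

theorem diff1 (N x L : ℕ) : (x + L + N + 1).choose (N + 1) =
    (x + N + 1).choose (N + 1) + ∑ j ∈ Finset.range L, (x + j + N + 1).choose N := by
  induction L with
  | zero => simp
  | succ L ih =>
    rw [Finset.sum_range_succ, ← add_assoc (Nat.choose _ _), ← ih,
      show x + (L + 1) + N + 1 = (x + L + N + 1) + 1 by ring, Nat.choose_succ_succ]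
    ring

theorem diff2 (N x L : ℕ) : (x + 2 * L + N + 2).choose (N + 2) + (x + N + 2).choose (N + 2) ≤
    2 * (x + L + N + 2).choose (N + 2) + L ^ 2 * (x + 2 * L + N).choose N := by
  rcases Nat.eq_zero_or_pos L with h0 | hL
  · subst h0
    simp
    omega
  have h1 := diff1 (N + 1) x L
  have h2 := diff1 (N + 1) (x + L) L
  have e1 : x + L + (N + 1) + 1 = x + L + N + 2 := by ring
  have e2 : x + (N + 1) + 1 = x + N + 2 := by ring
  have e3 : x + L + L + (N + 1) + 1 = x + 2 * L + N + 2 := by ring
  have e4 : N + 1 + 1 = N + 2 := rfl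
  rw [e1, e2, e4] at h1
  rw [e3, e1, e4] at h2
  have h3 : ∑ j ∈ Finset.range L, (x + L + j + (N + 1) + 1).choose (N + 1) ≤
      ∑ j ∈ Finset.range L, (x + j + (N + 1) + 1).choose (N + 1) +
        L ^ 2 * (x + 2 * L + N).choose N := by
    have h4 : ∀ j ∈ Finset.range L, (x + L + j + (N + 1) + 1).choose (N + 1) ≤
        (x + j + (N + 1) + 1).choose (N + 1) + L * (x + 2 * L + N).choose N := by
      intro j hj
      have hj' := Finset.mem_range.mp hj
      have h5 := diff1 N (x + j + 1) L
      have e5 : x + j + 1 + L + N + 1 = x + L + j + (N + 1) + 1 := by ring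
      have e6 : x + j + 1 + N + 1 = x + j + (N + 1) + 1 := by ring
      rw [e5, e6] at h5
      rw [h5]
      refine Nat.add_le_add_left ?_ _
      calc ∑ i ∈ Finset.range L, (x + j + 1 + i + N + 1).choose N
          ≤ ∑ _i ∈ Finset.range L, (x + 2 * L + N).choose N := by
            refine Finset.sum_le_sum fun i hi => Nat.choose_le_choose _ ?_
            have := Finset.mem_range.mp hi
            omega
        _ = L * (x + 2 * L + N).choose N := by simp
    refine (Finset.sum_le_sum h4).trans (le_of_eq ?_)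
    rw [Finset.sum_add_distrib]
    congr 1
    simp
    ring
  omega

theorem choose_form (M x : ℕ) : (M + 1 + x - 1).choose x = (x + M).choose M := by
  rw [show M + 1 + x - 1 = x + M by omega]
  exact Nat.choose_symm_add

/-- the second difference -/
theorem second (v L D : ℕ) (hv : 1 ≤ v) (hD : 2 * L ≤ D) :
    (2 * (v + 1) + D - 1).choose D + (2 * (v + 1) + (D - 2 * L) - 1).choose (D - 2 * L) ≤
      2 * (2 * (v + 1) + (D - L) - 1).choose (D - L) + L ^ 2 * (2 * v + D - 1).choose D := by
  obtain ⟨x, rfl⟩ : ∃ x, D = x + 2 * L := ⟨D - 2 * L, by omega⟩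
  obtain ⟨u, rfl⟩ : ∃ u, v = u + 1 := ⟨v - 1, by omega⟩
  have e1 : x + 2 * L - 2 * L = x := by omega
  have e2 : x + 2 * L - L = x + L := by omega
  rw [e1, e2]
  have a1 := choose_form (2 * u + 3) (x + 2 * L)
  have a2 := choose_form (2 * u + 3) x
  have a3 := choose_form (2 * u + 3) (x + L)
  have a4 := choose_form (2 * u + 1) (x + 2 * L)
  have b : 2 * (u + 1 + 1) = 2 * u + 3 + 1 := by ring
  have b' : 2 * (u + 1) = 2 * u + 1 + 1 := by ring
  rw [b, b', a1, a2, a3, a4]
  exact diff2 (2 * u + 1) x L

end num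

/-- a form is given by its coefficients -/
theorem pol_coeff {σ : Type} [Fintype σ] [DecidableEq σ] {A : Type*} [CommRing A] {d : ℕ}
    {P : MvPolynomial σ A} (hP : P.IsHomogeneous d) : pol (fun s : Ex σ d => coeff s.1 P) = P := by
  rw [← sub_eq_zero]
  refine hom_zero_of_coeff (d := d) ((pol_hom _).sub hP) fun s => ?_
  rw [coeff_sub, coeff_pol, sub_self]

section lin

variable {σ : Type} [Fintype σ] [DecidableEq σ] {E : Type} [Field E]

/-- forms and their coefficients -/
noncomputable def coMap (d : ℕ) : (Ex σ d → E) →ₗ[E] homogeneousSubmodule σ E d :=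
  LinearMap.codRestrict (homogeneousSubmodule σ E d)
    { toFun := fun c => pol c
      map_add' := fun c c' => pol_add c c'
      map_smul' := fun t c => by
        rw [pol_smul, smul_eq_C_mul]
        rfl } fun c => pol_hom c

theorem coMap_apply (d : ℕ) (c : Ex σ d → E) : (coMap d c : MvPolynomial σ E) = pol c := rfl

theorem coMap_bij (d : ℕ) : Function.Bijective (coMap (σ := σ) (E := E) d) := by
  constructor
  · intro c c' h
    funext s
    rw [← coeff_pol c s, ← coeff_pol c' s, ← coMap_apply, ← coMap_apply, h]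
  · intro P
    exact ⟨fun s => coeff s.1 P.1, Subtype.ext (pol_coeff P.2)⟩

/-- forms and their coefficients -/
noncomputable def coEquiv (d : ℕ) : (Ex σ d → E) ≃ₗ[E] homogeneousSubmodule σ E d :=
  LinearEquiv.ofBijective (coMap d) (coMap_bij d)

theorem finrank_hs (d : ℕ) : Module.finrank E (homogeneousSubmodule σ E d) =
    (Fintype.card σ + d - 1).choose d := by
  rw [← (coEquiv (σ := σ) (E := E) d).finrank_eq, Module.finrank_fintype_fun_eq_card, card_Ex]

instance (d : ℕ) : Module.Finite E (homogeneousSubmodule σ E d) :=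
  Module.Finite.equiv (coEquiv (σ := σ) (E := E) d)

omit [Fintype σ] [DecidableEq σ] in
/-- quotients of forms -/
theorem quot_hom {U C : MvPolynomial σ E} {L d : ℕ} (hU : U.IsHomogeneous L) (hU0 : U ≠ 0)
    (h : (U * C).IsHomogeneous (d + L)) : C.IsHomogeneous d := by
  classical
  -- all components of other degrees vanish
  have key : ∀ m, m ≠ d → homogeneousComponent m C = 0 := by
    intro m hm
    have h1 : U * C = ∑ i ∈ Finset.range (C.totalDegree + 1), U * homogeneousComponent i C := by
      rw [← Finset.mul_sum, sum_homogeneousComponent]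
    have h2 := congrArg (homogeneousComponent (m + L)) h1
    rw [homogeneousComponent_of_mem (m := m + L) (n := d + L) h, map_sum,
      if_neg (by omega)] at h2
    have h3 : ∀ i ∈ Finset.range (C.totalDegree + 1), homogeneousComponent (m + L)
        (U * homogeneousComponent i C) = if i = m then U * homogeneousComponent i C else 0 := by
      intro i _
      have h4 : (U * homogeneousComponent i C).IsHomogeneous (L + i) :=
        hU.mul (homogeneousComponent_isHomogeneous i C)
      rw [homogeneousComponent_of_mem (m := m + L) (n := L + i) h4]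
      split_ifs with h5 h6 h6
      · rfl
      · omega
      · omega
      · rfl
    rw [Finset.sum_congr rfl h3, Finset.sum_ite_eq'] at h2
    by_cases hmC : m ∈ Finset.range (C.totalDegree + 1)
    · rw [if_pos hmC] at h2
      exact (mul_eq_zero.mp h2.symm).resolve_left hU0
    · exact homogeneousComponent_eq_zero _ _ (by
        rw [Finset.mem_range] at hmC
        omega)
  have h2 : C = homogeneousComponent d C := by
    conv_lhs => rw [← sum_homogeneousComponent C]
    by_cases hd : d ∈ Finset.range (C.totalDegree + 1)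
    · rw [Finset.sum_eq_single d (fun m _ hm => key m hm) fun h => absurd hd h]
    · rw [homogeneousComponent_eq_zero d C (by
        rw [Finset.mem_range] at hd
        omega)]
      exact Finset.sum_eq_zero fun m hm => key m fun h => hd (h ▸ hm)
  rw [h2]
  exact homogeneousComponent_isHomogeneous _ _

variable {U V : MvPolynomial σ E} {L d : ℕ}

/-- the combinations of two forms -/
noncomputable def Phi (hU : U.IsHomogeneous L) (hV : V.IsHomogeneous L) (d : ℕ) :
    (homogeneousSubmodule σ E (d + L) × homogeneousSubmodule σ E (d + L)) →ₗ[E]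
      homogeneousSubmodule σ E (d + L + L) where
  toFun x := ⟨U * x.1.1 + V * x.2.1, by
    have h1 := hU.mul x.1.2
    have h2 := hV.mul x.2.2
    have e : L + (d + L) = d + L + L := by ring
    rw [e] at h1 h2
    exact h1.add h2⟩
  map_add' x y := Subtype.ext (by
    change U * (x.1.1 + y.1.1) + V * (x.2.1 + y.2.1) = (U * x.1.1 + V * x.2.1) +
      (U * y.1.1 + V * y.2.1)
    ring)
  map_smul' t x := Subtype.ext (by
    change U * (t • x.1.1) + V * (t • x.2.1) = t • (U * x.1.1 + V * x.2.1)
    rw [smul_add, mul_smul_comm, mul_smul_comm])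

/-- the relations -/
noncomputable def Psi (hU : U.IsHomogeneous L) (hV : V.IsHomogeneous L) (d : ℕ) :
    homogeneousSubmodule σ E d →ₗ[E]
      (homogeneousSubmodule σ E (d + L) × homogeneousSubmodule σ E (d + L)) where
  toFun x := (⟨V * x.1, by
    have h2 := hV.mul x.2
    rwa [add_comm L d] at h2⟩, ⟨-(U * x.1), by
    have h2 := (hU.mul x.2).neg
    rwa [add_comm L d] at h2⟩)
  map_add' x y := Prod.ext (Subtype.ext (by
    change V * (x.1 + y.1) = V * x.1 + V * y.1
    ring)) (Subtype.ext (by
    change -(U * (x.1 + y.1)) = -(U * x.1) + -(U * y.1)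
    ring))
  map_smul' t x := Prod.ext (Subtype.ext (by
    change V * (t • x.1) = t • (V * x.1)
    rw [mul_smul_comm])) (Subtype.ext (by
    change -(U * (t • x.1)) = t • -(U * x.1)
    rw [mul_smul_comm, smul_neg]))

theorem finrank_Phi (hU : U.IsHomogeneous L) (hV : V.IsHomogeneous L) (hV0 : V ≠ 0)
    (hc : IsRelPrime U V) (d : ℕ) :
    2 * Module.finrank E (homogeneousSubmodule σ E (d + L)) ≤
      Module.finrank E (LinearMap.range (Phi hU hV d)) +
        Module.finrank E (homogeneousSubmodule σ E d) := by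
  have h1 := LinearMap.finrank_range_add_finrank_ker (Phi hU hV d)
  rw [Module.finrank_prod] at h1
  have h2 : LinearMap.ker (Phi hU hV d) ≤ LinearMap.range (Psi hU hV d) := by
    intro x hx
    rw [LinearMap.mem_ker] at hx
    have h3 : U * x.1.1 + V * x.2.1 = 0 := congrArg Subtype.val hx
    have h4 : V ∣ U * x.1.1 := by
      refine ⟨-x.2.1, ?_⟩
      linear_combination h3
    obtain ⟨C, hC⟩ := hc.symm.dvd_of_dvd_mul_left h4
    have h5 : C.IsHomogeneous d := by
      apply quot_hom hV hV0
      rw [← hC]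
      exact x.1.2
    refine ⟨⟨C, h5⟩, Prod.ext (Subtype.ext hC.symm) (Subtype.ext ?_)⟩
    change -(U * C) = x.2.1
    rw [hC] at h3
    have h6 : V * (U * C + x.2.1) = 0 := by linear_combination h3
    have h7 := (mul_eq_zero.mp h6).resolve_left hV0
    linear_combination -h7
  have h3 := Submodule.finrank_mono h2
  have h4 := LinearMap.finrank_range_le (Psi hU hV d)
  omega

omit [Fintype σ] [DecidableEq σ] in
/-- the intersection of subspaces of small codimension -/
theorem exists_in_all {M : Type} [AddCommGroup M] [Module E M] [Module.Finite E M] {q0 : ℕ}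
    (W : Fin q0 → Submodule E M)
    (h : ∑ i, Module.finrank E (M ⧸ W i) < Module.finrank E M) :
    ∃ x : M, x ≠ 0 ∧ ∀ i, x ∈ W i := by
  classical
  by_contra hcon
  push Not at hcon
  have hinj : Function.Injective (LinearMap.pi fun i => (W i).mkQ : M →ₗ[E] (∀ i, M ⧸ W i)) := by
    rw [injective_iff_map_eq_zero]
    intro x hx
    by_contra h0
    obtain ⟨i, hi⟩ := hcon x h0
    apply hi
    have h1 := congrFun hx i
    rw [LinearMap.pi_apply, Submodule.mkQ_apply, Pi.zero_apply] at h1
    exact (Submodule.Quotient.mk_eq_zero _).mp h1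
  have h1 := LinearMap.finrank_le_finrank_of_injective hinj
  rw [Module.finrank_pi_fintype] at h1
  omega

/-- many conditions -/
theorem exists_common {q0 : ℕ} {U V : Fin q0 → MvPolynomial σ E}
    (hU : ∀ i, (U i).IsHomogeneous L) (hV : ∀ i, (V i).IsHomogeneous L) (hV0 : ∀ i, V i ≠ 0)
    (hc : ∀ i, IsRelPrime (U i) (V i))
    (h : q0 * (Module.finrank E (homogeneousSubmodule σ E (d + L + L)) +
      Module.finrank E (homogeneousSubmodule σ E d) -
        2 * Module.finrank E (homogeneousSubmodule σ E (d + L))) <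
        Module.finrank E (homogeneousSubmodule σ E (d + L + L))) :
    ∃ R : MvPolynomial σ E, R ≠ 0 ∧ R.IsHomogeneous (d + L + L) ∧
      ∀ i, ∃ A B, R = U i * A + V i * B := by
  classical
  obtain ⟨R, hR0, hR⟩ := exists_in_all (E := E) (M := homogeneousSubmodule σ E (d + L + L))
    (fun i => LinearMap.range (Phi (hU i) (hV i) d)) (by
    have h2 : ∀ i, Module.finrank E (homogeneousSubmodule σ E (d + L + L) ⧸
        LinearMap.range (Phi (hU i) (hV i) d)) ≤
        Module.finrank E (homogeneousSubmodule σ E (d + L + L)) +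
        Module.finrank E (homogeneousSubmodule σ E d) -
        2 * Module.finrank E (homogeneousSubmodule σ E (d + L)) := by
      intro i
      have h3 := finrank_Phi (hU i) (hV i) (hV0 i) (hc i) d
      have h4 := Submodule.finrank_quotient_add_finrank (LinearMap.range (Phi (hU i) (hV i) d))
      omega
    refine lt_of_le_of_lt (Finset.sum_le_sum fun i _ => h2 i) ?_
    rw [Finset.sum_const, Finset.card_univ, Fintype.card_fin, smul_eq_mul]
    exact h)
  refine ⟨R.1, fun h0 => hR0 (Subtype.ext h0), R.2, fun i => ?_⟩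
  obtain ⟨x, hx⟩ := hR i
  refine ⟨x.1.1, x.2.1, ?_⟩
  exact (congrArg Subtype.val hx).symm

end lin

section final

variable {v : ℕ} {E : Type} [Field E]

theorem i1_ne {F : MvPolynomial (Fin (v + 1)) E} {δ : ℕ} (hδ : 1 ≤ δ) (hF : F.IsHomogeneous δ)
    (hc : IsRelPrime (i0 F) (i1 F)) : i1 F ≠ 0 := by
  intro h0
  rw [h0, isRelPrime_zero_right] at hc
  have h1 : IsUnit (eval (0 : Fin 2 × Fin (v + 1) → E) (i0 F)) := hc.map _
  have h2 : eval (0 : Fin 2 × Fin (v + 1) → E) (i0 F) = 0 := by
    have h3 := eval_of_hom (i0_hom hF) 0 (0 : Fin 2 × Fin (v + 1) → E)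
    rw [zero_pow (by omega), zero_mul] at h3
    rw [← h3]
    congr 1
    congr 1
    funext x
    simp
  rw [h2] at h1
  exact not_isUnit_zero h1

/-- **Existence of the polynomials.** -/
theorem exists_mem {q0 L D : ℕ} (hv : 1 ≤ v) (hD : 2 * L ≤ D)
    {F : Fin q0 → MvPolynomial (Fin (v + 1)) E} {δ e : Fin q0 → ℕ} (hδ : ∀ i, 1 ≤ δ i)
    (hF : ∀ i, (F i).IsHomogeneous (δ i)) (he : ∀ i, e i * δ i = L)
    (hc : ∀ i, IsRelPrime (i0 (F i)) (i1 (F i)))
    (hcount : q0 * L ^ 2 * (2 * v + D - 1).choose D < (2 * (v + 1) + D - 1).choose D) :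
    ∃ R : MvPolynomial (Fin 2 × Fin (v + 1)) E, R ≠ 0 ∧ R.IsHomogeneous D ∧
      ∀ i, R ∈ II (F i) ^ e i := by
  obtain ⟨d, rfl⟩ : ∃ d, D = d + L + L := ⟨D - 2 * L, by omega⟩
  have hsec := second v L (d + L + L) hv hD
  rw [show d + L + L - 2 * L = d by omega, show d + L + L - L = d + L by omega] at hsec
  have hfr : ∀ n, Module.finrank E (homogeneousSubmodule (Fin 2 × Fin (v + 1)) E n) =
      (2 * (v + 1) + n - 1).choose n := by
    intro n
    rw [finrank_hs, Fintype.card_prod, Fintype.card_fin, Fintype.card_fin]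
  obtain ⟨R, h1, h2, h3⟩ := exists_common (d := d) (L := L) (U := fun i => i0 (F i) ^ e i)
    (V := fun i => i1 (F i) ^ e i) (fun i => by
      have := (i0_hom (hF i)).pow (e i)
      rwa [mul_comm, he] at this) (fun i => by
      have := (i1_hom (hδ i) (hF i)).pow (e i)
      rwa [mul_comm, he] at this) (fun i => pow_ne_zero _ (i1_ne (hδ i) (hF i) (hc i)))
      (fun i => (hc i).pow) (by
      simp only [hfr]
      refine lt_of_le_of_lt ?_ hcount
      rw [mul_assoc]
      refine Nat.mul_le_mul_left _ ?_
      omega)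
  refine ⟨R, h1, h2, fun i => ?_⟩
  obtain ⟨A, B, hAB⟩ := h3 i
  rw [hAB]
  exact Ideal.add_mem _ (Ideal.mul_mem_right _ _ (Ideal.pow_mem_pow (i0_mem _) _))
    (Ideal.mul_mem_right _ _ (Ideal.pow_mem_pow (i1_mem _) _))

end final

end Pool.Agent.V8H90.HY
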