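import Pool.Agent.V8H90.HY.Sub

/-!
The covers of projective space with the equations `y i ^ μ i = F i (x)`.
-/

set_option autoImplicit false

namespace Pool.Agent.V8H90.HY

open FF MvPolynomial Filter Metric Set Topology Pool.Agent.W601.SM Pool.Agent.W601.PH
  Pool.Agent.V8H90.JT Pool.Agent.V8H90.AJ Pool.Agent.W602.GT Pool.Agent.V8H90.LG
open Pool.Agent.Y191 (RF exists_base)

variable {n q : ℕ} {K : Type} [Field K] [Algebra ℂ K] {δ μ w : Fin q → ℕ}
  {F : Fin q → MvPolynomial (Fin (n + 1)) ℂ}

/-- **The closed subvarieties of the covers.** -/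
theorem cover_gtF {q0 L D M b0 d : ℕ} {e : Fin q → ℕ} (hG : GoodF F δ e L D q0) (hn : 1 ≤ n)
    (hL : 1 ≤ L) (hDL : D < L * q0) (hb1 : 1 ≤ b0) (hb0 : b0 + D * (M + 1) = M * (L * q0))
    (hμ : ∀ i, M + 1 ≤ μ i) (hw : ∀ i, μ i * w i = δ i) {x : Fin (n + 1) → K} {y : Fin q → K}
    (hx : x ≠ 0) (hxy : ∀ i, y i ^ μ i = aeval x (F i)) (hd : 1 ≤ d)
    (hK : Algebra.trdeg ℂ K = d) (halg : Algebra.IsAlgebraic (RF ℂ x) K) :
    GeneralType ℂ K d := by
  have htr : Algebra.trdeg ℂ (RF ℂ x) = d := by
    have h1 := trdeg_add_eq ℂ (RF ℂ x) (A := K)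
    rw [trdeg_eq_zero_iff.mpr halg, add_zero] at h1
    rw [h1, hK]
  have hb' : ∃ j, x j ≠ 0 := by
    by_contra hcon
    push Not at hcon
    exact hx (funext hcon)
  obtain ⟨σ, hσ0, hind, -⟩ := exists_base hb' htr
  obtain ⟨T, hT, ω, g1, g2, g3, E, g4, g5⟩ := mainF hG hn hL hDL hb1 hb0 hd
    (K := K) (u := x) (j1 := σ 0) hσ0 (J := fun j => σ j.succ) hind
  refine ⟨hK, T, hT, ω, g1, fun P _ j Δ hF => ?_, E, g4, g5⟩
  classical
  obtain ⟨j0, hj0, hmin⟩ := Finset.exists_min_image (Finset.univ.filter fun j => x j ≠ 0)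
    (fun j => P.ord (x j)) ⟨σ 0, by simpa using hσ0⟩
  have hj0' : x j0 ≠ 0 := by simpa using hj0
  have hmin' : ∀ j, x j = 0 ∨ P.ord (x j0) ≤ P.ord (x j) := by
    intro j
    by_cases hj : x j = 0
    · exact Or.inl hj
    · exact Or.inr (hmin j (by simpa using hj))
  have hreg : ∀ j, GO P 0 (x j / x j0) := by
    intro j
    by_cases hj : x j = 0
    · left
      rw [hj, zero_div]
    · right
      rw [P.ord_div hj hj0']
      have := (hmin' j).resolve_left hj
      have h2 : (0 : ℤ) ≤ P.ord (x j) - P.ord (x j0) := by omega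
      exact_mod_cast h2
  have hxx : x = fun j => x j0 * (x j / x j0) := by
    funext j
    field_simp
  have h8 := g2 P j0 hj0' hmin' 0 le_rfl (fun i hi => by
    have h1 : aeval x (F i) = x j0 ^ δ i * aeval (fun j => x j / x j0) (F i) := by
      conv_lhs => rw [hxx]
      exact aeval_hom (hG.hom i) _ _
    have h2 : aeval (fun j => x j / x j0) (F i) ≠ 0 := by
      intro h0
      rw [h1, h0, mul_zero] at hi
      exact hi rfl
    have h3 : 0 ≤ P.ord (aeval (fun j => x j / x j0) (F i)) := by
      have := (go_aeval hreg (F i)).resolve_left h2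
      exact_mod_cast this
    have h4 : P.ord (aeval x (F i)) = δ i * P.ord (x j0) +
        P.ord (aeval (fun j => x j / x j0) (F i)) := by
      rw [h1, P.ord_mul (pow_ne_zero _ hj0') h2, P.ord_pow]
    have h5 : P.ord (aeval x (F i)) = μ i * P.ord (y i) := by
      rw [← hxy i, P.ord_pow]
    have h6 : (δ i : ℤ) = μ i * w i := by
      rw [← hw i]
      push_cast
      ring
    have h7 : P.ord (aeval x (F i)) - δ i * P.ord (x j0) =
        μ i * (P.ord (y i) - w i * P.ord (x j0)) := by
      rw [h5, h6]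
      ring
    have hμ0 : (M : ℤ) + 1 ≤ μ i := by
      have := hμ i
      exact_mod_cast this
    have h9 : 0 ≤ P.ord (y i) - w i * P.ord (x j0) := by
      by_contra hcon
      push Not at hcon
      have h10 : (μ i : ℤ) * (P.ord (y i) - w i * P.ord (x j0)) < 0 :=
        mul_neg_of_pos_of_neg (by omega) hcon
      omega
    rcases h9.eq_or_lt with h10 | h10
    · left
      rw [← h10, mul_zero] at h7
      omega
    · right
      have h11 : (M : ℤ) + 1 ≤ P.ord (aeval x (F i)) - δ i * P.ord (x j0) := by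
        rw [h7]
        nlinarith
      have h12 : ((M : ℝ) + 1) ≤ (P.ord (aeval x (F i)) : ℝ) - δ i * P.ord (x j0) := by
        exact_mod_cast h11
      linarith) j Δ hF
  rw [mul_zero, neg_zero] at h8
  exact h8.toReg

/-- the function fields of subvarieties of the covers are algebraic over the function fields of
their images -/
theorem cover_alg (hF : ∀ i, (F i).IsHomogeneous (δ i)) (hμ : ∀ i, 1 ≤ μ i)
    (hw : ∀ i, μ i * w i = δ i) {x : Fin (n + 1) → K} {y : Fin q → K}
    (hxy : ∀ i, y i ^ μ i = aeval x (F i))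
    (hgen : IntermediateField.adjoin ℂ ({f | ∃ i j, x j ≠ 0 ∧ f = x i / x j} ∪
      {f | ∃ i j, x j ≠ 0 ∧ f = y i / x j ^ w i}) = ⊤) : Algebra.IsAlgebraic (RF ℂ x) K := by
  have h1 : (algebraicClosure (RF ℂ x) K).restrictScalars ℂ = ⊤ := by
    rw [← top_le_iff, ← hgen, IntermediateField.adjoin_le_iff]
    rintro f (⟨i, j, hj, rfl⟩ | ⟨i, j, hj, rfl⟩)
    · have h2 : x i / x j ∈ RF ℂ x := IntermediateField.subset_adjoin ℂ _ ⟨i, j, hj, rfl⟩
      exact mem_algebraicClosure_iff.mpr (isAlgebraic_algebraMap (⟨x i / x j, h2⟩ : RF ℂ x))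
    · have h2 : aeval (fun l => x l / x j) (F i) ∈ RF ℂ x := by
        have h3 : ∀ G : MvPolynomial (Fin (n + 1)) ℂ, aeval (fun l => x l / x j) G ∈ RF ℂ x := by
          intro G
          induction G using MvPolynomial.induction_on with
          | C c => rw [aeval_C]; exact IntermediateField.algebraMap_mem _ _
          | add p q hp hq => rw [map_add]; exact add_mem hp hq
          | mul_X p i hp =>
            rw [map_mul, aeval_X]
            exact mul_mem hp (IntermediateField.subset_adjoin ℂ _ ⟨i, j, hj, rfl⟩)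
        exact h3 _
      have h3 : (y i / x j ^ w i) ^ μ i = aeval (fun l => x l / x j) (F i) := by
        have hxx : x = fun l => x j * (x l / x j) := by
          funext l
          field_simp
        have h4 : aeval x (F i) = x j ^ δ i * aeval (fun l => x l / x j) (F i) := by
          conv_lhs => rw [hxx]
          exact aeval_hom (hF i) _ _
        rw [div_pow, hxy i, ← pow_mul, mul_comm (w i), hw, h4,
          mul_div_cancel_left₀ _ (pow_ne_zero _ hj)]
      have h4 : IsAlgebraic (RF ℂ x) ((y i / x j ^ w i) ^ μ i) := by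
        rw [h3]
        exact isAlgebraic_algebraMap (⟨_, h2⟩ : RF ℂ x)
      exact mem_algebraicClosure_iff.mpr (h4.of_pow (hμ i))
  refine ⟨fun f => ?_⟩
  have h2 : f ∈ (algebraicClosure (RF ℂ x) K).restrictScalars ℂ := by
    rw [h1]
    trivial
  exact mem_algebraicClosure_iff.mp h2

/-- **Meromorphic maps to the covers are constant.** -/
theorem cover_meroF {m : ℕ} (hc : ConstF m F) (hF : ∀ i, (F i).IsHomogeneous (δ i))
    (hδ : ∀ i, 1 ≤ δ i) (hm : 1 ≤ m) (hμ : ∀ i, m ≤ μ i) (hw : ∀ i, μ i * w i = δ i) {g : ℕ}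
    {x : (Fin g → ℂ) → Fin (n + 1) → ℂ} {y : (Fin g → ℂ) → Fin q → ℂ}
    (hx : ∀ j, Differentiable ℂ fun p => x p j) (hy : ∀ i, Differentiable ℂ fun p => y p i)
    (hxy : ∀ p i, y p i ^ μ i = eval (x p) (F i)) (p p' : Fin g → ℂ) :
    (∀ i j, x p i * x p' j = x p j * x p' i) ∧
      ∀ i j, y p i * x p' j ^ w i = y p' i * x p j ^ w i := by
  have hμ1 : ∀ i, 1 ≤ μ i := fun i => hm.trans (hμ i)
  have hw1 : ∀ i, 1 ≤ w i := by
    intro i
    have h1 := hw i
    by_contra hcon
    have : w i = 0 := by omega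
    rw [this, mul_zero] at h1
    have := hδ i
    omega
  have hscale : ∀ i (c : ℂ) (u : Fin (n + 1) → ℂ), eval (c • u) (F i) = c ^ δ i * eval u (F i) :=
    fun i c u => eval_of_hom (hF i) c u
  by_cases hp : x p = 0
  · have hyp : ∀ i, y p i = 0 := by
      intro i
      have h1 := hxy p i
      have h2 := hscale i 0 (x p)
      rw [zero_smul, zero_pow (by have := hδ i; omega), zero_mul] at h2
      rw [hp, h2] at h1
      exact pow_eq_zero_iff (by have := hμ1 i; omega) |>.mp h1
    refine ⟨fun i j => ?_, fun i j => ?_⟩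
    · rw [hp]
      simp
    · rw [hyp, hp, Pi.zero_apply, zero_pow (by have := hw1 i; omega)]
      ring
  let Ln : ℂ → Fin g → ℂ := fun s => p + s • (p' - p)
  have hL : Differentiable ℂ Ln := by
    simp only [Ln]
    fun_prop
  have hL0 : Ln 0 = p := by simp [Ln]
  have hL1 : Ln 1 = p' := by simp [Ln]
  set u : ℂ → Fin (n + 1) → ℂ := fun t => x (Ln t) with hu
  set Y : ℂ → Fin q → ℂ := fun t => y (Ln t) with hY
  have hud : ∀ j, Differentiable ℂ fun t => u t j := fun j => (hx j).comp hL
  have hYd : ∀ i, Differentiable ℂ fun t => Y t i := fun i => (hy i).comp hL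
  have huY : ∀ t i, Y t i ^ μ i = eval (u t) (F i) := fun t i => hxy (Ln t) i
  have hu0 : u 0 ≠ 0 := by
    rw [hu]
    simp only [hL0]
    exact hp
  obtain ⟨U, hU1, hU2, hU3⟩ := exists_reduced hud hu0
  have hmul : MulF m F U := by
    intro i z a ha
    obtain ⟨k, hk⟩ : ∃ k, U z k ≠ 0 := by
      by_contra hcon
      push Not at hcon
      exact hU2 z (funext hcon)
    have hid : (fun t => Y t i) ^ μ i * (fun t => U t k) ^ δ i =
        (fun t => u t k) ^ δ i * fun t => eval (U t) (F i) := by
      funext t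
      simp only [Pi.mul_apply, Pi.pow_apply]
      obtain ⟨c, hc', -⟩ := hU3 t
      rw [huY, hc', hscale, Pi.smul_apply, smul_eq_mul, mul_pow]
      ring
    have hUF : Differentiable ℂ fun t => eval (U t) (F i) := fun t =>
      eval_diff (fun j => hU1 j t) (F i)
    have h1 : μ i • analyticOrderAt (fun t => Y t i) z =
        δ i • analyticOrderAt (fun t => u t k) z + a := by
      have h2 := congrArg (fun f => analyticOrderAt f z) hid
      rw [analyticOrderAt_mul (((hYd i).analyticAt z).pow _) (((hU1 k).analyticAt z).pow _),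
        analyticOrderAt_mul (((hud k).analyticAt z).pow _) (hUF.analyticAt z),
        analyticOrderAt_pow ((hYd i).analyticAt z), analyticOrderAt_pow ((hU1 k).analyticAt z),
        analyticOrderAt_pow ((hud k).analyticAt z), ha,
        ((hU1 k).analyticAt z).analyticOrderAt_eq_zero.mpr hk, smul_zero, add_zero] at h2
      exact h2
    have h3 : analyticOrderAt (fun t => u t k) z ≠ ⊤ := by
      intro h4
      rw [analyticOrderAt_eq_top] at h4
      have h5 : ∀ᶠ t in 𝓝 z, ∀ j, u t j = 0 := by
        have h6 : ∀ᶠ t in 𝓝 z, U t k ≠ 0 := (hU1 k).continuous.continuousAt.eventually_ne hk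
        filter_upwards [h4, h6] with t h7 h8 j
        obtain ⟨c, hc', -⟩ := hU3 t
        rw [hc', Pi.smul_apply, smul_eq_mul] at h7
        have h9 := (mul_eq_zero.mp h7).resolve_right h8
        rw [hc', h9, zero_smul]
        rfl
      apply hu0
      funext j
      have h6 : AnalyticOnNhd ℂ (fun t => u t j) Set.univ := fun t _ => (hud j).analyticAt t
      have h7 := h6.eqOn_zero_of_preconnected_of_eventuallyEq_zero isPreconnected_univ
        (Set.mem_univ z) (h5.mono fun t ht => ht j)
      exact h7 (Set.mem_univ 0)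
    obtain ⟨r, hr⟩ := ENat.ne_top_iff_exists.mp h3
    rw [← hr] at h1
    have h4 : analyticOrderAt (fun t => Y t i) z ≠ ⊤ := by
      intro h5
      rw [h5, nsmul_eq_mul, ENat.mul_top (by
        have := hμ1 i
        exact_mod_cast (by omega : μ i ≠ 0)), nsmul_eq_mul] at h1
      exact absurd h1.symm (by exact_mod_cast ENat.natCast_ne_top (δ i * r + a))
    obtain ⟨b, hb⟩ := ENat.ne_top_iff_exists.mp h4
    rw [← hb, nsmul_eq_mul, nsmul_eq_mul] at h1
    have h5 : μ i * b = δ i * r + a := by exact_mod_cast h1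
    rw [← hw i] at h5
    have h6 : μ i * (w i * r) ≤ μ i * b := by
      rw [h5, mul_assoc]
      exact Nat.le_add_right _ _
    have h7 : w i * r ≤ b := Nat.le_of_mul_le_mul_left h6 (hμ1 i)
    obtain ⟨b', rfl⟩ := Nat.exists_eq_add_of_le h7
    have h8 : a = μ i * b' := by
      have : μ i * (w i * r + b') = μ i * w i * r + μ i * b' := by ring
      omega
    rcases Nat.eq_zero_or_pos b' with h9 | h9
    · left
      rw [h8, h9, mul_zero]
    · right
      rw [h8]
      exact (hμ i).trans (Nat.le_mul_of_pos_right _ h9)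
  have hUc := hc U hU1 hU2 hmul 0
  obtain ⟨k, hk⟩ : ∃ k, U 0 k ≠ 0 := by
    by_contra hcon
    push Not at hcon
    exact hU2 0 (funext hcon)
  set x0 := U 0 with hx0
  set dd : ℂ → ℂ := fun t => u t k / x0 k with hdd
  have hddd : Differentiable ℂ dd := (hud k).div_const _
  have hud' : ∀ t, u t = dd t • x0 := by
    intro t
    obtain ⟨c, hc1, -⟩ := hU3 t
    obtain ⟨s, hs⟩ := hUc t
    have h1 : u t = (c * s) • x0 := by rw [hc1, hs, smul_smul]
    have h2 : dd t = c * s := by
      rw [hdd]
      simp only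
      rw [h1, Pi.smul_apply, smul_eq_mul, mul_div_cancel_right₀ _ hk]
    rw [h1, h2]
  have hdd0 : dd 0 ≠ 0 := by
    intro h0
    apply hu0
    rw [hud' 0, h0, zero_smul]
  have hrat : ∀ i, ∃ r : ℂ, ∀ t, Y t i = r * dd t ^ w i := by
    intro i
    refine ratio_const (hYd i) (g := fun t => dd t ^ w i) (hddd.pow _) (d := μ i)
      (a := fun k => if k = μ i then 1 else if k = 0 then -eval x0 (F i) else 0) ?_ (fun t => ?_)
      (t1 := 0) (pow_ne_zero _ hdd0)
    · rw [if_pos rfl]
      exact one_ne_zero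
    · rw [Finset.sum_eq_add (0 : ℕ) (μ i) (by have := hμ1 i; omega)]
      · rw [if_neg (by have := hμ1 i; omega : ¬ (0 = μ i)), if_pos rfl, if_pos rfl, Nat.sub_self,
          huY, hud' t, hscale, Nat.sub_zero, pow_zero, pow_zero, ← pow_mul, mul_comm (w i), hw]
        ring
      · intro c _ hc'
        rw [if_neg hc'.2, if_neg hc'.1, zero_mul]
      · intro h
        exact absurd (Finset.mem_range.mpr (Nat.succ_pos _)) h
      · intro h
        exact absurd (Finset.self_mem_range_succ _) h
  choose r hr using hrat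
  have e0 : x p = dd 0 • x0 := by
    have := hud' 0
    rw [hu] at this
    simp only [hL0] at this
    exact this
  have e1 : x p' = dd 1 • x0 := by
    have := hud' 1
    rw [hu] at this
    simp only [hL1] at this
    exact this
  have f0 : ∀ i, y p i = r i * dd 0 ^ w i := by
    intro i
    have := hr i 0
    rw [hY] at this
    simp only [hL0] at this
    exact this
  have f1 : ∀ i, y p' i = r i * dd 1 ^ w i := by
    intro i
    have := hr i 1
    rw [hY] at this
    simp only [hL1] at this
    exact this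
  refine ⟨fun i j => ?_, fun i j => ?_⟩
  · rw [e0, e1]
    simp only [Pi.smul_apply, smul_eq_mul]
    ring
  · rw [f0, f1, e0, e1]
    simp only [Pi.smul_apply, smul_eq_mul, mul_pow]
    ring

end Pool.Agent.V8H90.HY
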