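import Pool.Agent.V8H90.HY.Pt

/-!
The values of the invariant polynomials along curves.
-/

set_option autoImplicit false

namespace Pool.Agent.V8H90.HY

open MvPolynomial Filter Metric Real Set Topology Pool.Agent.W602.NC Pool.Agent.W602.TL
  Pool.Agent.W601.SM Pool.Agent.V8H90.JT Pool.Agent.V8H90.AJ

variable {v q q0 L D : ℕ} {δ e : Fin q → ℕ} {F : Fin q → MvPolynomial (Fin (v + 1)) ℂ}

/-- the value and the derivative -/
noncomputable def jv (f : ℂ → Fin (v + 1) → ℂ) (z : ℂ) (x : Fin 2 × Fin (v + 1)) : ℂ :=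
  if x.1 = 0 then f z x.2 else deriv (fun t => f t x.2) z

theorem jv0 (f : ℂ → Fin (v + 1) → ℂ) (z : ℂ) (j : Fin (v + 1)) : jv f z (0, j) = f z j :=
  if_pos rfl

theorem jv1 (f : ℂ → Fin (v + 1) → ℂ) (z : ℂ) (j : Fin (v + 1)) :
    jv f z (1, j) = deriv (fun t => f t j) z := if_neg one_ne_zero

theorem jv_congr {f g : ℂ → Fin (v + 1) → ℂ} {z : ℂ} (h : f =ᶠ[𝓝 z] g) : jv f z = jv g z := by
  funext x
  unfold jv
  split_ifs
  · rw [h.eq_of_nhds]
  · have h1 : (fun t => f t x.2) =ᶠ[𝓝 z] fun t => g t x.2 := h.mono fun t ht => congrFun ht x.2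
    exact h1.deriv_eq

/-- the chain rule -/
theorem chain {f : ℂ → Fin (v + 1) → ℂ} {z : ℂ} (hf : ∀ j, DifferentiableAt ℂ (fun t => f t j) z)
    (G : MvPolynomial (Fin (v + 1)) ℂ) :
    HasDerivAt (fun t => eval (f t) G) (eval (jv f z) (i1 G)) z := by
  have h1 : ∀ G : MvPolynomial (Fin (v + 1)) ℂ, eval (jv f z) (i1 G) =
      dv (f z) (fun j => deriv (fun t => f t j) z) G := by
    intro G
    have h2 := aeval_i1 (A := ℂ) (jv f z) G
    exact h2
  rw [h1]
  induction G using MvPolynomial.induction_on with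
  | C c =>
    rw [dv_C]
    simp only [eval_C]
    exact hasDerivAt_const z c
  | add p q hp hq =>
    rw [dv_add]
    simp only [map_add]
    exact hp.add hq
  | mul_X p i hp =>
    rw [dv_mul, dv_X, aeval_X]
    simp only [map_mul, eval_X]
    have h3 := hp.mul (hf i).hasDerivAt
    exact h3

theorem eval_jv_i1 {f : ℂ → Fin (v + 1) → ℂ} {z : ℂ}
    (hf : ∀ j, DifferentiableAt ℂ (fun t => f t j) z) (G : MvPolynomial (Fin (v + 1)) ℂ) :
    eval (jv f z) (i1 G) = deriv (fun t => eval (f t) G) z := (chain hf G).deriv.symm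

theorem eval_jv_i0 (f : ℂ → Fin (v + 1) → ℂ) (z : ℂ) (G : MvPolynomial (Fin (v + 1)) ℂ) :
    eval (jv f z) (i0 G) = eval (f z) G := by
  rw [eval_i0]
  congr 2

theorem eval_diff {f : ℂ → Fin (v + 1) → ℂ} {z : ℂ}
    (hf : ∀ j, DifferentiableAt ℂ (fun t => f t j) z) (G : MvPolynomial (Fin (v + 1)) ℂ) :
    DifferentiableAt ℂ (fun t => eval (f t) G) z := (chain hf G).differentiableAt

/-- the scaling of the vector -/
theorem jv_scale {R : MvPolynomial (Fin 2 × Fin (v + 1)) ℂ} (hd : R.IsHomogeneous D)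
    (hI : Inv (k := 1) 1 R) {h : ℂ → ℂ} {g : ℂ → Fin (v + 1) → ℂ} {z : ℂ}
    (hh : DifferentiableAt ℂ h z) (hg : ∀ j, DifferentiableAt ℂ (fun t => g t j) z)
    (h0 : h z ≠ 0) : eval (jv (fun t j => h t * g t j) z) R = h z ^ D * eval (jv g z) R := by
  have h1 := ev_smul (n := v) (k := 1) hd hI (PowerSeries.C (h z) + PowerSeries.C (deriv h z) *
    PowerSeries.X) (by simpa using h0)
    (fun j => PowerSeries.C (g z j) + PowerSeries.C (deriv (fun t => g t j) z) * PowerSeries.X)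
  have e0 : PowerSeries.constantCoeff (PowerSeries.C (h z) + PowerSeries.C (deriv h z) *
    PowerSeries.X) = h z := by simp
  rw [e0] at h1
  have e1 : ev (k := 1) (fun j => PowerSeries.C (g z j) + PowerSeries.C
      (deriv (fun t => g t j) z) * PowerSeries.X) R = eval (jv g z) R := by
    unfold ev
    congr 2
    funext x
    obtain ⟨m, j⟩ := x
    fin_cases m
    · simp [jv]
    · simp [jv]
  have e2 : ev (k := 1) (fun j => (PowerSeries.C (h z) + PowerSeries.C (deriv h z) *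
      PowerSeries.X) * (PowerSeries.C (g z j) + PowerSeries.C
      (deriv (fun t => g t j) z) * PowerSeries.X)) R =
      eval (jv (fun t j => h t * g t j) z) R := by
    unfold ev
    congr 2
    funext x
    obtain ⟨m, j⟩ := x
    fin_cases m
    · simp [jv]
    · have h2 : deriv (fun t => h t * g t j) z = deriv h z * g z j + h z *
          deriv (fun t => g t j) z := by
        exact deriv_mul hh (hg j)
      have e : (PowerSeries.C (h z) + PowerSeries.C (deriv h z) * PowerSeries.X) *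
          (PowerSeries.C (g z j) + PowerSeries.C (deriv (fun t => g t j) z) * PowerSeries.X) =
          PowerSeries.C (h z * g z j) + PowerSeries.C (deriv h z * g z j + h z *
          deriv (fun t => g t j) z) * PowerSeries.X + PowerSeries.C (deriv h z *
          deriv (fun t => g t j) z) * PowerSeries.X ^ 2 := by
        simp only [map_add, map_mul]
        ring
      change PowerSeries.coeff 1 ((PowerSeries.C (h z) + PowerSeries.C (deriv h z) *
          PowerSeries.X) * (PowerSeries.C (g z j) + PowerSeries.C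
          (deriv (fun t => g t j) z) * PowerSeries.X)) = jv _ z (1, j)
      rw [e, jv1, h2]
      simp only [map_add, PowerSeries.coeff_C_mul, PowerSeries.coeff_X_pow]
      rw [PowerSeries.coeff_C, if_neg one_ne_zero]
      simp
  rw [← e1, ← h1, e2]

/-- **The bound at a good point.** -/
theorem cur_point (hG : GoodF F δ e L D q0) (hv : 1 ≤ v) (hL : 1 ≤ L) {s : Fin q0 → Fin q}
    (hs : Function.Injective s) {w : ℕ} {R : MvPolynomial (Fin 2 × Fin (v + 1)) ℂ}
    (hR : AdmF F e s D w R) :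
    ∃ (C : ℝ) (N : ℕ), 1 ≤ C ∧ ∀ f : ℂ → Fin (v + 1) → ℂ, Ent f → ∀ (z : ℂ) (ε : ℝ), 0 < ε →
      ε ≤ 1 → ∀ j0, f z j0 ≠ 0 → (∀ j, ‖f z j‖ ≤ ‖f z j0‖) → (∀ t ∈ closedBall z ε, f t j0 ≠ 0) →
      (∀ j, ∀ t ∈ closedBall z ε, ‖f t j ^ L / f t j0 ^ L‖ ≤
        Real.exp 1 * ‖f z j ^ L / f z j0 ^ L‖) →
      (∀ i, ∀ t ∈ closedBall z ε, ‖eval (f t) (F (s i)) ^ e (s i) / f t j0 ^ L‖ ≤
        Real.exp 1 * ‖eval (f z) (F (s i)) ^ e (s i) / f z j0 ^ L‖) →
      ‖eval (jv f z) R‖ * ‖f z j0‖ ^ (L * q0) ≤ C * (1 / ε) ^ N * ‖f z j0‖ ^ D *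
        ∏ i, ‖eval (f z) (F (s i)) ^ e (s i)‖ := by
  classical
  obtain ⟨C, N, hC, hpt⟩ := point hG hv hs hR
  have hE1 : (1 : ℝ) ≤ Real.exp 1 := Real.one_le_exp zero_le_one
  refine ⟨C * Real.exp 1 ^ N, N, one_le_mul_of_one_le_of_one_le hC (one_le_pow₀ hE1), ?_⟩
  intro f hf z ε hε hε1 j0 hj0 hmax hne hrj hri
  have hzz : z ∈ closedBall z ε := mem_closedBall_self hε.le
  set M : ℝ := ‖f z j0‖ with hM
  have hMpos : 0 < M := norm_pos_iff.mpr hj0
  set g : ℂ → Fin (v + 1) → ℂ := fun t j => f t j / f t j0 with hg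
  have hroot : ∀ (a b : ℝ) (n : ℕ), 1 ≤ n → 0 ≤ a → 0 ≤ b → a ^ n ≤ Real.exp 1 * b ^ n →
      a ≤ Real.exp 1 * b := by
    intro a b n hn ha hb h
    by_contra hcon
    push Not at hcon
    have h1 : (Real.exp 1 * b) ^ n < a ^ n := pow_lt_pow_left₀ hcon (by positivity) (by omega)
    have h2 : Real.exp 1 * b ^ n ≤ (Real.exp 1 * b) ^ n := by
      rw [mul_pow]
      refine mul_le_mul_of_nonneg_right ?_ (pow_nonneg hb _)
      calc Real.exp 1 = Real.exp 1 ^ 1 := (pow_one _).symm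
        _ ≤ Real.exp 1 ^ n := pow_le_pow_right₀ hE1 hn
    linarith
  have hgd : ∀ j, ∀ t ∈ closedBall z ε, DifferentiableAt ℂ (fun t => g t j) t := fun j t ht =>
    (hf j t).div (hf j0 t) (hne t ht)
  have hgb : ∀ j, ∀ t ∈ closedBall z ε, ‖g t j‖ ≤ Real.exp 1 * ‖g z j‖ := by
    intro j t ht
    refine hroot _ _ L hL (norm_nonneg _) (norm_nonneg _) ?_
    have h1 := hrj j t ht
    rwa [← div_pow, ← div_pow, norm_pow, norm_pow] at h1
  have hgz : ∀ j, ‖g z j‖ ≤ 1 := by
    intro j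
    rw [hg]
    simp only
    rw [norm_div, div_le_one hMpos]
    exact hmax j
  -- Cauchy
  have hcauchy : ∀ (u : ℂ → ℂ), (∀ t ∈ closedBall z ε, DifferentiableAt ℂ u t) →
      (∀ t ∈ closedBall z ε, ‖u t‖ ≤ Real.exp 1 * ‖u z‖) →
      ‖deriv u z‖ ≤ Real.exp 1 / ε * ‖u z‖ := by
    intro u hu hub
    have h1 : DiffContOnCl ℂ u (ball z ε) := by
      apply DifferentiableOn.diffContOnCl
      rw [closure_ball z hε.ne']
      exact fun t ht => (hu t ht).differentiableWithinAt
    have h2 := Complex.norm_deriv_le_of_forall_mem_sphere_norm_le hε h1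
      (C := Real.exp 1 * ‖u z‖) fun t ht => hub t (sphere_subset_closedBall ht)
    refine h2.trans (le_of_eq ?_)
    ring
  set E : ℝ := Real.exp 1 / ε with hE
  have hEge : 1 ≤ E := by
    rw [hE, le_div_iff₀ hε]
    linarith
  -- the forms
  have hUg : ∀ i, ∀ t ∈ closedBall z ε, eval (g t) (F (s i)) ^ e (s i) =
      eval (f t) (F (s i)) ^ e (s i) / f t j0 ^ L := by
    intro i t ht
    have h1 : f t = fun j => f t j0 * g t j := by
      funext j
      rw [hg]
      simp only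
      rw [mul_div_cancel₀ _ (hne t ht)]
    have h2 : eval (f t) (F (s i)) = f t j0 ^ δ (s i) * eval (g t) (F (s i)) := by
      conv_lhs => rw [h1]
      exact eval_of_hom (hG.hom (s i)) _ _
    rw [h2, mul_pow, ← pow_mul, mul_comm (δ (s i)), hG.mul,
      mul_div_cancel_left₀ _ (pow_ne_zero _ (hne t ht))]
  have he1 : ∀ i, 1 ≤ e (s i) := by
    intro i
    have h1 := hG.mul (s i)
    by_contra hcon
    have : e (s i) = 0 := by omega
    rw [this, zero_mul] at h1
    omega
  have hφb : ∀ i, ∀ t ∈ closedBall z ε, ‖eval (g t) (F (s i))‖ ≤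
      Real.exp 1 * ‖eval (g z) (F (s i))‖ := by
    intro i t ht
    refine hroot _ _ (e (s i)) (he1 i) (norm_nonneg _) (norm_nonneg _) ?_
    have h1 := hri i t ht
    rwa [← hUg i t ht, ← hUg i z hzz, norm_pow, norm_pow] at h1
  have hkey := hpt (jv g z) E hEge (fun j => by rw [jv0]; exact hgz j)
    ⟨j0, by rw [jv0]; exact div_self hj0⟩ (fun j => by
      rw [jv1]
      refine (hcauchy _ (hgd j) (hgb j)).trans ?_
      exact mul_le_of_le_one_right (by positivity) (hgz j)) (fun i => by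
      rw [eval_jv_i1 fun j => hgd j z hzz]
      refine (hcauchy _ (fun t ht => eval_diff (fun j => hgd j t ht) _) (hφb i)).trans (le_of_eq ?_)
      rfl)
  have hPP : eval (jv f z) R = f z j0 ^ D * eval (jv g z) R := by
    rw [← jv_scale hR.hom hR.inv (hf j0 z) (fun j => hgd j z hzz) hj0]
    congr 1
    congr 1
    apply jv_congr
    have h1 : ∀ᶠ t in 𝓝 z, f t j0 ≠ 0 := (hf j0).continuous.continuousAt.eventually_ne hj0
    filter_upwards [h1] with t ht
    funext j
    rw [hg]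
    simp only
    rw [mul_div_cancel₀ _ ht]
  have hprod : ∏ i, ‖eval (fun j => jv g z (0, j)) (F (s i))‖ ^ e (s i) =
      (∏ i, ‖eval (f z) (F (s i)) ^ e (s i)‖) / M ^ (L * q0) := by
    have h1 : ∀ i, ‖eval (fun j => jv g z (0, j)) (F (s i))‖ ^ e (s i) =
        ‖eval (f z) (F (s i)) ^ e (s i)‖ / M ^ L := by
      intro i
      have h2 : (fun j => jv g z (0, j)) = g z := funext fun j => jv0 g z j
      rw [h2, ← norm_pow, hUg i z hzz, norm_div, norm_pow (f z j0)]
    rw [Finset.prod_congr rfl fun i _ => h1 i, Finset.prod_div_distrib, Finset.prod_const,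
      Finset.card_univ, Fintype.card_fin, ← pow_mul]
  rw [hprod] at hkey
  rw [hPP, norm_mul, norm_pow, ← hM]
  have hMp : 0 < M ^ (L * q0) := pow_pos hMpos _
  calc M ^ D * ‖eval (jv g z) R‖ * M ^ (L * q0)
      ≤ M ^ D * (C * E ^ N * ((∏ i, ‖eval (f z) (F (s i)) ^ e (s i)‖) / M ^ (L * q0))) *
        M ^ (L * q0) :=
        mul_le_mul_of_nonneg_right (mul_le_mul_of_nonneg_left hkey (by positivity)) hMp.le
    _ = C * E ^ N * M ^ D * ∏ i, ‖eval (f z) (F (s i)) ^ e (s i)‖ := by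
        field_simp
    _ = _ := by
        rw [hE, div_pow, one_div, inv_pow]
        ring

end Pool.Agent.V8H90.HY
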