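import Pool.Agent.V8H90.HY.Const
import Pool.Agent.W602.TL.Proj

/-!
Entire curves which are ramified over general hypersurfaces are constant: the main statement.
-/

set_option autoImplicit false

namespace Pool.Agent.V8H90.HY

open MvPolynomial Filter Metric Real Set Topology Pool.Agent.H159R3.NV Pool.Agent.W602.NC
  Pool.Agent.W602.TL Pool.Agent.W601.SM Pool.Agent.V8H90.JT Pool.Agent.V8H90.AJ

variable {v q q0 L D : ℕ} {δ e : Fin q → ℕ} {F : Fin q → MvPolynomial (Fin (v + 1)) ℂ}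

/-- the multiplicities -/
def MulF (m : ℕ) (F : Fin q → MvPolynomial (Fin (v + 1)) ℂ) (f : ℂ → Fin (v + 1) → ℂ) : Prop :=
  ∀ (i : Fin q) (z : ℂ) (a : ℕ), analyticOrderAt (fun t => eval (f t) (F i)) z = a →
    a = 0 ∨ m ≤ a

theorem ent_ex {f : ℂ → Fin (v + 1) → ℂ} (hf : Ent f) (z0 : ℂ) : Ent fun z => f (ex z0 z) :=
  fun j => (hf j).comp (ex_diff z0)

theorem ord_ex {g : ℂ → ℂ} (z0 z : ℂ) :
    analyticOrderAt (fun z => g (ex z0 z)) z = analyticOrderAt g (ex z0 z) := by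
  have e1 : (fun z => g (ex z0 z)) = g ∘ ex z0 := rfl
  rw [e1, analyticOrderAt_comp_of_deriv_ne_zero ((ex_diff z0).analyticAt z)]
  rw [ex_deriv]
  exact ex_ne z0 z

/-- the invariant polynomial does not vanish: the curve is not contained in the hypersurface -/
theorem ne_of_mem {f : ℂ → Fin (v + 1) → ℂ} (hf : Ent f) {G : MvPolynomial (Fin (v + 1)) ℂ} {a : ℕ}
    (ha : 1 ≤ a) {R : MvPolynomial (Fin 2 × Fin (v + 1)) ℂ} (hR : R ∈ II G ^ a) {z : ℂ}
    (hz : eval (jv f z) R ≠ 0) : ∃ z, eval (f z) G ≠ 0 := by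
  by_contra hcon
  push Not at hcon
  apply hz
  have h1 : II G ≤ RingHom.ker (eval (jv f z)) := by
    apply II_le
    · rw [RingHom.mem_ker, eval_jv_i0]
      exact hcon z
    · rw [RingHom.mem_ker, eval_jv_i1 fun j => hf j z]
      have h2 : (fun t => eval (f t) G) = fun _ => 0 := funext hcon
      rw [h2, deriv_const]
  have h2 : R ∈ II G := Ideal.pow_le_self (by omega) hR
  exact h1 h2

/-- **The circle bound.** -/
theorem circle_F (hG : GoodF F δ e L D q0) (hv : 1 ≤ v) (hL : 1 ≤ L) {m : ℕ} (hm : 1 ≤ m)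
    (hnum : D * m + L * q0 < m * (L * q0)) {s : Fin q0 → Fin q}
    (hs : Function.Injective s) {w : ℕ} {R : MvPolynomial (Fin 2 × Fin (v + 1)) ℂ}
    (hR : AdmF F e s D w R) {f : ℂ → Fin (v + 1) → ℂ} (hf : Ent f) (hnz : ∀ z, f z ≠ 0)
    (hmul : MulF m F f) (hR0 : eval (jv f 0) R ≠ 0) {p : ℕ}
    {U : Fin (p + 1) → ℂ → ℂ} (hU : ∀ a, Differentiable ℂ (U a)) (hU0 : ∀ a, U a 0 ≠ 0)
    (r : Fin q0 → Fin (p + 1)) (hr : Function.Injective r)
    (hUr : ∀ i z, U (r i) z = eval (f z) (F (s i)) ^ e (s i))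
    (hcase : ∀ a, (∃ i, ∀ z, U a z = eval (f z) (F i) ^ e i) ∨ ∃ j, ∀ z, U a z = f z j ^ L)
    (hcov : ∀ j, (∀ z, f z j = 0) ∨ ∃ a, ∀ z, U a z = f z j ^ L) :
    ∃ A B : ℝ, 0 ≤ A ∧ 0 ≤ B ∧ ∀ s ε : ℝ, 0 < s → 0 < ε → ε ≤ 1 →
      (∀ z, ‖z‖ = s → GoodAt U z ε) → tau U s ≤ A + B * Real.log (1 / ε) := by
  classical
  obtain ⟨C, N, hC, hpt⟩ := cur_point hG hv hL hs hR
  obtain ⟨K, hK, hKb⟩ := form_bound hG.hom hG.mul
  set P1 : ℂ → ℂ := fun z => eval (jv f z) R with hP1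
  have hP1d : Differentiable ℂ P1 := jv_diff hf R
  set T : Finset (Fin (p + 1)) := Finset.univ.image r with hT
  set κ := m * (L * q0) - (D * m + L * q0) with hκ
  have hκ0 : 0 < κ := by omega
  set c := (m - 1) * L with hc
  set P : ℂ → ℂ := fun z => P1 z ^ (m * L) * ∏ a ∈ Tᶜ, U a z ^ c with hP
  have hrest : Differentiable ℂ fun z => ∏ a ∈ Tᶜ, U a z ^ c :=
    Differentiable.fun_finsetProd fun a _ => (hU a).pow c
  have hPd : Differentiable ℂ P := (hP1d.pow _).mul hrest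
  have hK1 : 1 ≤ K ^ q0 := one_le_pow₀ hK
  have hprodT : ∀ g : Fin (p + 1) → ℂ, ∏ a ∈ T, g a = ∏ i, g (r i) := by
    intro g
    rw [hT, Finset.prod_image fun a _ b _ h => hr h]
  refine circle (c := c) (d := N * m * L) (κ := κ) hκ0 (C := (C ^ m * (K ^ q0)) ^ L * (K ^ q0) ^ κ)
    ?_ hU hU0 hPd ?_ ?_ ?_
  · exact one_le_mul_of_one_le_of_one_le (one_le_pow₀ (one_le_mul_of_one_le_of_one_le
      (one_le_pow₀ hC) hK1)) (one_le_pow₀ hK1)
  · exact mul_ne_zero (pow_ne_zero _ hR0) (Finset.prod_ne_zero_iff.mpr fun a _ =>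
      pow_ne_zero _ (hU0 a))
  · -- orders
    intro z
    have e1 : (fun z => ∏ a, U a z ^ c) = (fun z => ∏ i, U (r i) z ^ c) *
        fun z => ∏ a ∈ Tᶜ, U a z ^ c := by
      funext z
      rw [Pi.mul_apply, ← Finset.prod_mul_prod_compl T]
      congr 1
      exact hprodT fun a => U a z ^ c
    have e2 : P = (P1 ^ (m * L)) * fun z => ∏ a ∈ Tᶜ, U a z ^ c := by
      funext z
      rfl
    have d1 : Differentiable ℂ fun z => ∏ i, U (r i) z ^ c :=
      Differentiable.fun_finsetProd fun i _ => (hU (r i)).pow c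
    rw [e1, e2, analyticOrderAt_mul (d1.analyticAt z) (hrest.analyticAt z),
      analyticOrderAt_mul ((hP1d.pow _).analyticAt z) (hrest.analyticAt z)]
    refine add_le_add ?_ le_rfl
    rw [analyticOrderAt_pow (hP1d.analyticAt z), order_prod Finset.univ (fun i z => U (r i) z ^ c)
      (fun i => (hU (r i)).pow c) z]
    -- finite orders
    have hGd : ∀ i, Differentiable ℂ fun t => eval (f t) (F (s i)) :=
      fun i t => eval_diff (fun j => hf j t) _
    have he1 : ∀ i, 1 ≤ e (s i) := by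
      intro i
      have h1 := hG.mul (s i)
      by_contra hcon
      have : e (s i) = 0 := by omega
      rw [this, zero_mul] at h1
      omega
    have hfin : ∀ i, ∃ a : ℕ, analyticOrderAt (fun t => eval (f t) (F (s i))) z = a := by
      intro i
      have h1 : eval (f 0) (F (s i)) ≠ 0 := by
        intro h0
        apply hU0 (r i)
        rw [hUr, h0, zero_pow (by have := he1 i; omega)]
      obtain ⟨a, ha⟩ := ENat.ne_top_iff_exists.mp (finite_order (hGd i) h1 z)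
      exact ⟨a, ha.symm⟩
    choose a ha using hfin
    have h1 := cur_order hG hv hs hR hf (hnz z) a ha
    have h2 : ∀ i, analyticOrderAt (fun z => U (r i) z ^ c) z = ((c * (e (s i) * a i) : ℕ) : ℕ∞) := by
      intro i
      have e3 : (fun z => U (r i) z ^ c) = (fun t => eval (f t) (F (s i))) ^ (e (s i) * c) := by
        funext z
        rw [Pi.pow_apply, hUr, ← pow_mul]
      rw [e3, analyticOrderAt_pow ((hGd i).analyticAt z), ha i]
      rw [nsmul_eq_mul, ← Nat.cast_mul]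
      congr 1
      ring
    rw [Finset.sum_congr rfl fun i _ => h2 i, ← Nat.cast_sum]
    have h3 : (∑ i, c * (e (s i) * a i)) ≤ m * L * ∑ i, e (s i) * (a i - 1) := by
      rw [Finset.mul_sum]
      refine Finset.sum_le_sum fun i _ => ?_
      rw [hc]
      rcases hmul (s i) z (a i) (ha i) with h0 | h0
      · rw [h0]
        simp
      · obtain ⟨m', rfl⟩ : ∃ n, m = n + 1 := ⟨m - 1, by omega⟩
        obtain ⟨a', ha'⟩ : ∃ n, a i = n + 1 := ⟨a i - 1, by omega⟩
        rw [ha', Nat.add_sub_cancel, Nat.add_sub_cancel]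
        have h4 : m' * (a' + 1) ≤ (m' + 1) * a' := by nlinarith
        calc m' * L * (e (s i) * (a' + 1)) = (L * e (s i)) * (m' * (a' + 1)) := by ring
          _ ≤ (L * e (s i)) * ((m' + 1) * a') := Nat.mul_le_mul_left _ h4
          _ = _ := by ring
    calc ((∑ i, c * (e (s i) * a i) : ℕ) : ℕ∞) ≤ ((m * L * ∑ i, e (s i) * (a i - 1) : ℕ) : ℕ∞) := by
          exact_mod_cast h3
      _ = (m * L) • ((∑ i, e (s i) * (a i - 1) : ℕ) : ℕ∞) := by
          rw [nsmul_eq_mul, Nat.cast_mul]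
      _ ≤ (m * L) • analyticOrderAt P1 z := nsmul_le_nsmul_right h1 _
  · -- the pointwise bound
    intro z ε hε hε1 hgood
    have hzz : z ∈ closedBall z ε := mem_closedBall_self hε.le
    obtain ⟨j0, -, hj0⟩ := Finset.exists_max_image Finset.univ (fun j => ‖f z j‖)
      ⟨0, Finset.mem_univ _⟩
    have hmax : ∀ j, ‖f z j‖ ≤ ‖f z j0‖ := fun j => hj0 j (Finset.mem_univ j)
    have hne0 : f z j0 ≠ 0 := by
      intro h0
      apply hnz z
      funext j
      have h1 := hmax j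
      rw [h0, norm_zero] at h1
      exact norm_le_zero_iff.mp h1
    obtain ⟨a0, ha0⟩ : ∃ a, ∀ z, U a z = f z j0 ^ L := by
      rcases hcov j0 with h | h
      · exact absurd (h z) hne0
      · exact h
    have hne : ∀ t ∈ closedBall z ε, f t j0 ≠ 0 := by
      intro t ht h0
      apply hgood.1 a0 t ht
      rw [ha0, h0, zero_pow (by omega)]
    have hMpos : 0 < ‖f z j0‖ := norm_pos_iff.mpr hne0
    have h1 := hpt f hf z ε hε hε1 j0 hne0 hmax hne (fun j t ht => by
      rcases hcov j with h | ⟨a, ha⟩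
      · rw [h t, zero_pow (by omega), zero_div, norm_zero]
        positivity
      · rw [← ha t, ← ha0 t, ← ha z, ← ha0 z]
        exact hgood.2 a0 a t ht) (fun i t ht => by
      rw [← hUr i t, ← ha0 t, ← hUr i z, ← ha0 z]
      exact hgood.2 a0 (r i) t ht)
    have hUb : ∀ a, ‖U a z‖ ≤ K * ‖f z j0‖ ^ L := by
      intro a
      rcases hcase a with ⟨i, hi⟩ | ⟨j, hj⟩
      · rw [hi z]
        exact hKb i (f z) _ hMpos hmax
      · rw [hj z, norm_pow]
        calc ‖f z j‖ ^ L ≤ ‖f z j0‖ ^ L := pow_le_pow_left₀ (norm_nonneg _) (hmax j) _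
          _ ≤ K * ‖f z j0‖ ^ L := le_mul_of_one_le_left (by positivity) hK
    have h2 : ∏ i, ‖U (r i) z‖ ≤ K ^ q0 * ‖f z j0‖ ^ (L * q0) := by
      calc ∏ i, ‖U (r i) z‖ ≤ ∏ _i : Fin q0, K * ‖f z j0‖ ^ L :=
            Finset.prod_le_prod (fun i _ => norm_nonneg _) fun i _ => hUb _
        _ = _ := by rw [Finset.prod_const, Finset.card_univ, Fintype.card_fin, mul_pow, ← pow_mul]
    have h3 : sup U z ≤ K ^ q0 * ‖f z j0‖ ^ L := by
      obtain ⟨a, ha⟩ := sup_attained U z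
      rw [ha]
      refine (hUb a).trans (mul_le_mul_of_nonneg_right ?_ (by positivity))
      have hq0 : q0 ≠ 0 := by
        rintro rfl
        simp at hnum
      exact le_self_pow₀ hK hq0
    have hS0 : 0 ≤ sup U z := (norm_nonneg _).trans (le_sup U z 0)
    have h4 := real_step (X := ‖P1 z‖) (M := ‖f z j0‖) (Pd := ∏ i, ‖U (r i) z‖) (S := sup U z)
      (C := C) (C' := K ^ q0) (E := 1 / ε) (N := N) (norm_nonneg _) hMpos
      (Finset.prod_nonneg fun i _ => norm_nonneg _) hS0 hC hK1 (by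
        rw [le_div_iff₀ hε]
        linarith) hm hnum (by
        refine h1.trans (le_of_eq ?_)
        congr 1
        exact Finset.prod_congr rfl fun i _ => by rw [hUr]) h2 h3
    have h5 : ∏ a, ‖U a z‖ ^ c = (∏ i, ‖U (r i) z‖) ^ c * ∏ a ∈ Tᶜ, ‖U a z‖ ^ c := by
      rw [← Finset.prod_mul_prod_compl T, ← Finset.prod_pow, hT,
        Finset.prod_image fun a _ b _ h => hr h]
    have h6 : ‖P z‖ = ‖P1 z‖ ^ (m * L) * ∏ a ∈ Tᶜ, ‖U a z‖ ^ c := by
      rw [hP]
      simp only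
      rw [norm_mul, norm_pow, norm_prod]
      simp only [norm_pow]
    rw [h5, h6]
    have hR0' : 0 ≤ ∏ a ∈ Tᶜ, ‖U a z‖ ^ c := Finset.prod_nonneg fun a _ => by positivity
    calc ‖P1 z‖ ^ (m * L) * (∏ a ∈ Tᶜ, ‖U a z‖ ^ c) * sup U z ^ κ
        = (‖P1 z‖ ^ (m * L) * sup U z ^ κ) * ∏ a ∈ Tᶜ, ‖U a z‖ ^ c := by ring
      _ ≤ _ := mul_le_mul_of_nonneg_right h4 hR0'
      _ = _ := by rw [← hc, ← hκ]; ring

/-- **Entire curves which are ramified over the hypersurfaces are constant.** -/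
theorem cur_const (hG : GoodF F δ e L D q0) (hv : 1 ≤ v) (hL : 1 ≤ L) {m : ℕ} (hm : 1 ≤ m)
    (hnum : D * m + L * q0 < m * (L * q0)) {f : ℂ → Fin (v + 1) → ℂ} (hf : Ent f)
    (hnz : ∀ z, f z ≠ 0) (hmul : MulF m F f) (z z' : ℂ) : ∃ t : ℂ, f z' = t • f z := by
  classical
  by_contra hcon
  have hDL : D < L * q0 := by
    by_contra hc
    push Not at hc
    have h1 := Nat.mul_le_mul_right m hc
    rw [mul_comm (L * q0) m] at h1
    omega
  have he1 : ∀ i, 1 ≤ e i := by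
    intro i
    have h1 := hG.mul i
    by_contra hcon
    have : e i = 0 := by omega
    rw [this, zero_mul] at h1
    omega
  -- the Wronskian
  have hW : ∃ i j z, f z i * deriv (fun t => f t j) z - f z j * deriv (fun t => f t i) z ≠ 0 := by
    by_contra hc
    push Not at hc
    exact hcon (wr_const hf hnz hc z z')
  obtain ⟨i1, j1, zw, hzw⟩ := hW
  set P : ℂ → ℂ := fun z => f z i1 * deriv (fun t => f t j1) z -
    f z j1 * deriv (fun t => f t i1) z with hP
  have hPd : Differentiable ℂ P := ((hf i1).mul (hf j1).deriv).sub ((hf j1).mul (hf i1).deriv)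
  -- the family
  set ι : Type := {i : Fin q // ∃ z, eval (f z) (F i) ≠ 0} ⊕ {j : Fin (v + 1) // ∃ z, f z j ≠ 0}
    with hι
  set Hf : ι → ℂ → ℂ := fun a z => Sum.elim (fun i : {i : Fin q // ∃ z, eval (f z) (F i) ≠ 0} =>
    eval (f z) (F i) ^ e i) (fun j : {j : Fin (v + 1) // ∃ z, f z j ≠ 0} => f z j ^ L) a with hHf
  obtain ⟨jj, hjj⟩ := Function.ne_iff.mp (hnz 0)
  obtain ⟨p, hp⟩ : ∃ p, Fintype.card ι = p + 1 := by
    have : 0 < Fintype.card ι := Fintype.card_pos_iff.mpr ⟨Sum.inr ⟨jj, 0, hjj⟩⟩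
    exact ⟨Fintype.card ι - 1, by omega⟩
  set eqv : ι ≃ Fin (p + 1) := Fintype.equivFinOfCardEq hp with heqv
  set H : Fin (p + 1) → ℂ → ℂ := fun a => Hf (eqv.symm a) with hH
  have hHl : ∀ (i : {i : Fin q // ∃ z, eval (f z) (F i) ≠ 0}) z, H (eqv (Sum.inl i)) z =
      eval (f z) (F i) ^ e i := by
    intro i z
    rw [hH]
    simp only [Equiv.symm_apply_apply]
    rfl
  have hHr : ∀ (j : {j : Fin (v + 1) // ∃ z, f z j ≠ 0}) z, H (eqv (Sum.inr j)) z = f z j ^ L := by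
    intro j z
    rw [hH]
    simp only [Equiv.symm_apply_apply]
    rfl
  have hcase : ∀ a, (∃ i : {i : Fin q // ∃ z, eval (f z) (F i) ≠ 0}, eqv (Sum.inl i) = a) ∨
      ∃ j : {j : Fin (v + 1) // ∃ z, f z j ≠ 0}, eqv (Sum.inr j) = a := by
    intro a
    obtain ⟨b, rfl⟩ := eqv.surjective a
    rcases b with i | j
    · exact Or.inl ⟨i, rfl⟩
    · exact Or.inr ⟨j, rfl⟩
  have hHd : ∀ a, Differentiable ℂ (H a) := by
    intro a
    rcases hcase a with ⟨i, rfl⟩ | ⟨j, rfl⟩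
    · have : H (eqv (Sum.inl i)) = fun z => eval (f z) (F i) ^ e i := funext (hHl i)
      rw [this]
      exact Differentiable.pow (fun t => eval_diff (fun j => hf j t) _) _
    · have : H (eqv (Sum.inr j)) = fun z => f z j ^ L := funext (hHr j)
      rw [this]
      exact (hf j).pow L
  have hHne : ∀ a, ∃ z, H a z ≠ 0 := by
    intro a
    rcases hcase a with ⟨⟨i, z, hz⟩, rfl⟩ | ⟨⟨j, z, hz⟩, rfl⟩
    · exact ⟨z, by rw [hHl]; exact pow_ne_zero _ hz⟩
    · exact ⟨z, by rw [hHr]; exact pow_ne_zero _ hz⟩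
  have hj1 : ∃ a, ∀ c : ℂ, ∃ z, H a z - c * H 0 z ≠ 0 := by
    by_contra hc
    push Not at hc
    choose c hc using hc
    apply hcon
    -- all the functions are proportional
    set a0 := eqv (Sum.inr ⟨jj, 0, hjj⟩) with ha0
    have hca0 : c a0 ≠ 0 := by
      intro h0
      obtain ⟨z, hz⟩ := hHne a0
      apply hz
      have := hc a0 z
      rw [h0, zero_mul, sub_zero] at this
      exact this
    have h1 : ∀ j, ∃ b : ℂ, ∀ z, f z j ^ L = b * f z jj ^ L := by
      intro j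
      by_cases hj : ∃ z, f z j ≠ 0
      · refine ⟨c (eqv (Sum.inr ⟨j, hj⟩)) / c a0, fun z => ?_⟩
        have h2 := hc (eqv (Sum.inr ⟨j, hj⟩)) z
        have h3 := hc a0 z
        rw [ha0, hHr] at h3
        rw [hHr] at h2
        have h4 : f z jj ^ L = c a0 * H 0 z := sub_eq_zero.mp h3
        have h5 : f z j ^ L = c (eqv (Sum.inr ⟨j, hj⟩)) * H 0 z := sub_eq_zero.mp h2
        rw [h4, h5]
        field_simp
      · push Not at hj
        exact ⟨0, fun z => by rw [hj z, zero_pow (by omega), zero_mul]⟩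
    choose b hb using h1
    have hjz : ∀ z, f z jj ≠ 0 := by
      intro z h0
      apply hnz z
      funext j
      have h2 := hb j z
      rw [h0, zero_pow (by omega), mul_zero] at h2
      exact pow_eq_zero_iff (by omega) |>.mp h2
    refine const_of_finite hf hnz
      (T := Fintype.piFinset fun j => Polynomial.nthRootsFinset L (b j)) (fun w => ?_) z z'
    refine ⟨(f w jj)⁻¹ • f w, ?_, f w jj, ?_⟩
    · rw [Fintype.mem_piFinset]
      intro j
      rw [Polynomial.mem_nthRootsFinset (by omega)]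
      rw [Pi.smul_apply, smul_eq_mul, mul_pow, inv_pow, hb j w]
      have := pow_ne_zero L (hjz w)
      field_simp
    · rw [smul_smul, mul_inv_cancel₀ (hjz w), one_smul]
  obtain ⟨a1, ha1⟩ := hj1
  refine contra H hHd hHne a1 ha1 hPd ⟨zw, hzw⟩ ?_
  intro z0 h0 hP0
  set f' : ℂ → Fin (v + 1) → ℂ := fun z => f (ex z0 z) with hf'
  have hf'e : Ent f' := ent_ex hf z0
  have hder : ∀ j, deriv (fun t => f' t j) 0 = deriv (fun t => f t j) (ex z0 0) * ex z0 0 := by
    intro j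
    have h := (((hf j) (ex z0 0)).hasDerivAt.comp (0 : ℂ) ((ex_diff z0) 0).hasDerivAt).deriv
    rw [ex_deriv] at h
    exact h
  have hMi : Mi fun a j => jv f' 0 (a, j) := by
    refine ⟨i1, j1, ?_⟩
    beta_reduce
    rw [jv0, jv1, jv0, jv1, hder, hder]
    have h1 : f' 0 i1 * (deriv (fun t => f t j1) (ex z0 0) * ex z0 0) -
        f' 0 j1 * (deriv (fun t => f t i1) (ex z0 0) * ex z0 0) = P (ex z0 0) * ex z0 0 := by
      rw [hP]
      simp only [hf']
      ring
    rw [h1]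
    exact mul_ne_zero hP0 (ex_ne _ _)
  obtain ⟨s, w, R, hs, hw1, hwD, hR, hR0⟩ := exists_cpF hG hv hDL hMi
  have hR0' : eval (jv f' 0) R ≠ 0 := hR0
  have hsne : ∀ i, ∃ z, eval (f z) (F (s i)) ≠ 0 := by
    intro i
    obtain ⟨z, hz⟩ := ne_of_mem hf'e (he1 _) (hR.mem i) hR0'
    exact ⟨_, hz⟩
  refine circle_F hG hv hL hm hnum hs hR hf'e (fun z => hnz _) (fun i z a ha => ?_) hR0'
    (U := fun i z => H i (ex z0 z)) (fun a => (hHd a).comp (ex_diff z0)) h0
    (fun i => eqv (Sum.inl ⟨s i, hsne i⟩)) (fun i j hij => ?_) (fun i z => ?_) (fun a => ?_)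
    (fun j => ?_)
  · refine hmul i (ex z0 z) a ?_
    rw [← ord_ex]
    exact ha
  · have h1 := Sum.inl_injective (eqv.injective hij)
    exact hs (congrArg Subtype.val h1)
  · exact hHl _ _
  · rcases hcase a with ⟨i, rfl⟩ | ⟨j, rfl⟩
    · exact Or.inl ⟨i, fun z => hHl _ _⟩
    · exact Or.inr ⟨j, fun z => hHr _ _⟩
  · by_cases hj : ∃ z, f z j ≠ 0
    · exact Or.inr ⟨eqv (Sum.inr ⟨j, hj⟩), fun z => hHr _ _⟩
    · push Not at hj
      exact Or.inl fun z => hj _

end Pool.Agent.V8H90.HY
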