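import Pool.Agent.V8H90.HY.Gen

/-!
Descent of the polynomials.
-/

set_option autoImplicit false

namespace Pool.Agent.V8H90.HY

open MvPolynomial Pool.Agent.V8H90.JT Pool.Agent.V8H90.AJ

attribute [local instance] MvPolynomial.algebraMvPolynomial

section red

variable {k : Type} [Field k] {σ : Type} {Λ : Type} [Field Λ] [Algebra k Λ]

theorem red_mul_map (f : Λ →ₗ[k] k) (Q : MvPolynomial σ Λ) (P : MvPolynomial σ k) :
    red f (Q * map (algebraMap k Λ) P) = red f Q * P := by
  classical
  ext s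
  rw [coeff_red, coeff_mul, coeff_mul, map_sum]
  refine Finset.sum_congr rfl fun x _ => ?_
  rw [coeff_map, coeff_red, mul_comm, ← Algebra.smul_def, map_smul, smul_eq_mul, mul_comm]

theorem red_mem (f : Λ →ₗ[k] k) {J : Ideal (MvPolynomial σ k)} {R : MvPolynomial σ Λ}
    (hR : R ∈ J.map (map (algebraMap k Λ) : MvPolynomial σ k →+* MvPolynomial σ Λ)) :
    red f R ∈ J := by
  have h : ∀ Q, red f (Q * R) ∈ J := by
    refine Submodule.span_induction (p := fun R _ => ∀ Q, red f (Q * R) ∈ J) ?_ ?_ ?_ ?_ hR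
    · rintro _ ⟨P, hP, rfl⟩ Q
      rw [red_mul_map]
      exact Ideal.mul_mem_left _ _ hP
    · intro Q
      rw [mul_zero, red_zero]
      exact J.zero_mem
    · intro x y _ _ hx hy Q
      rw [mul_add, red_add]
      exact J.add_mem (hx Q) (hy Q)
    · intro a x _ hx Q
      rw [smul_eq_mul, ← mul_assoc]
      exact hx _
  have := h 1
  rwa [one_mul] at this

end red

section maps

variable {v : ℕ} {A B : Type*} [CommRing A] [CommRing B]

theorem II_map_eq (φ : A →+* B) (F : MvPolynomial (Fin (v + 1)) A) :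
    (II F).map (map φ : _ →+* MvPolynomial (Fin 2 × Fin (v + 1)) B) = II (map φ F) := by
  unfold II
  rw [Ideal.map_span, Set.image_pair, map_i0, map_i1]

end maps

section frac

variable {σ : Type} {A E : Type} [CommRing A] [IsDomain A] [Field E] [Algebra A E]
  [IsFractionRing A E]

omit [IsDomain A] in
theorem map_inj : Function.Injective (map (algebraMap A E) : MvPolynomial σ A → MvPolynomial σ E) :=
  MvPolynomial.map_injective _ (IsFractionRing.injective A E)

/-- clearing denominators -/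
theorem frac_mem {J : Ideal (MvPolynomial σ A)} {R : MvPolynomial σ E}
    (hR : R ∈ J.map (map (algebraMap A E) : MvPolynomial σ A →+* MvPolynomial σ E)) :
    ∃ (a : A) (R' : MvPolynomial σ A), a ≠ 0 ∧ map (algebraMap A E) R' = C (algebraMap A E a) * R ∧
      R' ∈ J := by
  have h1 : R ∈ Ideal.map (algebraMap (MvPolynomial σ A) (MvPolynomial σ E)) J := hR
  obtain ⟨⟨⟨y, hy⟩, z⟩, hyz⟩ := (IsLocalization.mem_map_algebraMap_iff
    ((nonZeroDivisors A).map (C (σ := σ) (R := A))) (MvPolynomial σ E)).mp h1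
  obtain ⟨a, ha, haz⟩ := z.2
  refine ⟨a, y, nonZeroDivisors.ne_zero ha, ?_, hy⟩
  simp only at hyz
  rw [← haz] at hyz
  have h2 : ∀ z : MvPolynomial σ A, algebraMap (MvPolynomial σ A) (MvPolynomial σ E) z =
      map (algebraMap A E) z := fun _ => rfl
  rw [h2, h2] at hyz
  rw [← hyz]
  change R * map (algebraMap A E) (C a) = _
  rw [map_C, mul_comm]

theorem frac_all {ι : Type} [Finite ι] {J : ι → Ideal (MvPolynomial σ A)} {R : MvPolynomial σ E}
    (hR : ∀ i, R ∈ (J i).map (map (algebraMap A E) : MvPolynomial σ A →+* MvPolynomial σ E)) :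
    ∃ (a : A) (R' : MvPolynomial σ A), a ≠ 0 ∧ map (algebraMap A E) R' = C (algebraMap A E a) * R ∧
      ∀ i, R' ∈ J i := by
  classical
  have := Fintype.ofFinite ι
  choose a R' h1 h2 h3 using fun i => frac_mem (hR i)
  obtain ⟨a0, R0, h4, h5, -⟩ := frac_mem (J := (⊤ : Ideal (MvPolynomial σ A))) (R := R) (by
    rw [Ideal.map_top]
    exact Submodule.mem_top)
  refine ⟨a0 * ∏ i, a i, C (∏ i, a i) * R0, mul_ne_zero h4 (Finset.prod_ne_zero_iff.mpr
    fun i _ => h1 i), ?_, fun i => ?_⟩
  · rw [map_mul, map_C, h5, map_mul, C_mul]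
    ring
  · have h6 : C (∏ i, a i) * R0 = C (a0 * ∏ j ∈ Finset.univ.erase i, a j) * R' i := by
      apply map_inj (E := E)
      rw [map_mul, map_mul, map_C, map_C, h5, h2,
        ← Finset.mul_prod_erase Finset.univ a (Finset.mem_univ i)]
      simp only [map_mul]
      ring
    rw [h6]
    exact Ideal.mul_mem_left _ _ (h3 i)

end frac

/-- **Descent of the Nullstellensatz.** -/
theorem desc {σ : Type} {A : Type} [CommRing A] [IsDomain A] (E : Type) [Field E] [Algebra A E]
    [IsFractionRing A E] {Λ : Type} [Field Λ] [Algebra A Λ] [Algebra E Λ] [IsScalarTower A E Λ]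
    [IsAlgClosed Λ] [Finite σ] (T : Set (MvPolynomial σ A)) (μ : MvPolynomial σ A)
    (h : ∀ p : σ → Λ, (∀ t ∈ T, aeval p t = 0) → aeval p μ = 0) :
    ∃ (D : A) (N : ℕ), D ≠ 0 ∧ C D * μ ^ N ∈ Ideal.span T := by
  have h1 : map (algebraMap A E) μ ∈ (Ideal.map (map (algebraMap A E) :
      MvPolynomial σ A →+* MvPolynomial σ E) (Ideal.span T)).radical := by
    rw [← vanishingIdeal_zeroLocus_eq_radical (K := Λ), mem_vanishingIdeal_iff]
    intro p hp
    rw [mem_zeroLocus_iff] at hp
    rw [aeval_map_algebraMap]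
    apply h
    intro t ht
    have h2 := hp (map (algebraMap A E) t) (Ideal.mem_map_of_mem _ (Ideal.subset_span ht))
    rwa [aeval_map_algebraMap] at h2
  obtain ⟨N, hN⟩ := h1
  rw [← map_pow] at hN
  obtain ⟨a, R', h2, h3, h4⟩ := frac_mem hN
  refine ⟨a, N, h2, ?_⟩
  have h5 : C a * μ ^ N = R' := by
    apply map_inj (E := E)
    rw [h3, map_mul, map_C]
  rw [h5]
  exact h4

end Pool.Agent.V8H90.HY
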