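import Pool.Agent.V8H90.HY.Univ

/-!
The polynomials for forms which are generic over the field of definition of a jet.
-/

set_option autoImplicit false

namespace Pool.Agent.V8H90.HY

open MvPolynomial Pool.Agent.V8H90.JT Pool.Agent.V8H90.AJ

variable {v q : ℕ} {δ e : Fin q → ℕ} {L D : ℕ}

/-- a single generic hypersurface is smooth -/
theorem no_crit_one {Λ : Type} [Field Λ] [CharZero Λ] (hδ : ∀ i, 1 ≤ δ i) {x : Ix v δ → Λ}
    (hx : AlgebraicIndependent ℚ x) {r : ℕ} (a : Fin r → Fin q) (ha : Function.Injective a) :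
    ¬ Crit fun i => fm x (a i) := by
  have h0 : Function.Injective (Sigma.map a (fun i => (id : Ex (Fin (v + 1)) (δ (a i)) → _)) :
      Ix v (fun i => δ (a i)) → Ix v δ) :=
    ha.sigma_map fun i => Function.injective_id
  have h1 := hx.comp _ h0
  intro hc
  refine no_crit (δ := fun i => δ (a i)) (fun i => hδ (a i)) h1 ?_
  exact hc

theorem generic_cop {E Λ : Type} [Field E] [Field Λ] [CharZero Λ] [Algebra E Λ] [IsAlgClosed Λ]
    (hv : 1 ≤ v) (hδ : ∀ i, 1 ≤ δ i) {x : Ix v δ → E}
    (hx : AlgebraicIndependent ℚ fun y => algebraMap E Λ (x y)) (i : Fin q) :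
    IsRelPrime (i0 (fm x i)) (i1 (fm x i)) := by
  apply relprime_smooth (K := Λ) hv
  rw [map_fm]
  exact no_crit_one hδ hx (fun _ : Fin 1 => i) fun a b _ => Subsingleton.elim a b

/-- There are a polynomial for the generic forms and a rational jet where it does not vanish. -/
theorem exists_universal (F : Type) [Field F] [CharZero F] (hv : 1 ≤ v) (hD : 2 * L ≤ D)
    (hδ : ∀ i, 1 ≤ δ i) (he : ∀ i, e i * δ i = L)
    (hcount : q * L ^ 2 * (2 * v + D - 1).choose D < (2 * (v + 1) + D - 1).choose D) :
    ∃ (R : MvPolynomial (Fin 2 × Fin (v + 1)) (FractionRing (MvPolynomial (Ix v δ) F)))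
      (p : Fin 2 → Fin (v + 1) → F), R.IsHomogeneous D ∧ Inv (k := 1) 1 R ∧
      (∀ i, R ∈ II (fm (fun y => algebraMap (MvPolynomial (Ix v δ) F)
        (FractionRing (MvPolynomial (Ix v δ) F)) (X y)) i) ^ e i) ∧ Mi p ∧
      eval (fun x => algebraMap (MvPolynomial (Ix v δ) F)
        (FractionRing (MvPolynomial (Ix v δ) F)) (C (p x.1 x.2))) R ≠ 0 := by
  classical
  let A : Type := MvPolynomial (Ix v δ) F
  let E : Type := FractionRing A
  let Λ : Type := AlgebraicClosure E
  have hAE : Function.Injective (algebraMap A E) := IsFractionRing.injective A E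
  have hinj : Function.Injective (algebraMap A Λ) := by
    have h1 : (algebraMap A Λ) = (algebraMap E Λ).comp (algebraMap A E) := rfl
    rw [h1]
    exact (algebraMap E Λ).injective.comp hAE
  have hA0 : CharZero A := inferInstanceAs (CharZero (MvPolynomial (Ix v δ) F))
  have hΛ0 : CharZero Λ := charZero_of_injective_algebraMap hinj
  let xE : Ix v δ → E := fun y => algebraMap A E (X y)
  have hx : AlgebraicIndependent ℚ fun y : Ix v δ => algebraMap E Λ (xE y) := by
    have h1 : AlgebraicIndependent F (X : Ix v δ → A) := MvPolynomial.algebraicIndependent_X _ _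
    have h2 : AlgebraicIndependent ℚ (X : Ix v δ → A) := h1.restrictScalars
      (algebraMap ℚ F).injective
    exact h2.map' (f := IsScalarTower.toAlgHom ℚ A Λ) hinj
  obtain ⟨R0, h1, h2, h3⟩ := exists_mem (E := E) hv hD hδ (fun i => fm_hom xE i) he
    (fun i => generic_cop (Λ := Λ) hv hδ hx i) hcount
  have hEinf : Infinite E := Infinite.of_injective (fun n : ℕ => (algebraMap A E) (n : A))
    (hAE.comp Nat.cast_injective)
  obtain ⟨R, h4, h5, h6, h7⟩ := exists_inv (fun i => fm_hom xE i) h1 h2 h3
  -- the minor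
  set μ : MvPolynomial (Fin 2 × Fin (v + 1)) E :=
    X (0, 0) * X (1, Fin.last v) - X (0, Fin.last v) * X (1, 0) with hμ
  have h01 : (0 : Fin (v + 1)) ≠ Fin.last v := by
    intro h0
    have := congrArg Fin.val h0
    simp at this
    omega
  have hμ0 : μ ≠ 0 := by
    intro h0
    have h8 := congrArg (eval fun x : Fin 2 × Fin (v + 1) =>
      if x = (0, 0) ∨ x = (1, Fin.last v) then (1 : E) else 0) h0
    rw [hμ] at h8
    simp [h01, Ne.symm h01] at h8
  have hRD : R * μ ≠ 0 := mul_ne_zero h4 hμ0
  obtain ⟨w, hw, hne⟩ : ∃ w : Fin 2 × Fin (v + 1) → E,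
      (∀ x, w x ∈ Set.range (fun c : F => algebraMap A E (C c))) ∧ eval w (R * μ) ≠ 0 := by
    by_contra hcon
    push Not at hcon
    apply hRD
    apply funext_set (fun _ => Set.range (fun c : F => algebraMap A E (C c)))
    · exact fun _ => Set.infinite_range_of_injective (hAE.comp (C_injective _ _))
    · intro x hx
      rw [map_zero]
      exact hcon x fun i => hx i (Set.mem_univ i)
  choose p hp using hw
  rw [map_mul] at hne
  have hw' : w = fun x => algebraMap A E (C (p x)) := funext fun x => (hp x).symm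
  rw [hw'] at hne
  refine ⟨R, fun m j => p (m, j), h5, h6, h7, ⟨0, Fin.last v, ?_⟩, left_ne_zero_of_mul hne⟩
  have h9 := right_ne_zero_of_mul hne
  intro h0
  apply h9
  rw [hμ]
  simp only [map_sub, map_mul, eval_X]
  rw [← map_mul, ← map_mul, ← map_mul, ← map_mul, ← map_sub, ← map_sub, h0, map_zero, map_zero]

/-- The polynomials for forms which are generic over the field of definition of a jet. -/
theorem exists_good {F : Type} [Field F] [CharZero F] {Λ : Type} [Field Λ]
    [Algebra F Λ] (hv : 1 ≤ v) (hD : 2 * L ≤ D)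
    (hδ : ∀ i, 1 ≤ δ i) (he : ∀ i, e i * δ i = L)
    (hcount : q * L ^ 2 * (2 * v + D - 1).choose D < (2 * (v + 1) + D - 1).choose D)
    {p : Fin 2 → Fin (v + 1) → F} (hp : Mi p) {x : Ix v δ → Λ} (hx : AlgebraicIndependent F x) :
    ∃ R : MvPolynomial (Fin 2 × Fin (v + 1)) Λ, R.IsHomogeneous D ∧ Inv (k := 1) 1 R ∧
      (∀ i, R ∈ II (fm x i) ^ e i) ∧ eval (fun y => algebraMap F Λ (p y.1 y.2)) R ≠ 0 := by
  classical
  obtain ⟨R, p', h1, h2, h3, h4, h5⟩ := exists_universal F hv hD hδ he hcount
  obtain ⟨g, hg⟩ := exists_gl hp.indep h4.indep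
  set G : Fin (v + 1) → Fin (v + 1) → F := LinearMap.toMatrix' g.toLinearMap with hG
  set H : Fin (v + 1) → Fin (v + 1) → F := LinearMap.toMatrix' g.symm.toLinearMap with hH
  have hGv : ∀ (w : Fin (v + 1) → F) j, g w j = ∑ l, G j l * w l := by
    intro w j
    have := congrFun (LinearMap.toMatrix'_mulVec g.toLinearMap w) j
    rw [Matrix.mulVec, dotProduct] at this
    exact this.symm
  have hHG : ∀ j m, ∑ l, H j l * G l m = if j = m then 1 else 0 := by
    intro l l'
    have h6 : (LinearMap.toMatrix' g.symm.toLinearMap) *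
        (LinearMap.toMatrix' g.toLinearMap) = 1 := by
      rw [← LinearMap.toMatrix'_comp]
      simp
    have h7 := congrFun (congrFun h6 l) l'
    rw [Matrix.mul_apply, Matrix.one_apply] at h7
    exact h7
  have hGH : ∀ j m, ∑ l, G j l * H l m = if j = m then 1 else 0 := by
    intro l l'
    have h6 : (LinearMap.toMatrix' g.toLinearMap) *
        (LinearMap.toMatrix' g.symm.toLinearMap) = 1 := by
      rw [← LinearMap.toMatrix'_comp]
      simp
    have h7 := congrFun (congrFun h6 l) l'
    rw [Matrix.mul_apply, Matrix.one_apply] at h7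
    exact h7
  set y : Ix v δ → Λ := tr (fun j l => algebraMap F Λ (H j l)) x with hy
  have hyi : AlgebraicIndependent F y := tr_ai hHG hGH hx
  -- the specialization
  have hinj : Function.Injective (aeval y : MvPolynomial (Ix v δ) F →ₐ[F] Λ).toRingHom := hyi
  set φ : FractionRing (MvPolynomial (Ix v δ) F) →+* Λ := IsFractionRing.lift hinj with hφ
  have hφA : ∀ a : MvPolynomial (Ix v δ) F, φ (algebraMap _ _ a) = aeval y a := fun a =>
    IsFractionRing.lift_algebraMap hinj a
  have hmem : ∀ i, MvPolynomial.map φ R ∈ II (fm y i) ^ e i := by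
    intro i
    have h6 := II_map φ (h3 i)
    rw [map_fm] at h6
    have h7 : (fun z : Ix v δ => φ (algebraMap (MvPolynomial (Ix v δ) F)
        (FractionRing (MvPolynomial (Ix v δ) F)) (X z))) = y := by
      funext z
      rw [hφA, aeval_X]
    rwa [h7] at h6
  refine ⟨bind₁ (chg (k := 1) fun j l => algebraMap F Λ (G j l)) (MvPolynomial.map φ R),
    chg_hom _ (h1.map φ), chg_inv _ (h2.map φ), fun i => ?_, ?_⟩
  · have h6 := chg_II (fun j l => algebraMap F Λ (G j l)) (hmem i)
    have h7 : bind₁ (fun j => ∑ l, C (algebraMap F Λ (G j l)) * X l) (fm y i) = fm x i := by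
      change ls (fun j l => algebraMap F Λ (G j l)) (fm y i) = _
      rw [hy, fm_tr]
      apply ls_ls
      intro j m
      have h8 := congrArg (algebraMap F Λ) (hHG j m)
      rw [map_sum, apply_ite (algebraMap F Λ), map_one, map_zero] at h8
      simpa only [map_mul] using h8
    rwa [h7] at h6
  · rw [eval_chg]
    have e1 : (fun z : Fin (1 + 1) × Fin (v + 1) => ∑ l, algebraMap F Λ (G z.2 l) *
        algebraMap F Λ (p z.1 l)) = fun z => φ (algebraMap (MvPolynomial (Ix v δ) F)
        (FractionRing (MvPolynomial (Ix v δ) F)) (C (p' z.1 z.2))) := by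
      funext z
      rw [hφA, aeval_C, ← hg z.1, hGv, map_sum]
      simp only [map_mul]
    have e2 : φ (eval (fun z : Fin 2 × Fin (v + 1) => algebraMap (MvPolynomial (Ix v δ) F)
        (FractionRing (MvPolynomial (Ix v δ) F)) (C (p' z.1 z.2))) R) =
        eval₂ φ (fun z => φ (algebraMap (MvPolynomial (Ix v δ) F)
        (FractionRing (MvPolynomial (Ix v δ) F)) (C (p' z.1 z.2)))) R := by
      rw [← eval₂_id, eval₂_comp_left φ, RingHom.comp_id]
      rfl
    rw [e1, eval_map]
    refine ne_of_eq_of_ne e2.symm ?_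
    intro h0
    exact h5 ((map_eq_zero φ).mp h0)

end Pool.Agent.V8H90.HY
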