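import Pool.Agent.V8H90.HY.Good

/-!
General hypersurfaces have many invariant polynomials.
-/

set_option autoImplicit false

namespace Pool.Agent.V8H90.HY

open MvPolynomial Pool.Agent.V8H90.JT Pool.Agent.V8H90.AJ

/-- specialization -/
theorem spec {σ A B : Type} [CommRing A] [Field B] (φ : A →+* B) {T : Set (MvPolynomial σ A)}
    {T' : Set (MvPolynomial σ B)} (hT : ∀ t ∈ T, map φ t ∈ Ideal.span T') {D : A} {N : ℕ}
    {μ : MvPolynomial σ A} (hD : φ D ≠ 0) (h : C D * μ ^ N ∈ Ideal.span T) :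
    map φ μ ^ N ∈ Ideal.span T' := by
  have h1 : Ideal.span T ≤ (Ideal.span T').comap (map φ) := by
    rw [Ideal.span_le]
    exact fun t ht => hT t ht
  have h2 := h1 h
  rw [Ideal.mem_comap, map_mul, map_C, map_pow] at h2
  have h3 := Ideal.mul_mem_left _ (C (φ D)⁻¹) h2
  rwa [← mul_assoc, ← C_mul, inv_mul_cancel₀ hD, C_1, one_mul] at h3

variable {v q q0 L D : ℕ} {δ e : Fin q → ℕ}

section generic

variable {A Λ : Type} [CommRing A] [IsDomain A] [Field Λ] [CharZero Λ] [Algebra A Λ]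
  [IsAlgClosed Λ]

theorem gen_snc (E : Type) [Field E] [Algebra A E] [IsFractionRing A E] [Algebra E Λ]
    [IsScalarTower A E Λ] (hδ : ∀ i, 1 ≤ δ i) {x : Ix v δ → A}
    (hx : AlgebraicIndependent ℚ fun y => algebraMap A Λ (x y)) {r : ℕ} {a : Fin r → Fin q}
    (ha : Function.Injective a) (j : Fin (v + 1)) :
    ∃ (D : A) (N : ℕ), D ≠ 0 ∧ C D * (X j : MvPolynomial (Fin (v + 1)) A) ^ N ∈
      Ideal.span (gens fun i => fm x (a i)) := by
  refine desc E (Λ := Λ) _ _ fun p hp => ?_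
  rw [aeval_X]
  by_contra h0
  refine no_crit_one hδ hx a ha (crit_of_gens (x := p) (fun h => h0 (congrFun h j)) ?_)
  rintro g (⟨i, rfl⟩ | ⟨σ, rfl⟩)
  · have h1 := hp _ (Or.inl ⟨i, rfl⟩)
    simp only at h1 ⊢
    rw [← map_fm (algebraMap A Λ), eval_map]
    exact h1
  · have h1 := hp _ (Or.inr ⟨σ, rfl⟩)
    have h2 : (fun i => fm (fun y => algebraMap A Λ (x y)) (a i)) =
        fun i => map (algebraMap A Λ) (fm x (a i)) := by
      funext i
      rw [map_fm]
    rw [h2, ← map_mnr, eval_map]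
    exact h1

theorem gen_top (E : Type) [Field E] [Algebra A E] [IsFractionRing A E] [Algebra E Λ]
    [IsScalarTower A E Λ] (hδ : ∀ i, 1 ≤ δ i) {x : Ix v δ → A}
    (hx : AlgebraicIndependent ℚ fun y => algebraMap A Λ (x y)) {a : Fin (v + 1) → Fin q}
    (ha : Function.Injective a) (j : Fin (v + 1)) :
    ∃ (D : A) (N : ℕ), D ≠ 0 ∧ C D * (X j : MvPolynomial (Fin (v + 1)) A) ^ N ∈
      Ideal.span (Set.range fun i => fm x (a i)) := by
  refine desc E (Λ := Λ) _ _ fun p hp => ?_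
  rw [aeval_X]
  by_contra h0
  refine no_crit_one hδ hx a ha (crit_square (δ := fun i => δ (a i)) (x := p)
    (fun i => fm_hom _ _) (fun h => h0 (congrFun h j)) fun i => ?_)
  have h1 := hp _ ⟨i, rfl⟩
  simp only at h1
  rw [← map_fm (algebraMap A Λ), eval_map]
  exact h1

theorem gen_jet (E : Type) [Field E] [Algebra A E] [IsFractionRing A E] [Algebra E Λ]
    [IsScalarTower A E Λ] (hv : 1 ≤ v) (hD : 2 * L ≤ D) (hδ : ∀ i, 1 ≤ δ i) (he : ∀ i, e i * δ i = L)
    (hcount : q0 * L ^ 2 * (2 * v + D - 1).choose D < (2 * (v + 1) + D - 1).choose D)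
    (hq : q0 + 2 * (v + 1) ≤ q) {x : Ix v δ → A} (hinj : Function.Injective (algebraMap A Λ))
    (hx : AlgebraicIndependent ℚ fun y => algebraMap A Λ (x y)) (i j : Fin (v + 1)) :
    ∃ (D' : A) (N : ℕ), D' ≠ 0 ∧ C D' * (X (0, i) * X (1, j) - X (0, j) * X (1, i) :
      MvPolynomial (Fin 2 × Fin (v + 1)) A) ^ N ∈ Ideal.span {R | RelF x e q0 D R} := by
  refine desc E (Λ := Λ) _ _ fun p hp => ?_
  by_contra hne
  have hp' : Mi (fun a b => p (a, b)) := ⟨i, j, by simpa using hne⟩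
  obtain ⟨F, _, _, _, p', s, h1, h2, h3⟩ := sel_block hx p (q0 := q0) (by
    rw [Fintype.card_prod, Fintype.card_fin, Fintype.card_fin]
    exact hq)
  have hp'' : Mi fun a b => p' (a, b) := by
    obtain ⟨i, j, hij⟩ := hp'
    refine ⟨i, j, fun h0 => hij ?_⟩
    have h4 := congrArg (algebraMap F Λ) h0
    simpa only [map_sub, map_mul, map_zero, h1] using h4
  obtain ⟨R, h4, h5, h6, h7⟩ := exists_good (δ := fun i => δ (s i)) (e := fun i => e (s i)) (F := F)
    (Λ := Λ) hv hD (fun i => hδ (s i)) (fun i => he (s i)) hcount (p := fun a b => p' (a, b)) hp''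
    (x := fun y => algebraMap A Λ (x ⟨s y.1, y.2⟩)) h3
  have e1 : (fun y : Fin 2 × Fin (v + 1) => algebraMap F Λ (p' (y.1, y.2))) = p :=
    funext fun y => h1 _
  rw [e1] at h7
  have hrel : RelF (fun y => algebraMap E Λ (algebraMap A E (x y))) e q0 D R := by
    refine ⟨⟨s, h2, fun i => ?_⟩, h4, h5⟩
    have h8 := h6 i
    have h9 : (fun y => algebraMap E Λ (algebraMap A E (x y))) = fun y => algebraMap A Λ (x y) :=
      funext fun y => (IsScalarTower.algebraMap_apply A E Λ (x y)).symm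
    rw [h9]
    exact h8
  obtain ⟨f, hf⟩ := exists_red (k := E) h7
  obtain ⟨a, R', ha, hR', hrel'⟩ := (hrel.red f).frac
  have h8 := hp R' hrel'
  have h9 : aeval p R' = aeval p (map (algebraMap A E) R') := (aeval_map_algebraMap _ _ _).symm
  rw [h9, hR', map_mul, aeval_C, ← IsScalarTower.algebraMap_apply] at h8
  rcases mul_eq_zero.mp h8 with h10 | h10
  · exact ha (hinj (by rw [h10, map_zero]))
  · exact hf h10

end generic

/-- **General hypersurfaces.** -/
theorem good_general (hv : 1 ≤ v) (hD : 2 * L ≤ D) (hδ : ∀ i, 1 ≤ δ i)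
    (he : ∀ i, e i * δ i = L)
    (hcount : q0 * L ^ 2 * (2 * v + D - 1).choose D < (2 * (v + 1) + D - 1).choose D)
    (hq : q0 + 2 * (v + 1) ≤ q) :
    ∃ Ψ : MvPolynomial (Ix v δ) ℂ, Ψ ≠ 0 ∧
      ∀ x : Ix v δ → ℂ, eval x Ψ ≠ 0 → GoodF (fm x) δ e L D q0 := by
  classical
  let A : Type := MvPolynomial (Ix v δ) ℂ
  let E : Type := FractionRing A
  let Λ : Type := AlgebraicClosure E
  have hinj : Function.Injective (algebraMap A Λ) := by
    have h1 : (algebraMap A Λ) = (algebraMap E Λ).comp (algebraMap A E) := rfl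
    rw [h1]
    exact (algebraMap E Λ).injective.comp (IsFractionRing.injective A E)
  have hΛ0 : CharZero Λ := charZero_of_injective_algebraMap hinj
  let xA : Ix v δ → A := X
  have hx : AlgebraicIndependent ℚ fun y : Ix v δ => algebraMap A Λ (xA y) := by
    have h1 : AlgebraicIndependent ℂ (X : Ix v δ → A) := MvPolynomial.algebraicIndependent_X _ _
    have h2 : AlgebraicIndependent ℚ (X : Ix v δ → A) := h1.restrictScalars
      (algebraMap ℚ ℂ).injective
    exact h2.map' (f := IsScalarTower.toAlgHom ℚ A Λ) hinj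
  -- the three families of conditions
  choose D1 N1 hD1 hN1 using fun (r : Fin (v + 1))
    (a : {a : Fin (r : ℕ) → Fin q // Function.Injective a}) (j : Fin (v + 1)) =>
    gen_snc (A := A) E (Λ := Λ) hδ hx a.2 j
  choose D2 N2 hD2 hN2 using fun (a : {a : Fin (v + 1) → Fin q // Function.Injective a})
    (j : Fin (v + 1)) => gen_top (A := A) E (Λ := Λ) hδ hx a.2 j
  choose D3 N3 hD3 hN3 using fun (i j : Fin (v + 1)) =>
    gen_jet (A := A) E (Λ := Λ) hv hD hδ he hcount hq hinj hx i j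
  set Ψ : A := (∏ r : Fin (v + 1), ∏ a : {a : Fin (r : ℕ) → Fin q // Function.Injective a},
      ∏ j, D1 r a j) *
    ((∏ a : {a : Fin (v + 1) → Fin q // Function.Injective a}, ∏ j, D2 a j) *
      ∏ i, ∏ j, D3 i j) with hΨ
  have hΨ0 : Ψ ≠ 0 := by
    refine mul_ne_zero ?_ (mul_ne_zero ?_ ?_)
    · exact Finset.prod_ne_zero_iff.mpr fun r _ => Finset.prod_ne_zero_iff.mpr fun a _ =>
        Finset.prod_ne_zero_iff.mpr fun j _ => hD1 r a j
    · exact Finset.prod_ne_zero_iff.mpr fun a _ => Finset.prod_ne_zero_iff.mpr fun j _ => hD2 a j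
    · exact Finset.prod_ne_zero_iff.mpr fun i _ => Finset.prod_ne_zero_iff.mpr fun j _ => hD3 i j
  refine ⟨Ψ, hΨ0, fun x hx0 => ?_⟩
  rw [hΨ, map_mul, map_mul] at hx0
  have g1 := left_ne_zero_of_mul hx0
  have g2 := left_ne_zero_of_mul (right_ne_zero_of_mul hx0)
  have g3 := right_ne_zero_of_mul (right_ne_zero_of_mul hx0)
  simp only [map_prod] at g1 g2 g3
  set φ : A →+* ℂ := eval x with hφ
  have hφX : (fun y => φ (xA y)) = x := funext fun y => eval_X _
  have hfm : ∀ i, map φ (fm xA i) = fm x i := fun i => by rw [map_fm, hφX]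
  refine ⟨hδ, he, fun i => fm_hom x i, fun r hr a ha j => ?_, fun a ha j => ?_, fun p hp => ?_⟩
  · have h1 : φ (D1 ⟨r, Nat.lt_succ_of_le hr⟩ ⟨a, ha⟩ j) ≠ 0 := by
      have h2 := Finset.prod_ne_zero_iff.mp g1 ⟨r, Nat.lt_succ_of_le hr⟩ (Finset.mem_univ _)
      have h3 := Finset.prod_ne_zero_iff.mp h2 ⟨a, ha⟩ (Finset.mem_univ _)
      exact Finset.prod_ne_zero_iff.mp h3 j (Finset.mem_univ _)
    refine ⟨N1 ⟨r, Nat.lt_succ_of_le hr⟩ ⟨a, ha⟩ j, ?_⟩
    have h2 := spec φ (T' := gens fun i => fm x (a i)) (fun t ht => ?_) h1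
      (hN1 ⟨r, Nat.lt_succ_of_le hr⟩ ⟨a, ha⟩ j)
    · rwa [map_X] at h2
    · apply Ideal.subset_span
      rcases ht with ⟨i, rfl⟩ | ⟨σ, rfl⟩
      · exact Or.inl ⟨i, (hfm _).symm⟩
      · refine Or.inr ⟨σ, ?_⟩
        rw [map_mnr]
        simp only [hfm]
  · have h1 : φ (D2 ⟨a, ha⟩ j) ≠ 0 := by
      have h3 := Finset.prod_ne_zero_iff.mp g2 ⟨a, ha⟩ (Finset.mem_univ _)
      exact Finset.prod_ne_zero_iff.mp h3 j (Finset.mem_univ _)
    refine ⟨N2 ⟨a, ha⟩ j, ?_⟩
    have h2 := spec φ (T' := Set.range fun i => fm x (a i)) (fun t ht => ?_) h1 (hN2 ⟨a, ha⟩ j)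
    · rwa [map_X] at h2
    · apply Ideal.subset_span
      obtain ⟨i, rfl⟩ := ht
      exact ⟨i, (hfm _).symm⟩
  · obtain ⟨i, j, hij⟩ := hp
    have h1 : φ (D3 i j) ≠ 0 := by
      have h3 := Finset.prod_ne_zero_iff.mp g3 i (Finset.mem_univ _)
      exact Finset.prod_ne_zero_iff.mp h3 j (Finset.mem_univ _)
    set ψ : MvPolynomial (Fin 2 × Fin (v + 1)) A →+* ℂ :=
      eval₂Hom φ (fun y : Fin 2 × Fin (v + 1) => p y.1 y.2) with hψ
    obtain ⟨R, hR, hR0⟩ : ∃ R, RelF xA e q0 D R ∧ ψ R ≠ 0 := by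
      by_contra hcon
      push Not at hcon
      have h2 : Ideal.span {R | RelF xA e q0 D R} ≤ RingHom.ker ψ := by
        rw [Ideal.span_le]
        intro R hR
        exact hcon R hR
      have h3 := h2 (hN3 i j)
      rw [RingHom.mem_ker, map_mul, map_pow] at h3
      have h4 : ψ (X (0, i) * X (1, j) - X (0, j) * X (1, i)) ≠ 0 := by
        rw [hψ]
        simpa using hij
      have h5 : ψ (C (D3 i j)) ≠ 0 := by
        rw [hψ, coe_eval₂Hom, eval₂_C]
        exact h1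
      exact mul_ne_zero h5 (pow_ne_zero _ h4) h3
    obtain ⟨⟨s, hs, hv'⟩, hh, hi⟩ := hR
    refine ⟨s, map φ R, hs, hh.map φ, hi.map φ, fun i => ?_, ?_⟩
    · have h5 := II_map φ (hv' i)
      rwa [hfm] at h5
    · rw [eval_map]
      exact hR0

end Pool.Agent.V8H90.HY
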