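import Pool.Agent.V8H90.HY.General

/-!
The number of hypersurfaces, and general forms.
-/

set_option autoImplicit false

namespace Pool.Agent.V8H90.HY

open MvPolynomial Pool.Agent.V8H90.JT Pool.Agent.V8H90.AJ

/-- the numerical conditions -/
theorem num_ok {v m q L : ℕ} (hv : 1 ≤ v) (hm : 2 ≤ m) (hL : 1 ≤ L)
    (h : 2 * v * (2 * v + 1) * m ^ 2 ≤ (m - 1) ^ 2 * (q - (2 * v + 3))) :
    ∃ q0 D : ℕ, 2 * L ≤ D ∧ D * m + L * q0 < m * (L * q0) ∧
      q0 * L ^ 2 * (2 * v + D - 1).choose D < (2 * (v + 1) + D - 1).choose D ∧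
      q0 + 2 * (v + 1) ≤ q := by
  obtain ⟨M, rfl⟩ : ∃ M, m = M + 1 := ⟨m - 1, by omega⟩
  have hM : 1 ≤ M := by omega
  rw [Nat.add_sub_cancel] at h
  have hA : 6 ≤ 2 * v * (2 * v + 1) := by nlinarith
  set A := 2 * v * (2 * v + 1) with hAd
  set Q := q - (2 * v + 3) with hQ
  have hQ1 : 1 ≤ Q := by
    by_contra hcon
    have h0 : Q = 0 := by omega
    rw [h0, mul_zero] at h
    have : 0 < A * (M + 1) ^ 2 := by positivity
    omega
  set q0 := Q + 1 with hq0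
  have h1 : A * (M + 1) ^ 2 < M ^ 2 * q0 := by
    have : 0 < M ^ 2 := by positivity
    rw [hq0]
    nlinarith
  obtain ⟨D, hD1, hD2⟩ : ∃ D, D * (M + 1) < M * L * q0 ∧ M * L * q0 ≤ (D + 1) * (M + 1) := by
    have hX : 1 ≤ M * L * q0 := Nat.mul_pos (Nat.mul_pos hM hL) (by omega)
    generalize M * L * q0 = Y at hX ⊢
    refine ⟨(Y - 1) / (M + 1), ?_, ?_⟩
    · have := Nat.div_mul_le_self (Y - 1) (M + 1)
      omega
    · have h2 := Nat.lt_mul_div_succ (Y - 1) (show 0 < M + 1 by omega)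
      rw [mul_comm (M + 1)] at h2
      omega
  have hD3 : 6 * L ≤ D := by
    have h2 : L * (A * (M + 1) ^ 2) < L * (M ^ 2 * q0) := Nat.mul_lt_mul_of_pos_left h1 hL
    have h3 : 6 * (M + 1) ^ 2 ≤ A * (M + 1) ^ 2 := Nat.mul_le_mul_right _ hA
    have h4 : M * (M * L * q0) ≤ M * ((D + 1) * (M + 1)) := Nat.mul_le_mul_left _ hD2
    have h5 : L * (6 * (M + 1) ^ 2) ≤ L * (A * (M + 1) ^ 2) := Nat.mul_le_mul_left _ h3
    have h6 : (M + 1) * (6 * L * (M + 1)) < (M + 1) * (M * (D + 1)) := by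
      calc (M + 1) * (6 * L * (M + 1)) = L * (6 * (M + 1) ^ 2) := by ring
        _ < L * (M ^ 2 * q0) := lt_of_le_of_lt h5 h2
        _ = M * (M * L * q0) := by ring
        _ ≤ _ := h4
        _ = _ := by ring
    have h7 := Nat.lt_of_mul_lt_mul_left h6
    have h8 : M * (6 * L) < M * (D + 1) := by
      calc M * (6 * L) ≤ 6 * L * (M + 1) := by nlinarith
        _ < _ := h7
    have h9 := Nat.lt_of_mul_lt_mul_left h8
    omega
  refine ⟨q0, D, by omega, ?_, ?_, by omega⟩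
  · have e1 : D * (M + 1) + L * q0 < M * L * q0 + L * q0 := by omega
    calc D * (M + 1) + L * q0 < M * L * q0 + L * q0 := e1
      _ = (M + 1) * (L * q0) := by ring
  · apply count_one hv
    have h2 : (M * L * q0) ^ 2 ≤ ((D + 1) * (M + 1)) ^ 2 := Nat.pow_le_pow_left hD2 2
    have h3 : (M + 1) ^ 2 * (q0 * L ^ 2 * A) < (M + 1) ^ 2 * ((2 * v + D) * (2 * v + D + 1)) := by
      have hpos : 0 < q0 * L ^ 2 := by positivity
      calc (M + 1) ^ 2 * (q0 * L ^ 2 * A) = (q0 * L ^ 2) * (A * (M + 1) ^ 2) := by ring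
        _ < (q0 * L ^ 2) * (M ^ 2 * q0) := Nat.mul_lt_mul_of_pos_left h1 hpos
        _ = (M * L * q0) ^ 2 := by ring
        _ ≤ ((D + 1) * (M + 1)) ^ 2 := h2
        _ = (M + 1) ^ 2 * ((D + 1) * (D + 1)) := by ring
        _ ≤ _ := Nat.mul_le_mul_left _ (Nat.mul_le_mul (by omega) (by omega))
    exact Nat.lt_of_mul_lt_mul_left h3

variable {v q : ℕ}

/-- A property of families of forms `F i` of the degrees `δ i` holds for general forms: there is a
polynomial `Ψ` in the coefficients of the forms which does not vanish for some forms of these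
degrees such that the property holds for all forms of these degrees for which `Ψ` does not
vanish. -/
def ForGeneral {v q : ℕ} (δ : Fin q → ℕ)
    (P : (Fin q → MvPolynomial (Fin (v + 1)) ℂ) → Prop) : Prop :=
  ∃ Ψ : MvPolynomial (Fin q × (Fin (v + 1) →₀ ℕ)) ℂ,
    (∃ F : Fin q → MvPolynomial (Fin (v + 1)) ℂ, (∀ i, (F i).IsHomogeneous (δ i)) ∧
      eval (fun y => coeff y.2 (F y.1)) Ψ ≠ 0) ∧
    ∀ F : Fin q → MvPolynomial (Fin (v + 1)) ℂ, (∀ i, (F i).IsHomogeneous (δ i)) →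
      eval (fun y => coeff y.2 (F y.1)) Ψ ≠ 0 → P F

theorem forGeneral_of {δ : Fin q → ℕ} {P : (Fin q → MvPolynomial (Fin (v + 1)) ℂ) → Prop}
    (h : ∃ Ψ : MvPolynomial (Ix v δ) ℂ, Ψ ≠ 0 ∧ ∀ x : Ix v δ → ℂ, eval x Ψ ≠ 0 → P (fm x)) :
    ForGeneral δ P := by
  classical
  obtain ⟨Ψ, h0, h1⟩ := h
  refine ⟨rename (fun y : Ix v δ => (y.1, y.2.1)) Ψ, ?_, fun F hF h2 => ?_⟩
  · obtain ⟨x, hx⟩ : ∃ x : Ix v δ → ℂ, eval x Ψ ≠ 0 := by
      by_contra hcon
      push Not at hcon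
      exact h0 (MvPolynomial.funext fun x => by rw [hcon x, map_zero])
    refine ⟨fm x, fm_hom x, ?_⟩
    rw [eval_rename]
    have e : ((fun y : Fin q × (Fin (v + 1) →₀ ℕ) => coeff y.2 (fm x y.1)) ∘
        fun y : Ix v δ => (y.1, y.2.1)) = x := by
      funext y
      exact coeff_pol (fun α => x ⟨y.1, α⟩) y.2
    rw [e]
    exact hx
  · rw [eval_rename] at h2
    have h3 := h1 _ h2
    have e : fm ((fun y : Fin q × (Fin (v + 1) →₀ ℕ) => coeff y.2 (F y.1)) ∘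
        fun y : Ix v δ => (y.1, y.2.1)) = F := by
      funext i
      exact pol_coeff (hF i)
    rwa [e] at h3

theorem ForGeneral.mono {δ : Fin q → ℕ} {P Q : (Fin q → MvPolynomial (Fin (v + 1)) ℂ) → Prop}
    (h : ForGeneral δ P) (hPQ : ∀ F, (∀ i, (F i).IsHomogeneous (δ i)) → P F → Q F) :
    ForGeneral δ Q := by
  obtain ⟨Ψ, h0, h1⟩ := h
  exact ⟨Ψ, h0, fun F hF h2 => hPQ F hF (h1 F hF h2)⟩

/-- **General forms are good.** -/
theorem good_forms {m : ℕ} {δ : Fin q → ℕ} (hv : 1 ≤ v) (hm : 2 ≤ m) (hδ : ∀ i, 1 ≤ δ i)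
    (h : 2 * v * (2 * v + 1) * m ^ 2 ≤ (m - 1) ^ 2 * (q - (2 * v + 3))) :
    ForGeneral (v := v) δ fun F => ∃ (e : Fin q → ℕ) (L D q0 : ℕ), 1 ≤ L ∧
      D * m + L * q0 < m * (L * q0) ∧ GoodF F δ e L D q0 := by
  classical
  set L := ∏ i, δ i with hL
  have hL1 : 1 ≤ L := Finset.one_le_prod' fun i _ => hδ i
  obtain ⟨q0, D, h1, h2, h3, h4⟩ := num_ok (q := q) hv hm hL1 h
  refine forGeneral_of ?_
  obtain ⟨Ψ, h5, h6⟩ := good_general (e := fun i => L / δ i) hv h1 hδ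
    (fun i => Nat.div_mul_cancel (Finset.dvd_prod_of_mem _ (Finset.mem_univ i))) h3 h4
  exact ⟨Ψ, h5, fun x hx => ⟨_, L, D, q0, hL1, h2, h6 x hx⟩⟩

end Pool.Agent.V8H90.HY
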