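import Pool.Agent.V8H90.HY.Curve
import Pool.Agent.V8H90.HY.Num
import Pool.Agent.V8H90.JT.Geo

/-!
Varieties over projective space which are ramified over general hypersurfaces.
-/

set_option autoImplicit false

namespace Pool.Agent.V8H90.HY

open MvPolynomial Filter Metric Real Set Topology Pool.Agent.W602.TL Pool.Agent.W601.SM
  Pool.Agent.W601.PH Pool.Agent.V8H90.JT Pool.Agent.V8H90.AJ

variable {N v q q0 L D m : ℕ} {δ e : Fin q → ℕ} {F : Fin q → MvPolynomial (Fin (v + 1)) ℂ}

/-- The projection of `X` to projective `v`-space is ramified over the hypersurfaces `F i = 0` with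
multiplicities at least `m`: an arc in `X` meets a hypersurface with a multiplicity which is `0`,
infinite, or at least `m`. -/
def RamF (m : ℕ) (F : Fin q → MvPolynomial (Fin (v + 1)) ℂ) (X : BiSet N v) : Prop :=
  ∀ a b, X.Arc a b → ∀ (i : Fin q) (c : ℕ),
    analyticOrderAt (fun z => eval (b z) (F i)) 0 = c → c = 0 ∨ m ≤ c

/-- The same condition for the quasi-projective variety `X - Y`, and arcs in `X - Y`. -/
def QRamF (m : ℕ) (F : Fin q → MvPolynomial (Fin (v + 1)) ℂ) (X Y : BiSet N v) : Prop :=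
  ∀ a b, QArc X Y a b → ∀ (i : Fin q) (c : ℕ),
    analyticOrderAt (fun z => eval (b z) (F i)) 0 = c → c = 0 ∨ m ≤ c

theorem shift_ordF (G : MvPolynomial (Fin (v + 1)) ℂ) (b : ℂ → Fin (v + 1) → ℂ) (z : ℂ) :
    analyticOrderAt (fun w => eval (b (w + z)) G) 0 = analyticOrderAt (fun w => eval (b w) G) z := by
  have e1 : (fun w => eval (b (w + z)) G) = (fun w => eval (b w) G) ∘ fun w => w + z := rfl
  have hd : deriv (fun w : ℂ => w + z) 0 ≠ 0 := by
    rw [deriv_add_const, deriv_id'']
    exact one_ne_zero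
  rw [e1, analyticOrderAt_comp_of_deriv_ne_zero (by fun_prop) hd, zero_add]

/-- every entire curve which is ramified over the hypersurfaces is constant -/
def ConstF (m : ℕ) (F : Fin q → MvPolynomial (Fin (v + 1)) ℂ) : Prop :=
  ∀ f : ℂ → Fin (v + 1) → ℂ, (∀ j, Differentiable ℂ fun z => f z j) → (∀ z, f z ≠ 0) →
    MulF m F f → ∀ z z', ∃ t : ℂ, f z' = t • f z

theorem closed_curveF (hc : ConstF m F) {X : BiSet N v} (hX : RamF m F X)
    {a : ℂ → Fin (N + 1) → ℂ} {b : ℂ → Fin (v + 1) → ℂ} (h : X.EntireCurve a b) (z z' : ℂ) :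
    ∃ t : ℂ, b z' = t • b z := by
  refine hc b h.diffv (fun z => (h.mem z).2.1) (fun i z c ha => ?_) z z'
  refine hX (fun w => a (w + z)) (fun w => b (w + z)) ⟨fun j => ?_, fun j => ?_,
    Filter.Eventually.of_forall fun w => h.mem _⟩ i c (by rw [shift_ordF]; exact ha)
  · exact ((h.diffu j).comp (differentiable_id.add_const z)).analyticAt 0
  · exact ((h.diffv j).comp (differentiable_id.add_const z)).analyticAt 0

theorem no_closedF (hc : ConstF m F) {X : BiSet N v} (hX : RamF m F X) (hf : FiniteFibres X)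
    (a : ℂ → Fin (N + 1) → ℂ) (b : ℂ → Fin (v + 1) → ℂ) : ¬ X.EntireCurve a b := by
  intro h
  have h1 := closed_curveF hc hX h
  obtain ⟨T, hT⟩ := hf (b 0)
  have hmem : ∀ w, X.Mem (a w) (b 0) := by
    intro w
    obtain ⟨t, ht⟩ := h1 0 w
    exact mem_scale (h.mem w) (h.mem 0).2.1 ht
  have hc := Pool.Agent.W602.TL.const_of_finite h.diffu (fun w => (h.mem w).1)
    (fun w => hT _ (hmem w))
  obtain ⟨w, w', hww⟩ := h.nonconst
  rcases hww with h2 | h2
  · obtain ⟨c, hc⟩ := hc w w'
    exact h2 c hc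
  · obtain ⟨c, hc⟩ := h1 w w'
    exact h2 c hc

theorem quasi_curveF (hc : ConstF m F) {X Y : BiSet N v} (hX : QRamF m F X Y)
    {a : ℂ → Fin (N + 1) → ℂ} {b : ℂ → Fin (v + 1) → ℂ} (h : QEntire X Y a b) (z z' : ℂ) :
    ∃ t : ℂ, b z' = t • b z := by
  have hb : ∀ j, Differentiable ℂ fun z => b z j := fun j => differentiable_pi.mp h.diffv j
  have ha : ∀ j, Differentiable ℂ fun z => a z j := fun j => differentiable_pi.mp h.diffu j
  refine hc b hb (fun z => (h.mem z).1.2.1) (fun i z c hc => ?_) z z'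
  refine hX (fun w => a (w + z)) (fun w => b (w + z)) ⟨fun j => ?_, fun j => ?_,
    Filter.Eventually.of_forall fun w => h.mem _⟩ i c (by rw [shift_ordF]; exact hc)
  · exact ((ha j).comp (differentiable_id.add_const z)).analyticAt 0
  · exact ((hb j).comp (differentiable_id.add_const z)).analyticAt 0

theorem no_quasiF (hc : ConstF m F) {X Y : BiSet N v} (hX : QRamF m F X Y) (hf : QuasiFinite X Y)
    (a : ℂ → Fin (N + 1) → ℂ) (b : ℂ → Fin (v + 1) → ℂ) : ¬ QEntire X Y a b := by
  intro h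
  have h1 := quasi_curveF hc hX h
  obtain ⟨T, hT⟩ := hf (b 0)
  have ha : ∀ j, Differentiable ℂ fun z => a z j := fun j => differentiable_pi.mp h.diffu j
  have hmem : ∀ w, QMem X Y (a w) (b 0) := by
    intro w
    obtain ⟨t, ht⟩ := h1 0 w
    obtain ⟨t', ht'⟩ := h1 w 0
    refine ⟨mem_scale (h.mem w).1 (h.mem 0).1.2.1 ht, fun hd => (h.mem w).2 ?_⟩
    exact mem_scale hd (h.mem w).1.2.1 ht'
  have hc := Pool.Agent.W602.TL.const_of_finite ha (fun w => (h.mem w).1.1)
    (fun w => hT _ (hmem w))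
  obtain ⟨w, w', hww⟩ := h.nonconst
  rcases hww with h2 | h2
  · obtain ⟨c, hc⟩ := hc w w'
    exact h2 c hc
  · obtain ⟨c, hc⟩ := h1 w w'
    exact h2 c hc

/-- functions with a constant power are constant -/
theorem const_of_pow {g : ℂ → ℂ} (hg : Differentiable ℂ g) {μ : ℕ} (hμ : 1 ≤ μ) {c : ℂ}
    (h : ∀ z, g z ^ μ = c) (z z' : ℂ) : g z' = g z := by
  classical
  have h1 := const_of_finite (u := fun z (j : Fin 2) => if j = 0 then 1 else g z)
    (fun j => by
      fin_cases j
      · simp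
      · simpa using hg)
    (fun z h0 => by
      have := congrFun h0 0
      simp at this)
    (T := (Polynomial.nthRootsFinset μ c).image fun r (j : Fin 2) => if j = 0 then 1 else r)
    (fun z => ⟨fun j => if j = 0 then 1 else g z, Finset.mem_image.mpr ⟨g z, by
      rw [Polynomial.mem_nthRootsFinset (by omega)]
      exact h z, rfl⟩, 1, by rw [one_smul]⟩) z z'
  obtain ⟨t, ht⟩ := h1
  have h2 := congrFun ht 0
  have h3 := congrFun ht 1
  simp only [Pi.smul_apply, smul_eq_mul, if_true, mul_one, one_ne_zero, if_false] at h2 h3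
  rw [h3, ← h2, one_mul]

/-- **The covers with the equations `y i ^ μ i = F i (x)` in weighted projective space.** -/
theorem cover_const (hc : ConstF m F) (hF : ∀ i, (F i).IsHomogeneous (δ i)) (hδ : ∀ i, 1 ≤ δ i)
    (hm : 1 ≤ m) {μ w : Fin q → ℕ} (hμ : ∀ i, m ≤ μ i) (hw : ∀ i, μ i * w i = δ i)
    {x : ℂ → Fin (v + 1) → ℂ} {y : ℂ → Fin q → ℂ} (hx : ∀ j, Differentiable ℂ fun z => x z j)
    (hy : ∀ i, Differentiable ℂ fun z => y z i) (hnz : ∀ z, x z ≠ 0 ∨ y z ≠ 0)
    (h : ∀ z i, y z i ^ μ i = eval (x z) (F i)) (z z' : ℂ) :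
    ∃ t : ℂ, x z' = t • x z ∧ ∀ i, y z' i = t ^ w i * y z i := by
  have hxnz : ∀ z, x z ≠ 0 := by
    intro z h0
    rcases hnz z with h1 | h1
    · exact h1 h0
    · apply h1
      funext i
      have h2 := h z i
      have h3 := eval_of_hom (hF i) (0 : ℂ) (x z)
      rw [zero_pow (by have := hδ i; omega), zero_mul] at h3
      have h4 : x z = fun j => 0 * x z j := by
        funext j
        rw [h0, zero_mul]
        rfl
      rw [h4, h3] at h2
      exact pow_eq_zero_iff (by have := hμ i; omega) |>.mp h2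
  have hord : MulF m F x := by
    intro i z a ha
    have e1 : (fun t => eval (x t) (F i)) = (fun t => y t i) ^ μ i := by
      funext t
      rw [Pi.pow_apply, h t i]
    rw [e1, analyticOrderAt_pow ((hy i).analyticAt z)] at ha
    by_cases h4 : analyticOrderAt (fun w => y w i) z = ⊤
    · rw [h4, nsmul_eq_mul, ENat.mul_top (by
        have := hμ i
        exact_mod_cast (by omega : μ i ≠ 0))] at ha
      exact absurd ha.symm (ENat.natCast_ne_top a)
    · obtain ⟨b, hb⟩ := ENat.ne_top_iff_exists.mp h4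
      rw [← hb, nsmul_eq_mul] at ha
      have h5 : μ i * b = a := by exact_mod_cast ha
      rcases Nat.eq_zero_or_pos b with hb | hb
      · left
        rw [← h5, hb, mul_zero]
      · right
        rw [← h5]
        exact (hμ i).trans (Nat.le_mul_of_pos_right _ hb)
  have hcx := hc x hx hxnz hord
  obtain ⟨j0, hj0⟩ := Function.ne_iff.mp (hxnz z)
  rw [Pi.zero_apply] at hj0
  set t : ℂ → ℂ := fun s => x s j0 / x z j0 with ht
  have htx : ∀ s, x s = t s • x z := by
    intro s
    obtain ⟨c, hc⟩ := hcx z s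
    have h2 : t s = c := by
      rw [ht]
      simp only
      rw [hc, Pi.smul_apply, smul_eq_mul, mul_div_cancel_right₀ _ hj0]
    rw [h2, hc]
  have ht0 : ∀ s, t s ≠ 0 := by
    intro s h0
    apply hxnz s
    rw [htx s, h0, zero_smul]
  have htz : t z = 1 := by
    rw [ht]
    simp only
    exact div_self hj0
  refine ⟨t z', htx z', fun i => ?_⟩
  have hg : Differentiable ℂ fun s => y s i / t s ^ w i :=
    (hy i).div (((hx j0).div_const _).pow _) fun s => pow_ne_zero _ (ht0 s)
  have h2 := const_of_pow (μ := μ i) hg (by have := hμ i; omega) (c := eval (x z) (F i)) (fun s => by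
    rw [div_pow, h s i, ← pow_mul, mul_comm (w i), hw, htx s]
    have h3 := eval_of_hom (hF i) (t s) (x z)
    have h4 : t s • x z = fun j => t s * x z j := rfl
    rw [h4, h3, mul_div_cancel_left₀ _ (pow_ne_zero _ (ht0 s))]) z z'
  rw [htz, one_pow, div_one] at h2
  rw [← h2]
  have := pow_ne_zero (w i) (ht0 z')
  field_simp

/-- The cone over the cover is smooth outside of its vertex. -/
theorem cover_smooth (hG : GoodF F δ e L D q0) {μ : Fin q → ℕ} (hμ : ∀ i, 1 ≤ μ i)
    {x : Fin (v + 1) → ℂ} {y : Fin q → ℂ} (hnz : x ≠ 0 ∨ y ≠ 0)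
    (h : ∀ i, y i ^ μ i = eval x (F i)) {c : Fin q → ℂ}
    (hc1 : ∀ l, ∑ i, c i * eval x (pderiv l (F i)) = 0)
    (hc2 : ∀ i, c i * (μ i * y i ^ (μ i - 1)) = 0) : c = 0 := by
  classical
  have hx : x ≠ 0 := by
    rintro h0
    rcases hnz with h1 | h1
    · exact h1 h0
    · apply h1
      funext i
      have h2 := h i
      have h3 := eval_of_hom (hG.hom i) (0 : ℂ) x
      rw [zero_pow (by have := hG.one i; omega), zero_mul] at h3
      have h4 : x = fun j => 0 * x j := by
        funext j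
        rw [h0, Pi.zero_apply, zero_mul]
      rw [h4, h3] at h2
      exact pow_eq_zero_iff (by have := hμ i; omega) |>.mp h2
  set S : Finset (Fin q) := Finset.univ.filter fun i => y i = 0 with hS
  have hcS : ∀ i, i ∉ S → c i = 0 := by
    intro i hi
    rw [hS, Finset.mem_filter, not_and] at hi
    have hyi := hi (Finset.mem_univ i)
    refine (mul_eq_zero.mp (hc2 i)).resolve_right (mul_ne_zero ?_ (pow_ne_zero _ hyi))
    have := hμ i
    exact_mod_cast (by omega : μ i ≠ 0)
  have hSF : ∀ i ∈ S, eval x (F i) = 0 := by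
    intro i hi
    rw [hS, Finset.mem_filter] at hi
    rw [← h i, hi.2, zero_pow (by have := hμ i; omega)]
  set a : Fin S.card → Fin q := fun b => (S.equivFin.symm b).1 with ha
  have hai : Function.Injective a := fun b b' hb => S.equivFin.symm.injective (Subtype.ext hb)
  have haS : ∀ b, a b ∈ S := fun b => (S.equivFin.symm b).2
  have hSc : S.card ≤ v := by
    by_contra hcon
    push Not at hcon
    apply hx
    funext j
    obtain ⟨N, hN⟩ := hG.top (fun b => a (Fin.castLE hcon b))
      (hai.comp (Fin.castLE_injective _)) j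
    have h3 : Ideal.span (Set.range fun b : Fin (v + 1) => F (a (Fin.castLE hcon b))) ≤
        RingHom.ker (eval x) := by
      rw [Ideal.span_le]
      rintro g ⟨i, rfl⟩
      exact hSF _ (haS _)
    have h4 := h3 hN
    rw [RingHom.mem_ker, map_pow, eval_X] at h4
    exact (pow_eq_zero_iff (Nat.succ_ne_zero N)).mp (by rw [pow_succ, h4, zero_mul])
  by_contra hc0
  refine hG.no_crit2 (r := S.card) (by omega) a hai ⟨x, hx, fun b => c (a b), ?_, fun b => hSF _ (haS b),
    fun l => ?_⟩
  · intro h0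
    apply hc0
    funext i
    by_cases hi : i ∈ S
    · have h1 := congrFun h0 (S.equivFin ⟨i, hi⟩)
      simp only [ha, Equiv.symm_apply_apply, Pi.zero_apply] at h1
      exact h1
    · exact hcS i hi
  · rw [← hc1 l, ← Finset.sum_subset (Finset.subset_univ S) fun i _ hi => by rw [hcS i hi, zero_mul]]
    rw [← Finset.sum_coe_sort S]
    exact (Fintype.sum_equiv S.equivFin _ _ fun i => by simp [ha]).symm

/-- **The theorem for entire curves.** -/
theorem const_general (hv : 1 ≤ v) (hm : 2 ≤ m) (hδ : ∀ i, 1 ≤ δ i)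
    (h : 2 * v * (2 * v + 1) * m ^ 2 ≤ (m - 1) ^ 2 * (q - (2 * v + 3))) :
    ForGeneral (v := v) δ fun F => ConstF m F ∧ ∀ μ : Fin q → ℕ, (∀ i, 1 ≤ μ i) →
      ∀ (x : Fin (v + 1) → ℂ) (y : Fin q → ℂ), (x ≠ 0 ∨ y ≠ 0) →
        (∀ i, y i ^ μ i = eval x (F i)) → ∀ c : Fin q → ℂ,
        (∀ l, ∑ i, c i * eval x (pderiv l (F i)) = 0) →
        (∀ i, c i * (μ i * y i ^ (μ i - 1)) = 0) → c = 0 := by
  refine (good_forms hv hm hδ h).mono fun F hF ⟨e, L, D, q0, h1, h2, h3⟩ =>
    ⟨fun f hf hnz hmul => cur_const h3 hv h1 (by omega) h2 hf hnz hmul,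
      fun μ hμ x y hxy hh c hc1 hc2 => cover_smooth h3 hμ hxy hh hc1 hc2⟩

end Pool.Agent.V8H90.HY
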