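import Pool.Agent.V8H90.HY.Desc

/-!
Families of hypersurfaces with many invariant polynomials in a vector and its derivative.
-/

set_option autoImplicit false

namespace Pool.Agent.V8H90.HY

open MvPolynomial Pool.Agent.V8H90.JT Pool.Agent.V8H90.AJ

variable {v q : ℕ}

/-- matrices with independent rows have a minor which does not vanish -/
theorem exists_minor {k : Type} [Field k] {r n : ℕ} (M : Fin r → Fin n → k)
    (h : ∀ c : Fin r → k, (∀ l, ∑ i, c i * M i l = 0) → c = 0) :
    ∃ σ : Fin r → Fin n, (Matrix.of fun i l => M i (σ l)).det ≠ 0 := by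
  classical
  -- the columns span
  have hspan : Submodule.span k (Set.range fun l : Fin n => fun i => M i l) = ⊤ := by
    by_contra hne
    obtain ⟨f, hf0, hf⟩ := Submodule.exists_le_ker_of_lt_top _ (lt_top_iff_ne_top.mpr hne)
    apply hf0
    have h1 := h (fun i => f (Pi.single i 1)) (fun l => by
      have h2 : f (fun i => M i l) = 0 := hf (Submodule.subset_span ⟨l, rfl⟩)
      have h3 : (fun i => M i l) = ∑ i, M i l • (Pi.single i (1 : k) : Fin r → k) := by
        funext j
        simp [Finset.sum_apply, Pi.single_apply]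
      rw [h3, map_sum] at h2
      rw [← h2]
      refine Finset.sum_congr rfl fun i _ => ?_
      rw [map_smul, smul_eq_mul, mul_comm])
    refine LinearMap.ext fun x => ?_
    have h3 : x = ∑ i, x i • (Pi.single i (1 : k) : Fin r → k) := by
      funext j
      simp [Finset.sum_apply, Pi.single_apply]
    rw [h3, map_sum]
    simp only [map_smul, LinearMap.zero_apply, smul_eq_mul]
    exact Finset.sum_eq_zero fun i _ => by rw [congrFun h1 i, Pi.zero_apply, mul_zero]
  obtain ⟨κ, a, ha, hsp, hli⟩ := exists_linearIndependent' k fun l : Fin n => fun i => M i l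
  rw [hspan] at hsp
  have hfin : Finite κ := Finite.of_injective a ha
  have := Fintype.ofFinite κ
  have hcard : Fintype.card κ = r := by
    have b := Module.Basis.mk hli (by rw [hsp])
    have h1 := Module.finrank_eq_card_basis b
    rw [Module.finrank_fintype_fun_eq_card, Fintype.card_fin] at h1
    exact h1.symm
  set e : Fin r ≃ κ := (Fintype.equivFinOfCardEq hcard).symm
  refine ⟨fun l => a (e l), ?_⟩
  have h1 : LinearIndependent k (fun l : Fin r => fun i => M i (a (e l))) :=
    hli.comp e e.injective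
  have h2 := (Matrix.linearIndependent_cols_iff_isUnit
    (A := Matrix.of fun i l => M i (a (e l)))).mp h1
  exact ((Matrix.isUnit_iff_isUnit_det _).mp h2).ne_zero

/-- the minors of the matrix of the derivatives -/
noncomputable def mnr {A : Type*} [CommRing A] {r : ℕ} (F : Fin r → MvPolynomial (Fin (v + 1)) A)
    (σ : Fin r → Fin (v + 1)) : MvPolynomial (Fin (v + 1)) A :=
  (Matrix.of fun i l => pderiv (σ l) (F i)).det

theorem map_mnr {A B : Type*} [CommRing A] [CommRing B] (φ : A →+* B) {r : ℕ}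
    (F : Fin r → MvPolynomial (Fin (v + 1)) A) (σ : Fin r → Fin (v + 1)) :
    map φ (mnr F σ) = mnr (fun i => map φ (F i)) σ := by
  unfold mnr
  rw [RingHom.map_det]
  congr 1
  ext1 i l
  exact (pderiv_map).symm

/-- the equations and the minors -/
def gens {A : Type*} [CommRing A] {r : ℕ} (F : Fin r → MvPolynomial (Fin (v + 1)) A) :
    Set (MvPolynomial (Fin (v + 1)) A) := Set.range F ∪ Set.range (mnr F)

theorem crit_of_gens {k : Type} [Field k] {r : ℕ} {F : Fin r → MvPolynomial (Fin (v + 1)) k}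
    {x : Fin (v + 1) → k} (hx : x ≠ 0) (h : ∀ g ∈ gens F, eval x g = 0) : Crit F := by
  by_contra hc
  obtain ⟨σ, hσ⟩ := exists_minor (fun i l => eval x (pderiv l (F i))) (fun c hc' => by
    by_contra hc0
    exact hc ⟨x, hx, c, hc0, fun i => h _ (Or.inl ⟨i, rfl⟩), hc'⟩)
  apply hσ
  rw [← h _ (Or.inr ⟨σ, rfl⟩)]
  unfold mnr
  rw [RingHom.map_det]
  rfl

theorem gens_of_crit {k : Type} [Field k] {r : ℕ} {F : Fin r → MvPolynomial (Fin (v + 1)) k}
    {x : Fin (v + 1) → k} {c : Fin r → k} (hc : c ≠ 0) (h0 : ∀ i, eval x (F i) = 0)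
    (h1 : ∀ l, ∑ i, c i * eval x (pderiv l (F i)) = 0) : ∀ g ∈ gens F, eval x g = 0 := by
  rintro g (⟨i, rfl⟩ | ⟨σ, rfl⟩)
  · exact h0 i
  · unfold mnr
    rw [RingHom.map_det]
    by_contra hne
    apply hc
    apply Matrix.eq_zero_of_vecMul_eq_zero hne
    funext l
    exact h1 (σ l)

theorem crit_square {k : Type} [Field k] {F : Fin (v + 1) → MvPolynomial (Fin (v + 1)) k}
    {δ : Fin (v + 1) → ℕ} (hF : ∀ i, (F i).IsHomogeneous (δ i)) {x : Fin (v + 1) → k} (hx : x ≠ 0)
    (h : ∀ i, eval x (F i) = 0) : Crit F := by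
  set M : Matrix (Fin (v + 1)) (Fin (v + 1)) k := Matrix.of fun i l => eval x (pderiv l (F i))
    with hM
  have h1 : M.det = 0 := by
    rw [← Matrix.exists_mulVec_eq_zero_iff]
    refine ⟨x, hx, ?_⟩
    funext i
    have h2 := dv_euler (A := k) (T := k) x (hF i)
    unfold dv at h2
    rw [Pi.zero_apply, Matrix.mulVec, dotProduct]
    have h3 : (δ i : k) * aeval x (F i) = 0 := by
      have h4 : aeval x (F i) = eval x (F i) := rfl
      rw [h4, h i, mul_zero]
    rw [h3] at h2
    rw [← h2]
    refine Finset.sum_congr rfl fun l _ => ?_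
    rw [hM, Matrix.of_apply, mul_comm]
    rfl
  obtain ⟨c, hc, hc0⟩ := Matrix.exists_vecMul_eq_zero_iff.mpr h1
  exact ⟨x, hx, c, hc, h, fun l => congrFun hc0 l⟩

/-- hypersurfaces in general position such that every tangent direction is detected by an
invariant polynomial for `q0` of them -/
structure GoodF (F : Fin q → MvPolynomial (Fin (v + 1)) ℂ) (δ e : Fin q → ℕ) (L D q0 : ℕ) :
    Prop where
  one : ∀ i, 1 ≤ δ i
  mul : ∀ i, e i * δ i = L
  hom : ∀ i, (F i).IsHomogeneous (δ i)
  snc : ∀ (r : ℕ), r ≤ v → ∀ a : Fin r → Fin q, Function.Injective a → ∀ j, ∃ N : ℕ,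
    (X j : MvPolynomial (Fin (v + 1)) ℂ) ^ N ∈ Ideal.span (gens fun i => F (a i))
  top : ∀ a : Fin (v + 1) → Fin q, Function.Injective a → ∀ j, ∃ N : ℕ,
    (X j : MvPolynomial (Fin (v + 1)) ℂ) ^ N ∈ Ideal.span (Set.range fun i => F (a i))
  jet : ∀ p : Fin 2 → Fin (v + 1) → ℂ, Mi p → ∃ (s : Fin q0 → Fin q)
    (R : MvPolynomial (Fin 2 × Fin (v + 1)) ℂ), Function.Injective s ∧ R.IsHomogeneous D ∧
      Inv (k := 1) 1 R ∧ (∀ i, R ∈ II (F (s i)) ^ e (s i)) ∧ eval (fun y => p y.1 y.2) R ≠ 0

theorem GoodF.no_crit2 {F : Fin q → MvPolynomial (Fin (v + 1)) ℂ} {δ e : Fin q → ℕ} {L D q0 : ℕ}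
    (h : GoodF F δ e L D q0) {r : ℕ} (hr : r ≤ v + 1) (a : Fin r → Fin q)
    (ha : Function.Injective a) : ¬ Crit fun i => F (a i) := by
  rintro ⟨x, hx, c, hc, h0, h1⟩
  have h2 := gens_of_crit hc h0 h1
  apply hx
  funext j
  rw [Pi.zero_apply]
  rcases Nat.lt_or_ge r (v + 1) with hr1 | hr1
  · obtain ⟨N, hN⟩ := h.snc r (by omega) a ha j
    have h3 : Ideal.span (gens fun i => F (a i)) ≤ RingHom.ker (eval x) := by
      rw [Ideal.span_le]
      exact fun g hg => h2 g hg
    have h4 := h3 hN
    rw [RingHom.mem_ker, map_pow, eval_X] at h4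
    exact (pow_eq_zero_iff (Nat.succ_ne_zero N)).mp (by rw [pow_succ, h4, zero_mul])
  · obtain rfl : r = v + 1 := le_antisymm hr hr1
    obtain ⟨N, hN⟩ := h.top a ha j
    have h3 : Ideal.span (Set.range fun i => F (a i)) ≤ RingHom.ker (eval x) := by
      rw [Ideal.span_le]
      rintro g ⟨i, rfl⟩
      exact h0 i
    have h4 := h3 hN
    rw [RingHom.mem_ker, map_pow, eval_X] at h4
    exact (pow_eq_zero_iff (Nat.succ_ne_zero N)).mp (by rw [pow_succ, h4, zero_mul])

theorem GoodF.cop {F : Fin q → MvPolynomial (Fin (v + 1)) ℂ} {δ e : Fin q → ℕ} {L D q0 : ℕ}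
    (h : GoodF F δ e L D q0) (hv : 1 ≤ v) {i j : Fin q} (hij : i ≠ j) :
    IsRelPrime (i0 (F i)) (i0 (F j)) := by
  apply relprime_pair (K := ℂ) hv
  have h1 := h.no_crit2 (r := 2) (by omega) (fun c => if c = 0 then i else j) (by
    intro a b hab
    simp only at hab
    fin_cases a <;> fin_cases b
    · rfl
    · simp at hab
      exact absurd hab hij
    · simp at hab
      exact absurd hab.symm hij
    · rfl)
  intro hc
  apply h1
  have e1 : (fun c : Fin 2 => F (if c = 0 then i else j)) =
      fun c => map (algebraMap ℂ ℂ) (if c = 0 then F i else F j) := by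
    funext c
    rw [Algebra.algebraMap_self, MvPolynomial.map_id]
    split_ifs <;> rfl
  rw [e1]
  exact hc

/-- invariant polynomials for some of the members of a family of forms -/
structure RelF {A : Type} [CommRing A] {δ : Fin q → ℕ} (x : Ix v δ → A) (e : Fin q → ℕ)
    (q0 D : ℕ) (R : MvPolynomial (Fin 2 × Fin (v + 1)) A) : Prop where
  ex : ∃ s : Fin q0 → Fin q, Function.Injective s ∧ ∀ i, R ∈ II (fm x (s i)) ^ e (s i)
  hom : R.IsHomogeneous D
  inv : Inv (k := 1) 1 R

theorem RelF.red {k : Type} [Field k] {Λ : Type} [Field Λ] [Algebra k Λ] {δ e : Fin q → ℕ}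
    {q0 D : ℕ} {x : Ix v δ → k} {R : MvPolynomial (Fin 2 × Fin (v + 1)) Λ}
    (h : RelF (fun y => algebraMap k Λ (x y)) e q0 D R) (f : Λ →ₗ[k] k) :
    RelF x e q0 D (red f R) := by
  obtain ⟨⟨s, hs, hv⟩, hh, hi⟩ := h
  refine ⟨⟨s, hs, fun i => red_mem f ?_⟩, red_hom hh, fun g U hg => ?_⟩
  · rw [Ideal.map_pow, II_map_eq, map_fm]
    exact hv i
  · unfold ev
    rw [eval_red, eval_red]
    have h1 := hi (PowerSeries.map (algebraMap k Λ) g)
      (fun i => PowerSeries.map (algebraMap k Λ) (U i)) (by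
        obtain ⟨g', hg'⟩ := hg
        refine ⟨PowerSeries.map (algebraMap k Λ) g', ?_⟩
        have h2 := congrArg (PowerSeries.map (algebraMap k Λ)) hg'
        rw [map_sub, map_one, map_mul, map_pow, PowerSeries.map_X] at h2
        exact h2)
    unfold ev at h1
    simp only [← map_mul, PowerSeries.coeff_map] at h1
    rw [h1]

/-- descent to a subring with given field of fractions -/
theorem RelF.frac {A E : Type} [CommRing A] [IsDomain A] [Field E] [Algebra A E]
    [IsFractionRing A E] {δ e : Fin q → ℕ} {q0 D : ℕ} {x : Ix v δ → A}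
    {R : MvPolynomial (Fin 2 × Fin (v + 1)) E}
    (h : RelF (fun y => algebraMap A E (x y)) e q0 D R) :
    ∃ (a : A) (R' : MvPolynomial (Fin 2 × Fin (v + 1)) A), a ≠ 0 ∧
      map (algebraMap A E) R' = C (algebraMap A E a) * R ∧ RelF x e q0 D R' := by
  obtain ⟨⟨s, hs, hv⟩, hh, hi⟩ := h
  obtain ⟨a, R', ha0, h1, h2⟩ := frac_all (J := fun i => II (fm x (s i)) ^ e (s i)) (R := R)
    fun i => by
      rw [Ideal.map_pow, II_map_eq, map_fm]
      exact hv i
  have hinj : Function.Injective (algebraMap A E) := IsFractionRing.injective A E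
  have hev : ∀ w : Fin 2 × Fin (v + 1) → A, algebraMap A E (eval w R') =
      algebraMap A E a * eval (fun y => algebraMap A E (w y)) R := by
    intro w
    have h2 : algebraMap A E (eval w R') = eval (fun y => algebraMap A E (w y))
        (map (algebraMap A E) R') := by
      rw [eval_map, ← eval₂_id, eval₂_comp_left (algebraMap A E), RingHom.comp_id]
      rfl
    rw [h2, h1, map_mul, eval_C]
  refine ⟨a, R', ha0, h1, ⟨s, hs, h2⟩, ?_, fun g U hg => ?_⟩
  · intro t ht
    apply hh
    intro h0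
    apply ht
    apply hinj
    have h2 := congrArg (coeff t) h1
    rw [coeff_map, coeff_C_mul, h0, mul_zero] at h2
    rw [h2, map_zero]
  · apply hinj
    unfold ev
    rw [hev, hev]
    have h2 := hi (PowerSeries.map (algebraMap A E) g)
      (fun i => PowerSeries.map (algebraMap A E) (U i)) (by
        obtain ⟨g', hg'⟩ := hg
        refine ⟨PowerSeries.map (algebraMap A E) g', ?_⟩
        have h2 := congrArg (PowerSeries.map (algebraMap A E)) hg'
        rw [map_sub, map_one, map_mul, map_pow, PowerSeries.map_X] at h2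
        exact h2)
    unfold ev at h2
    simp only [← map_mul, PowerSeries.coeff_map] at h2
    rw [h2]

end Pool.Agent.V8H90.HY
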