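import Pool.Agent.V8H90.HY.Stab

/-!
Polynomials which vanish on the tangent vectors of several hypersurfaces: up to a power of a minor
of the matrix of the derivatives, they are in the product of the ideals.
-/

set_option autoImplicit false

namespace Pool.Agent.V8H90.HY

open MvPolynomial Pool.Agent.V8H90.JT Pool.Agent.V8H90.AJ

variable {v r : ℕ} {k : Type} [Field k]

/-- the polynomials in a vector and its derivative -/
abbrev SR (k : Type) [Field k] (v : ℕ) : Type := MvPolynomial (Fin 2 × Fin (v + 1)) k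

/-- polynomials whose coefficients are divisible by powers of `f` -/
noncomputable def Co {S : Type*} [CommRing S] (f : S) (i : Fin r) (e : ℕ) :
    Ideal (MvPolynomial (Fin r) S) where
  carrier := {p | ∀ s : Fin r →₀ ℕ, f ^ (e - s i) ∣ coeff s p}
  zero_mem' := fun s => by rw [coeff_zero]; exact dvd_zero _
  add_mem' := fun {p q} hp hq s => by rw [coeff_add]; exact dvd_add (hp s) (hq s)
  smul_mem' := fun p q hq s => by
    classical
    rw [smul_eq_mul, coeff_mul]
    refine Finset.dvd_sum fun x hx => ?_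
    refine Dvd.dvd.mul_left ((pow_dvd_pow f ?_).trans (hq x.2)) _
    have h := Finset.HasAntidiagonal.mem_antidiagonal.mp hx
    rw [← h, Finsupp.add_apply]
    omega

theorem mem_Co {S : Type*} [CommRing S] {f : S} {i : Fin r} {e : ℕ} {p : MvPolynomial (Fin r) S} :
    p ∈ Co f i e ↔ ∀ s : Fin r →₀ ℕ, f ^ (e - s i) ∣ coeff s p := Iff.rfl

theorem Co_pow {S : Type*} [CommRing S] (f : S) (i : Fin r) (e : ℕ) :
    (Co f i 1) ^ e ≤ Co f i e := by
  classical
  induction e with
  | zero =>
    intro p _ s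
    rw [Nat.zero_sub, pow_zero]
    exact one_dvd _
  | succ e ih =>
    rw [pow_succ, Ideal.mul_le]
    intro p hp q hq s
    have hp' := ih hp
    rw [coeff_mul]
    refine Finset.dvd_sum fun x hx => ?_
    have h := Finset.HasAntidiagonal.mem_antidiagonal.mp hx
    refine (pow_dvd_pow f ?_).trans (pow_add f _ _ ▸ mul_dvd_mul (hp' x.1) (hq x.2))
    rw [← h, Finsupp.add_apply]
    omega

/-- the scaling of the second variables by a polynomial -/
theorem aeval_scale (Δ : MvPolynomial (Fin 2 × Fin (v + 1)) k) {w : ℕ}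
    {R : MvPolynomial (Fin 2 × Fin (v + 1)) k} (hw : ∀ t, coeff t R ≠ 0 → wt t = w) :
    aeval (fun x : Fin 2 × Fin (v + 1) => if x.1 = 0 then
      (X x : MvPolynomial (Fin 2 × Fin (v + 1)) k) else Δ * X x) R = Δ ^ w * R := by
  classical
  conv_rhs => rw [R.as_sum]
  rw [aeval_def, eval₂_eq, Finset.mul_sum]
  refine Finset.sum_congr rfl fun s hs => ?_
  have h1 : ∏ x ∈ s.support, (if x.1 = 0 then (X x : MvPolynomial (Fin 2 × Fin (v + 1)) k)
      else Δ * X x) ^ s x = Δ ^ wt s * ∏ x ∈ s.support, X x ^ s x := by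
    have h2 : ∀ x : Fin 2 × Fin (v + 1), (if x.1 = 0 then
        (X x : MvPolynomial (Fin 2 × Fin (v + 1)) k) else Δ * X x) ^ s x =
        Δ ^ ((x.1 : ℕ) * s x) * X x ^ s x := by
      rintro ⟨m, j⟩
      fin_cases m
      · simp
      · simp [mul_pow]
    rw [Finset.prod_congr rfl fun x _ => h2 x, Finset.prod_mul_distrib,
      Finset.prod_pow_eq_pow_sum]
    rfl
  rw [h1, hw s (mem_support_iff.mp hs), monomial_eq, algebraMap_eq]
  unfold Finsupp.prod
  ring

/-- **The product of the ideals.** -/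
theorem lemA {F : Fin r → MvPolynomial (Fin (v + 1)) k}
    (hc : ∀ i j, i ≠ j → IsRelPrime (i0 (F i)) (i0 (F j))) (σ : Fin r → Fin (v + 1))
    {e : Fin r → ℕ} {w : ℕ} {R : MvPolynomial (Fin 2 × Fin (v + 1)) k}
    (hw : ∀ t, coeff t R ≠ 0 → wt t = w) (hR : ∀ i, R ∈ II (F i) ^ e i) :
    i0 (Matrix.of fun i l => pderiv (σ l) (F i)).det ^ w * R ∈ ∏ i, II (F i) ^ e i := by
  classical
  set M : Matrix (Fin r) (Fin r) (SR k v) := Matrix.of fun i l => i0 (pderiv (σ l) (F i)) with hM
  have hdet : i0 (Matrix.of fun i l => pderiv (σ l) (F i)).det = M.det := by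
    unfold i0
    rw [AlgHom.map_det]
    rfl
  rw [hdet]
  set Δ := M.det with hΔ
  -- the homomorphisms
  set ξ : Fin (v + 1) → MvPolynomial (Fin r) (SR k v) := fun j => C (Δ * X (1, j)) +
    ∑ l, if σ l = j then ∑ i, C (M.adjugate l i) * (X i - C (i1 (F i))) else 0 with hξ
  set φ : SR k v →ₐ[k] MvPolynomial (Fin r) (SR k v) := aeval fun x : Fin 2 × Fin (v + 1) =>
    if x.1 = 0 then C (X x) else ξ x.2 with hφ
  set ψ : MvPolynomial (Fin r) (SR k v) →ₐ[SR k v] SR k v := aeval fun i => i1 (F i) with hψ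
  have hCalg : ∀ G : MvPolynomial (Fin (v + 1)) k,
      aeval (fun j => (C (X ((0 : Fin 2), j)) : MvPolynomial (Fin r) (SR k v))) G = C (i0 G) := by
    intro G
    have h := comp_aeval_apply (f := fun j => (X ((0 : Fin 2), j) : (SR k v)))
      (IsScalarTower.toAlgHom k (SR k v) (MvPolynomial (Fin r) (SR k v))) G
    exact h.symm
  have hφ0 : ∀ G : MvPolynomial (Fin (v + 1)) k, φ (i0 G) = C (i0 G) := by
    intro G
    rw [hφ, aeval_i0, ← hCalg]
    simp only [if_true]
  have hMadj : ∀ i i', ∑ l, M i l * M.adjugate l i' = if i = i' then Δ else 0 := by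
    intro i i'
    have h := congrFun (congrFun (Matrix.mul_adjugate M) i) i'
    rw [Matrix.mul_apply, Matrix.smul_apply, Matrix.one_apply, smul_eq_mul, mul_ite, mul_one,
      mul_zero] at h
    exact h
  have hφ1 : ∀ i, φ (i1 (F i)) = C Δ * X i := by
    intro i
    rw [hφ, aeval_i1]
    simp only [if_true, one_ne_zero, if_false]
    unfold dv
    simp only [hCalg]
    have e1 : ∀ j, ξ j * C (i0 (pderiv j (F i))) = C (Δ * (X (1, j) * i0 (pderiv j (F i)))) +
        ∑ l, if σ l = j then (∑ i', C (M.adjugate l i') * (X i' - C (i1 (F i')))) *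
          C (i0 (pderiv j (F i))) else 0 := by
      intro j
      rw [hξ]
      simp only [add_mul, Finset.sum_mul, ite_mul, zero_mul]
      congr 1
      simp only [map_mul]
      ring
    rw [Finset.sum_congr rfl fun j _ => e1 j, Finset.sum_add_distrib, Finset.sum_comm]
    simp only [Finset.sum_ite_eq, Finset.mem_univ, if_true]
    have e2 : ∑ j, (C (Δ * (X (1, j) * i0 (pderiv j (F i)))) : MvPolynomial (Fin r) (SR k v)) =
        C (Δ * i1 (F i)) := by
      rw [← map_sum, ← Finset.mul_sum]
      rfl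
    have e3 : ∑ l, (∑ i', C (M.adjugate l i') * (X i' - C (i1 (F i')))) *
        C (i0 (pderiv (σ l) (F i))) = C Δ * (X i - C (i1 (F i))) := by
      have e4 : ∀ l, (∑ i', C (M.adjugate l i') * (X i' - C (i1 (F i')))) *
          C (i0 (pderiv (σ l) (F i))) =
          ∑ i', C (M i l * M.adjugate l i') * (X i' - C (i1 (F i'))) := by
        intro l
        rw [Finset.sum_mul]
        refine Finset.sum_congr rfl fun i' _ => ?_
        rw [map_mul, hM, Matrix.of_apply]
        ring
      rw [Finset.sum_congr rfl fun l _ => e4 l, Finset.sum_comm]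
      have e5 : ∀ i', ∑ l, C (M i l * M.adjugate l i') * (X i' - C (i1 (F i'))) =
          C (if i = i' then Δ else 0) * (X i' - C (i1 (F i')) : MvPolynomial (Fin r) (SR k v)) := by
        intro i'
        rw [← hMadj, map_sum, Finset.sum_mul]
      rw [Finset.sum_congr rfl fun i' _ => e5 i', Finset.sum_eq_single i]
      · rw [if_pos rfl]
      · intro i' _ hi'
        rw [if_neg (Ne.symm hi'), map_zero, zero_mul]
      · intro h
        exact absurd (Finset.mem_univ i) h
    rw [e2, e3, map_mul]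
    ring
  have hψφ : ψ (φ R) = Δ ^ w * R := by
    rw [← aeval_scale Δ hw]
    have h1 := comp_aeval_apply (R := k) (f := fun x : Fin 2 × Fin (v + 1) =>
      if x.1 = 0 then C (X x) else ξ x.2) (ψ.restrictScalars k) R
    refine Eq.trans h1 ?_
    congr 2
    funext x
    obtain ⟨m, j⟩ := x
    fin_cases m
    · change ψ (C (X (0, j))) = _
      rw [hψ, aeval_C]
      rfl
    · change ψ (ξ j) = Δ * X (1, j)
      rw [hξ, hψ]
      have h2 : ∀ l, (aeval fun i => i1 (F i) : MvPolynomial (Fin r) (SR k v) →ₐ[SR k v] SR k v)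
          (if σ l = j then ∑ i, C (M.adjugate l i) * (X i - C (i1 (F i))) else 0) = 0 := by
        intro l
        split_ifs
        · rw [map_sum]
          refine Finset.sum_eq_zero fun i _ => ?_
          rw [map_mul, map_sub, aeval_X, aeval_C, aeval_C]
          change M.adjugate l i * (i1 (F i) - i1 (F i)) = 0
          rw [sub_self, mul_zero]
        · exact map_zero _
      rw [map_add, map_sum, Finset.sum_eq_zero fun l _ => h2 l, add_zero, aeval_C]
      rfl
  -- divisibility
  have hdiv : ∀ i, φ R ∈ Co (i0 (F i)) i (e i) := by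
    intro i
    refine Co_pow _ _ _ (pow_map φ.toRingHom (II_hom _ ?_ ?_) (e i) (hR i))
    · change φ (i0 (F i)) ∈ _
      rw [hφ0]
      intro s
      rw [coeff_C]
      split_ifs with h
      · rw [← h]
        simp
      · exact dvd_zero _
    · change φ (i1 (F i)) ∈ _
      rw [hφ1]
      intro s
      rw [coeff_C_mul, coeff_X]
      split_ifs with h
      · rw [← h]
        simp
      · rw [mul_zero]
        exact dvd_zero _
  have hprod : ∀ s : Fin r →₀ ℕ, ∏ i, i0 (F i) ^ (e i - s i) ∣ coeff s (φ R) := by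
    intro s
    refine Finset.prod_dvd_of_isRelPrime (fun i _ j _ hij => ?_) fun i _ => hdiv i s
    exact (hc i j hij).pow
  rw [← hψφ, (φ R).as_sum, map_sum]
  refine Ideal.sum_mem _ fun s _ => ?_
  obtain ⟨g, hg⟩ := hprod s
  rw [hψ, aeval_monomial, hg]
  have e1 : (algebraMap (SR k v) (SR k v)) ((∏ i, i0 (F i) ^ (e i - s i)) * g) *
      (s.prod fun i k => i1 (F i) ^ k) = g * ∏ i, (i0 (F i) ^ (e i - s i) * i1 (F i) ^ s i) := by
    rw [Finset.prod_mul_distrib, Finsupp.prod_fintype _ _ fun i => pow_zero _]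
    change (∏ i, i0 (F i) ^ (e i - s i)) * g * _ = _
    ring
  rw [e1]
  refine Ideal.mul_mem_left _ _ (Ideal.prod_mem_prod fun i _ => ?_)
  have h1 : i0 (F i) ^ (e i - s i) * i1 (F i) ^ s i ∈ II (F i) ^ (e i - s i) * II (F i) ^ s i :=
    Ideal.mul_mem_mul (Ideal.pow_mem_pow (i0_mem _) _) (Ideal.pow_mem_pow (i1_mem _) _)
  rw [← pow_add] at h1
  exact Ideal.pow_le_pow_right (by omega) h1

end Pool.Agent.V8H90.HY
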