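import Pool.Agent.V8H90.HY.Ord
import Pool.Agent.V8H90.AJ.Local
import Pool.Agent.V8H90.LG.Rel

/-!
Orders of the coefficients of the symmetric differentials at a prime divisor: hypersurfaces.
-/

set_option autoImplicit false

open FF MvPolynomial Pool.Agent.W602.GT Pool.Agent.V8H90.JT Pool.Agent.V8H90.AJ

namespace Pool.Agent.V8H90.HY

variable {K : Type} [Field K] [Algebra ℂ K] {n v q q0 L D : ℕ} {δ e : Fin q → ℕ}
  {F : Fin q → MvPolynomial (Fin (v + 1)) ℂ}

theorem dp_add (Δ : Fin n → Derivation ℂ K K) (f g : K) : dp Δ (f + g) = dp Δ f + dp Δ g := by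
  unfold dp
  rw [← Finset.sum_add_distrib]
  exact Finset.sum_congr rfl fun i _ => by rw [map_add, C_add]; ring

theorem dp_const (Δ : Fin n → Derivation ℂ K K) (c : ℂ) : dp Δ (algebraMap ℂ K c) = 0 := by
  unfold dp
  refine Finset.sum_eq_zero fun i _ => ?_
  rw [Derivation.map_algebraMap, C_0, zero_mul]

theorem aeval_C' (u : Fin (v + 1) → K) (G : MvPolynomial (Fin (v + 1)) ℂ) :
    aeval (fun j => (C (u j) : MvPolynomial (Fin n) K)) G = C (aeval u G) := by
  induction G using MvPolynomial.induction_on with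
  | C c =>
    rw [aeval_C, aeval_C, IsScalarTower.algebraMap_apply ℂ K (MvPolynomial (Fin n) K), algebraMap_eq]
  | add p q hp hq => rw [map_add, map_add, hp, hq, C_add]
  | mul_X p i hp => rw [map_mul, map_mul, hp, aeval_X, aeval_X, C_mul]

/-- the derivative of the value of a polynomial -/
theorem dp_aeval (Δ : Fin n → Derivation ℂ K K) (u : Fin (v + 1) → K)
    (G : MvPolynomial (Fin (v + 1)) ℂ) :
    dp Δ (aeval u G) = dv (fun j => C (u j)) (fun j => dp Δ (u j)) G := by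
  refine dv_unique _ _ (fun G => dp Δ (aeval u G)) (fun c => ?_) (fun A B => ?_) (fun A i => ?_) G
  · simp only [aeval_C]
    exact dp_const Δ c
  · simp only [map_add]
    exact dp_add Δ _ _
  · simp only [map_mul, aeval_X]
    rw [dp_mul, aeval_C']
    ring

theorem Fp_i0 (u : Fin (v + 1) → K) (Δ : Fin n → Derivation ℂ K K)
    (G : MvPolynomial (Fin (v + 1)) ℂ) : Fp u Δ (i0 G) = C (aeval u G) := by
  unfold Fp
  rw [aeval_i0, ← aeval_C']
  congr 2

theorem Fp_i1 (u : Fin (v + 1) → K) (Δ : Fin n → Derivation ℂ K K)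
    (G : MvPolynomial (Fin (v + 1)) ℂ) : Fp u Δ (i1 G) = dp Δ (aeval u G) := by
  unfold Fp
  rw [aeval_i1, dp_aeval]
  rfl

theorem Fp_homF {s : Fin q0 → Fin q} {w : ℕ} {R : MvPolynomial (Fin 2 × Fin (v + 1)) ℂ}
    (hR : AdmF F e s D w R) (u : Fin (v + 1) → K) (Δ : Fin n → Derivation ℂ K K) :
    (Fp u Δ R).IsHomogeneous w := by
  unfold Fp
  rw [aeval_def, eval₂_eq]
  refine IsHomogeneous.sum _ _ _ fun t ht => ?_
  have h1 : (∏ x ∈ t.support, arg u Δ x ^ t x).IsHomogeneous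
      (∑ x ∈ t.support, (x.1 : ℕ) * t x) := by
    refine IsHomogeneous.prod _ _ _ fun x _ => ?_
    have h2 : (arg u Δ x).IsHomogeneous (x.1 : ℕ) := by
      obtain ⟨m, j⟩ := x
      unfold arg
      fin_cases m
      · simpa using isHomogeneous_C (Fin n) (u j)
      · simpa using dp_hom Δ (u j)
    exact h2.pow _
  have h3 : ∑ x ∈ t.support, (x.1 : ℕ) * t x = w := hR.wt t (mem_support_iff.mp ht)
  rw [h3] at h1
  have h4 := (isHomogeneous_C (Fin n) (algebraMap ℂ K (coeff t R))).mul h1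
  rw [zero_add] at h4
  exact h4

theorem Fp_scaleF {s : Fin q0 → Fin q} {w : ℕ} {R : MvPolynomial (Fin 2 × Fin (v + 1)) ℂ}
    (hR : AdmF F e s D w R) (u : Fin (v + 1) → K) (Δ : Fin n → Derivation ℂ K K) {f : K}
    (hf : f ≠ 0) : Fp (fun j => f * u j) Δ R = C (f ^ D) * Fp u Δ R := by
  rw [Fp_eq_ev u Δ R]
  set φ := algebraMap ℂ (MvPolynomial (Fin n) K) with hφ
  set g : PowerSeries (MvPolynomial (Fin n) K) :=
    1 + PowerSeries.C (C f⁻¹ * dp Δ f) * PowerSeries.X with hg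
  rw [← hR.inv.map φ g _ (by rw [hg, pow_one]; exact ⟨PowerSeries.C (C f⁻¹ * dp Δ f), by ring⟩)]
  unfold ev
  rw [C_pow, ← eval_of_hom (hR.hom.map φ)]
  unfold Fp
  rw [aeval_def, eval_map]
  congr 1
  funext x
  obtain ⟨m, j⟩ := x
  have hff : (C f : MvPolynomial (Fin n) K) * C f⁻¹ = 1 := by
    rw [← C_mul, mul_inv_cancel₀ hf, C_1]
  unfold arg
  fin_cases m
  · simp [hg]
  · have e : (1 + PowerSeries.C (C f⁻¹ * dp Δ f) * PowerSeries.X) *
        (PowerSeries.C (C (u j)) + PowerSeries.C (dp Δ (u j)) * PowerSeries.X) =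
        PowerSeries.C (C (u j)) + PowerSeries.C (dp Δ (u j) + C (u j) * (C f⁻¹ * dp Δ f)) *
          PowerSeries.X + PowerSeries.C (C f⁻¹ * dp Δ f * dp Δ (u j)) * PowerSeries.X ^ 2 := by
      simp only [map_add, map_mul]
      ring
    change (if (1 : Fin 2) = 0 then C (f * u j) else dp Δ (f * u j)) = C f *
      PowerSeries.coeff 1 ((1 + PowerSeries.C (C f⁻¹ * dp Δ f) * PowerSeries.X) *
        (PowerSeries.C (C (u j)) + PowerSeries.C (dp Δ (u j)) * PowerSeries.X))
    rw [e, if_neg (by decide), dp_mul]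
    simp only [map_add, PowerSeries.coeff_C_mul, PowerSeries.coeff_X_pow]
    have e2 : PowerSeries.coeff 1 (PowerSeries.C (C (u j) : MvPolynomial (Fin n) K)) = 0 := by
      rw [PowerSeries.coeff_C, if_neg one_ne_zero]
    rw [e2]
    simp only [zero_add]
    norm_num
    linear_combination (-(C (u j) * dp Δ f)) * hff

/-- values of polynomials at regular coordinates -/
theorem go_aeval {P : Place ℂ K} {y : Fin (v + 1) → K} (hy : ∀ j, GO P 0 (y j))
    (G : MvPolynomial (Fin (v + 1)) ℂ) : GO P 0 (aeval y G) := by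
  induction G using MvPolynomial.induction_on with
  | C a => rw [aeval_C]; exact GO.const a
  | add p q hp hq => rw [map_add]; exact hp.add hq
  | mul_X p i hp =>
    rw [map_mul, aeval_X]
    have h2 := hp.mul (hy i)
    rwa [add_zero] at h2

/-- the polynomials whose value has positive order -/
noncomputable def pI (P : Place ℂ K) {y : Fin (v + 1) → K} (hy : ∀ j, GO P 0 (y j)) :
    Ideal (MvPolynomial (Fin (v + 1)) ℂ) where
  carrier := {G | GO P 1 (aeval y G)}
  zero_mem' := by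
    change GO P 1 (aeval y 0)
    rw [map_zero]
    exact GO.zero _
  add_mem' := by
    intro A B hA hB
    change GO P 1 (aeval y (A + B))
    rw [map_add]
    exact GO.add hA hB
  smul_mem' := by
    intro A B hB
    change GO P 1 (aeval y (A * B))
    rw [map_mul]
    have h := (go_aeval hy A).mul hB
    rwa [zero_add] at h

theorem not_go_one {P : Place ℂ K} {y : Fin (v + 1) → K} (hy : ∀ j, GO P 0 (y j)) {j0 : Fin (v + 1)}
    (hj0 : y j0 = 1) (N : ℕ) : (X j0 : MvPolynomial (Fin (v + 1)) ℂ) ^ N ∉ pI P hy := by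
  intro h
  have h1 : GO P 1 (aeval y ((X j0 : MvPolynomial (Fin (v + 1)) ℂ) ^ N)) := h
  rw [map_pow, aeval_X, hj0, one_pow] at h1
  have h2 := h1.resolve_left one_ne_zero
  rw [P.ord_one] at h2
  norm_num at h2

/-- hypersurfaces through the centre of a place -/
theorem GoodF.fewP (hG : GoodF F δ e L D q0) (P : Place ℂ K) {y : Fin (v + 1) → K}
    (hy : ∀ j, GO P 0 (y j)) {j0 : Fin (v + 1)} (hj0 : y j0 = 1) {s : Fin q0 → Fin q}
    (hs : Function.Injective s) (S : Finset (Fin q0))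
    (hS : ∀ i ∈ S, GO P 1 (aeval y (F (s i)))) :
    ∃ (a : Fin S.card → Fin q0) (σ : Fin S.card → Fin (v + 1)),
      Function.Injective a ∧ (∀ i, i ∈ S ↔ ∃ b, a b = i) ∧
        aeval y (mnr (fun b => F (s (a b))) σ) ≠ 0 ∧
        P.ord (aeval y (mnr (fun b => F (s (a b))) σ)) = 0 := by
  classical
  have hSc : S.card ≤ v := by
    by_contra hcon
    push Not at hcon
    obtain ⟨J, hJS, hJ⟩ := Finset.exists_subset_card_eq (show v + 1 ≤ S.card from hcon)
    set a : Fin (v + 1) → Fin q0 := fun b => (J.equivFin.symm (Fin.cast hJ.symm b)).1 with ha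
    have hai : Function.Injective a := fun b b' h =>
      Fin.cast_injective _ (J.equivFin.symm.injective (Subtype.ext h))
    obtain ⟨N, hN⟩ := hG.top (fun b => s (a b)) (hs.comp hai) j0
    refine not_go_one hy hj0 N ?_
    refine (Ideal.span_le.mpr ?_ : Ideal.span (Set.range fun i => F (s (a i))) ≤ pI P hy) hN
    rintro g ⟨i, rfl⟩
    exact hS _ (hJS (J.equivFin.symm (Fin.cast hJ.symm i)).2)
  set a : Fin S.card → Fin q0 := fun b => (S.equivFin.symm b).1 with ha
  have hai : Function.Injective a := fun b b' h => S.equivFin.symm.injective (Subtype.ext h)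
  have haS : ∀ b, a b ∈ S := fun b => (S.equivFin.symm b).2
  refine ⟨a, ?_⟩
  have h1 : ∃ σ, ¬ GO P 1 (aeval y (mnr (fun b => F (s (a b))) σ)) := by
    by_contra hcon
    push Not at hcon
    obtain ⟨N, hN⟩ := hG.snc S.card hSc (fun b => s (a b)) (hs.comp hai) j0
    refine not_go_one hy hj0 N ?_
    refine (Ideal.span_le.mpr ?_ : Ideal.span (gens fun i => F (s (a i))) ≤ pI P hy) hN
    rintro g (⟨i, rfl⟩ | ⟨σ, rfl⟩)
    · exact hS _ (haS i)
    · exact hcon σ
  obtain ⟨σ, hσ⟩ := h1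
  have h2 := go_aeval hy (mnr (fun b => F (s (a b))) σ)
  unfold GO at h2 hσ
  push Not at hσ
  refine ⟨σ, hai, fun i => ⟨fun hi => ⟨S.equivFin ⟨i, hi⟩, by simp [ha]⟩, ?_⟩, hσ.1, ?_⟩
  · rintro ⟨b, rfl⟩
    exact haS b
  · have h3 := h2.resolve_left hσ.1
    have h4 : (0 : ℤ) ≤ P.ord (aeval y (mnr (fun b => F (s (a b))) σ)) := by exact_mod_cast h3
    have h5 : P.ord (aeval y (mnr (fun b => F (s (a b))) σ)) < 1 := by exact_mod_cast hσ.2
    omega

section mgi

variable {P : Place ℂ K} {η : ℝ} {ι1 : Fin n} {y : Fin (v + 1) → K}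
  {Δ : Fin n → Derivation ℂ K K}

theorem mg_Fp (hy : ∀ j, GO P 0 (y j)) (hdy : ∀ j, MG P η ι1 0 (dp Δ (y j))) (A : SR ℂ v) :
    MG P η ι1 0 (Fp y Δ A) := by
  unfold Fp
  induction A using MvPolynomial.induction_on with
  | C a =>
    rw [aeval_C, IsScalarTower.algebraMap_apply ℂ K (MvPolynomial (Fin n) K), algebraMap_eq]
    exact MG.C (GO.const a)
  | add p q hp hq => rw [map_add]; exact hp.add hq
  | mul_X p i hp =>
    rw [map_mul, aeval_X]
    have h2 : MG P η ι1 0 (arg y Δ i) := by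
      unfold arg
      split_ifs
      · exact MG.C (hy _)
      · exact hdy _
    have h3 := hp.mul h2
    rwa [add_zero] at h3

/-- the polynomials whose value at the point and its derivative is divisible -/
noncomputable def mI (hy : ∀ j, GO P 0 (y j)) (hdy : ∀ j, MG P η ι1 0 (dp Δ (y j))) (c : ℝ) :
    Ideal (SR ℂ v) where
  carrier := {A | MG P η ι1 c (Fp y Δ A)}
  zero_mem' := by
    change MG P η ι1 c (Fp y Δ 0)
    unfold Fp
    rw [map_zero]
    exact MG.zero _
  add_mem' := by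
    intro A B hA hB
    change MG P η ι1 c (Fp y Δ (A + B))
    have : Fp y Δ (A + B) = Fp y Δ A + Fp y Δ B := map_add _ _ _
    rw [this]
    exact MG.add hA hB
  smul_mem' := by
    intro A B hB
    change MG P η ι1 c (Fp y Δ (A * B))
    have : Fp y Δ (A * B) = Fp y Δ A * Fp y Δ B := map_mul _ _ _
    rw [this]
    have h := (mg_Fp hy hdy A).mul hB
    rwa [zero_add] at h

theorem mem_mI {hy : ∀ j, GO P 0 (y j)} {hdy : ∀ j, MG P η ι1 0 (dp Δ (y j))} {c : ℝ}
    {A : SR ℂ v} : A ∈ mI hy hdy c ↔ MG P η ι1 c (Fp y Δ A) := Iff.rfl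

theorem mI_mul (hy : ∀ j, GO P 0 (y j)) (hdy : ∀ j, MG P η ι1 0 (dp Δ (y j))) (c c' : ℝ) :
    mI hy hdy c * mI hy hdy c' ≤ mI hy hdy (c + c') := by
  rw [Ideal.mul_le]
  intro A hA B hB
  rw [mem_mI] at *
  have : Fp y Δ (A * B) = Fp y Δ A * Fp y Δ B := map_mul _ _ _
  rw [this]
  exact hA.mul hB

theorem mI_zero (hy : ∀ j, GO P 0 (y j)) (hdy : ∀ j, MG P η ι1 0 (dp Δ (y j))) :
    mI hy hdy 0 = ⊤ := by
  rw [eq_top_iff]
  intro A _
  exact mg_Fp hy hdy A

theorem mI_pow (hy : ∀ j, GO P 0 (y j)) (hdy : ∀ j, MG P η ι1 0 (dp Δ (y j))) (c : ℝ) (N : ℕ) :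
    mI hy hdy c ^ N ≤ mI hy hdy (N * c) := by
  induction N with
  | zero =>
    rw [Nat.cast_zero, zero_mul, mI_zero]
    exact le_top
  | succ N ih =>
    have h1 : ((N + 1 : ℕ) : ℝ) * c = N * c + c := by push_cast; ring
    rw [pow_succ, h1]
    exact (Ideal.mul_mono_left ih).trans (mI_mul hy hdy _ _)

theorem mI_prod (hy : ∀ j, GO P 0 (y j)) (hdy : ∀ j, MG P η ι1 0 (dp Δ (y j))) {r : ℕ}
    {I : Fin r → Ideal (SR ℂ v)} {ee : Fin r → ℕ} {a : Fin r → ℝ} (h : ∀ i, I i ≤ mI hy hdy (a i)) :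
    ∏ i, I i ^ ee i ≤ mI hy hdy (∑ i, ee i * a i) := by
  classical
  have h1 : ∀ s : Finset (Fin r), ∏ i ∈ s, I i ^ ee i ≤ mI hy hdy (∑ i ∈ s, ee i * a i) := by
    intro s
    induction s using Finset.induction_on with
    | empty => rw [Finset.sum_empty, mI_zero]; exact le_top
    | insert b s hb ih =>
      rw [Finset.prod_insert hb, Finset.sum_insert hb]
      exact (Ideal.mul_mono ((Ideal.pow_right_mono (h b) _).trans (mI_pow hy hdy _ _)) ih).trans
        (mI_mul hy hdy _ _)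
  exact h1 Finset.univ

end mgi

/-- the estimate for the polynomial -/
theorem Fp_localF (hG : GoodF F δ e L D q0) (hv : 1 ≤ v) {s : Fin q0 → Fin q}
    (hs : Function.Injective s) {w : ℕ} {R : MvPolynomial (Fin 2 × Fin (v + 1)) ℂ}
    (hR : AdmF F e s D w R) {P : Place ℂ K} {Δ : Fin n → Derivation ℂ K K} {ι1 : Fin n}
    (hΔ : ∀ i, i ≠ ι1 → Tan P (Δ i)) {y : Fin (v + 1) → K} (hy : ∀ j, GO P 0 (y j))
    {j0 : Fin (v + 1)} (hj0 : y j0 = 1) {η lam : ℝ} (hη : 0 ≤ η) (hlam : 0 ≤ lam)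
    (hlam1 : lam ≤ 1) (hne : ∀ i, aeval y (F (s i)) ≠ 0)
    (hm : ∀ i, Tan P (Δ ι1) ∨ (DerReg P (Δ ι1) ∧ (P.ord (aeval y (F (s i))) = 0 ∨
      1 - η ≤ (1 - lam) * P.ord (aeval y (F (s i)))))) (hreg : Tan P (Δ ι1) ∨ DerReg P (Δ ι1)) :
    MG P η ι1 (∑ i, (e (s i) : ℝ) * (lam * P.ord (aeval y (F (s i))))) (Fp y Δ R) := by
  classical
  have hord : ∀ i, 0 ≤ P.ord (aeval y (F (s i))) := by
    intro i
    have h1 := (go_aeval hy (F (s i))).resolve_left (hne i)
    exact_mod_cast h1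
  have hdy : ∀ j, MG P η ι1 0 (dp Δ (y j)) := by
    intro j
    by_cases hj : y j = 0
    · have : dp Δ (y j) = 0 := by
        unfold dp
        refine Finset.sum_eq_zero fun i _ => ?_
        rw [hj, map_zero, C_0, zero_mul]
      rw [this]
      exact MG.zero _
    · have hjo : (0 : ℝ) ≤ P.ord (y j) := by
        have h1 := (hy j).resolve_left hj
        exact_mod_cast h1
      unfold dp
      refine MG.sum _ fun i _ => ?_
      by_cases hi : i = ι1
      · rw [hi]
        rcases hreg with hT | hT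
        · refine ((MG.C (hT _ hj)).mul MG.X1).mono ?_
          linarith
        · have h1 : GO P 0 (Δ ι1 (y j)) := GO.reg (hT _ (GO.toReg (hy j)))
          refine ((MG.C h1).mul MG.X1).mono ?_
          linarith
      · refine ((MG.C (hΔ i hi _ hj)).mul (MG.X hi)).mono ?_
        linarith
  set S : Finset (Fin q0) := Finset.univ.filter fun i => 0 < P.ord (aeval y (F (s i))) with hS
  obtain ⟨b, σ, hb, hbS, hσ0, hσ⟩ := hG.fewP P hy hj0 hs S (fun i hi => by
    right
    have h1 := (Finset.mem_filter.mp hi).2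
    have h2 : (1 : ℤ) ≤ P.ord (aeval y (F (s i))) := by omega
    exact_mod_cast h2)
  have h1 := lemA (F := fun i => F (s (b i))) (fun i j hij => hG.cop hv fun h =>
    hij (hb (hs h))) σ hR.wt (e := fun i => e (s (b i))) fun i => hR.mem (b i)
  have hII : ∀ i, II (F (s (b i))) ≤ mI hy hdy (lam * P.ord (aeval y (F (s (b i))))) := by
    intro i
    apply II_le
    · rw [mem_mI, Fp_i0]
      refine MG.C (Or.inr ?_)
      have : (0 : ℝ) ≤ P.ord (aeval y (F (s (b i)))) := by exact_mod_cast hord (b i)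
      nlinarith
    · rw [mem_mI, Fp_i1]
      exact dp_local hΔ (hne _) hη hlam1 (hord _) (hm _)
  have h2 := mI_prod hy hdy (ee := fun i => e (s (b i))) hII h1
  rw [mem_mI] at h2
  have h3 : ∑ i, (e (s (b i)) : ℝ) * (lam * P.ord (aeval y (F (s (b i))))) =
      ∑ i, (e (s i) : ℝ) * (lam * P.ord (aeval y (F (s i)))) := by
    rw [← Finset.sum_image (g := b)
      (f := fun i => (e (s i) : ℝ) * (lam * P.ord (aeval y (F (s i))))) fun a _ b _ h => hb h]
    refine Finset.sum_subset (Finset.subset_univ _) fun i _ hi => ?_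
    have h0 : P.ord (aeval y (F (s i))) = 0 := by
      by_contra h
      obtain ⟨c, rfl⟩ := (hbS i).mp (by
        rw [hS, Finset.mem_filter]
        exact ⟨Finset.mem_univ _, lt_of_le_of_ne (hord i) (Ne.symm h)⟩)
      exact hi (Finset.mem_image.mpr ⟨c, Finset.mem_univ _, rfl⟩)
    rw [h0]
    simp
  rw [h3] at h2
  set g := aeval y (mnr (fun b_1 => F (s (b b_1))) σ) with hg
  have h4 : Fp y Δ (i0 (mnr (fun i => F (s (b i))) σ) ^ w * R) = C g ^ w * Fp y Δ R := by
    have h5 : Fp y Δ (i0 (mnr (fun i => F (s (b i))) σ) ^ w * R) =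
        Fp y Δ (i0 (mnr (fun i => F (s (b i))) σ)) ^ w * Fp y Δ R := by
      unfold Fp
      rw [map_mul, map_pow]
    rw [h5, Fp_i0]
  have h5 : MG P η ι1 (∑ i, (e (s i) : ℝ) * (lam * P.ord (aeval y (F (s i)))))
      (C g ^ w * Fp y Δ R) := by
    rw [← h4]
    exact h2
  have h6 : Fp y Δ R = C (g⁻¹ ^ w) * (C g ^ w * Fp y Δ R) := by
    rw [← mul_assoc, ← C_pow, ← C_mul, ← mul_pow, inv_mul_cancel₀ hσ0, one_pow, C_1, one_mul]
  rw [h6]
  have h7 : GO P 0 (g⁻¹ ^ w) := by
    right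
    rw [P.ord_pow, P.ord_inv, hσ]
    simp
  refine ((MG.C h7).mul h5).mono ?_
  rw [zero_add]

/-- the symmetric differential -/
noncomputable def ScF (F : Fin q → MvPolynomial (Fin (v + 1)) ℂ) (e : Fin q → ℕ)
    (s : Fin q0 → Fin q) (g h r : ℕ) (j1 : Fin (v + 1)) (u : Fin (v + 1) → K)
    (Δ : Fin n → Derivation ℂ K K) (R : MvPolynomial (Fin 2 × Fin (v + 1)) ℂ) :
    MvPolynomial (Fin n) K :=
  C ((∏ i, aeval u (F (s i)) ^ e (s i))⁻¹ ^ g * u j1 ^ r) * Fp u Δ R ^ h

/-- the estimate for the symmetric differential -/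
theorem Sc_localF (hG : GoodF F δ e L D q0) (hv : 1 ≤ v) {w g h r b : ℕ} {s : Fin q0 → Fin q}
    (hs : Function.Injective s) {R : MvPolynomial (Fin 2 × Fin (v + 1)) ℂ} (hR : AdmF F e s D w R)
    {P : Place ℂ K} {Δ : Fin n → Derivation ℂ K K} {ι1 : Fin n}
    (hΔ : ∀ i, i ≠ ι1 → Tan P (Δ i)) {u : Fin (v + 1) → K} {η : ℝ}
    (hη : 0 ≤ η) (hne : ∀ i, aeval u (F (s i)) ≠ 0) {j0 : Fin (v + 1)} (hj0 : u j0 ≠ 0)
    (hmin : ∀ j, u j = 0 ∨ P.ord (u j0) ≤ P.ord (u j))
    (hgh : g ≤ h) (hb : b + D * h + r = L * q0 * g)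
    (hm : ∀ i, Tan P (Δ ι1) ∨ (DerReg P (Δ ι1) ∧
      (P.ord (aeval u (F (s i))) = δ (s i) * P.ord (u j0) ∨
      h * (1 - η) ≤ ((h : ℝ) - g) * (P.ord (aeval u (F (s i))) - δ (s i) * P.ord (u j0)))))
    (hreg : Tan P (Δ ι1) ∨ DerReg P (Δ ι1)) (j1 : Fin (v + 1)) :
    MG P η ι1 (-(b * P.ord (u j0))) (ScF F e s g h r j1 u Δ R) := by
  classical
  set f := u j0 with hf
  set y : Fin (v + 1) → K := fun j => f⁻¹ * u j with hy
  have huy : u = fun j => f * y j := by
    funext j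
    rw [hy]
    simp only
    rw [← mul_assoc, mul_inv_cancel₀ hj0, one_mul]
  have hyj0 : y j0 = 1 := inv_mul_cancel₀ hj0
  have hFy : ∀ i, aeval u (F i) = f ^ δ i * aeval y (F i) := by
    intro i
    conv_lhs => rw [huy]
    exact Pool.Agent.V8H90.LG.aeval_hom (hG.hom i) f y
  have hney : ∀ i, aeval y (F (s i)) ≠ 0 := by
    intro i h0
    apply hne i
    rw [hFy, h0, mul_zero]
  have hordy : ∀ i, P.ord (aeval u (F (s i))) = δ (s i) * P.ord f +
      P.ord (aeval y (F (s i))) := by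
    intro i
    rw [hFy, P.ord_mul (pow_ne_zero _ hj0) (hney i), P.ord_pow]
  have hyr : ∀ j, GO P 0 (y j) := by
    intro j
    rcases hmin j with h0 | h0
    · left
      rw [hy]
      simp only
      rw [h0, mul_zero]
    · by_cases h1 : u j = 0
      · left
        rw [hy]
        simp only
        rw [h1, mul_zero]
      · right
        rw [hy]
        simp only
        rw [P.ord_mul (inv_ne_zero hj0) h1, P.ord_inv]
        have : (0 : ℤ) ≤ -P.ord f + P.ord (u j) := by omega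
        exact_mod_cast this
  rcases Nat.eq_zero_or_pos h with hh | hh
  · -- trivial case
    have hg : g = 0 := by omega
    subst hh hg
    have hb0 : b = 0 := by omega
    have he0 : r = 0 := by omega
    subst hb0 he0
    unfold ScF
    rw [pow_zero, pow_zero, pow_zero, mul_one, mul_one, C_1]
    exact MG.one.mono (by simp)
  have hhR : (0 : ℝ) < h := by exact_mod_cast hh
  set lam : ℝ := g / h with hlam
  have hlam0 : 0 ≤ lam := by positivity
  have hlam1 : lam ≤ 1 := by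
    rw [hlam, div_le_one hhR]
    exact_mod_cast hgh
  have hlamh : h * lam = g := by
    rw [hlam]
    field_simp
  have hFy' := Fp_localF hG hv hs hR hΔ hyr hyj0 hη hlam0 hlam1 hney (fun i => by
      rcases hm i with hT | ⟨hD1, h0 | h0⟩
      · exact Or.inl hT
      · refine Or.inr ⟨hD1, Or.inl ?_⟩
        have := hordy i
        omega
      · refine Or.inr ⟨hD1, Or.inr ?_⟩
        rw [hordy] at h0
        push_cast at h0
        rw [add_sub_cancel_left] at h0
        have e : (h : ℝ) * (1 - lam) = h - g := by rw [mul_sub, mul_one, hlamh]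
        rw [← mul_le_mul_iff_right₀ hhR, ← mul_assoc, e]
        exact h0) hreg
  have hsum : ∑ i, (e (s i) : ℝ) * (lam * P.ord (aeval y (F (s i)))) =
      lam * ∑ i, (e (s i) : ℝ) * P.ord (aeval y (F (s i))) := by
    rw [Finset.mul_sum]
    exact Finset.sum_congr rfl fun i _ => by ring
  rw [hsum] at hFy'
  have e1 : ScF F e s g h r j1 u Δ R = C ((f ^ (L * q0))⁻¹ ^ g * f ^ r * (f ^ D) ^ h) *
      (C ((∏ i, aeval y (F (s i)) ^ e (s i))⁻¹ ^ g * y j1 ^ r) * Fp y Δ R ^ h) := by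
    unfold ScF
    have h1 : Fp u Δ R = C (f ^ D) * Fp y Δ R := by
      conv_lhs => rw [huy]
      exact Fp_scaleF hR y Δ hj0
    have h2 : ∏ i, aeval u (F (s i)) ^ e (s i) = f ^ (L * q0) *
        ∏ i, aeval y (F (s i)) ^ e (s i) := by
      have h5 : ∀ i, aeval u (F (s i)) ^ e (s i) = f ^ L * aeval y (F (s i)) ^ e (s i) := by
        intro i
        rw [hFy, mul_pow, ← pow_mul, mul_comm (δ (s i)), hG.mul]
      rw [Finset.prod_congr rfl fun i _ => h5 i, Finset.prod_mul_distrib, Finset.prod_const,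
        Finset.card_univ, Fintype.card_fin, ← pow_mul]
    have h3 : u j1 = f * y j1 := congrFun huy j1
    rw [h1, h2, h3, mul_inv, mul_pow, mul_pow, mul_pow]
    simp only [C_mul, C_pow]
    ring
  rw [e1]
  have hf1 : GO P (-(b * P.ord f)) ((f ^ (L * q0))⁻¹ ^ g * f ^ r * (f ^ D) ^ h) := by
    right
    rw [P.ord_mul (mul_ne_zero (pow_ne_zero _ (inv_ne_zero (pow_ne_zero _ hj0)))
      (pow_ne_zero _ hj0)) (pow_ne_zero _ (pow_ne_zero _ hj0)),
      P.ord_mul (pow_ne_zero _ (inv_ne_zero (pow_ne_zero _ hj0))) (pow_ne_zero _ hj0),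
      P.ord_pow, P.ord_inv, P.ord_pow, P.ord_pow, P.ord_pow, P.ord_pow]
    push_cast
    have hbR : (b : ℝ) + D * h + r = L * q0 * g := by exact_mod_cast hb
    apply le_of_eq
    linear_combination (-(P.ord f : ℝ)) * hbR
  have hf2 : GO P (-(g * ∑ i, (e (s i) : ℝ) * P.ord (aeval y (F (s i)))))
      ((∏ i, aeval y (F (s i)) ^ e (s i))⁻¹ ^ g * y j1 ^ r) := by
    have h1 : GO P (-(g * ∑ i, (e (s i) : ℝ) * P.ord (aeval y (F (s i)))))
        ((∏ i, aeval y (F (s i)) ^ e (s i))⁻¹ ^ g) := by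
      right
      rw [P.ord_pow, P.ord_inv]
      have h2 : ∀ t : Finset (Fin q0), P.ord (∏ i ∈ t, aeval y (F (s i)) ^ e (s i)) =
          ∑ i ∈ t, (e (s i) : ℤ) * P.ord (aeval y (F (s i))) := by
        intro t
        induction t using Finset.induction_on with
        | empty => rw [Finset.prod_empty, Finset.sum_empty, P.ord_one]
        | insert a t ha ih =>
          rw [Finset.prod_insert ha, Finset.sum_insert ha, P.ord_mul (pow_ne_zero _ (hney _))
            (Finset.prod_ne_zero_iff.mpr fun i _ => pow_ne_zero _ (hney _)), ih, P.ord_pow]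
      rw [h2]
      push_cast
      apply le_of_eq
      ring
    exact (h1.mul ((hyr j1).pow r)).mono (by simp)
  refine ((MG.C hf1).mul ((MG.C hf2).mul (hFy'.pow h))).mono (le_of_eq ?_)
  rw [← mul_assoc (h : ℝ), hlamh]
  ring

end Pool.Agent.V8H90.HY
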