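import Pool.Agent.V8H90.HY.Local
import Pool.Agent.V8H90.AJ.Main

/-!
Pluricanonical forms on generically finite covers of subvarieties of projective space, from
symmetric differentials without common zeros: hypersurfaces.
-/

set_option autoImplicit false

open FF MvPolynomial Pool.Agent.W602.GT Pool.Agent.V8H90.JT Pool.Agent.V8H90.AJ

namespace Pool.Agent.V8H90.HY

section

variable {K : Type} [Field K] [Algebra ℂ K] {n v q q0 L D : ℕ} {δ e : Fin q → ℕ}
  {F : Fin q → MvPolynomial (Fin (v + 1)) ℂ}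

/-- an isobaric invariant polynomial for `q0` of the hypersurfaces, none of which contains the
point -/
structure DatF (F : Fin q → MvPolynomial (Fin (v + 1)) ℂ) (e : Fin q → ℕ) (q0 D : ℕ)
    (u : Fin (v + 1) → K) where
  s : Fin q0 → Fin q
  w : ℕ
  R : MvPolynomial (Fin 2 × Fin (v + 1)) ℂ
  inj : Function.Injective s
  w1 : 1 ≤ w
  wd : w ≤ D
  adm : AdmF F e s D w R
  ne : ∀ i, aeval u (F (s i)) ≠ 0

variable {u : Fin (v + 1) → K}

/-- the symmetric differentials of the same degree -/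
noncomputable def sDF (M b : ℕ) (j1 : Fin (v + 1)) (Δ : Fin n → Derivation ℂ K K)
    (c : DatF F e q0 D u) : MvPolynomial (Fin n) K :=
  ScF F e c.s (M * (D.factorial / c.w)) ((M + 1) * (D.factorial / c.w))
    (D.factorial / c.w * b - b) j1 u Δ c.R

theorem dvd_facF (c : DatF F e q0 D u) : c.w * (D.factorial / c.w) = D.factorial :=
  Nat.mul_div_cancel' (Nat.dvd_factorial c.w1 c.wd)

theorem one_le_tF (c : DatF F e q0 D u) : 1 ≤ D.factorial / c.w := by
  have h1 := dvd_facF c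
  have h2 := D.factorial_pos
  by_contra hcon
  have h3 : D.factorial / c.w = 0 := Nat.eq_zero_of_not_pos hcon
  rw [h3, mul_zero] at h1
  omega

theorem sDF_hom (M b : ℕ) (j1 : Fin (v + 1)) (Δ : Fin n → Derivation ℂ K K)
    (c : DatF F e q0 D u) : (sDF M b j1 Δ c).IsHomogeneous ((M + 1) * D.factorial) := by
  unfold sDF ScF
  have h1 := (isHomogeneous_C (Fin n) ((∏ i, aeval u (F (c.s i)) ^ e (c.s i))⁻¹ ^
    (M * (D.factorial / c.w)) * u j1 ^ (D.factorial / c.w * b - b))).mul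
    ((Fp_homF c.adm u Δ).pow ((M + 1) * (D.factorial / c.w)))
  have h2 : 0 + c.w * ((M + 1) * (D.factorial / c.w)) = (M + 1) * D.factorial := by
    calc 0 + c.w * ((M + 1) * (D.factorial / c.w)) = (M + 1) * (c.w * (D.factorial / c.w)) := by
          ring
      _ = _ := by rw [dvd_facF c]
  rw [h2] at h1
  exact h1

theorem sDF_trans (M b : ℕ) (j1 : Fin (v + 1)) (Δ : Fin n → Derivation ℂ K K)
    (A : Matrix (Fin n) (Fin n) K) (c : DatF F e q0 D u) :
    sDF M b j1 (fun i => ∑ l, A i l • Δ l) c =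
      Pool.Agent.Y174.SD.lsub A (sDF M b j1 Δ c) := by
  have e : ∀ (x : K) (F : MvPolynomial (Fin n) K) (h : ℕ),
      Pool.Agent.Y174.SD.lsub A (C x * F ^ h) = C x * Pool.Agent.Y174.SD.lsub A F ^ h := by
    intro x F h
    rw [map_mul, map_pow]
    congr 1
    exact (Pool.Agent.Y174.SD.lsub A).commutes x
  unfold sDF ScF
  rw [e, Fp_trans]
  rfl

theorem sDF_local {M b : ℕ} (hG : GoodF F δ e L D q0) (hv : 1 ≤ v)
    (hb : b + D * (M + 1) = M * (L * q0))
    {P : Place ℂ K} {Δ : Fin n → Derivation ℂ K K} {ι1 : Fin n}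
    (hΔ : ∀ i, i ≠ ι1 → Tan P (Δ i)) {η : ℝ}
    (hη : 0 ≤ η) {j0 : Fin (v + 1)} (hj0 : u j0 ≠ 0)
    (hmin : ∀ j, u j = 0 ∨ P.ord (u j0) ≤ P.ord (u j))
    (hm : Tan P (Δ ι1) ∨ (DerReg P (Δ ι1) ∧ ∀ i, aeval u (F i) ≠ 0 →
      (P.ord (aeval u (F i)) = δ i * P.ord (u j0) ∨
      ((M : ℝ) + 1) * (1 - η) ≤ P.ord (aeval u (F i)) - δ i * P.ord (u j0)))) (j1 : Fin (v + 1))
    (c : DatF F e q0 D u) : MG P η ι1 (-(b * P.ord (u j0))) (sDF M b j1 Δ c) := by
  have ht := one_le_tF c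
  set t := D.factorial / c.w with htdef
  unfold sDF
  rw [← htdef]
  have hbt : b ≤ t * b := Nat.le_mul_of_pos_left b ht
  have htR : (0 : ℝ) ≤ t := Nat.cast_nonneg t
  refine Sc_localF hG hv c.inj c.adm hΔ hη c.ne hj0 hmin ?_ ?_ ?_ ?_ j1
  · exact Nat.mul_le_mul_right _ (Nat.le_succ M)
  · obtain ⟨r, he⟩ := Nat.exists_eq_add_of_le hbt
    rw [he, Nat.add_sub_cancel_left]
    have h1 : t * (b + D * (M + 1)) = t * (M * (L * q0)) := by rw [hb]
    have h2 : t * (b + D * (M + 1)) = t * b + D * ((M + 1) * t) := by ring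
    rw [h2, he] at h1
    calc b + D * ((M + 1) * t) + r = b + r + D * ((M + 1) * t) := by ring
      _ = t * (M * (L * q0)) := h1
      _ = L * q0 * (M * t) := by ring
  · intro i
    rcases hm with hT | ⟨hD1, hm⟩
    · exact Or.inl hT
    · refine Or.inr ⟨hD1, ?_⟩
      rcases hm (c.s i) (c.ne i) with h0 | h0
      · exact Or.inl h0
      · right
        push_cast
        have h1 := mul_le_mul_of_nonneg_left h0 htR
        nlinarith
  · rcases hm with hT | ⟨hD1, -⟩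
    · exact Or.inl hT
    · exact Or.inr hD1

theorem sDF_ne {M b : ℕ} {Λ : Type} [Field Λ] [Algebra K Λ] [Algebra ℂ Λ] [IsScalarTower ℂ K Λ]
    {j1 : Fin (v + 1)} (hj1 : u j1 ≠ 0)
    {Δ : Fin n → Derivation ℂ K K} {c : Fin n → Λ} {X : DatF F e q0 D u}
    (h : aeval (fun y : Fin 2 × Fin (v + 1) => if y.1 = 0 then algebraMap K Λ (u y.2) else
      ∑ i, c i * algebraMap K Λ (Δ i (u y.2))) X.R ≠ 0) : aeval c (sDF M b j1 Δ X) ≠ 0 := by
  unfold sDF ScF
  rw [map_mul, map_pow, aeval_C]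
  refine mul_ne_zero ?_ (pow_ne_zero _ ?_)
  · rw [Ne, FaithfulSMul.algebraMap_eq_zero_iff]
    exact mul_ne_zero (pow_ne_zero _ (inv_ne_zero (Finset.prod_ne_zero_iff.mpr fun i _ =>
      pow_ne_zero _ (X.ne i)))) (pow_ne_zero _ hj1)
  · unfold Fp
    have h2 := comp_aeval_apply (R := ℂ) (f := arg u Δ) ((aeval c :
        MvPolynomial (Fin n) K →ₐ[K] Λ).restrictScalars ℂ) X.R
    change ((aeval c : MvPolynomial (Fin n) K →ₐ[K] Λ).restrictScalars ℂ) _ ≠ 0
    rw [h2]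
    intro h0
    apply h
    rw [← h0]
    congr 2
    funext y
    unfold arg
    split_ifs with hy
    · change _ = (aeval c : MvPolynomial (Fin n) K →ₐ[K] Λ) _
      rw [aeval_C]
    · change _ = (aeval c : MvPolynomial (Fin n) K →ₐ[K] Λ) _
      unfold dp
      rw [map_sum]
      refine Finset.sum_congr rfl fun i _ => ?_
      rw [map_mul, aeval_C, aeval_X, mul_comm]

/-- the symmetric differentials depend only on the derivatives of the quotients -/
theorem sDF_congr (M b : ℕ) {j1 : Fin (v + 1)} (hj1 : u j1 ≠ 0)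
    {Δ Δ' : Fin n → Derivation ℂ K K} (h : ∀ i j, Δ i (u j / u j1) = Δ' i (u j / u j1))
    (c : DatF F e q0 D u) : sDF M b j1 Δ c = sDF M b j1 Δ' c := by
  have huy : u = fun j => u j1 * (u j / u j1) := by
    funext j
    field_simp
  have h0 : ∀ (s : Fin q0 → Fin q) (w : ℕ) (R : MvPolynomial (Fin 2 × Fin (v + 1)) ℂ)
      (_ : AdmF F e s D w R) (Δ : Fin n → Derivation ℂ K K), Fp u Δ R = C (u j1 ^ D) *
      Fp (fun j => u j / u j1) Δ R := by
    intro s w R hR Δ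
    conv_lhs => rw [huy]
    exact Fp_scaleF hR _ Δ hj1
  have h1 : ∀ Δ : Fin n → Derivation ℂ K K, Fp u Δ c.R = C (u j1 ^ D) *
      Fp (fun j => u j / u j1) Δ c.R := h0 c.s c.w c.R c.adm
  have h2 : Fp (fun j => u j / u j1) Δ c.R = Fp (fun j => u j / u j1) Δ' c.R := by
    unfold Fp
    congr 2
    funext y
    unfold arg dp
    simp only [h]
  unfold sDF ScF
  rw [h1, h1, h2]

end

/-- the polynomial does not vanish: the point is not contained in the hypersurface -/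
theorem ne_of_memK {v : ℕ} {K Λ : Type} [Field K] [Algebra ℂ K] [Field Λ] [Algebra K Λ]
    [Algebra ℂ Λ] [IsScalarTower ℂ K Λ] {u : Fin (v + 1) → K} {n : ℕ} {c : Fin n → Λ}
    {Δ : Fin n → Derivation ℂ K K} {G : MvPolynomial (Fin (v + 1)) ℂ} {a : ℕ} (ha : 1 ≤ a)
    {R : MvPolynomial (Fin 2 × Fin (v + 1)) ℂ} (hR : R ∈ II G ^ a)
    (h : aeval (fun y : Fin 2 × Fin (v + 1) => if y.1 = 0 then algebraMap K Λ (u y.2) else
      ∑ i, c i * algebraMap K Λ (Δ i (u y.2))) R ≠ 0) : aeval u G ≠ 0 := by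
  intro hG
  apply h
  have e1 : (aeval (fun y : Fin 2 × Fin (v + 1) => if y.1 = 0 then algebraMap K Λ (u y.2) else
      ∑ i, c i * algebraMap K Λ (Δ i (u y.2))) : MvPolynomial (Fin 2 × Fin (v + 1)) ℂ →ₐ[ℂ] Λ) =
      ((aeval c : MvPolynomial (Fin n) K →ₐ[K] Λ).restrictScalars ℂ).comp (aeval (arg u Δ)) := by
    rw [comp_aeval]
    congr 1
    funext y
    unfold arg
    split_ifs with hy
    · change _ = (aeval c : MvPolynomial (Fin n) K →ₐ[K] Λ) _
      rw [aeval_C]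
    · change _ = (aeval c : MvPolynomial (Fin n) K →ₐ[K] Λ) _
      unfold dp
      rw [map_sum]
      refine Finset.sum_congr rfl fun i _ => ?_
      rw [map_mul, aeval_C, aeval_X, mul_comm]
  rw [e1, AlgHom.comp_apply]
  have h1 : II G ≤ RingHom.ker (aeval (arg u Δ) :
      MvPolynomial (Fin 2 × Fin (v + 1)) ℂ →ₐ[ℂ] MvPolynomial (Fin n) K) := by
    apply II_le
    · rw [RingHom.mem_ker]
      have h2 := Fp_i0 u Δ G
      unfold Fp at h2
      rw [h2, hG, C_0]
    · rw [RingHom.mem_ker]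
      have h2 := Fp_i1 u Δ G
      unfold Fp at h2
      rw [h2, hG]
      unfold dp
      exact Finset.sum_eq_zero fun i _ => by rw [map_zero, C_0, zero_mul]
  have h2 : R ∈ II G := Ideal.pow_le_self (by omega) hR
  have h3 := h1 h2
  rw [RingHom.mem_ker] at h3
  rw [h3, map_zero]

/-- The form of the base. -/
theorem baseF {q q0 L D M b n v : ℕ} {δ e : Fin q → ℕ} {F : Fin q → MvPolynomial (Fin (v + 1)) ℂ}
    (hG : GoodF F δ e L D q0) (hv : 1 ≤ v) (hL : 1 ≤ L) (hDL : D < L * q0) (hb1 : 1 ≤ b)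
    (hb : b + D * (M + 1) = M * (L * q0)) (hn : 1 ≤ n)
    {K : Type} [Field K] [Algebra ℂ K] {u : Fin (v + 1) → K} {j1 : Fin (v + 1)} (hj1 : u j1 ≠ 0)
    {J : Fin n → Fin (v + 1)} (hJ : AlgebraicIndependent ℂ fun c => u (J c) / u j1) :
    ∃ N e0 : ℕ, 0 < N ∧ 0 < e0 ∧ ∃ ω : (Fin n → Derivation ℂ K K) → K, IsPluri N ω ∧
      (∀ Δ Δ' : Fin n → Derivation ℂ K K, (∀ i j, Δ i (u j / u j1) = Δ' i (u j / u j1)) →
        ω Δ = ω Δ') ∧
      (∀ P : Place ℂ K, ∀ j0, u j0 ≠ 0 → (∀ j, u j = 0 ∨ P.ord (u j0) ≤ P.ord (u j)) →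
        ∀ η : ℝ, 0 ≤ η → (∀ i, aeval u (F i) ≠ 0 →
          (P.ord (aeval u (F i)) = δ i * P.ord (u j0) ∨
          ((M : ℝ) + 1) * (1 - η) ≤ P.ord (aeval u (F i)) - δ i * P.ord (u j0))) →
        ∀ j Δ, (∀ i, DerReg P (Δ i)) → GO P (-(N * η)) (u j ^ e0 * ω Δ)) ∧
      (∀ P : Place ℂ K, ∀ j Δ, (∀ i, Tan P (Δ i)) → GO P 0 (u j ^ e0 * ω Δ)) ∧
      ∃ E : Fin n → Derivation ℂ K K, (∀ c l, E c (u (J l) / u j1) = if l = c then 1 else 0) ∧
        ω E ≠ 0 := by
  classical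
  have hK0 : CharZero K := charZero_of_injective_algebraMap (algebraMap ℂ K).injective
  have he1 : ∀ i, 1 ≤ e i := by
    intro i
    have h1 := hG.mul i
    by_contra hcon
    have : e i = 0 := by omega
    rw [this, zero_mul] at h1
    omega
  set T : ℕ := (M + 1) * D.factorial with hT
  have hT1 : 1 ≤ T := Nat.mul_pos (Nat.succ_pos M) D.factorial_pos
  -- the dual derivations
  have hE' : ∀ c : Fin n, ∃ E : Derivation ℂ K K, ∀ l, E (u (J l) / u j1) = if l = c then 1 else 0 :=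
    fun c => Pool.Agent.H135R2.VS.exists_der hJ _
  choose E hE using hE'
  -- no common zeros
  have hnz : ∀ c : Fin n → AlgebraicClosure K, c ≠ 0 → ∃ p ∈ {p : MvPolynomial (Fin n) K |
      ∃ X : DatF F e q0 D u, p = sDF M b j1 E X}, aeval c p ≠ 0 := by
    intro c hc
    obtain ⟨l, hl⟩ := Function.ne_iff.mp hc
    rw [Pi.zero_apply] at hl
    set D' : K → AlgebraicClosure K := fun f => ∑ i, c i * algebraMap K (AlgebraicClosure K) (E i f)
      with hD'
    set p : Fin 2 → Fin (v + 1) → AlgebraicClosure K := fun m j => if m = 0 then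
      algebraMap K (AlgebraicClosure K) (u j) else D' (u j) with hp
    have hmi : Mi p := by
      refine ⟨j1, J l, ?_⟩
      have e1 : ∀ i, u j1 * E i (u (J l)) - u (J l) * E i (u j1) =
          u j1 ^ 2 * (if l = i then 1 else 0) := by
        intro i
        rw [← hE i l]
        have h1 : u (J l) = u (J l) / u j1 * u j1 := by field_simp
        have h2 : E i (u (J l)) = u (J l) / u j1 * E i (u j1) + u j1 * E i (u (J l) / u j1) := by
          conv_lhs => rw [h1]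
          rw [Derivation.leibniz, smul_eq_mul, smul_eq_mul]
        rw [h2]
        field_simp
        ring
      have e2 : p 0 j1 * p 1 (J l) - p 0 (J l) * p 1 j1 =
          algebraMap K (AlgebraicClosure K) (u j1 ^ 2) * c l := by
        simp only [hp, if_true, one_ne_zero, if_false, hD']
        rw [Finset.mul_sum, Finset.mul_sum, ← Finset.sum_sub_distrib]
        have e3 : ∀ i, algebraMap K (AlgebraicClosure K) (u j1) * (c i *
            algebraMap K (AlgebraicClosure K) (E i (u (J l)))) -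
            algebraMap K (AlgebraicClosure K) (u (J l)) * (c i *
            algebraMap K (AlgebraicClosure K) (E i (u j1))) =
            c i * algebraMap K (AlgebraicClosure K) (u j1 ^ 2 * (if l = i then 1 else 0)) := by
          intro i
          rw [← e1, map_sub, map_mul, map_mul]
          ring
        rw [Finset.sum_congr rfl fun i _ => e3 i]
        simp only [mul_ite, mul_one, mul_zero, apply_ite (algebraMap K (AlgebraicClosure K)),
          map_zero, Finset.sum_ite_eq, Finset.mem_univ, if_true]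
        ring
      rw [e2]
      refine mul_ne_zero ?_ hl
      rw [Ne, FaithfulSMul.algebraMap_eq_zero_iff]
      exact pow_ne_zero _ hj1
    obtain ⟨s, w, R, h1, h2, h3, h4, h5⟩ := exists_admF hG hv hDL hmi
    have h5' : aeval (fun y : Fin 2 × Fin (v + 1) => if y.1 = 0 then
        algebraMap K (AlgebraicClosure K) (u y.2) else
        ∑ i, c i * algebraMap K (AlgebraicClosure K) (E i (u y.2))) R ≠ 0 := h5
    exact ⟨_, ⟨⟨s, w, R, h1, h2, h3, h4, fun i => ne_of_memK (he1 _) (h4.mem i) h5'⟩, rfl⟩,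
      sDF_ne hj1 h5'⟩
  obtain ⟨m', H, N0, hH, hN0⟩ := null (K := K) (L := AlgebraicClosure K) _ hnz
  choose X hX using hH
  obtain ⟨z, N1, hN1⟩ := Pool.Agent.Y212.SD.t_GP ℂ K n m' T N0 hT1 H (fun j => by
    rw [hX j]; exact sDF_hom M b j1 E (X j)) hN0
  -- the forms
  set a : (Fin n → Derivation ℂ K K) → Fin n → MvPolynomial (Fin n) K := fun Δ i =>
    ∑ j, C (algebraMap ℂ K (z i j)) * sDF M b j1 Δ (X j) with ha
  have hahom : ∀ Δ i, (a Δ i).IsHomogeneous T := by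
    intro Δ i
    refine IsHomogeneous.sum _ _ _ fun j _ => ?_
    have := (isHomogeneous_C (Fin n) (algebraMap ℂ K (z i j))).mul (sDF_hom M b j1 Δ (X j))
    rwa [zero_add] at this
  have haE : ∀ β : Fin n →₀ ℕ, β.degree = N1 → (monomial β 1 : MvPolynomial (Fin n) K) ∈
      Ideal.span (Set.range (a E)) := by
    intro β hβ
    have h1 := hN1 β hβ
    have e : (fun i => ∑ j, C (algebraMap ℂ K (z i j)) * H j) = a E := by
      funext i
      exact Finset.sum_congr rfl fun j _ => by rw [hX j]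
    rwa [e] at h1
  obtain ⟨Q, W, hW, hQ, hQ0⟩ := exists_semi (k := ℂ) hn hT1 (a E) (hahom E) haE
  have hQne : Q ≠ 0 := by
    rintro rfl
    exact hQ0 (map_zero _)
  obtain ⟨g, hg1, hg⟩ := exists_degree hn hT1 hW hQ hQne
  -- the form
  set ω0 : (Fin n → Derivation ℂ K K) → K := fun Δ => aeval (cof T (a Δ)) Q with hω0
  have hpl : IsPluri W ω0 := by
    intro A Δ
    have h1 := Pool.Agent.Y301.SD.t_DENS ℂ K n T W Q hQ A (cof T (a Δ))
    rw [hω0]
    simp only
    rw [← h1]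
    congr 2
    funext p
    unfold Pool.Agent.Y174.SD.trans
    have h2 : Pool.Agent.Y174.SD.fm (cof T (a Δ)) p.1 = a Δ p.1 :=
      Pool.Agent.Y174.SD.fm_coeff (hahom Δ) p.1
    rw [h2]
    unfold cof
    congr 1
    simp only [ha]
    rw [map_sum]
    refine Finset.sum_congr rfl fun j _ => ?_
    rw [sDF_trans, map_mul]
    congr 1
    exact ((Pool.Agent.Y174.SD.lsub A).commutes _).symm
  have hloc : ∀ (P : Place ℂ K) (j0 : Fin (v + 1)), u j0 ≠ 0 →
      (∀ j, u j = 0 ∨ P.ord (u j0) ≤ P.ord (u j)) → ∀ η : ℝ, 0 ≤ η →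
      ∀ (i1 : Fin n) (Δ : Fin n → Derivation ℂ K K), (∀ i, i ≠ i1 → Tan P (Δ i)) →
      (Tan P (Δ i1) ∨ (DerReg P (Δ i1) ∧ ∀ i, aeval u (F i) ≠ 0 →
      (P.ord (aeval u (F i)) = δ i * P.ord (u j0) ∨
      ((M : ℝ) + 1) * (1 - η) ≤ P.ord (aeval u (F i)) - δ i * P.ord (u j0)))) →
      ∀ j, GO P (-(W * η)) (u j ^ (b * g) * ω0 Δ) := by
    intro P j0 hj0 hmin η hη i1 Δ hD hm j
    have h1 : ∀ i, MG P η i1 (-(b * P.ord (u j0))) (a Δ i) := by
      intro i
      refine MG.sum _ fun c _ => ?_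
      refine ((MG.C (GO.const _)).mul (sDF_local hG hv hb hD hη hj0 hmin hm j1
        (X c))).mono (by rw [zero_add])
    have h2 := semi_local hQ hg h1
    have h3 : GO P (b * g * P.ord (u j0)) (u j ^ (b * g)) := by
      rcases hmin j with h0 | h0
      · left
        rw [h0]
        exact zero_pow (Nat.mul_pos hb1 hg1).ne'
      · right
        rw [P.ord_pow]
        push_cast
        have : (P.ord (u j0) : ℝ) ≤ P.ord (u j) := by exact_mod_cast h0
        exact mul_le_mul_of_nonneg_left this (by positivity)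
    refine (h3.mul h2).mono (le_of_eq ?_)
    ring
  have hmin : ∀ P : Place ℂ K, ∃ j0, u j0 ≠ 0 ∧ ∀ j, u j = 0 ∨ P.ord (u j0) ≤ P.ord (u j) := by
    intro P
    obtain ⟨j0, h0, h1⟩ := Finset.exists_min_image (Finset.univ.filter fun j => u j ≠ 0)
      (fun j => P.ord (u j)) ⟨j1, Finset.mem_filter.mpr ⟨Finset.mem_univ _, hj1⟩⟩
    refine ⟨j0, (Finset.mem_filter.mp h0).2, fun j => ?_⟩
    by_cases hj : u j = 0
    · exact Or.inl hj
    · exact Or.inr (h1 j (Finset.mem_filter.mpr ⟨Finset.mem_univ _, hj⟩))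
  refine ⟨W, b * g, hW, Nat.mul_pos hb1 hg1, ω0, hpl, ?_, ?_, ?_, E, hE, hQ0⟩
  · intro Δ Δ' h
    have h1 : a Δ = a Δ' := by
      funext i
      exact Finset.sum_congr rfl fun j _ => by rw [sDF_congr M b hj1 h]
    change aeval (cof T (a Δ)) Q = aeval (cof T (a Δ')) Q
    rw [h1]
  · intro P j0 hj0 hmin' η hη hm j Δ hD
    obtain ⟨i1, A, hA, hA1, hA2⟩ := exists_frame P hn Δ hD
    have h1 := hloc P j0 hj0 hmin' η hη i1 _ hA2 (Or.inr ⟨hA1 i1, hm⟩) j
    rw [hpl A Δ, hA, one_pow, one_mul] at h1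
    exact h1
  · intro P j Δ hD
    obtain ⟨j0, hj0, hmin'⟩ := hmin P
    have h1 := hloc P j0 hj0 hmin' 0 le_rfl ⟨0, hn⟩ Δ (fun i _ => hD i) (Or.inl (hD _)) j
    rw [mul_zero, neg_zero] at h1
    exact h1

/-- The main theorem for generically finite maps. -/
theorem mainF {q q0 L D M b n v : ℕ} {δ e : Fin q → ℕ} {F : Fin q → MvPolynomial (Fin (v + 1)) ℂ}
    (hG : GoodF F δ e L D q0) (hv : 1 ≤ v) (hL : 1 ≤ L) (hDL : D < L * q0) (hb1 : 1 ≤ b)
    (hb : b + D * (M + 1) = M * (L * q0)) (hn : 1 ≤ n)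
    {K : Type} [Field K] [Algebra ℂ K] {u : Fin (v + 1) → K} {j1 : Fin (v + 1)} (hj1 : u j1 ≠ 0)
    {J : Fin n → Fin (v + 1)} (hJ : AlgebraicIndependent ℂ fun c => u (J c) / u j1) :
    ∃ N : ℕ, 0 < N ∧ ∃ ω : Fin (n + 1) → (Fin n → Derivation ℂ K K) → K,
      (∀ j, IsPluri N (ω j)) ∧
      (∀ P : Place ℂ K, ∀ j0, u j0 ≠ 0 → (∀ j, u j = 0 ∨ P.ord (u j0) ≤ P.ord (u j)) →
        ∀ η : ℝ, 0 ≤ η → (∀ i, aeval u (F i) ≠ 0 →
          (P.ord (aeval u (F i)) = δ i * P.ord (u j0) ∨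
          ((M : ℝ) + 1) * (1 - η) ≤ P.ord (aeval u (F i)) - δ i * P.ord (u j0))) →
        ∀ j Δ, (∀ i, DerReg P (Δ i)) → GO P (-(N * η)) (ω j Δ)) ∧
      (∀ P : Place ℂ K, ∀ j Δ, (∀ i, Tan P (Δ i)) → GO P 0 (ω j Δ)) ∧
      ∃ Δ, ω 0 Δ ≠ 0 ∧ AlgebraicIndependent ℂ (fun i : Fin n => ω i.succ Δ / ω 0 Δ) := by
  obtain ⟨N, e0, hN, he0, ω0, h1, h2, h3, h4, E, hE, hE0⟩ := baseF hG hv hL hDL hb1 hb hn hj1 hJ
  set ω : Fin (n + 1) → (Fin n → Derivation ℂ K K) → K := fun c Δ =>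
    u (Fin.cons (α := fun _ => Fin (v + 1)) j1 J c) ^ e0 * ω0 Δ with hω
  refine ⟨N, hN, ω, ?_, fun P j0 hj0 hmin η hη hm j Δ hD => h3 P j0 hj0 hmin η hη hm _ Δ hD,
    fun P j Δ hD => h4 P _ Δ hD, E, ?_, ?_⟩
  · intro c A Δ
    simp only [hω]
    rw [h1 A Δ]
    ring
  · simp only [hω, Fin.cons_zero]
    exact mul_ne_zero (pow_ne_zero _ hj1) hE0
  · have h5 := ai_pow hJ (N := e0) he0
    have e : (fun i : Fin n => ω i.succ E / ω 0 E) = fun i => (u (J i) / u j1) ^ e0 := by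
      funext i
      simp only [hω, Fin.cons_zero, Fin.cons_succ]
      rw [mul_div_mul_right _ _ hE0, div_pow]
    rw [e]
    exact h5

end Pool.Agent.V8H90.HY
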