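import Pool.Agent.V8H90.HY.Cur

/-!
The orders of vanishing of the values of the invariant polynomials along curves.
-/

set_option autoImplicit false

namespace Pool.Agent.V8H90.HY

open MvPolynomial Filter Metric Real Set Topology Pool.Agent.W602.NC Pool.Agent.W602.TL
  Pool.Agent.W601.SM Pool.Agent.V8H90.JT Pool.Agent.V8H90.AJ

variable {v q q0 L D : ℕ} {δ e : Fin q → ℕ} {F : Fin q → MvPolynomial (Fin (v + 1)) ℂ}

theorem jv_diff {f : ℂ → Fin (v + 1) → ℂ} (hf : Ent f)
    (G : MvPolynomial (Fin 2 × Fin (v + 1)) ℂ) : Differentiable ℂ fun t => eval (jv f t) G := by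
  induction G using MvPolynomial.induction_on with
  | C c => simp only [eval_C]; exact differentiable_const c
  | add p q hp hq => simp only [map_add]; exact hp.add hq
  | mul_X p i hp =>
    simp only [map_mul, eval_X]
    refine hp.mul ?_
    unfold jv
    split_ifs
    · exact hf i.2
    · exact (hf i.2).deriv

/-- the polynomials which vanish to order at least `c` along the curve and its derivative -/
noncomputable def oI {f : ℂ → Fin (v + 1) → ℂ} (hf : Ent f) (z : ℂ) (c : ℕ) : Ideal (SR ℂ v) where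
  carrier := {A | (c : ℕ∞) ≤ analyticOrderAt (fun t => eval (jv f t) A) z}
  zero_mem' := by
    change (c : ℕ∞) ≤ analyticOrderAt (fun t => eval (jv f t) 0) z
    have h2 : analyticOrderAt (fun t => eval (jv f t) (0 : SR ℂ v)) z = ⊤ := by
      rw [analyticOrderAt_eq_top]
      exact Filter.Eventually.of_forall fun _ => map_zero _
    rw [h2]
    exact le_top
  add_mem' := by
    intro A B hA hB
    change (c : ℕ∞) ≤ analyticOrderAt (fun t => eval (jv f t) (A + B)) z
    have h : (fun t => eval (jv f t) (A + B)) = (fun t => eval (jv f t) A) +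
        fun t => eval (jv f t) B := by
      funext z
      exact map_add _ _ _
    rw [h]
    exact (le_min hA hB).trans le_analyticOrderAt_add
  smul_mem' := by
    intro A B hB
    change (c : ℕ∞) ≤ analyticOrderAt (fun t => eval (jv f t) (A * B)) z
    have h : (fun t => eval (jv f t) (A * B)) = (fun t => eval (jv f t) A) *
        fun t => eval (jv f t) B := by
      funext z
      exact map_mul _ _ _
    rw [h, analyticOrderAt_mul ((jv_diff hf A).analyticAt z) ((jv_diff hf B).analyticAt z)]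
    exact hB.trans le_add_self

theorem mem_oI {f : ℂ → Fin (v + 1) → ℂ} {hf : Ent f} {z : ℂ} {c : ℕ} {A : SR ℂ v} :
    A ∈ oI hf z c ↔ (c : ℕ∞) ≤ analyticOrderAt (fun t => eval (jv f t) A) z := Iff.rfl

theorem oI_mul {f : ℂ → Fin (v + 1) → ℂ} (hf : Ent f) (z : ℂ) (c c' : ℕ) :
    oI hf z c * oI hf z c' ≤ oI hf z (c + c') := by
  rw [Ideal.mul_le]
  intro A hA B hB
  rw [mem_oI] at *
  have h : (fun t => eval (jv f t) (A * B)) = (fun t => eval (jv f t) A) *
      fun t => eval (jv f t) B := by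
    funext z
    exact map_mul _ _ _
  rw [h, analyticOrderAt_mul ((jv_diff hf A).analyticAt z) ((jv_diff hf B).analyticAt z)]
  push_cast
  exact add_le_add hA hB

theorem oI_zero {f : ℂ → Fin (v + 1) → ℂ} (hf : Ent f) (z : ℂ) : oI hf z 0 = ⊤ := by
  rw [eq_top_iff]
  intro A _
  rw [mem_oI, Nat.cast_zero]
  exact bot_le

theorem oI_pow {f : ℂ → Fin (v + 1) → ℂ} (hf : Ent f) (z : ℂ) (c n : ℕ) :
    oI hf z c ^ n ≤ oI hf z (n * c) := by
  induction n with
  | zero => rw [zero_mul, oI_zero]; exact le_top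
  | succ n ih =>
    rw [pow_succ, show (n + 1) * c = n * c + c by ring]
    exact (Ideal.mul_mono_left ih).trans (oI_mul hf z _ _)

theorem oI_prod {f : ℂ → Fin (v + 1) → ℂ} (hf : Ent f) (z : ℂ) {r : ℕ} {I : Fin r → Ideal (SR ℂ v)}
    {e a : Fin r → ℕ} (h : ∀ i, I i ≤ oI hf z (a i)) :
    ∏ i, I i ^ e i ≤ oI hf z (∑ i, e i * a i) := by
  classical
  have h1 : ∀ s : Finset (Fin r), ∏ i ∈ s, I i ^ e i ≤ oI hf z (∑ i ∈ s, e i * a i) := by
    intro s
    induction s using Finset.induction_on with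
    | empty => rw [Finset.sum_empty, oI_zero]; exact le_top
    | insert b s hb ih =>
      rw [Finset.prod_insert hb, Finset.sum_insert hb]
      exact (Ideal.mul_mono ((Ideal.pow_right_mono (h b) _).trans (oI_pow hf z _ _)) ih).trans
        (oI_mul hf z _ _)
  exact h1 Finset.univ

theorem II_oI {f : ℂ → Fin (v + 1) → ℂ} (hf : Ent f) {z : ℂ} {G : MvPolynomial (Fin (v + 1)) ℂ}
    {a : ℕ} (ha : analyticOrderAt (fun t => eval (f t) G) z = a) : II G ≤ oI hf z (a - 1) := by
  apply II_le
  · rw [mem_oI]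
    simp only [eval_jv_i0]
    rw [ha]
    exact_mod_cast Nat.sub_le a 1
  · rw [mem_oI]
    have h1 : (fun t => eval (jv f t) (i1 G)) = iteratedDeriv 1 fun t => eval (f t) G := by
      funext t
      rw [iteratedDeriv_one, eval_jv_i1 fun j => hf j t]
    rw [h1]
    have h2 : Differentiable ℂ fun t => eval (f t) G := fun t => eval_diff (fun j => hf j t) G
    have h3 := ord_iter (h2.analyticAt z) 1
    rw [ha] at h3
    rw [ENat.natCast_sub, tsub_le_iff_right]
    exact_mod_cast h3

/-- hypersurfaces through a point -/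
theorem GoodF.few (hG : GoodF F δ e L D q0) {x : Fin (v + 1) → ℂ} (hx : x ≠ 0) {s : Fin q0 → Fin q}
    (hs : Function.Injective s) (S : Finset (Fin q0)) (hS : ∀ i ∈ S, eval x (F (s i)) = 0) :
    S.card ≤ v ∧ ∃ (a : Fin S.card → Fin q0) (σ : Fin S.card → Fin (v + 1)),
      Function.Injective a ∧ (∀ i, i ∈ S ↔ ∃ b, a b = i) ∧
        eval x (mnr (fun b => F (s (a b))) σ) ≠ 0 := by
  classical
  have hSc : S.card ≤ v := by
    by_contra hcon
    push Not at hcon
    obtain ⟨J, hJS, hJ⟩ := Finset.exists_subset_card_eq (show v + 1 ≤ S.card from hcon)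
    set a : Fin (v + 1) → Fin q0 := fun b => (J.equivFin.symm (Fin.cast hJ.symm b)).1 with ha
    have hai : Function.Injective a := fun b b' h =>
      Fin.cast_injective _ (J.equivFin.symm.injective (Subtype.ext h))
    apply hx
    funext j
    obtain ⟨N, hN⟩ := hG.top (fun b => s (a b)) (hs.comp hai) j
    have h3 : Ideal.span (Set.range fun i => F (s (a i))) ≤ RingHom.ker (eval x) := by
      rw [Ideal.span_le]
      rintro g ⟨i, rfl⟩
      exact hS _ (hJS (J.equivFin.symm (Fin.cast hJ.symm i)).2)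
    have h4 := h3 hN
    rw [RingHom.mem_ker, map_pow, eval_X] at h4
    exact (pow_eq_zero_iff (Nat.succ_ne_zero N)).mp (by rw [pow_succ, h4, zero_mul])
  set a : Fin S.card → Fin q0 := fun b => (S.equivFin.symm b).1 with ha
  have hai : Function.Injective a := fun b b' h => S.equivFin.symm.injective (Subtype.ext h)
  have haS : ∀ b, a b ∈ S := fun b => (S.equivFin.symm b).2
  refine ⟨hSc, a, ?_⟩
  have h1 : ∃ σ, eval x (mnr (fun b => F (s (a b))) σ) ≠ 0 := by
    by_contra hcon
    push Not at hcon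
    apply hx
    funext j
    obtain ⟨N, hN⟩ := hG.snc S.card hSc (fun b => s (a b)) (hs.comp hai) j
    have h3 : Ideal.span (gens fun i => F (s (a i))) ≤ RingHom.ker (eval x) := by
      rw [Ideal.span_le]
      rintro g (⟨i, rfl⟩ | ⟨σ, rfl⟩)
      · exact hS _ (haS i)
      · exact hcon σ
    have h4 := h3 hN
    rw [RingHom.mem_ker, map_pow, eval_X] at h4
    exact (pow_eq_zero_iff (Nat.succ_ne_zero N)).mp (by rw [pow_succ, h4, zero_mul])
  obtain ⟨σ, hσ⟩ := h1
  refine ⟨σ, hai, fun i => ⟨fun hi => ⟨S.equivFin ⟨i, hi⟩, by simp [ha]⟩, ?_⟩, hσ⟩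
  rintro ⟨b, rfl⟩
  exact haS b

/-- **The order of vanishing.** -/
theorem cur_order (hG : GoodF F δ e L D q0) (hv : 1 ≤ v) {s : Fin q0 → Fin q}
    (hs : Function.Injective s) {w : ℕ} {R : MvPolynomial (Fin 2 × Fin (v + 1)) ℂ}
    (hR : AdmF F e s D w R) {f : ℂ → Fin (v + 1) → ℂ} (hf : Ent f) {z : ℂ} (hz : f z ≠ 0)
    (a : Fin q0 → ℕ) (ha : ∀ i, analyticOrderAt (fun t => eval (f t) (F (s i))) z = a i) :
    ((∑ i, e (s i) * (a i - 1) : ℕ) : ℕ∞) ≤ analyticOrderAt (fun t => eval (jv f t) R) z := by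
  classical
  set S : Finset (Fin q0) := Finset.univ.filter fun i => a i ≠ 0 with hS
  have hS0 : ∀ i ∈ S, eval (f z) (F (s i)) = 0 := by
    intro i hi
    rw [hS, Finset.mem_filter] at hi
    by_contra h0
    have h2 : Differentiable ℂ fun t => eval (f t) (F (s i)) :=
      fun t => eval_diff (fun j => hf j t) _
    have h1 := (h2.analyticAt z).analyticOrderAt_eq_zero.mpr h0
    rw [ha i] at h1
    exact hi.2 (by exact_mod_cast h1)
  obtain ⟨-, b, σ, hb, hbS, hσ⟩ := hG.few hz hs S hS0
  have h1 := lemA (F := fun i => F (s (b i))) (fun i j hij => hG.cop hv fun h =>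
    hij (hb (hs h))) σ hR.wt (e := fun i => e (s (b i))) fun i => hR.mem (b i)
  have h2 := oI_prod hf z (I := fun i => II (F (s (b i)))) (e := fun i => e (s (b i)))
    (a := fun i => a (b i) - 1) (fun i => II_oI hf (ha (b i))) h1
  rw [mem_oI] at h2
  have h3 : ∑ i, e (s (b i)) * (a (b i) - 1) = ∑ i, e (s i) * (a i - 1) := by
    rw [← Finset.sum_image (g := b) (f := fun i => e (s i) * (a i - 1)) fun a _ b _ h => hb h]
    refine Finset.sum_subset (Finset.subset_univ _) fun i _ hi => ?_
    have : a i = 0 := by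
      by_contra h
      obtain ⟨c, rfl⟩ := (hbS i).mp (by rw [hS, Finset.mem_filter]; exact ⟨Finset.mem_univ _, h⟩)
      exact hi (Finset.mem_image.mpr ⟨c, Finset.mem_univ _, rfl⟩)
    rw [this]
    simp
  rw [h3] at h2
  refine h2.trans (le_of_eq ?_)
  have h4 : (fun t => eval (jv f t) (i0 (mnr (fun i => F (s (b i))) σ) ^ w * R)) =
      (fun t => eval (f t) (mnr (fun i => F (s (b i))) σ) ^ w) * fun t => eval (jv f t) R := by
    funext t
    rw [map_mul, map_pow, eval_jv_i0]
    rfl
  have h5 : Differentiable ℂ fun t => eval (f t) (mnr (fun i => F (s (b i))) σ) ^ w :=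
    Differentiable.pow (fun t => eval_diff (fun j => hf j t) _) w
  have h6 := analyticOrderAt_mul (h5.analyticAt z) ((jv_diff hf R).analyticAt z)
  rw [(h5.analyticAt z).analyticOrderAt_eq_zero.mpr (pow_ne_zero _ hσ), zero_add] at h6
  rw [← h6, ← h4]
  rfl

end Pool.Agent.V8H90.HY
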