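import Pool.Agent.V8H90.HY.Bnd

/-!
The bound of the invariant polynomials at a vector and its derivative.
-/

set_option autoImplicit false

namespace Pool.Agent.V8H90.HY

open MvPolynomial Pool.Agent.V8H90.JT Pool.Agent.V8H90.AJ Pool.Agent.W601.SM

variable {v q q0 L D : ℕ} {δ e : Fin q → ℕ} {F : Fin q → MvPolynomial (Fin (v + 1)) ℂ}

/-- a uniform lower bound -/
theorem GoodF.low (hG : GoodF F δ e L D q0) : ∃ c : ℝ, 0 < c ∧ c ≤ 1 ∧
    ∀ x : Fin (v + 1) → ℂ, (∀ j, ‖x j‖ ≤ 1) → (∃ j, x j = 1) →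
      (∀ a : Fin (v + 1) → Fin q, Function.Injective a → ∃ i, c ≤ ‖eval x (F (a i))‖) ∧
      ∀ r, r ≤ v → ∀ a : Fin r → Fin q, Function.Injective a →
        (∀ i, ‖eval x (F (a i))‖ < c) → ∃ σ, c ≤ ‖eval x (mnr (fun i => F (a i)) σ)‖ := by
  classical
  -- the constants
  have h1 : ∀ (x : (Σ r : Fin (v + 1), (Fin (r : ℕ) → Fin q)) × Fin (v + 1)), ∃ K : ℝ, 0 < K ∧
      (Function.Injective x.1.2 → ∀ y : Fin (v + 1) → ℂ, (∀ j, ‖y j‖ ≤ 1) → y x.2 = 1 →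
        ∃ i : Fin (x.1.1 : ℕ) ⊕ (Fin (x.1.1 : ℕ) → Fin (v + 1)), K⁻¹ ≤ ‖eval y
          (Sum.elim (fun i => F (x.1.2 i)) (mnr fun i => F (x.1.2 i)) i)‖) := by
    rintro ⟨⟨r, a⟩, j⟩
    by_cases ha : Function.Injective a
    · obtain ⟨N, hN⟩ := hG.snc r (Nat.lt_succ_iff.mp r.2) a ha j
      have h2 : gens (fun i => F (a i)) = Set.range (Sum.elim (fun i => F (a i))
          (mnr fun i => F (a i))) := (Set.Sum.elim_range _ _).symm
      rw [h2] at hN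
      obtain ⟨c, hc, h3⟩ := HY.low _ hN
      refine ⟨c⁻¹, inv_pos.mpr hc, fun _ y hy hyj => ?_⟩
      rw [inv_inv]
      exact h3 y hy hyj
    · exact ⟨1, one_pos, fun h => absurd h ha⟩
  have h2 : ∀ (x : (Fin (v + 1) → Fin q) × Fin (v + 1)), ∃ K : ℝ, 0 < K ∧
      (Function.Injective x.1 → ∀ y : Fin (v + 1) → ℂ, (∀ j, ‖y j‖ ≤ 1) → y x.2 = 1 →
        ∃ i, K⁻¹ ≤ ‖eval y (F (x.1 i))‖) := by
    rintro ⟨a, j⟩
    by_cases ha : Function.Injective a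
    · obtain ⟨N, hN⟩ := hG.top a ha j
      obtain ⟨c, hc, h3⟩ := HY.low _ hN
      refine ⟨c⁻¹, inv_pos.mpr hc, fun _ y hy hyj => ?_⟩
      rw [inv_inv]
      exact h3 y hy hyj
    · exact ⟨1, one_pos, fun h => absurd h ha⟩
  choose K1 hK1 hK1' using h1
  choose K2 hK2 hK2' using h2
  obtain ⟨M1, hM1, hM1'⟩ := Pool.Agent.W601.SM.Frame.exists_max K1
  obtain ⟨M2, hM2, hM2'⟩ := Pool.Agent.W601.SM.Frame.exists_max K2
  have hM : 1 ≤ M1 * M2 := one_le_mul_of_one_le_of_one_le hM1 hM2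
  refine ⟨(M1 * M2)⁻¹, by positivity, inv_le_one_of_one_le₀ hM, fun x hx hxj => ?_⟩
  obtain ⟨j, hj⟩ := hxj
  refine ⟨fun a ha => ?_, fun r hr a ha hlt => ?_⟩
  · obtain ⟨i, hi⟩ := hK2' (a, j) ha x hx hj
    refine ⟨i, le_trans ?_ hi⟩
    apply inv_anti₀ (hK2 _)
    calc K2 (a, j) ≤ M2 := hM2' _
      _ ≤ M1 * M2 := le_mul_of_one_le_left (by linarith) hM1
  · have hle : (M1 * M2)⁻¹ ≤ (K1 (⟨⟨r, Nat.lt_succ_of_le hr⟩, a⟩, j))⁻¹ := by
      apply inv_anti₀ (hK1 _)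
      calc K1 _ ≤ M1 := hM1' _
        _ ≤ M1 * M2 := le_mul_of_one_le_right (by linarith) hM2
    obtain ⟨i, hi⟩ := hK1' (⟨⟨r, Nat.lt_succ_of_le hr⟩, a⟩, j) ha x hx hj
    rcases i with i | σ
    · exfalso
      have h3 := hlt i
      simp only [Sum.elim_inl] at hi
      linarith
    · exact ⟨σ, hle.trans hi⟩

theorem eval_i0 (w : Fin 2 × Fin (v + 1) → ℂ) (G : MvPolynomial (Fin (v + 1)) ℂ) :
    eval w (i0 G) = eval (fun j => w (0, j)) G := aeval_i0 w G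

/-- **The pointwise bound.** -/
theorem point (hG : GoodF F δ e L D q0) (hv : 1 ≤ v) {s : Fin q0 → Fin q}
    (hs : Function.Injective s) {w : ℕ} {R : MvPolynomial (Fin 2 × Fin (v + 1)) ℂ}
    (hR : AdmF F e s D w R) :
    ∃ (C : ℝ) (N : ℕ), 1 ≤ C ∧ ∀ (y : Fin 2 × Fin (v + 1) → ℂ) (E : ℝ), 1 ≤ E →
      (∀ j, ‖y (0, j)‖ ≤ 1) → (∃ j, y (0, j) = 1) → (∀ j, ‖y (1, j)‖ ≤ E) →
      (∀ i, ‖eval y (i1 (F (s i)))‖ ≤ E * ‖eval (fun j => y (0, j)) (F (s i))‖) →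
      ‖eval y R‖ ≤ C * E ^ N * ∏ i, ‖eval (fun j => y (0, j)) (F (s i))‖ ^ e (s i) := by
  classical
  obtain ⟨c, hc, hc1, hlow⟩ := hG.low
  -- the constants
  have h1 : ∀ (x : Σ r : Fin (v + 1), (Fin (r : ℕ) → Fin q0) × (Fin (r : ℕ) → Fin (v + 1))),
      ∃ (C : ℝ) (N : ℕ), 0 ≤ C ∧ (Function.Injective x.2.1 → ∀ (y : Fin 2 × Fin (v + 1) → ℂ)
        (E : ℝ) (b : Fin (x.1 : ℕ) → ℝ), Ok (fun i => F (s (x.2.1 i))) y E b →
        ‖eval y (i0 (mnr (fun i => F (s (x.2.1 i))) x.2.2) ^ w * R)‖ ≤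
          C * E ^ N * ∏ i, b i ^ e (s (x.2.1 i))) := by
    rintro ⟨r, a, σ⟩
    by_cases ha : Function.Injective a
    · have h2 := lemA (F := fun i => F (s (a i))) (fun i j hij => hG.cop hv fun h =>
        hij (ha (hs h))) σ hR.wt (e := fun i => e (s (a i))) fun i => hR.mem (a i)
      obtain ⟨C, N, h3, h4⟩ := (bd_prod fun i => e (s (a i))).2 _ h2
      exact ⟨C, N, h3, fun _ => h4⟩
    · exact ⟨0, 0, le_rfl, fun h => absurd h ha⟩
  choose K N hK hKN using h1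
  obtain ⟨M, hM, hM'⟩ := Pool.Agent.W601.SM.Frame.exists_max K
  set T : ℕ := ∑ i, e (s i) with hT
  have hcw : 0 < c ^ w := pow_pos hc _
  have hcT : 0 < c ^ T := pow_pos hc _
  refine ⟨M / c ^ w / c ^ T, ∑ x, N x, ?_, fun y E hE hy0 hy1 hyE hyi => ?_⟩
  · rw [le_div_iff₀ hcT, le_div_iff₀ hcw, one_mul]
    have h2 : c ^ T * c ^ w ≤ 1 := mul_le_one₀ (pow_le_one₀ hc.le hc1) hcw.le
      (pow_le_one₀ hc.le hc1)
    linarith
  set X0 : Fin (v + 1) → ℂ := fun j => y (0, j) with hX0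
  obtain ⟨hA, hB⟩ := hlow X0 hy0 hy1
  set S : Finset (Fin q0) := Finset.univ.filter fun i => ‖eval X0 (F (s i))‖ < c with hS
  have hSc : S.card ≤ v := by
    by_contra hcon
    push Not at hcon
    obtain ⟨J, hJS, hJ⟩ := Finset.exists_subset_card_eq (show v + 1 ≤ S.card from hcon)
    set a : Fin (v + 1) → Fin q0 := fun b => (J.equivFin.symm (Fin.cast hJ.symm b)).1 with ha
    have hai : Function.Injective a := fun b b' h =>
      Fin.cast_injective _ (J.equivFin.symm.injective (Subtype.ext h))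
    obtain ⟨i, hi⟩ := hA (fun b => s (a b)) (hs.comp hai)
    have h2 := (Finset.mem_filter.mp (hJS (J.equivFin.symm (Fin.cast hJ.symm i)).2)).2
    exact absurd hi (not_le.mpr h2)
  set a : Fin S.card → Fin q0 := fun b => (S.equivFin.symm b).1 with ha
  have hai : Function.Injective a := fun b b' h => S.equivFin.symm.injective (Subtype.ext h)
  have haS : ∀ b, a b ∈ S := fun b => (S.equivFin.symm b).2
  obtain ⟨σ, hσ⟩ := hB S.card hSc (fun b => s (a b)) (hs.comp hai) fun b =>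
    (Finset.mem_filter.mp (haS b)).2
  have h2 := hKN ⟨⟨S.card, Nat.lt_succ_of_le hSc⟩, a, σ⟩ hai y E
    (fun b => ‖eval X0 (F (s (a b)))‖) ⟨hE, ?_, fun b => norm_nonneg _, fun b => ⟨?_, hyi _⟩⟩
  · rw [map_mul, map_pow, norm_mul, norm_pow, eval_i0] at h2
    have h3 : c ^ w * ‖eval y R‖ ≤ M * E ^ (∑ x, N x) *
        ∏ i, ‖eval X0 (F (s (a i)))‖ ^ e (s (a i)) := by
      refine (mul_le_mul_of_nonneg_right (pow_le_pow_left₀ hc.le hσ w) (norm_nonneg _)).trans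
        (h2.trans ?_)
      refine mul_le_mul_of_nonneg_right ?_ (Finset.prod_nonneg fun i _ => by positivity)
      refine mul_le_mul (hM' _) (pow_le_pow_right₀ hE ?_) (by positivity) (by linarith)
      exact Finset.single_le_sum (f := N) (fun _ _ => Nat.zero_le _) (Finset.mem_univ _)
    have h4 : (∏ i, ‖eval X0 (F (s (a i)))‖ ^ e (s (a i))) * c ^ T ≤
        ∏ i, ‖eval X0 (F (s i))‖ ^ e (s i) := by
      rw [← Finset.prod_mul_prod_compl S]
      have h5 : ∏ i ∈ S, ‖eval X0 (F (s i))‖ ^ e (s i) =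
          ∏ i, ‖eval X0 (F (s (a i)))‖ ^ e (s (a i)) := by
        rw [← Finset.prod_coe_sort]
        exact Fintype.prod_equiv S.equivFin _ _ fun i => by simp [ha]
      rw [h5]
      refine mul_le_mul_of_nonneg_left ?_ (Finset.prod_nonneg fun i _ => by positivity)
      calc c ^ T ≤ c ^ ∑ i ∈ Sᶜ, e (s i) :=
            pow_le_pow_of_le_one hc.le hc1 (Finset.sum_le_sum_of_subset (Finset.subset_univ _))
        _ = ∏ i ∈ Sᶜ, c ^ e (s i) := (Finset.prod_pow_eq_pow_sum _ _ _).symm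
        _ ≤ ∏ i ∈ Sᶜ, ‖eval X0 (F (s i))‖ ^ e (s i) := by
            refine Finset.prod_le_prod (fun i _ => by positivity) fun i hi => ?_
            refine pow_le_pow_left₀ hc.le ?_ _
            by_contra hcon
            push Not at hcon
            exact (Finset.mem_compl.mp hi) (Finset.mem_filter.mpr ⟨Finset.mem_univ _, hcon⟩)
    have hME : 0 ≤ M * E ^ (∑ x, N x) := by positivity
    have h5 : c ^ T * (c ^ w * ‖eval y R‖) ≤ M * E ^ (∑ x, N x) *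
        ∏ i, ‖eval X0 (F (s i))‖ ^ e (s i) := by
      calc c ^ T * (c ^ w * ‖eval y R‖) ≤ c ^ T * (M * E ^ (∑ x, N x) *
            ∏ i, ‖eval X0 (F (s (a i)))‖ ^ e (s (a i))) := mul_le_mul_of_nonneg_left h3 hcT.le
        _ = M * E ^ (∑ x, N x) * ((∏ i, ‖eval X0 (F (s (a i)))‖ ^ e (s (a i))) * c ^ T) := by ring
        _ ≤ _ := mul_le_mul_of_nonneg_left h4 hME
    rw [div_mul_eq_mul_div, div_mul_eq_mul_div, div_mul_eq_mul_div, div_mul_eq_mul_div,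
      le_div_iff₀ hcT, le_div_iff₀ hcw]
    calc ‖eval y R‖ * c ^ T * c ^ w = c ^ T * (c ^ w * ‖eval y R‖) := by ring
      _ ≤ _ := h5
  · rintro ⟨m, j⟩
    fin_cases m
    · exact (hy0 j).trans hE
    · exact hyE j
  · rw [eval_i0]
    exact le_mul_of_one_le_left (norm_nonneg _) hE

end Pool.Agent.V8H90.HY
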