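import Pool.Agent.V8H90.JT.Gen

/-!
Few numbers destroy the independence of few members of an algebraically independent family.
-/

set_option autoImplicit false

namespace Pool.Agent.V8H90.HY

open Set IntermediateField.algebraAdjoinAdjoin

/-- Let the numbers `x i` be algebraically independent, and let `p` be a finite family of numbers.
All but at most `card τ` of the numbers `x i` are algebraically independent over a field which
contains the numbers `p t`. -/
theorem sel {L : Type} [Field L] [CharZero L] {I τ : Type} [Fintype I] [DecidableEq I] [Fintype τ]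
    {x : I → L} (hx : AlgebraicIndependent ℚ x) (p : τ → L) :
    ∃ (F : Type) (_ : Field F) (_ : CharZero F) (_ : Algebra F L) (p' : τ → F) (B : Finset I),
      (∀ t, algebraMap F L (p' t) = p t) ∧ Bᶜ.card ≤ Fintype.card τ ∧
        AlgebraicIndependent F fun b : B => x b := by
  classical
  set M := AlgebraicIndependent.matroid ℚ L with hM
  set P : Set L := range p with hP
  have hfinj : Function.Injective x := hx.injective
  set Y : Set L := range x with hY
  have hYi : M.Indep Y := by
    rw [hM, AlgebraicIndependent.matroid_indep_iff]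
    exact hx.to_subtype_range
  obtain ⟨P0, hP0⟩ := M.exists_isBasis P
  have hP0P : P0 ⊆ P := hP0.subset
  have hPfin : P.Finite := finite_range p
  have hP0fin : P0.Finite := hPfin.subset hP0P
  have hYfin : Y.Finite := finite_range x
  obtain ⟨B, hB, hPB⟩ := hP0.indep.subset_isBasis_of_subset (X := P0 ∪ Y) subset_union_left
  have hBfin : B.Finite := (hP0fin.union hYfin).subset hB.subset
  have hBY : B \ P0 ⊆ Y := fun b hb => (hB.subset hb.1).resolve_left hb.2
  have hcard : Y.ncard ≤ B.ncard := by
    have h1 := hYi.encard_le_eRk_of_subset (X := P0 ∪ Y) subset_union_right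
    rw [hB.eRk_eq_encard, ← hYfin.cast_ncard_eq, ← hBfin.cast_ncard_eq] at h1
    exact_mod_cast h1
  have hP0c : P0.ncard ≤ Fintype.card τ := by
    refine (ncard_le_ncard hP0P hPfin).trans ?_
    rw [hP, ← image_univ]
    refine (ncard_image_le finite_univ).trans ?_
    rw [ncard_univ, Nat.card_eq_fintype_card]
  have hBd : (B \ P0).ncard + P0.ncard = B.ncard := ncard_sdiff_add_ncard_of_subset hPB hBfin
  have hYd : (Y \ (B \ P0)).ncard + (B \ P0).ncard = Y.ncard :=
    ncard_sdiff_add_ncard_of_subset hBY hYfin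
  have hmiss : (Y \ (B \ P0)).ncard ≤ Fintype.card τ := by omega
  set G : Finset I := Finset.univ.filter fun i => x i ∈ B \ P0 with hG
  have hGc : Gᶜ.card ≤ Fintype.card τ := by
    have h3 : Gᶜ.card ≤ (hYfin.subset (sdiff_subset (s := Y) (t := B \ P0))).toFinset.card := by
      refine Finset.card_le_card_of_injOn x ?_ ?_
      · intro i hi
        rw [Finset.mem_coe, Finset.mem_compl, hG, Finset.mem_filter] at hi
        push Not at hi
        rw [Finset.mem_coe, Finite.mem_toFinset]
        exact ⟨⟨_, rfl⟩, hi (Finset.mem_univ i)⟩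
      · intro i _ i' _ h
        exact hfinj h
    rw [← ncard_eq_toFinset_card _ (hYfin.subset sdiff_subset)] at h3
    exact h3.trans hmiss
  have hsG : ∀ b : G, x b ∈ B \ P0 := fun b => (Finset.mem_filter.mp b.2).2
  set F0 := IntermediateField.adjoin ℚ P0 with hF0
  set F := algebraicClosure F0 L with hF
  have hBi : AlgebraicIndependent ℚ ((↑) : B → L) := hB.indep
  have h1 : AlgebraicIndependent ℚ (Sum.elim (fun y : G => x y) ((↑) : P0 → L)) := by
    have h2 := hBi.comp (Sum.elim (fun y : G => (⟨x y, (hsG y).1⟩ : B))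
      fun x : P0 => ⟨x.1, hPB x.2⟩) ?_
    · convert h2 using 1
      funext x
      rcases x with x | x <;> rfl
    · rintro (y | y) (z | z) h
      · exact congrArg Sum.inl (Subtype.ext (hfinj (congrArg Subtype.val h)))
      · exfalso
        have h3 : x y = z.1 := congrArg Subtype.val h
        exact (hsG y).2 (by rw [h3]; exact z.2)
      · exfalso
        have h3 : y.1 = x z := congrArg Subtype.val h
        exact (hsG z).2 (by rw [← h3]; exact y.2)
      · have h3 : y.1 = z.1 := congrArg (Subtype.val : B → L) h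
        exact congrArg Sum.inr (Subtype.ext h3)
  have h2 := (AlgebraicIndependent.sumElim_iff.mp h1).2
  rw [Subtype.range_coe_subtype, ofPred_mem_eq] at h2
  have h3 : AlgebraicIndependent F0 fun y : G => x y := h2.extendScalars _
  have h4 : AlgebraicIndependent F fun y : G => x y := h3.algebraicClosure
  have h5 : ∀ t, p t ∈ F := by
    intro t
    have h6 := (AlgebraicIndependent.matroid_isBasis_iff.mp hP0).2.2 (p t) ⟨t, rfl⟩
    rw [hF, mem_algebraicClosure_iff]
    exact h6.extendScalars (FaithfulSMul.algebraMap_injective _ _)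
  exact ⟨F, inferInstance, inferInstance, inferInstance, fun t => ⟨p t, h5 t⟩, G, fun t => rfl,
    hGc, h4⟩

/-- the version for blocks -/
theorem sel_block {L : Type} [Field L] [CharZero L] {q q0 : ℕ} {κ : Fin q → Type}
    [∀ i, Fintype (κ i)] [∀ i, DecidableEq (κ i)] {τ : Type} [Fintype τ]
    {x : (Σ i, κ i) → L} (hx : AlgebraicIndependent ℚ x) (p : τ → L)
    (hq : q0 + Fintype.card τ ≤ q) :
    ∃ (F : Type) (_ : Field F) (_ : CharZero F) (_ : Algebra F L) (p' : τ → F)
      (s : Fin q0 → Fin q), (∀ t, algebraMap F L (p' t) = p t) ∧ Function.Injective s ∧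
        AlgebraicIndependent F fun y : Σ a, κ (s a) => x ⟨s y.1, y.2⟩ := by
  classical
  obtain ⟨F, iF, iC, iA, p', B, h1, h2, h3⟩ := sel hx p
  set G : Finset (Fin q) := Finset.univ.filter fun i => ∀ j, (⟨i, j⟩ : Σ i, κ i) ∈ B with hG
  have hGc : q0 ≤ G.card := by
    have h4 : Gᶜ.card ≤ Bᶜ.card := by
      have h5 : ∀ i ∈ Gᶜ, ∃ j, (⟨i, j⟩ : Σ i, κ i) ∈ Bᶜ := by
        intro i hi
        rw [Finset.mem_compl, hG, Finset.mem_filter] at hi
        push Not at hi
        obtain ⟨j, hj⟩ := hi (Finset.mem_univ i)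
        exact ⟨j, Finset.mem_compl.mpr hj⟩
      have h6 : Gᶜ ⊆ Bᶜ.image Sigma.fst := by
        intro i hi
        obtain ⟨j, hj⟩ := h5 i hi
        exact Finset.mem_image.mpr ⟨⟨i, j⟩, hj, rfl⟩
      exact (Finset.card_le_card h6).trans Finset.card_image_le
    have h5 := Finset.card_add_card_compl G
    rw [Fintype.card_fin] at h5
    omega
  obtain ⟨G', hG', hG'c⟩ := Finset.exists_subset_card_eq hGc
  set s : Fin q0 → Fin q := fun a => (G'.equivFin.symm (Fin.cast hG'c.symm a)).1 with hs
  have hsinj : Function.Injective s := fun a b h =>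
    Fin.cast_injective _ (G'.equivFin.symm.injective (Subtype.ext h))
  have hsG : ∀ a j, (⟨s a, j⟩ : Σ i, κ i) ∈ B := by
    intro a
    have h4 := hG' (G'.equivFin.symm (Fin.cast hG'c.symm a)).2
    rw [hG, Finset.mem_filter] at h4
    exact h4.2
  refine ⟨F, iF, iC, iA, p', s, h1, hsinj, ?_⟩
  have h4 := h3.comp (fun y : Σ a, κ (s a) => (⟨⟨s y.1, y.2⟩, hsG y.1 y.2⟩ : B)) ?_
  · exact h4
  · rintro ⟨a, j⟩ ⟨b, l⟩ h
    have h5 : (⟨s a, j⟩ : Σ i, κ i) = ⟨s b, l⟩ := congrArg (Subtype.val : B → _) h
    have h6 : a = b := hsinj (congrArg Sigma.fst h5)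
    subst h6
    simp only [Sigma.mk.injEq, heq_eq_eq, true_and] at h5
    rw [h5]

/-- linear relations -/
theorem no_rel {L : Type} [Field L] [CharZero L] {I τ : Type} [Fintype I] [DecidableEq I]
    [Fintype τ] {x : I → L} (hx : AlgebraicIndependent ℚ x) (p : τ → L) {ν : Type} [Fintype ν]
    (hN : Fintype.card τ < Fintype.card ν) (b : ∀ (F : Type) [Field F], (τ → F) → ν → I → F)
    (hb0 : ∀ (F : Type) [Field F] [Algebra F L] (p' : τ → F), (∀ t, algebraMap F L (p' t) = p t) →
      ∀ m i, algebraMap F L (b F p' m i) = b L p m i)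
    (hind : ∀ (F : Type) [Field F] [CharZero F] (p' : τ → F), LinearIndependent F (b F p'))
    (hrel : ∀ m, ∑ i, b L p m i * x i = 0) : False := by
  classical
  obtain ⟨F, _, _, _, p', B, h1, h2, h3⟩ := sel hx p
  -- a combination supported in `B`
  set T : (ν → F) →ₗ[F] ((Bᶜ : Finset I) → F) :=
    LinearMap.pi fun i => ∑ m, (LinearMap.proj m : (ν → F) →ₗ[F] F).smulRight (b F p' m i)
    with hT
  have hTa : ∀ c i, T c i = ∑ m, c m * b F p' m i := by
    intro c i
    rw [hT, LinearMap.pi_apply, LinearMap.sum_apply]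
    rfl
  obtain ⟨c, hc, hc0⟩ : ∃ c, T c = 0 ∧ c ≠ 0 := by
    by_contra hcon
    push Not at hcon
    have hinj : Function.Injective T := (injective_iff_map_eq_zero _).mpr hcon
    have h4 := LinearMap.finrank_le_finrank_of_injective hinj
    rw [Module.finrank_fintype_fun_eq_card, Module.finrank_fintype_fun_eq_card, Fintype.card_coe] at h4
    omega
  have h4 := Fintype.linearIndependent_iff.mp (hind F p')
  have h5 : ∃ i, ∑ m, c m * b F p' m i ≠ 0 := by
    by_contra hcon
    push Not at hcon
    apply hc0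
    funext m
    refine h4 c ?_ m
    funext i
    rw [Finset.sum_apply]
    exact hcon i
  have h6 : ∑ i, algebraMap F L (∑ m, c m * b F p' m i) * x i = 0 := by
    have h7 : ∀ i, algebraMap F L (∑ m, c m * b F p' m i) * x i =
        ∑ m, algebraMap F L (c m) * (b L p m i * x i) := by
      intro i
      rw [map_sum, Finset.sum_mul]
      refine Finset.sum_congr rfl fun m _ => ?_
      rw [map_mul, hb0 F p' h1]
      ring
    rw [Finset.sum_congr rfl fun i _ => h7 i, Finset.sum_comm]
    refine Finset.sum_eq_zero fun m _ => ?_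
    rw [← Finset.mul_sum, hrel, mul_zero]
  have h7 : ∀ i, i ∉ B → ∑ m, c m * b F p' m i = 0 := by
    intro i hi
    have h8 := congrFun hc ⟨i, Finset.mem_compl.mpr hi⟩
    rw [hTa] at h8
    exact h8
  have h8 : ∑ i : B, algebraMap F L (∑ m, c m * b F p' m i) * x i = 0 := by
    rw [Finset.sum_coe_sort B fun i => algebraMap F L (∑ m, c m * b F p' m i) * x i, ← h6]
    refine Finset.sum_subset (Finset.subset_univ B) fun i _ hi => ?_
    rw [h7 i hi, map_zero, zero_mul]
  have h9 := Fintype.linearIndependent_iff.mp h3.linearIndependent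
    (fun i => ∑ m, c m * b F p' m i) (by
      refine Eq.trans (Finset.sum_congr rfl fun i _ => ?_) h8
      rw [Algebra.smul_def])
  obtain ⟨i, hi⟩ := h5
  by_cases hiB : i ∈ B
  · exact hi (h9 ⟨i, hiB⟩)
  · exact hi (h7 i hiB)

end Pool.Agent.V8H90.HY
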