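import Pool.Agent.V8H90.HY.Sel
import Pool.Agent.V8H90.HY.Count

/-!
Generic hypersurfaces are in general position.
-/

set_option autoImplicit false

namespace Pool.Agent.V8H90.HY

open MvPolynomial Pool.Agent.V8H90.JT Pool.Agent.V8H90.AJ

variable {v : ℕ}

/-- At some point the hypersurfaces `F i = 0` meet, and their equations have dependent
derivatives. -/
def Crit {k : Type} [Field k] {r : ℕ} (F : Fin r → MvPolynomial (Fin (v + 1)) k) : Prop :=
  ∃ x : Fin (v + 1) → k, x ≠ 0 ∧ ∃ c : Fin r → k, c ≠ 0 ∧ (∀ i, eval x (F i) = 0) ∧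
    ∀ l, ∑ i, c i * eval x (pderiv l (F i)) = 0

/-- the sum of the monomials with coefficients -/
theorem eval_pol {σ : Type} [Fintype σ] [DecidableEq σ] {A : Type*} [CommRing A] {d : ℕ}
    (c : Ex σ d → A) (x : σ → A) :
    eval x (pol c) = ∑ s : Ex σ d, eval x (monomial s.1 (1 : A)) * c s := by
  unfold pol
  rw [map_sum]
  refine Finset.sum_congr rfl fun s _ => ?_
  rw [eval_monomial, eval_monomial, one_mul, mul_comm]

theorem eval_pderiv_pol {σ : Type} [Fintype σ] [DecidableEq σ] {A : Type*} [CommRing A] {d : ℕ}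
    (c : Ex σ d → A) (x : σ → A) (l : σ) :
    eval x (pderiv l (pol c)) =
      ∑ s : Ex σ d, eval x (pderiv l (monomial s.1 (1 : A))) * c s := by
  unfold pol
  rw [map_sum, map_sum]
  refine Finset.sum_congr rfl fun s _ => ?_
  have h : monomial s.1 (c s) = C (c s) * monomial s.1 (1 : A) := by
    rw [C_mul_monomial, mul_one]
  rw [h, pderiv_C_mul, map_mul, eval_C, mul_comm]

/-- a monomial -/
noncomputable def mo (l j : Fin (v + 1)) (d : ℕ) : Fin (v + 1) →₀ ℕ :=
  Finsupp.single l 1 + Finsupp.single j (d - 1)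

theorem mo_mem (l j : Fin (v + 1)) {d : ℕ} (hd : 1 ≤ d) :
    mo l j d ∈ (Finset.univ : Finset (Fin (v + 1))).finsuppAntidiag d := by
  rw [mem_Ex]
  unfold mo
  rw [map_add, Finsupp.degree_single, Finsupp.degree_single]
  omega

theorem mo_eq {A : Type*} [CommRing A] (l j : Fin (v + 1)) (d : ℕ) :
    (monomial (mo l j d) (1 : A)) = X l * X j ^ (d - 1) := by
  unfold mo
  rw [X_pow_eq_monomial, X, monomial_mul, one_mul]

theorem eval_mo {A : Type*} [CommRing A] (l j : Fin (v + 1)) (d : ℕ) {P : Fin (v + 1) → A}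
    (hP : P j = 1) : eval P (monomial (mo l j d) (1 : A)) = P l := by
  rw [mo_eq, map_mul, map_pow, eval_X, eval_X, hP, one_pow, mul_one]

theorem eval_pderiv_mo {A : Type*} [CommRing A] (l j m : Fin (v + 1)) (d : ℕ)
    {P : Fin (v + 1) → A} (hP : P j = 1) :
    eval P (pderiv m (monomial (mo l j d) (1 : A))) = (if m = l then 1 else 0) +
      P l * ((d - 1 : ℕ) * if m = j then 1 else 0) := by
  classical
  have h1 : ∀ a : Fin (v + 1), eval P (pderiv m (X a : MvPolynomial (Fin (v + 1)) A)) =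
      if m = a then 1 else 0 := by
    intro a
    split_ifs with h
    · rw [h, pderiv_X_self, map_one]
    · rw [pderiv_X_of_ne (Ne.symm h), map_zero]
  rw [mo_eq, pderiv_mul, pderiv_pow]
  simp only [map_add, map_mul, map_pow, eval_X, hP, one_pow, mul_one, map_natCast, h1]

section

variable {r : ℕ} {δ : Fin r → ℕ} (j0 : Fin (v + 1)) (i0' : Fin r)

/-- the parameters -/
abbrev Ta (j0 : Fin (v + 1)) (i0' : Fin r) : Type := {j // j ≠ j0} ⊕ {i // i ≠ i0'}

/-- the point -/
def pt {F : Type} [Field F] (p : Ta j0 i0' → F) (j : Fin (v + 1)) : F :=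
  if h : j = j0 then 1 else p (Sum.inl ⟨j, h⟩)

/-- the coefficients -/
def cf {F : Type} [Field F] (p : Ta j0 i0' → F) (i : Fin r) : F :=
  if h : i = i0' then 1 else p (Sum.inr ⟨i, h⟩)

/-- the relations -/
noncomputable def rl (δ : Fin r → ℕ) (F : Type) [Field F] (p : Ta j0 i0' → F)
    (m : {i // i ≠ i0'} ⊕ Fin (v + 1)) (y : Σ i, Ex (Fin (v + 1)) (δ i)) : F :=
  Sum.elim (fun i => if y.1 = i.1 then eval (pt j0 i0' p) (monomial y.2.1 1) else 0)
    (fun l => cf j0 i0' p y.1 * eval (pt j0 i0' p) (pderiv l (monomial y.2.1 1))) m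

theorem pt_self {F : Type} [Field F] (p : Ta j0 i0' → F) : pt j0 i0' p j0 = 1 := dif_pos rfl

theorem cf_self {F : Type} [Field F] (p : Ta j0 i0' → F) : cf j0 i0' p i0' = 1 := dif_pos rfl

theorem map_eval {F L : Type} [Field F] [Field L] [Algebra F L] (P : Fin (v + 1) → F)
    (G : MvPolynomial (Fin (v + 1)) F) : algebraMap F L (eval P G) =
      eval (fun j => algebraMap F L (P j)) (map (algebraMap F L) G) := by
  rw [eval_map, ← eval₂_id, eval₂_comp_left (algebraMap F L), RingHom.comp_id]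
  rfl

theorem rl_map {F L : Type} [Field F] [Field L] [Algebra F L] (p' : Ta j0 i0' → F)
    (p : Ta j0 i0' → L) (h : ∀ t, algebraMap F L (p' t) = p t)
    (m : {i // i ≠ i0'} ⊕ Fin (v + 1)) (y : Σ i, Ex (Fin (v + 1)) (δ i)) :
    algebraMap F L (rl j0 i0' δ F p' m y) = rl j0 i0' δ L p m y := by
  have h1 : (fun j => algebraMap F L (pt j0 i0' p' j)) = pt j0 i0' p := by
    funext j
    unfold pt
    split_ifs
    · exact map_one _
    · exact h _
  have h2 : ∀ i, algebraMap F L (cf j0 i0' p' i) = cf j0 i0' p i := by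
    intro i
    unfold cf
    split_ifs
    · exact map_one _
    · exact h _
  rcases m with i | l
  · simp only [rl, Sum.elim_inl]
    split_ifs
    · rw [map_eval, h1, map_monomial, map_one]
    · exact map_zero _
  · simp only [rl, Sum.elim_inr]
    rw [map_mul, h2, map_eval, h1, ← pderiv_map, map_monomial, map_one]

theorem rl_ind (hδ : ∀ i, 1 ≤ δ i) (F : Type) [Field F] [CharZero F] (p : Ta j0 i0' → F) :
    LinearIndependent F (rl j0 i0' δ F p) := by
  classical
  rw [Fintype.linearIndependent_iff]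
  intro g hg
  have h1 : ∀ (i : Fin r) (l : Fin (v + 1)),
      (∑ m : {i // i ≠ i0'}, g (Sum.inl m) * if i = m.1 then pt j0 i0' p l else 0) +
        cf j0 i0' p i * (g (Sum.inr l) + pt j0 i0' p l * ((δ i - 1 : ℕ) * g (Sum.inr j0))) = 0 := by
    intro i l
    have h2 := congrFun hg ⟨i, ⟨mo l j0 (δ i), mo_mem l j0 (hδ i)⟩⟩
    rw [Finset.sum_apply, Fintype.sum_sum_type] at h2
    simp only [Pi.smul_apply, smul_eq_mul, rl, Sum.elim_inl, Sum.elim_inr, Pi.zero_apply] at h2
    simp only [eval_mo l j0 (δ i) (pt_self j0 i0' p),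
      eval_pderiv_mo l j0 _ (δ i) (pt_self j0 i0' p)] at h2
    refine Eq.trans ?_ h2
    congr 1
    have h3 : ∀ m : Fin (v + 1), g (Sum.inr m) * (cf j0 i0' p i * ((if m = l then 1 else 0) +
        pt j0 i0' p l * ((δ i - 1 : ℕ) * if m = j0 then 1 else 0))) =
        (if m = l then cf j0 i0' p i * g (Sum.inr m) else 0) +
        (if m = j0 then cf j0 i0' p i * (pt j0 i0' p l * ((δ i - 1 : ℕ) * g (Sum.inr m)))
          else 0) := by
      intro m
      split_ifs <;> ring
    refine Eq.trans ?_ (Finset.sum_congr rfl fun m _ => h3 m).symm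
    rw [Finset.sum_add_distrib, Finset.sum_ite_eq',
      Finset.sum_ite_eq', if_pos (Finset.mem_univ _), if_pos (Finset.mem_univ _)]
    ring
  have h2 : ∀ l, g (Sum.inr l) + pt j0 i0' p l * ((δ i0' - 1 : ℕ) * g (Sum.inr j0)) = 0 := by
    intro l
    have h3 := h1 i0' l
    rw [Finset.sum_eq_zero fun m _ => by rw [if_neg (Ne.symm m.2), mul_zero], zero_add, cf_self,
      one_mul] at h3
    exact h3
  have h3 : g (Sum.inr j0) = 0 := by
    have h4 := h2 j0
    rw [pt_self, one_mul] at h4
    have h5 : ((δ i0' : ℕ) : F) * g (Sum.inr j0) = 0 := by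
      obtain ⟨n, hn⟩ : ∃ n, δ i0' = n + 1 := ⟨δ i0' - 1, by have := hδ i0'; omega⟩
      rw [hn] at h4 ⊢
      rw [Nat.add_sub_cancel] at h4
      push_cast
      linear_combination h4
    refine (mul_eq_zero.mp h5).resolve_left ?_
    have := hδ i0'
    exact_mod_cast (by omega : δ i0' ≠ 0)
  have h4 : ∀ l, g (Sum.inr l) = 0 := by
    intro l
    have h5 := h2 l
    rw [h3, mul_zero, mul_zero, add_zero] at h5
    exact h5
  rintro (i | l)
  · have h5 := h1 i.1 j0
    rw [h4, mul_zero, mul_zero, add_zero, mul_zero, add_zero, pt_self,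
      Finset.sum_eq_single i (fun m _ hm => by
        rw [if_neg (fun h => hm (Subtype.ext h.symm)), mul_zero])
        (fun h => absurd (Finset.mem_univ i) h), if_pos rfl, mul_one] at h5
    exact h5
  · exact h4 l

end

/-- **General position of generic hypersurfaces.** -/
theorem no_crit {L : Type} [Field L] [CharZero L] {r : ℕ} {δ : Fin r → ℕ} (hδ : ∀ i, 1 ≤ δ i)
    {x : (Σ i, Ex (Fin (v + 1)) (δ i)) → L} (hx : AlgebraicIndependent ℚ x) :
    ¬ Crit fun i => pol fun α => x ⟨i, α⟩ := by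
  classical
  rintro ⟨p, hp, c, hc, h1, h2⟩
  obtain ⟨j0, hj0⟩ := Function.ne_iff.mp hp
  rw [Pi.zero_apply] at hj0
  set t := p j0 with ht
  set P : Fin (v + 1) → L := fun j => p j / t with hP
  have hPp : p = fun j => t * P j := by
    funext j
    rw [hP]
    field_simp
  set c' : Fin r → L := fun i => c i * t ^ (δ i - 1) with hc'
  obtain ⟨i0', hi0'⟩ := Function.ne_iff.mp hc
  rw [Pi.zero_apply] at hi0'
  have hi0 : c' i0' ≠ 0 := mul_ne_zero hi0' (pow_ne_zero _ hj0)
  have e1 : ∀ i, eval P (pol fun α => x ⟨i, α⟩) = 0 := by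
    intro i
    have h3 := h1 i
    rw [hPp, eval_of_hom (pol_hom _)] at h3
    exact (mul_eq_zero.mp h3).resolve_left (pow_ne_zero _ hj0)
  have e2 : ∀ l, ∑ i, c' i * eval P (pderiv l (pol fun α => x ⟨i, α⟩)) = 0 := by
    intro l
    rw [← h2 l]
    refine Finset.sum_congr rfl fun i _ => ?_
    rw [hPp, eval_of_hom (pol_hom _).pderiv, hc']
    ring
  set par : Ta j0 i0' → L := Sum.elim (fun j => P j) (fun i => c' i / c' i0') with hpar
  have hpt : pt j0 i0' par = P := by
    funext j
    unfold pt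
    split_ifs with h
    · rw [h, hP]
      exact (div_self hj0).symm
    · rfl
  have hcf : cf j0 i0' par = fun i => c' i / c' i0' := by
    funext i
    unfold cf
    split_ifs with h
    · rw [h]
      exact (div_self hi0).symm
    · rfl
  refine no_rel hx par (ν := {i // i ≠ i0'} ⊕ Fin (v + 1)) ?_ (fun F _ => rl j0 i0' δ F)
    (fun F _ _ p' hp' m i => rl_map j0 i0' p' par hp' m i) (fun F _ _ p' => rl_ind j0 i0' hδ F p')
    ?_
  · rw [Fintype.card_sum, Fintype.card_sum, Fintype.card_fin, Fintype.card_subtype_compl,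
      Fintype.card_fin, Fintype.card_subtype_eq]
    omega
  · rintro (i | l)
    · simp only [rl, Sum.elim_inl, hpt]
      rw [Fintype.sum_sigma, Finset.sum_eq_single i.1]
      · rw [← e1 i.1, eval_pol]
        simp
      · intro i' _ hi'
        refine Finset.sum_eq_zero fun s _ => ?_
        rw [if_neg hi', zero_mul]
      · intro h
        exact absurd (Finset.mem_univ _) h
    · simp only [rl, Sum.elim_inr, hpt, hcf]
      rw [Fintype.sum_sigma]
      have h3 : ∀ i, ∑ s : Ex (Fin (v + 1)) (δ i), c' i / c' i0' *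
          eval P (pderiv l (monomial s.1 1)) * x ⟨i, s⟩ =
          (c' i0')⁻¹ * (c' i * eval P (pderiv l (pol fun α => x ⟨i, α⟩))) := by
        intro i
        rw [eval_pderiv_pol, Finset.mul_sum, Finset.mul_sum]
        refine Finset.sum_congr rfl fun s _ => ?_
        ring
      rw [Finset.sum_congr rfl fun i _ => h3 i, ← Finset.mul_sum, e2, mul_zero]

end Pool.Agent.V8H90.HY
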