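import Pool.Agent.V8H90.HY.Basic

/-!
The ideals of the tangent vectors are stable under shifts and scalings.
-/

set_option autoImplicit false

namespace Pool.Agent.V8H90.HY

open MvPolynomial Pool.Agent.V8H90.JT Pool.Agent.V8H90.AJ

section shift

variable {v : ℕ} {A : Type*} [CommRing A]

/-- the shift as a homomorphism of algebras -/
noncomputable def sgA : MvPolynomial (Fin 2 × Fin (v + 1)) A →ₐ[A]
    Polynomial (MvPolynomial (Fin 2 × Fin (v + 1)) A) :=
  aeval fun x => if x.1 = 0 then Polynomial.C (X x) else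
    Polynomial.C (X x) + Polynomial.X * Polynomial.C (X (0, x.2))

theorem sg_eq (R : MvPolynomial (Fin 2 × Fin (v + 1)) A) : sg (k := 1) 1 R = sgA R := by
  have h : sg (k := 1) (ι := Fin (v + 1)) (A := A) 1 = (sgA (v := v) (A := A)).toRingHom := by
    apply MvPolynomial.ringHom_ext
    · intro r
      simp [sg, sgA]
    · intro x
      obtain ⟨m, j⟩ := x
      fin_cases m
      · simp [sg, sgA]
      · simp [sg, sgA]
  exact RingHom.congr_fun h R

theorem sg_i0 (F : MvPolynomial (Fin (v + 1)) A) :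
    sg (k := 1) 1 (i0 F) = Polynomial.C (i0 F) := by
  rw [sg_eq]
  unfold sgA
  rw [aeval_i0]
  unfold i0
  have h := comp_aeval_apply (f := fun j => (X ((0 : Fin 2), j) :
    MvPolynomial (Fin 2 × Fin (v + 1)) A)) (Polynomial.CAlgHom : MvPolynomial (Fin 2 × Fin (v + 1))
    A →ₐ[A] Polynomial (MvPolynomial (Fin 2 × Fin (v + 1)) A)) F
  simpa using h.symm

theorem sg_i1 {F : MvPolynomial (Fin (v + 1)) A} {δ : ℕ} (hF : F.IsHomogeneous δ) :
    sg (k := 1) 1 (i1 F) = Polynomial.C (i1 F) + Polynomial.X *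
      ((δ : Polynomial (MvPolynomial (Fin 2 × Fin (v + 1)) A)) * Polynomial.C (i0 F)) := by
  rw [sg_eq]
  unfold sgA
  rw [aeval_i1]
  have h1 := dv_map (A := A) (fun j => (X ((0 : Fin 2), j) : MvPolynomial (Fin 2 × Fin (v + 1)) A))
    (fun j => X ((1 : Fin 2), j)) (Polynomial.CAlgHom : MvPolynomial (Fin 2 × Fin (v + 1))
    A →ₐ[A] Polynomial (MvPolynomial (Fin 2 × Fin (v + 1)) A)) F
  have h2 := dv_euler (A := A) (fun j : Fin (v + 1) => (Polynomial.C (X ((0 : Fin 2), j)) :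
    Polynomial (MvPolynomial (Fin 2 × Fin (v + 1)) A))) hF
  have h3 := comp_aeval_apply (f := fun j => (X ((0 : Fin 2), j) :
    MvPolynomial (Fin 2 × Fin (v + 1)) A)) (Polynomial.CAlgHom : MvPolynomial (Fin 2 × Fin (v + 1))
    A →ₐ[A] Polynomial (MvPolynomial (Fin 2 × Fin (v + 1)) A)) F
  simp only [Polynomial.CAlgHom_apply] at h1 h3
  unfold i1 i0
  rw [h1, h3, ← h2, ← dv_smul_right, ← dv_add_right]
  simp

theorem top_II {F : MvPolynomial (Fin (v + 1)) A} {δ e : ℕ} (hF : F.IsHomogeneous δ)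
    {R : MvPolynomial (Fin 2 × Fin (v + 1)) A} (hR : R ∈ II F ^ e) :
    top (k := 1) 1 R ∈ II F ^ e := by
  have h1 : sg (k := 1) 1 R ∈ ((II F).map (Polynomial.C : _ →+* _)) ^ e := by
    refine pow_map (sg (k := 1) 1) (II_hom _ ?_ ?_) e hR
    · rw [sg_i0]
      exact Ideal.mem_map_of_mem _ (i0_mem F)
    · rw [sg_i1 hF]
      refine Ideal.add_mem _ (Ideal.mem_map_of_mem _ (i1_mem F)) (Ideal.mul_mem_left _ _
        (Ideal.mul_mem_left _ _ (Ideal.mem_map_of_mem _ (i0_mem F))))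
  rw [← Ideal.map_pow] at h1
  exact Ideal.mem_map_C_iff.mp h1 _

/-- existence of invariant polynomials -/
theorem exists_inv [IsDomain A] [Infinite A] {ι : Type*} {F : ι → MvPolynomial (Fin (v + 1)) A}
    {δ e : ι → ℕ} (hF : ∀ i, (F i).IsHomogeneous (δ i)) {d : ℕ}
    {R : MvPolynomial (Fin 2 × Fin (v + 1)) A} (hR0 : R ≠ 0) (hR : R.IsHomogeneous d)
    (hm : ∀ i, R ∈ II (F i) ^ e i) :
    ∃ R : MvPolynomial (Fin 2 × Fin (v + 1)) A, R ≠ 0 ∧ R.IsHomogeneous d ∧ Inv (k := 1) 1 R ∧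
      ∀ i, R ∈ II (F i) ^ e i :=
  ⟨top (k := 1) 1 R, top_ne _ hR0, top_hom _ hR, top_inv le_rfl (inv_top R),
    fun i => top_II (hF i) (hm i)⟩

end shift

section scale

variable {v : ℕ}

theorem sc_II (t : ℂ) {F : MvPolynomial (Fin (v + 1)) ℂ} {e : ℕ}
    {R : MvPolynomial (Fin 2 × Fin (v + 1)) ℂ} (hR : R ∈ II F ^ e) :
    bind₁ (sc t) R ∈ II F ^ e := by
  refine pow_map (bind₁ (sc t)).toRingHom (II_hom _ ?_ ?_) e hR
  · change bind₁ (sc t) (i0 F) ∈ _
    have h : bind₁ (sc t) (i0 F) = i0 F := by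
      rw [show bind₁ (sc t) (i0 F) = aeval (sc t) (i0 F) from rfl, aeval_i0]
      unfold i0
      congr 2
      funext j
      simp [sc]
    rw [h]
    exact i0_mem _
  · change bind₁ (sc t) (i1 F) ∈ _
    have h : bind₁ (sc t) (i1 F) = C t * i1 F := by
      rw [show bind₁ (sc t) (i1 F) = aeval (sc t) (i1 F) from rfl, aeval_i1]
      unfold i1
      rw [← dv_smul_right]
      congr 1
      · funext j
        simp [sc]
      · funext j
        simp [sc]
    rw [h]
    exact Ideal.mul_mem_left _ _ (i1_mem _)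

theorem cp_II {F : MvPolynomial (Fin (v + 1)) ℂ} {e d : ℕ}
    {R : MvPolynomial (Fin 2 × Fin (v + 1)) ℂ} (hd : R.IsHomogeneous d) (hR : R ∈ II F ^ e)
    (w : ℕ) : cp w R ∈ II F ^ e := by
  rcases Nat.lt_or_ge d w with hw | hw
  · have h0 : cp w R = 0 := by
      ext s
      rw [coeff_cp, coeff_zero]
      split_ifs with h
      · by_contra h0
        have := wt_le hd h0
        omega
      · rfl
    rw [h0]
    exact Ideal.zero_mem _
  · rw [← Ideal.Quotient.eq_zero_iff_mem]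
    refine vand (M := MvPolynomial (Fin 2 × Fin (v + 1)) ℂ ⧸ (II F ^ e))
      (fun w => Ideal.Quotient.mk (II F ^ e) (cp w R)) (d + 1) (fun t => ?_) w (by omega)
    have h1 := sc_eq_sum t hd
    have h2 := Ideal.Quotient.eq_zero_iff_mem.mpr (sc_II t hR)
    rw [h1, map_sum] at h2
    rw [← h2]
    refine Finset.sum_congr rfl fun w _ => ?_
    rfl

end scale

end Pool.Agent.V8H90.HY
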