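import Pool.Agent.V8H90.HY.Gt
import Pool.Agent.V8H90.HY.Geo
import Pool.Agent.V8H90.LG.Top

/-!
Projective varieties with a morphism to projective space which is ramified over general
hypersurfaces: subvarieties, meromorphic images of affine spaces.
-/

set_option autoImplicit false

namespace Pool.Agent.V8H90.HY

open FF MvPolynomial Filter Metric Set Topology Pool.Agent.W601.SM Pool.Agent.W601.PH
  Pool.Agent.V8H90.JT Pool.Agent.V8H90.AJ Pool.Agent.W602.GT Pool.Agent.V8H90.LG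
open Pool.Agent.Y191 (RF)

variable {N n : ℕ} {K : Type} [Field K] [Algebra ℂ K]

/-- multiplicities of entire curves in `X - Y` -/
theorem curve_multF {X Y : BiSet N n} {m : ℕ} {G : MvPolynomial (Fin (n + 1)) ℂ}
    (hR : RamAtF m G X Y)
    {u : ℂ → Fin (N + 1) → ℂ} {v : ℂ → Fin (n + 1) → ℂ}
    (hu : ∀ j, Differentiable ℂ fun z => u z j) (hv : ∀ j, Differentiable ℂ fun z => v z j)
    (hmem : ∀ z, QMem X Y (u z) (v z)) {z0 : ℂ} {c : ℕ}
    (hc : analyticOrderAt (fun w => eval (v w) G) z0 = c) : c = 0 ∨ m ≤ c := by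
  have hlind : Differentiable ℂ fun w => eval (v w) G := fun w => eval_diff (fun j => hv j w) G
  by_cases h0 : eval (v z0) G = 0
  · right
    obtain ⟨A, B, I, hA, hF, hAF, hI⟩ := hR _ _ (hmem z0)
    have hIJ : I ≤ curIdeal hu hv z0 1 := by
      intro H hH
      rw [mem_curIdeal, Nat.cast_one, Order.one_le_iff_ne_zero,
        ((ev2_diff hu hv H).analyticAt z0).analyticOrderAt_ne_zero]
      exact hI H hH _ _ (hmem z0).1 h0
    have hFm := mem_curIdeal.mp (curIdeal_pow m (Ideal.pow_right_mono hIJ m hF))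
    have e : (fun z => ev2 (u z) (v z) B) = (fun z => ev2 (u z) (v z) A) *
        fun w => eval (v w) G := by
      funext z
      exact (hAF _ _ (hmem z).1).symm
    rw [e, analyticOrderAt_mul ((ev2_diff hu hv A).analyticAt z0) (hlind.analyticAt z0), hc,
      ((ev2_diff hu hv A).analyticAt z0).analyticOrderAt_eq_zero.mpr hA, zero_add] at hFm
    exact_mod_cast hFm
  · left
    have h1 := (hlind.analyticAt z0).analyticOrderAt_eq_zero.mpr h0
    rw [h1] at hc
    exact_mod_cast hc.symm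

/-- **Entire curves are contained in fibres.** -/
theorem curve_constF {q m : ℕ} {F : Fin q → MvPolynomial (Fin (n + 1)) ℂ} (hc : ConstF m F)
    {X Y : BiSet N n} (hR : ∀ i, RamAtF m (F i) X Y)
    {u : ℂ → Fin (N + 1) → ℂ} {v : ℂ → Fin (n + 1) → ℂ}
    (hu : ∀ j, Differentiable ℂ fun z => u z j) (hv : ∀ j, Differentiable ℂ fun z => v z j)
    (hmem : ∀ z, QMem X Y (u z) (v z)) (z z' : ℂ) : ∃ t : ℂ, v z' = t • v z :=
  hc v hv (fun z => (hmem z).1.2.1) (fun i _ _ hz => curve_multF (hR i) hu hv hmem hz) z z'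

/-- Near the points of `X` the form `G` is in the `m`-th power of an ideal of functions which
vanish at its zeros. -/
def RamG (m : ℕ) (G : MvPolynomial (Fin (n + 1)) ℂ) (X : BiSet N n) : Prop :=
  ∀ u v, X.Mem u v → ∃ (A B : BiPoly N n) (I : Ideal (BiPoly N n)), ev2 u v A ≠ 0 ∧
    B ∈ I ^ m ∧ (∀ u' v', X.Mem u' v' → ev2 u' v' A * eval v' G = ev2 u' v' B) ∧
    ∀ H ∈ I, ∀ u' v', X.Mem u' v' → eval v' G = 0 → ev2 u' v' H = 0

theorem RamG.at {m : ℕ} {G : MvPolynomial (Fin (n + 1)) ℂ} {X : BiSet N n} (h : RamG m G X) :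
    RamAtF m G X (noD N n) := fun u v huv => h u v huv.1

/-- all entire curves are contained in fibres -/
def CC (X : BiSet N n) : Prop := ∀ (U : ℂ → Fin (N + 1) → ℂ) (V : ℂ → Fin (n + 1) → ℂ),
  (∀ j, Differentiable ℂ fun z => U z j) → (∀ j, Differentiable ℂ fun z => V z j) →
  (∀ z, QMem X (noD N n) (U z) (V z)) → ∀ z z' : ℂ, ∃ t : ℂ, V z' = t • V z

theorem cc_of {q m : ℕ} {F : Fin q → MvPolynomial (Fin (n + 1)) ℂ} (hc : ConstF m F)
    {X : BiSet N n} (hR : ∀ i, RamG m (F i) X) : CC X :=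
  fun _ _ hU hV hmem => curve_constF hc (fun i => (hR i).at) hU hV hmem

theorem mero_excF {X : BiSet N n} (hcc : CC X) {z : Fin (N + 1) → K} {b : Fin (n + 1) → K}
    (hz0 : z ≠ 0) (hb0 : b ≠ 0) (hX : ∀ P ∈ X.I, evK z b P = 0)
    (halg : Algebra.IsAlgebraic (RF ℂ b) K) :
    ∃ R : BiPoly N n, BiHom R ∧ evK z b R ≠ 0 ∧ ∀ g u v, MeroMap z b g u v →
      ∀ p, ev2 (u p) (v p) R = 0 := by
  classical
  obtain ⟨R, hRh, hRne, hR0, hRc⟩ := exists_exc hz0 hb0 halg
  refine ⟨R, hRh, hRne, fun g u v h p0 => ?_⟩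
  by_contra hcon
  obtain ⟨hu0, hv0⟩ := hR0 _ _ hcon
  have key : ∀ q, (∃ c : ℂ, u q = c • u p0) ∧ ∃ c : ℂ, v q = c • v p0 := by
    intro q
    let L : ℂ → Fin g → ℂ := fun s => p0 + s • (q - p0)
    have hL : Differentiable ℂ L := by
      simp only [L]
      fun_prop
    have hL0 : L 0 = p0 := by simp [L]
    have hL1 : L 1 = q := by simp [L]
    have hud : ∀ j, Differentiable ℂ fun t => u (L t) j := fun j => (h.diffu j).comp hL
    have hvd : ∀ j, Differentiable ℂ fun t => v (L t) j := fun j => (h.diffv j).comp hL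
    obtain ⟨U, hU1, hU2, hU3⟩ := exists_reduced (u := fun t => u (L t)) hud (t0 := 0)
      (by simp only [hL0]; exact hu0)
    obtain ⟨V, hV1, hV2, hV3⟩ := exists_reduced (u := fun t => v (L t)) hvd (t0 := 0)
      (by simp only [hL0]; exact hv0)
    obtain ⟨i1, hi1⟩ : ∃ i, u p0 i ≠ 0 := by
      by_contra hc
      push Not at hc
      exact hu0 (funext hc)
    obtain ⟨j1, hj1⟩ : ∃ j, v p0 j ≠ 0 := by
      by_contra hc
      push Not at hc
      exact hv0 (funext hc)
    have hin : ∀ t, InVar z b (U t) (V t) := by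
      intro t P hP hP0
      refine third_zero (f := fun t => u (L t) i1) (g := fun t => v (L t) j1)
        (h := fun t => ev2 (U t) (V t) P) (hud i1) (hvd j1) (ev2_diff hU1 hV1 P)
        (fun t => ?_) (t1 := 0) (by simp only [hL0]; exact hi1) (by simp only [hL0]; exact hj1) t
      obtain ⟨c, hc, hc0⟩ := hU3 t
      obtain ⟨c', hc', hc0'⟩ := hV3 t
      by_cases h1 : u (L t) i1 = 0
      · rw [h1, zero_mul, zero_mul]
      by_cases h2 : v (L t) j1 = 0
      · rw [h2, mul_zero, zero_mul]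
      have h3 := hc0 (fun h0 => h1 (congrFun h0 i1))
      have h4 := hc0' (fun h0 => h2 (congrFun h0 j1))
      have h5 := h.mem (L t) P hP hP0
      obtain ⟨α, β, hαβ⟩ := hP
      rw [hc, hc', hαβ] at h5
      have h6 : c ^ α * c' ^ β ≠ 0 := mul_ne_zero (pow_ne_zero _ h3) (pow_ne_zero _ h4)
      rw [(mul_eq_zero.mp h5).resolve_left h6, mul_zero]
    have hmem : ∀ t, QMem X (noD N n) (U t) (V t) := fun t =>
      ⟨⟨hU2 t, hV2 t, fun P hP => hin t P (X.hom P hP) (hX P hP)⟩, not_mem_noD _ _⟩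
    have hVc := hcc U V hU1 hV1 hmem
    have hR1 : ev2 (U 0) (V 0) R ≠ 0 := by
      intro h0
      apply hcon
      obtain ⟨c, hc, -⟩ := hU3 0
      obtain ⟨c', hc', -⟩ := hV3 0
      simp only [hL0] at hc hc'
      obtain ⟨α, β, hαβ⟩ := hRh
      rw [hc, hc', hαβ, h0, mul_zero]
    have hUc := hRc U V hU1 hV2 hin hVc 0 hR1
    constructor
    · obtain ⟨c, hc, -⟩ := hU3 1
      obtain ⟨c0, hc0, hc0'⟩ := hU3 0
      obtain ⟨c1, hc1⟩ := hUc 1
      simp only [hL0] at hc0 hc0'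
      simp only [hL1] at hc
      have h7 := hc0' hu0
      refine ⟨c * c1 * c0⁻¹, ?_⟩
      rw [hc, hc1, hc0]
      simp only [smul_smul]
      congr 1
      field_simp
    · obtain ⟨c, hc, -⟩ := hV3 1
      obtain ⟨c0, hc0, hc0'⟩ := hV3 0
      obtain ⟨c1, hc1⟩ := hVc 0 1
      simp only [hL0] at hc0 hc0'
      simp only [hL1] at hc
      have h7 := hc0' hv0
      refine ⟨c * c1 * c0⁻¹, ?_⟩
      rw [hc, hc1, hc0]
      simp only [smul_smul]
      congr 1
      field_simp
  rcases h.nonconst with ⟨p, p', i, j, hne⟩ | ⟨p, p', i, j, hne⟩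
  · apply hne
    obtain ⟨c, hc⟩ := (key p).1
    obtain ⟨c', hc'⟩ := (key p').1
    rw [hc, hc']
    simp only [Pi.smul_apply, smul_eq_mul]
    ring
  · apply hne
    obtain ⟨c, hc⟩ := (key p).2
    obtain ⟨c', hc'⟩ := (key p').2
    rw [hc, hc']
    simp only [Pi.smul_apply, smul_eq_mul]
    ring

/-- There are no nonconstant meromorphic maps if the fibres are finite. -/
theorem no_meroF {X : BiSet N n} (hcc : CC X) (hf : FiniteFibres X) {g : ℕ}
    {u : (Fin g → ℂ) → Fin (N + 1) → ℂ} {v : (Fin g → ℂ) → Fin (n + 1) → ℂ}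
    (h : Mero X.I g u v) : False := by
  classical
  obtain ⟨p0, hu0, hv0⟩ := exists_both h.diffu h.diffv h.neu h.nev
  have key : ∀ q, (∃ c : ℂ, u q = c • u p0) ∧ ∃ c : ℂ, v q = c • v p0 := by
    intro q
    let L : ℂ → Fin g → ℂ := fun s => p0 + s • (q - p0)
    have hL : Differentiable ℂ L := by
      simp only [L]
      fun_prop
    have hL0 : L 0 = p0 := by simp [L]
    have hL1 : L 1 = q := by simp [L]
    have hud : ∀ j, Differentiable ℂ fun t => u (L t) j := fun j => (h.diffu j).comp hL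
    have hvd : ∀ j, Differentiable ℂ fun t => v (L t) j := fun j => (h.diffv j).comp hL
    obtain ⟨U, hU1, hU2, hU3⟩ := exists_reduced (u := fun t => u (L t)) hud (t0 := 0)
      (by simp only [hL0]; exact hu0)
    obtain ⟨V, hV1, hV2, hV3⟩ := exists_reduced (u := fun t => v (L t)) hvd (t0 := 0)
      (by simp only [hL0]; exact hv0)
    obtain ⟨i1, hi1⟩ : ∃ i, u p0 i ≠ 0 := by
      by_contra hc
      push Not at hc
      exact hu0 (funext hc)
    obtain ⟨j1, hj1⟩ : ∃ j, v p0 j ≠ 0 := by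
      by_contra hc
      push Not at hc
      exact hv0 (funext hc)
    have hin : ∀ t, ∀ P ∈ X.I, ev2 (U t) (V t) P = 0 := by
      intro t P hPX
      have hP := X.hom P hPX
      refine third_zero (f := fun t => u (L t) i1) (g := fun t => v (L t) j1)
        (h := fun t => ev2 (U t) (V t) P) (hud i1) (hvd j1) (ev2_diff hU1 hV1 P)
        (fun t => ?_) (t1 := 0) (by simp only [hL0]; exact hi1) (by simp only [hL0]; exact hj1) t
      obtain ⟨c, hc, hc0⟩ := hU3 t
      obtain ⟨c', hc', hc0'⟩ := hV3 t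
      by_cases h1 : u (L t) i1 = 0
      · rw [h1, zero_mul, zero_mul]
      by_cases h2 : v (L t) j1 = 0
      · rw [h2, mul_zero, zero_mul]
      have h3 := hc0 (fun h0 => h1 (congrFun h0 i1))
      have h4 := hc0' (fun h0 => h2 (congrFun h0 j1))
      have h5 := h.mem (L t) P hPX
      obtain ⟨α, β, hαβ⟩ := hP
      rw [hc, hc', hαβ] at h5
      have h6 : c ^ α * c' ^ β ≠ 0 := mul_ne_zero (pow_ne_zero _ h3) (pow_ne_zero _ h4)
      rw [(mul_eq_zero.mp h5).resolve_left h6, mul_zero]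
    have hmem : ∀ t, QMem X (noD N n) (U t) (V t) := fun t =>
      ⟨⟨hU2 t, hV2 t, fun P hP => hin t P hP⟩, not_mem_noD _ _⟩
    have hVc := hcc U V hU1 hV1 hmem
    obtain ⟨T, hT⟩ := hf (V 0)
    have hUm : ∀ w, X.Mem (U w) (V 0) := by
      intro w
      obtain ⟨t, ht⟩ := hVc 0 w
      exact mem_scale (hmem w).1 (hV2 0) ht
    have hUc := Pool.Agent.W602.TL.const_of_finite hU1 hU2 (fun w => hT _ (hUm w))
    constructor
    · obtain ⟨c, hc, -⟩ := hU3 1
      obtain ⟨c0, hc0, hc0'⟩ := hU3 0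
      obtain ⟨c1, hc1⟩ := hUc 0 1
      simp only [hL0] at hc0 hc0'
      simp only [hL1] at hc
      have h7 := hc0' hu0
      refine ⟨c * c1 * c0⁻¹, ?_⟩
      rw [hc, hc1, hc0]
      simp only [smul_smul]
      congr 1
      field_simp
    · obtain ⟨c, hc, -⟩ := hV3 1
      obtain ⟨c0, hc0, hc0'⟩ := hV3 0
      obtain ⟨c1, hc1⟩ := hVc 0 1
      simp only [hL0] at hc0 hc0'
      simp only [hL1] at hc
      have h7 := hc0' hv0
      refine ⟨c * c1 * c0⁻¹, ?_⟩
      rw [hc, hc1, hc0]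
      simp only [smul_smul]
      congr 1
      field_simp
  rcases h.nonconst with ⟨p, p', i, j, hne⟩ | ⟨p, p', i, j, hne⟩
  · apply hne
    obtain ⟨c, hc⟩ := (key p).1
    obtain ⟨c', hc'⟩ := (key p').1
    rw [hc, hc']
    simp only [Pi.smul_apply, smul_eq_mul]
    ring
  · apply hne
    obtain ⟨c, hc⟩ := (key p).2
    obtain ⟨c', hc'⟩ := (key p').2
    rw [hc, hc']
    simp only [Pi.smul_apply, smul_eq_mul]
    ring

/-- **General type.** -/
theorem gt_subF {q q0 L D M b0 w : ℕ} {δ e : Fin q → ℕ} {F : Fin q → MvPolynomial (Fin (n + 1)) ℂ}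
    (hG : GoodF F δ e L D q0) (hn : 1 ≤ n) (hL : 1 ≤ L) (hDL : D < L * q0) (hb1 : 1 ≤ b0)
    (hb0 : b0 + D * (M + 1) = M * (L * q0)) {X : BiSet N n} (hR : ∀ i, RamG (M + 1) (F i) X)
    {z : Fin (N + 1) → K} {b : Fin (n + 1) → K} (hw : 1 ≤ w) (h : SubVariety X K w z b)
    (halg : Algebra.IsAlgebraic (RF ℂ b) K) : GeneralType ℂ K w := by
  obtain ⟨h1, T, hT, ω, h2, -, h3, h4⟩ := log_gtF hG hn hL hDL hb1 hb0
    (fun i => (hR i).at) h.mem h.b0 hw h.dim halg
  refine ⟨h1, T, hT, ω, h2, fun P hP j => h3 P hP ?_ j, h4⟩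
  rw [not_not]
  classical
  obtain ⟨i1, hi1⟩ : ∃ i, z i ≠ 0 := by
    by_contra hc
    push Not at hc
    exact h.z0 (funext hc)
  obtain ⟨j1, hj1⟩ : ∃ j, b j ≠ 0 := by
    by_contra hc
    push Not at hc
    exact h.b0 (funext hc)
  obtain ⟨i0, hi0, hmini⟩ := Finset.exists_min_image (Finset.univ.filter fun i => z i ≠ 0)
    (fun i => P.ord (z i)) ⟨i1, by simpa using hi1⟩
  obtain ⟨j0, hj0, hminj⟩ := Finset.exists_min_image (Finset.univ.filter fun j => b j ≠ 0)
    (fun j => P.ord (b j)) ⟨j1, by simpa using hj1⟩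
  have hi0' : z i0 ≠ 0 := by simpa using hi0
  have hj0' : b j0 ≠ 0 := by simpa using hj0
  refine ⟨i0, j0, hi0', hj0', fun i => ?_, fun j => ?_, 1, Set.mem_singleton _, ?_, ?_⟩
  · by_cases hi : z i = 0
    · left
      rw [hi, zero_div]
    · right
      rw [P.ord_div hi hi0']
      have := hmini i (by simpa using hi)
      omega
  · by_cases hj : b j = 0
    · left
      rw [hj, zero_div]
    · right
      rw [P.ord_div hj hj0']
      have := hminj j (by simpa using hj)
      omega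
  · have : evK (fun i => z i / z i0) (fun j => b j / b j0) (1 : BiPoly N n) = 1 := map_one _
    rw [this]
    exact one_ne_zero
  · have : evK (fun i => z i / z i0) (fun j => b j / b j0) (1 : BiPoly N n) = 1 := map_one _
    rw [this]
    exact P.ord_one

end Pool.Agent.V8H90.HY
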