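import Pool.Agent.V8H90.HY.Cop
import Pool.Agent.V8H90.AJ.Good

/-!
The polynomials for forms which are generic over the field of definition of a jet.
-/

set_option autoImplicit false

namespace Pool.Agent.V8H90.HY

open MvPolynomial Pool.Agent.V8H90.JT Pool.Agent.V8H90.AJ

variable {v q : ℕ} {δ : Fin q → ℕ}

/-- the indices of the coefficients of the forms -/
abbrev Ix (v : ℕ) {q : ℕ} (δ : Fin q → ℕ) : Type := Σ i, Ex (Fin (v + 1)) (δ i)

/-- the forms with given coefficients -/
noncomputable def fm {A : Type*} [CommRing A] (x : Ix v δ → A) (i : Fin q) :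
    MvPolynomial (Fin (v + 1)) A := pol fun α => x ⟨i, α⟩

theorem fm_hom {A : Type*} [CommRing A] (x : Ix v δ → A) (i : Fin q) :
    (fm x i).IsHomogeneous (δ i) := pol_hom _

theorem map_fm {A B : Type*} [CommRing A] [CommRing B] (φ : A →+* B) (x : Ix v δ → A) (i : Fin q) :
    map φ (fm x i) = fm (fun y => φ (x y)) i := by
  unfold fm pol
  rw [map_sum]
  exact Finset.sum_congr rfl fun s _ => map_monomial _ _ _

section tr

variable {A B : Type*} [CommRing A] [CommRing B]

/-- the linear substitution -/
noncomputable def ls (H : Fin (v + 1) → Fin (v + 1) → A) (P : MvPolynomial (Fin (v + 1)) A) :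
    MvPolynomial (Fin (v + 1)) A := bind₁ (fun j => ∑ l, C (H j l) * X l) P

theorem ls_hom (H : Fin (v + 1) → Fin (v + 1) → A) {P : MvPolynomial (Fin (v + 1)) A} {d : ℕ}
    (hP : P.IsHomogeneous d) : (ls H P).IsHomogeneous d := by
  have := hP.aeval (fun j => (∑ l, C (H j l) * X l : MvPolynomial (Fin (v + 1)) A)) (n := 1)
    fun j => IsHomogeneous.sum _ _ _ fun l _ => by
      simpa using (isHomogeneous_C (Fin (v + 1)) (H j l)).mul (isHomogeneous_X A l)
  rwa [one_mul] at this

theorem map_ls (φ : A →+* B) (H : Fin (v + 1) → Fin (v + 1) → A)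
    (P : MvPolynomial (Fin (v + 1)) A) :
    map φ (ls H P) = ls (fun j l => φ (H j l)) (map φ P) := by
  unfold ls
  rw [map_bind₁]
  congr 2
  funext j
  simp

theorem ls_ls {G H : Fin (v + 1) → Fin (v + 1) → A}
    (h : ∀ j m, ∑ l, H j l * G l m = if j = m then 1 else 0) (P : MvPolynomial (Fin (v + 1)) A) :
    ls G (ls H P) = P := by
  unfold ls
  rw [bind₁_bind₁]
  have e : (fun j => bind₁ (fun j => (∑ l, C (G j l) * X l : MvPolynomial (Fin (v + 1)) A))
      (∑ l, C (H j l) * X l)) = X := by
    funext j
    simp only [map_sum, map_mul, bind₁_C_right, bind₁_X_right, Finset.mul_sum]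
    rw [Finset.sum_comm]
    have e2 : ∀ m, ∑ l, C (H j l) * (C (G l m) * X m) =
        C (∑ l, H j l * G l m) * (X m : MvPolynomial (Fin (v + 1)) A) := by
      intro m
      rw [map_sum, Finset.sum_mul]
      exact Finset.sum_congr rfl fun l _ => by rw [C_mul]; ring
    rw [Finset.sum_congr rfl fun m _ => e2 m]
    simp [h]
  rw [e]
  exact aeval_X_left_apply P

/-- the coefficients of the transformed forms -/
noncomputable def tr (H : Fin (v + 1) → Fin (v + 1) → A) (x : Ix v δ → A) (y : Ix v δ) : A :=
  coeff y.2.1 (ls H (fm x y.1))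

theorem fm_tr (H : Fin (v + 1) → Fin (v + 1) → A) (x : Ix v δ → A) (i : Fin q) :
    fm (tr H x) i = ls H (fm x i) := by
  change pol (fun α : Ex (Fin (v + 1)) (δ i) => coeff α.1 (ls H (fm x i))) = _
  exact pol_coeff (ls_hom H (fm_hom x i))

theorem map_tr (φ : A →+* B) (H : Fin (v + 1) → Fin (v + 1) → A) (x : Ix v δ → A) (y : Ix v δ) :
    φ (tr H x y) = tr (fun j l => φ (H j l)) (fun y => φ (x y)) y := by
  unfold tr
  rw [← coeff_map, map_ls, map_fm]

theorem tr_tr {G H : Fin (v + 1) → Fin (v + 1) → A}
    (h : ∀ j m, ∑ l, H j l * G l m = if j = m then 1 else 0) (x : Ix v δ → A) :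
    tr G (tr H x) = x := by
  funext y
  change coeff y.2.1 (ls G (fm (tr H x) y.1)) = _
  rw [fm_tr, ls_ls h]
  exact coeff_pol (fun α => x ⟨y.1, α⟩) y.2

end tr

/-- transformations preserve the independence of the coefficients -/
theorem tr_ai {F L : Type} [Field F] [Field L] [Algebra F L]
    {G H : Fin (v + 1) → Fin (v + 1) → F}
    (_hHG : ∀ j m, ∑ l, H j l * G l m = if j = m then 1 else 0)
    (hGH : ∀ j m, ∑ l, G j l * H l m = if j = m then 1 else 0)
    {x : Ix v δ → L} (hx : AlgebraicIndependent F x) :
    AlgebraicIndependent F (tr (fun j l => algebraMap F L (H j l)) x) := by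
  have hf : AlgebraicIndependent F fun z : Ix v δ =>
      (tr (fun j l => C (H j l)) X z : MvPolynomial (Ix v δ) F) := by
    rw [AlgebraicIndependent]
    have hleft : ∀ P : MvPolynomial (Ix v δ) F,
        aeval (fun z : Ix v δ => (tr (fun j l => C (G j l)) X z : MvPolynomial (Ix v δ) F))
        (aeval (fun z : Ix v δ => (tr (fun j l => C (H j l)) X z : MvPolynomial (Ix v δ) F)) P) =
        P := by
      intro P
      rw [← AlgHom.comp_apply, comp_aeval]
      have e : (fun z : Ix v δ => aeval (fun z : Ix v δ =>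
          (tr (fun j l => C (G j l)) X z : MvPolynomial (Ix v δ) F))
          (tr (fun j l => C (H j l)) X z : MvPolynomial (Ix v δ) F)) = X := by
        funext z
        have h1 := map_tr (aeval (fun z : Ix v δ =>
          (tr (fun j l => C (G j l)) X z : MvPolynomial (Ix v δ) F))).toRingHom
          (fun j l => (C (H j l) : MvPolynomial (Ix v δ) F)) X z
        refine Eq.trans h1 ?_
        have h2 : (fun j l => (aeval (fun z : Ix v δ =>
            (tr (fun j l => C (G j l)) X z : MvPolynomial (Ix v δ) F))).toRingHom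
            (C (H j l) : MvPolynomial (Ix v δ) F)) =
            fun j l => (C (H j l) : MvPolynomial (Ix v δ) F) := by
          funext j l
          exact aeval_C _ _
        have h3 : (fun y : Ix v δ => (aeval (fun z : Ix v δ =>
            (tr (fun j l => C (G j l)) X z : MvPolynomial (Ix v δ) F))).toRingHom
            (X y : MvPolynomial (Ix v δ) F)) =
            (tr (fun j l => C (G j l)) X : Ix v δ → MvPolynomial (Ix v δ) F) := by
          funext y
          exact aeval_X _ _
        rw [h2, h3]
        refine congrFun (tr_tr (A := MvPolynomial (Ix v δ) F) (fun j m => ?_) X) z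
        have h4 := congrArg (C : F → MvPolynomial (Ix v δ) F) (hGH j m)
        rw [map_sum, apply_ite C, C_1, C_0] at h4
        simpa only [C_mul] using h4
      rw [e]
      simp
    exact Function.LeftInverse.injective hleft
  have h6 := hx.aeval_of_algebraicIndependent hf
  convert h6 using 1
  funext z
  have h1 := map_tr (aeval x : MvPolynomial (Ix v δ) F →ₐ[F] L).toRingHom
    (fun j l => (C (H j l) : MvPolynomial (Ix v δ) F)) X z
  refine Eq.trans ?_ h1.symm
  congr 1
  · funext j l
    exact (aeval_C _ _).symm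
  · funext y
    exact (aeval_X _ _).symm

end Pool.Agent.V8H90.HY
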